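import Pool.Agent.W_MP_868bb7_ag.PermTail

set_option autoImplicit false

/-!
# PowAct: the symmetric group acts on tensor powers

Main statement: `act_mul`.

Plan.  Let `adj X n i : pow X n ⟶ pow X n` exchange the factors `i` and `i + 1` (recursively:
`sw` for `i = 0`, `X ◁ adj X n i` for `i + 1`).  Relations (for `i + 1 < n` etc.):
`adj i ≫ adj i = 𝟙` (`sw_sw`), `adj i`, `adj j` commute for `|i - j| ≥ 2` (naturality, interchange), and
`adj i ≫ adj (i+1) ≫ adj i = adj (i+1) ≫ adj i ≫ adj (i+1)` (Yang-Baxter, `yang_baxter`).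
By induction on `p` (`mv X n p` moves position `0` to `p`):
* `mv p ≫ adj p = mv (p + 1)`, `mv (p + 1) ≫ adj p = mv p`,
* `mv p ≫ adj i = adj i ≫ mv p` for `p < i`, `mv p ≫ adj i = adj (i + 1) ≫ mv p` for `i + 1 < p`.
Let `s i = swap i (i+1)`.  For a permutation `σ` with `p = σ 0`, `e = tail σ`:
* `i > p`: `(s i * σ) 0 = p`, `tail (s i * σ) = s (i - 1) * e`;
* `i = p`: `(s i * σ) 0 = p + 1`, `tail (s i * σ) = e`;  `i + 1 = p`: `(s i * σ) 0 = p - 1`, same tail;
* `i + 1 < p`: `(s i * σ) 0 = p`, `tail (s i * σ) = s i * e`.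
Hence `act X n (s i * σ) = act X n σ ≫ adj X n i` by induction on `n`; as the adjacent
transpositions generate the symmetric group (`Equiv.Perm.mclosure_swap_castSucc_succ`), `act_mul`
follows by induction on the first factor.
-/

namespace Pool.Agent.W_MP_868bb7_ag

open CategoryTheory MonoidalCategory

universe v u

variable {C : Type u} [Category.{v} C] [MonoidalCategory C] [SymmetricCategory C]

theorem sw_sw (X Z : C) : sw X Z ≫ sw X Z = 𝟙 _ := by
  simp only [sw, Category.assoc, Iso.hom_inv_id_assoc]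
  rw [← comp_whiskerRight_assoc, SymmetricCategory.symmetry]
  simp

theorem sw_nat (X : C) {Z Z' : C} (h : Z ⟶ Z') :
    sw X Z ≫ X ◁ (X ◁ h) = X ◁ (X ◁ h) ≫ sw X Z' := by
  simp only [sw, Category.assoc]
  rw [← associator_naturality_right, ← whisker_exchange_assoc,
    ← associator_inv_naturality_right_assoc]

theorem sw_yb (X Z : C) :
    sw X (X ⊗ Z) ≫ X ◁ sw X Z ≫ sw X (X ⊗ Z) = X ◁ sw X Z ≫ sw X (X ⊗ Z) ≫ X ◁ sw X Z := by
  have h1 : sw X (X ⊗ Z) ≫ X ◁ sw X Z ≫ sw X (X ⊗ Z) =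
      𝟙 (X ⊗ X ⊗ X ⊗ Z) ⊗≫
        ((β_ X X).hom ▷ X ⊗≫ X ◁ (β_ X X).hom ⊗≫ (β_ X X).hom ▷ X) ▷ Z ⊗≫
        𝟙 (X ⊗ X ⊗ X ⊗ Z) := by
    simp only [sw]
    monoidal
  have h2 : X ◁ sw X Z ≫ sw X (X ⊗ Z) ≫ X ◁ sw X Z =
      𝟙 (X ⊗ X ⊗ X ⊗ Z) ⊗≫
        (𝟙 ((X ⊗ X) ⊗ X) ⊗≫ (X ◁ (β_ X X).hom ⊗≫ (β_ X X).hom ▷ X ⊗≫ X ◁ (β_ X X).hom) ⊗≫
          𝟙 ((X ⊗ X) ⊗ X)) ▷ Z ⊗≫ 𝟙 (X ⊗ X ⊗ X ⊗ Z) := by
    simp only [sw]
    monoidal
  rw [h1, h2, BraidedCategory.yang_baxter']

/-- exchange of the factors `i` and `i + 1` -/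
def pa_adj (X : C) : (n : ℕ) → ℕ → (pow X n ⟶ pow X n)
  | 0, _ => 𝟙 _
  | 1, _ => 𝟙 _
  | n + 2, 0 => sw X (pow X n)
  | n + 2, i + 1 => X ◁ pa_adj X (n + 1) i

theorem pa_adj_succ (X : C) (n i : ℕ) : pa_adj X (n + 1) (i + 1) = X ◁ pa_adj X n i := by
  cases n with
  | zero => simp only [pa_adj, whiskerLeft_id]; rfl
  | succ n => rfl

omit [SymmetricCategory C] in
theorem pa_wh {X P : C} {a : P ⟶ P} (h : a ≫ a = 𝟙 _) : X ◁ a ≫ X ◁ a = 𝟙 (X ⊗ P) := by
  rw [← MonoidalCategory.whiskerLeft_comp, h, whiskerLeft_id]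

theorem pa_adj_adj (X : C) (n i : ℕ) : pa_adj X n i ≫ pa_adj X n i = 𝟙 _ := by
  induction n generalizing i with
  | zero => simp [pa_adj]
  | succ n ih =>
    cases i with
    | zero =>
      cases n with
      | zero => simp [pa_adj]
      | succ n => exact sw_sw _ _
    | succ i =>
      rw [pa_adj_succ]
      exact pa_wh (ih i)

theorem pa_mv_zero (X : C) (n : ℕ) : mv X n 0 = 𝟙 _ := by
  cases n <;> rfl

theorem pa_st1 {X P : C} {m a m' : X ⊗ P ⟶ X ⊗ P} (h : m ≫ a = m') :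
    (sw X P ≫ X ◁ m) ≫ X ◁ a = sw X P ≫ X ◁ m' := by
  rw [Category.assoc, ← MonoidalCategory.whiskerLeft_comp, h]

theorem pa_st0 {X P : C} {m m' : X ⊗ P ⟶ X ⊗ P} (h : m = 𝟙 _) (h' : m' = 𝟙 _) :
    (sw X P ≫ X ◁ m) = sw X P ≫ X ◁ m' := by
  rw [h, h']

/-- M1 -/
theorem pa_mv_adj (X : C) (n p : ℕ) (h : p < n) :
    mv X n p ≫ pa_adj X (n + 1) p = mv X n (p + 1) := by
  induction p generalizing n with
  | zero =>
    obtain ⟨n, rfl⟩ : ∃ m, n = m + 1 := ⟨n - 1, by omega⟩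
    have h1 : mv X (n + 1) 1 = sw X (pow X n) ≫ X ◁ 𝟙 (X ⊗ pow X n) := by
      change sw X (pow X n) ≫ X ◁ mv X n 0 = _
      rw [pa_mv_zero]
      rfl
    rw [h1, pa_mv_zero, Category.id_comp, whiskerLeft_id, Category.comp_id]
    rfl
  | succ p ih =>
    obtain ⟨n, rfl⟩ : ∃ m, n = m + 1 := ⟨n - 1, by omega⟩
    exact pa_st1 (ih n (by omega))

/-- M2 -/
theorem pa_mv_adj' (X : C) (n p : ℕ) (h : p < n) :
    mv X n (p + 1) ≫ pa_adj X (n + 1) p = mv X n p := by
  rw [← pa_mv_adj X n p h, Category.assoc, pa_adj_adj, Category.comp_id]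

theorem pa_st3 {X P : C} {m : X ⊗ P ⟶ X ⊗ P} {a : P ⟶ P} (h : m ≫ X ◁ a = X ◁ a ≫ m) :
    (sw X P ≫ X ◁ m) ≫ X ◁ (X ◁ a) = X ◁ (X ◁ a) ≫ (sw X P ≫ X ◁ m) := by
  rw [Category.assoc, ← MonoidalCategory.whiskerLeft_comp, h,
    MonoidalCategory.whiskerLeft_comp, ← Category.assoc, sw_nat, Category.assoc]

/-- M3 -/
theorem pa_mv_lt (X : C) (n p i : ℕ) (h : p < i) :
    mv X n p ≫ pa_adj X (n + 1) i = pa_adj X (n + 1) i ≫ mv X n p := by
  induction p generalizing n i with
  | zero => rw [pa_mv_zero, Category.id_comp, Category.comp_id]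
  | succ p ih =>
    cases n with
    | zero => simp [pa_adj, mv]
    | succ n =>
      obtain ⟨i, rfl⟩ : ∃ m, i = m + 2 := ⟨i - 2, by omega⟩
      have h1 := ih n (i + 1) (by omega)
      rw [pa_adj_succ] at h1
      rw [pa_adj_succ, pa_adj_succ]
      exact pa_st3 h1

theorem pa_st4 {X P : C} {m : X ⊗ P ⟶ X ⊗ P} {a : X ⊗ P ⟶ X ⊗ P} {b : P ⟶ P}
    (h : m ≫ a = X ◁ b ≫ m) :
    (sw X P ≫ X ◁ m) ≫ X ◁ a = X ◁ (X ◁ b) ≫ (sw X P ≫ X ◁ m) := by
  rw [Category.assoc, ← MonoidalCategory.whiskerLeft_comp, h,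
    MonoidalCategory.whiskerLeft_comp, ← Category.assoc, sw_nat, Category.assoc]

theorem pa_st5 {X P : C} {m : X ⊗ P ⟶ X ⊗ P} :
    (sw X (X ⊗ P) ≫ X ◁ (sw X P ≫ X ◁ m)) ≫ sw X (X ⊗ P) =
      X ◁ sw X P ≫ (sw X (X ⊗ P) ≫ X ◁ (sw X P ≫ X ◁ m)) := by
  have h1 := sw_yb X P
  simp only [MonoidalCategory.whiskerLeft_comp, Category.assoc]
  rw [← sw_nat]
  rw [← reassoc_of% h1]

/-- M4 -/
theorem pa_mv_gt (X : C) (n p i : ℕ) (h : i + 1 < p) (hp : p ≤ n) :
    mv X n p ≫ pa_adj X (n + 1) i = pa_adj X (n + 1) (i + 1) ≫ mv X n p := by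
  induction i generalizing n p with
  | zero =>
    obtain ⟨p, rfl⟩ : ∃ m, p = m + 2 := ⟨p - 2, by omega⟩
    obtain ⟨n, rfl⟩ : ∃ m, n = m + 2 := ⟨n - 2, by omega⟩
    exact pa_st5
  | succ i ih =>
    obtain ⟨p, rfl⟩ : ∃ m, p = m + 1 := ⟨p - 1, by omega⟩
    obtain ⟨n, rfl⟩ : ∃ m, n = m + 1 := ⟨n - 1, by omega⟩
    have h1 := ih n p (by omega) (by omega)
    rw [pa_adj_succ] at h1
    rw [pa_adj_succ X (n + 1) i, pa_adj_succ X (n + 1) (i + 1)]
    have h2 : (X ◁ pa_adj X (n + 1) (i + 1) : pow X (n + 2) ⟶ pow X (n + 2)) =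
        X ◁ (X ◁ pa_adj X n i) := by rw [pa_adj_succ]; rfl
    refine Eq.trans (pa_st4 h1) ?_
    exact (congrArg (fun t => t ≫ mv X (n + 1) (p + 1)) h2).symm


/-- the adjacent transposition of `i` and `i + 1` -/
def pa_s (n i : ℕ) : Equiv.Perm (Fin n) :=
  if h : i + 1 < n then Equiv.swap ⟨i, by omega⟩ ⟨i + 1, h⟩ else 1

theorem pa_s_val {n i : ℕ} (h : i + 1 < n) (x : Fin n) :
    (pa_s n i x).val = if x.val = i then i + 1 else if x.val = i + 1 then i else x.val := by
  unfold pa_s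
  rw [dif_pos h, Equiv.swap_apply_def]
  simp only [Fin.ext_iff]
  split_ifs <;> simp_all

theorem pa_succAbove_val {n : ℕ} (p : Fin (n + 1)) (x : Fin n) :
    (p.succAbove x).val = if x.val < p.val then x.val else x.val + 1 := by
  unfold Fin.succAbove
  simp only [Fin.lt_def, Fin.val_castSucc]
  split_ifs <;> simp

theorem pa_tail_eq {n : ℕ} (σ : Equiv.Perm (Fin (n + 1))) (e : Equiv.Perm (Fin n))
    (h : ∀ i : Fin n, σ i.succ = (σ 0).succAbove (e i)) : tail σ = e := by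
  ext i : 1
  have h1 := tail_spec σ i
  rw [h i] at h1
  exact (Fin.succAbove_right_injective h1).symm

theorem pa_act_succ (X : C) (n : ℕ) (σ : Equiv.Perm (Fin (n + 1))) :
    act X (n + 1) σ = X ◁ act X n (tail σ) ≫ mv X n (σ 0 : Fin (n + 1)) := rfl

omit [SymmetricCategory C] in
theorem pa_c1 {X P : C} {a b : P ⟶ P} {m c : X ⊗ P ⟶ X ⊗ P} (h : m ≫ c = X ◁ b ≫ m) :
    X ◁ (a ≫ b) ≫ m = (X ◁ a ≫ m) ≫ c := by
  rw [MonoidalCategory.whiskerLeft_comp, Category.assoc, Category.assoc, h]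

omit [SymmetricCategory C] in
theorem pa_c2 {X P : C} {a : P ⟶ P} {m m' c : X ⊗ P ⟶ X ⊗ P} (h : m ≫ c = m') :
    X ◁ a ≫ m' = (X ◁ a ≫ m) ≫ c := by
  rw [Category.assoc, h]

theorem act_s (X : C) (n i : ℕ) (h : i + 1 < n) (σ : Equiv.Perm (Fin n)) :
    act X n (pa_s n i * σ) = act X n σ ≫ pa_adj X n i := by
  induction n generalizing i with
  | zero => omega
  | succ n ih =>
    have h0 : ((pa_s (n + 1) i * σ) 0).val = if (σ 0).val = i then i + 1 else
        if (σ 0).val = i + 1 then i else (σ 0).val := by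
      rw [Equiv.Perm.mul_apply, pa_s_val h]
    have hs : ∀ j : Fin n, ((pa_s (n + 1) i * σ) j.succ).val =
        if ((σ 0).succAbove (tail σ j)).val = i then i + 1 else
        if ((σ 0).succAbove (tail σ j)).val = i + 1 then i else
          ((σ 0).succAbove (tail σ j)).val := by
      intro j
      rw [Equiv.Perm.mul_apply, pa_s_val h, tail_spec σ j]
    have hp := (σ 0).isLt
    rcases lt_trichotomy (σ 0).val i with h1 | h1 | h1
    · obtain ⟨i, rfl⟩ : ∃ m, i = m + 1 := ⟨i - 1, by omega⟩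
      have e0 : (pa_s (n + 1) (i + 1) * σ) 0 = σ 0 := by
        apply Fin.ext
        rw [h0]
        split_ifs <;> omega
      have e1 : tail (pa_s (n + 1) (i + 1) * σ) = pa_s n i * tail σ := by
        apply pa_tail_eq
        intro j
        apply Fin.ext
        rw [hs, e0, pa_succAbove_val, pa_succAbove_val, Equiv.Perm.mul_apply,
          pa_s_val (by omega)]
        split_ifs <;> omega
      have h2 := pa_mv_lt X n (σ 0).val (i + 1) h1
      rw [pa_act_succ, pa_act_succ, e0, e1, ih i (by omega)]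
      rw [pa_adj_succ] at h2 ⊢
      exact pa_c1 h2
    · have e0 : ((pa_s (n + 1) i * σ) 0).val = (σ 0).val + 1 := by
        rw [h0]
        split_ifs
        omega
      have e1 : tail (pa_s (n + 1) i * σ) = tail σ := by
        apply pa_tail_eq
        intro j
        apply Fin.ext
        rw [hs, pa_succAbove_val, pa_succAbove_val, e0]
        split_ifs <;> omega
      have h2 := pa_mv_adj X n i (by omega)
      rw [pa_act_succ, pa_act_succ, e0, e1, h1]
      exact pa_c2 h2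
    · by_cases h3 : (σ 0).val = i + 1
      · have e0 : ((pa_s (n + 1) i * σ) 0).val = i := by
          rw [h0]
          split_ifs <;> omega
        have e1 : tail (pa_s (n + 1) i * σ) = tail σ := by
          apply pa_tail_eq
          intro j
          apply Fin.ext
          rw [hs, pa_succAbove_val, pa_succAbove_val, e0]
          split_ifs <;> omega
        have h2 := pa_mv_adj' X n i (by omega)
        rw [pa_act_succ, pa_act_succ, e0, e1, h3]
        exact pa_c2 h2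
      · have e0 : (pa_s (n + 1) i * σ) 0 = σ 0 := by
          apply Fin.ext
          rw [h0]
          split_ifs <;> omega
        have e1 : tail (pa_s (n + 1) i * σ) = pa_s n i * tail σ := by
          apply pa_tail_eq
          intro j
          apply Fin.ext
          rw [hs, e0, pa_succAbove_val, pa_succAbove_val, Equiv.Perm.mul_apply,
            pa_s_val (by omega)]
          split_ifs <;> omega
        have h2 := pa_mv_gt X n (σ 0).val i (by omega) (by omega)
        rw [pa_act_succ, pa_act_succ, e0, e1, ih i (by omega)]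
        rw [pa_adj_succ] at h2
        exact pa_c1 h2

theorem pa_tail_one (n : ℕ) : tail (1 : Equiv.Perm (Fin (n + 1))) = 1 := by
  apply pa_tail_eq
  intro i
  simp

theorem act_one (X : C) (n : ℕ) : act X n 1 = 𝟙 _ := by
  induction n with
  | zero => rfl
  | succ n ih =>
    rw [pa_act_succ, pa_tail_one, ih]
    have h1 : ((1 : Equiv.Perm (Fin (n + 1))) 0).val = 0 := rfl
    rw [h1, pa_mv_zero, whiskerLeft_id]
    exact Category.comp_id _

theorem act_mul (X : C) (n : ℕ) (σ τ : Equiv.Perm (Fin n)) :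
    act X n (σ * τ) = act X n τ ≫ act X n σ := by
  cases n with
  | zero => exact (Category.comp_id _).symm
  | succ n =>
    have hσ : σ ∈ Submonoid.closure
        (Set.range fun i : Fin n => Equiv.swap i.castSucc i.succ) := by
      rw [Equiv.Perm.mclosure_swap_castSucc_succ]
      trivial
    induction hσ using Submonoid.closure_induction_left with
    | one => rw [one_mul, act_one, Category.comp_id]
    | mul_left x hx y _ ih =>
      obtain ⟨i, rfl⟩ := hx
      have e : Equiv.swap i.castSucc i.succ = pa_s (n + 1) i.val := by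
        unfold pa_s
        rw [dif_pos (by have := i.isLt; omega)]
        rfl
      simp only [e]
      rw [mul_assoc, act_s X (n + 1) i.val (by have := i.isLt; omega),
        act_s X (n + 1) i.val (by have := i.isLt; omega), ih, Category.assoc]

theorem act_shift (X : C) (n : ℕ) (e : Equiv.Perm (Fin n)) :
    act X (n + 1) (shift e) = X ◁ act X n e := by
  have h1 : tail (shift e) = e := by
    apply pa_tail_eq
    intro i
    rw [shift_succ, shift_zero, Fin.succAbove_zero]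
  rw [pa_act_succ, h1, shift_zero]
  change X ◁ act X n e ≫ mv X n 0 = _
  rw [pa_mv_zero]
  exact Category.comp_id _

theorem pa_shift_one (n : ℕ) : shift (1 : Equiv.Perm (Fin n)) = 1 := by
  apply perm_ext
  · rw [shift_zero]; rfl
  · rw [pa_tail_one]
    apply pa_tail_eq
    intro i
    rw [shift_succ, shift_zero, Fin.succAbove_zero]

theorem mv_eq (X : C) (n : ℕ) (p : Fin (n + 1)) :
    mv X n p = act X (n + 1) (p.cycleRange⁻¹) := by
  obtain ⟨h1, h2⟩ := tail_cycleRange_shift p (1 : Equiv.Perm (Fin n))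
  rw [pa_shift_one, mul_one] at h1 h2
  rw [pa_act_succ, h1, h2, act_one, whiskerLeft_id]
  exact (Category.id_comp _).symm

theorem act_swap (X : C) (n : ℕ) :
    act X (n + 2) (Equiv.swap 0 1) = sw X (pow X n) := by
  have h1 := act_s X (n + 2) 0 (by omega) 1
  have e : pa_s (n + 2) 0 = Equiv.swap 0 1 := by
    unfold pa_s
    rw [dif_pos (by omega)]
    rfl
  rw [mul_one, e, act_one] at h1
  rw [h1]
  exact Category.id_comp _

end Pool.Agent.W_MP_868bb7_ag
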