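import Pool.Agent.W_MP_868bb7_ag.TraceB

set_option autoImplicit false

/-!
# TraceK: the trace with values in `K`

* `sc_spec`, `sc_unique`: definition of `sc` and injectivity of `a ↦ a • 𝟙`.
* `ptr_add`, `ptr_smul`: `ptr` is linear.
* `ptr_whiskerLeft`: `ptr X (A ◁ u) = (ρ_ A).inv ≫ A ◁ (trU u) ≫ (ρ_ A).hom` (coherence) and
  `trU u = tr K u • 𝟙`.
* `tr_ptr`: `trU (ptr X F)` is the trace over `A` of the trace over `X`; write
  `tr K f • 𝟙 (𝟙_ C) = ptr X (𝟙_ C ◁ f)` (`ptr_whiskerLeft` with `A = 𝟙_ C`) and use `ptr_tensor`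
  with `A := 𝟙_ C` and `ptr_whisker`.
* `tr_comp_comm`: `ptr_slide` with `A = B = 𝟙_ C`.
* `ptr_tensorHom`: `a ⊗ₘ u = a ▷ X ≫ B ◁ u`, `ptr_nat_left`, `ptr_whiskerLeft`.
* `tr_tensor`: `tr_ptr` and `ptr_tensorHom`.
-/

namespace Pool.Agent.W_MP_868bb7_ag

open CategoryTheory MonoidalCategory

universe v u w

variable (K : Type w) [Field K] {C : Type u} [Category.{v} C] [MonoidalCategory C]
  [Preadditive C] [Linear K C] [MonoidalPreadditive C] [MonoidalLinear K C]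
  [SymmetricCategory C] [RightRigidCategory C]

section NoUnit

variable {K}

theorem ptr_add {X A B : C} (F G : A ⊗ X ⟶ B ⊗ X) : ptr X (F + G) = ptr X F + ptr X G := by
  simp only [ptr, MonoidalPreadditive.add_whiskerRight, Preadditive.add_comp,
    Preadditive.comp_add]

/-- `ptr` as an additive map -/
def ptrHom (X A B : C) : (A ⊗ X ⟶ B ⊗ X) →+ (A ⟶ B) :=
  AddMonoidHom.mk' (fun F => ptr X F) ptr_add

theorem ptrHom_apply {X A B : C} (F : A ⊗ X ⟶ B ⊗ X) : ptrHom X A B F = ptr X F := rfl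

theorem ptr_neg {X A B : C} (F : A ⊗ X ⟶ B ⊗ X) : ptr X (-F) = -ptr X F :=
  map_neg (ptrHom X A B) F

theorem ptr_sub {X A B : C} (F G : A ⊗ X ⟶ B ⊗ X) : ptr X (F - G) = ptr X F - ptr X G :=
  map_sub (ptrHom X A B) F G

theorem ptr_zero {X A B : C} : ptr X (0 : A ⊗ X ⟶ B ⊗ X) = 0 :=
  map_zero (ptrHom X A B)

theorem ptr_zsmul {X A B : C} (a : ℤ) (F : A ⊗ X ⟶ B ⊗ X) : ptr X (a • F) = a • ptr X F :=
  map_zsmul (ptrHom X A B) a F

theorem ptr_sum {ι : Type*} (s : Finset ι) {X A B : C} (F : ι → (A ⊗ X ⟶ B ⊗ X)) :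
    ptr X (∑ i ∈ s, F i) = ∑ i ∈ s, ptr X (F i) :=
  map_sum (ptrHom X A B) F s

theorem trU_add {X : C} (f g : X ⟶ X) : trU (f + g) = trU f + trU g := by
  simp only [trU, MonoidalPreadditive.add_whiskerRight, Preadditive.add_comp,
    Preadditive.comp_add]

theorem ptr_whiskerLeft_aux (A : C) {X : C} (u : X ⟶ X) :
    ptr X (A ◁ u) = (ρ_ A).inv ≫ A ◁ trU u ≫ (ρ_ A).hom := by
  simp only [ptr, trU, whisker_assoc, MonoidalCategory.whiskerLeft_comp, Category.assoc,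
    Iso.inv_hom_id_assoc]

end NoUnit

theorem ptr_smul {X A B : C} (a : K) (F : A ⊗ X ⟶ B ⊗ X) : ptr X (a • F) = a • ptr X F := by
  simp only [ptr, MonoidalLinear.smul_whiskerRight, Linear.smul_comp, Linear.comp_smul]

theorem trU_smul {X : C} (a : K) (f : X ⟶ X) : trU (a • f) = a • trU f := by
  simp only [trU, MonoidalLinear.smul_whiskerRight, Linear.smul_comp, Linear.comp_smul]

variable [UnitK K C]

include K in
theorem unit_ne : (𝟙 (𝟙_ C)) ≠ 0 := by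
  intro h
  have h1 := (UnitK.bij (K := K) (C := C)).1
  have h2 : (1 : K) = 0 := h1 (by
    change (1 : K) • 𝟙 (𝟙_ C) = (0 : K) • 𝟙 (𝟙_ C)
    rw [h, smul_zero, smul_zero])
  exact one_ne_zero h2

theorem sc_spec (f : 𝟙_ C ⟶ 𝟙_ C) : sc K f • 𝟙 (𝟙_ C) = f :=
  Classical.choose_spec ((UnitK.bij (K := K) (C := C)).2 f)

theorem sc_unique (f : 𝟙_ C ⟶ 𝟙_ C) (a : K) (h : f = a • 𝟙 (𝟙_ C)) : sc K f = a := by
  apply (UnitK.bij (K := K) (C := C)).1
  change sc K f • 𝟙 (𝟙_ C) = a • 𝟙 (𝟙_ C)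
  rw [sc_spec, h]

theorem tr_spec {X : C} (f : X ⟶ X) : trU f = tr K f • 𝟙 (𝟙_ C) := (sc_spec K (trU f)).symm

theorem tr_unique {X : C} (f : X ⟶ X) (a : K) (h : trU f = a • 𝟙 (𝟙_ C)) : tr K f = a :=
  sc_unique K _ a h

/-- the trace as a linear map -/
noncomputable def trL (X : C) : (X ⟶ X) →ₗ[K] K where
  toFun f := tr K f
  map_add' f g := by
    apply tr_unique
    rw [trU_add, tr_spec K f, tr_spec K g, add_smul]
  map_smul' a f := by
    apply tr_unique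
    rw [trU_smul, tr_spec K f, RingHom.id_apply, smul_eq_mul, mul_smul]

theorem tr_add {X : C} (f g : X ⟶ X) : tr K (f + g) = tr K f + tr K g :=
  map_add (trL K X) f g

theorem tr_sub {X : C} (f g : X ⟶ X) : tr K (f - g) = tr K f - tr K g :=
  map_sub (trL K X) f g

theorem tr_neg {X : C} (f : X ⟶ X) : tr K (-f) = -tr K f :=
  map_neg (trL K X) f

theorem tr_zero {X : C} : tr K (0 : X ⟶ X) = 0 :=
  map_zero (trL K X)

theorem tr_smul {X : C} (a : K) (f : X ⟶ X) : tr K (a • f) = a * tr K f :=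
  map_smul (trL K X) a f

theorem tr_zsmul {X : C} (a : ℤ) (f : X ⟶ X) : tr K (a • f) = a * tr K f := by
  have h := map_zsmul (trL K X) a f
  rw [zsmul_eq_mul] at h
  exact h

theorem tr_sum {ι : Type*} (s : Finset ι) {X : C} (f : ι → (X ⟶ X)) :
    tr K (∑ i ∈ s, f i) = ∑ i ∈ s, tr K (f i) :=
  map_sum (trL K X) f s

theorem ptr_whiskerLeft (A : C) {X : C} (u : X ⟶ X) : ptr X (A ◁ u) = tr K u • 𝟙 A := by
  rw [ptr_whiskerLeft_aux, tr_spec K u, MonoidalLinear.whiskerLeft_smul,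
    MonoidalCategory.whiskerLeft_id, Linear.smul_comp, Linear.comp_smul, Category.id_comp,
    Iso.inv_hom_id]

theorem tr_unit : tr K (𝟙 (𝟙_ C)) = 1 := by
  apply (UnitK.bij (K := K) (C := C)).1
  change tr K (𝟙 (𝟙_ C)) • 𝟙 (𝟙_ C) = (1 : K) • 𝟙 (𝟙_ C)
  rw [← ptr_whiskerLeft K (𝟙_ C) (𝟙 (𝟙_ C)), MonoidalCategory.whiskerLeft_id, ptr_unit,
    Category.id_comp, Iso.inv_hom_id, one_smul]

theorem ptr_tensorHom {A B X : C} (a : A ⟶ B) (u : X ⟶ X) : ptr X (a ⊗ₘ u) = tr K u • a := by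
  rw [MonoidalCategory.tensorHom_def, ptr_nat_left, ptr_whiskerLeft K, Linear.comp_smul,
    Category.comp_id]

theorem tr_ptr {A X : C} (F : A ⊗ X ⟶ A ⊗ X) : tr K (ptr X F) = tr K F := by
  apply (UnitK.bij (K := K) (C := C)).1
  change tr K (ptr X F) • 𝟙 (𝟙_ C) = tr K F • 𝟙 (𝟙_ C)
  rw [← ptr_whiskerLeft K (𝟙_ C) F, ptr_tensor, ptr_whisker, ptr_whiskerLeft K]

theorem tr_comp_comm {X Y : C} (f : X ⟶ Y) (g : Y ⟶ X) : tr K (f ≫ g) = tr K (g ≫ f) := by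
  apply (UnitK.bij (K := K) (C := C)).1
  change tr K (f ≫ g) • 𝟙 (𝟙_ C) = tr K (g ≫ f) • 𝟙 (𝟙_ C)
  rw [← ptr_whiskerLeft K (𝟙_ C) (f ≫ g), ← ptr_whiskerLeft K (𝟙_ C) (g ≫ f),
    MonoidalCategory.whiskerLeft_comp, MonoidalCategory.whiskerLeft_comp, ptr_slide]

theorem tr_tensor {X Y : C} (f : X ⟶ X) (g : Y ⟶ Y) : tr K (f ⊗ₘ g) = tr K f * tr K g := by
  rw [← tr_ptr, ptr_tensorHom K, tr_smul, mul_comm]

end Pool.Agent.W_MP_868bb7_ag
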