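import Pool.Agent.W_MP_868bb7_ag.Defs

set_option autoImplicit false

/-!
# SwShuf: exchange of two pairs

`sw_shuf` is a coherence statement: use `tensor_associativity` (the tensor product is a
monoidal functor) and `SymmetricCategory.tensorμ_braid_swap` (it is a braided functor):
`sw (X ⊗ Y) (A ⊗ B)` is an associator, the braiding of `X ⊗ Y` with itself and an associator;
`tensorμ X Y X Y` turns the braiding of `X ⊗ Y` into `β_ X X ⊗ₘ β_ Y Y`
(naturality: `tensorμ_natural`, `tensorμ_natural_left`, `tensorμ_natural_right`).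
-/

namespace Pool.Agent.W_MP_868bb7_ag

open CategoryTheory MonoidalCategory

universe v u

variable {C : Type u} [Category.{v} C] [MonoidalCategory C] [SymmetricCategory C]

/-- shuffle of three pairs -/
def shuf (X Y A B : C) :
    (X ⊗ Y) ⊗ ((X ⊗ Y) ⊗ (A ⊗ B)) ⟶ (X ⊗ (X ⊗ A)) ⊗ (Y ⊗ (Y ⊗ B)) :=
  (X ⊗ Y) ◁ tensorμ X Y A B ≫ tensorμ X Y (X ⊗ A) (Y ⊗ B)

theorem tensorδ_eq_tensorμ (X Y : C) : tensorδ X Y X Y = tensorμ X X Y Y := by
  simp only [tensorδ, tensorμ, SymmetricCategory.braiding_swap_eq_inv_braiding Y X]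

theorem braid_tensorμ (X Y : C) :
    (β_ (X ⊗ Y) (X ⊗ Y)).hom ≫ tensorμ X Y X Y =
      tensorμ X Y X Y ≫ ((β_ X X).hom ⊗ₘ (β_ Y Y).hom) := by
  have h := SymmetricCategory.tensorμ_braid_swap X Y
  rw [← tensorδ_eq_tensorμ] at h
  have h2 := congrArg (fun f => tensorμ X Y X Y ≫ f ≫ tensorμ X Y X Y) h
  simp only [Category.assoc, tensorμ_tensorδ_assoc, tensorδ_tensorμ, Category.comp_id] at h2
  exact h2

theorem shuf_eq (X Y A B : C) :
    shuf X Y A B = (α_ (X ⊗ Y) (X ⊗ Y) (A ⊗ B)).inv ≫ tensorμ X Y X Y ▷ (A ⊗ B) ≫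
      tensorμ (X ⊗ X) (Y ⊗ Y) A B ≫ ((α_ X X A).hom ⊗ₘ (α_ Y Y B).hom) := by
  rw [tensor_associativity X Y X Y A B, Iso.inv_hom_id_assoc]
  rfl

theorem sw_shuf (X Y A B : C) :
    sw (X ⊗ Y) (A ⊗ B) ≫ shuf X Y A B = shuf X Y A B ≫ (sw X A ⊗ₘ sw Y B) := by
  rw [shuf_eq]
  simp only [sw, Category.assoc, Iso.hom_inv_id_assoc]
  rw [← comp_whiskerRight_assoc, braid_tensorμ, comp_whiskerRight_assoc,
    tensorμ_natural_left_assoc, tensorHom_comp_tensorHom, tensorHom_comp_tensorHom,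
    Iso.hom_inv_id_assoc, Iso.hom_inv_id_assoc]

end Pool.Agent.W_MP_868bb7_ag
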