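import Pool.Agent.W_MP_868bb7_ag.PowE
import Pool.Agent.W_MP_868bb7_ag.SwShuf

set_option autoImplicit false

/-!
# Shuffle: `(X ⊗ Y)^{⊗ n} ≅ X^{⊗ n} ⊗ Y^{⊗ n}`, compatible with permutations

* `sh_mv`: induction on `p` from `sw_shuf`, `tensorμ_natural`; `sh_act`: induction on `n`.
-/

namespace Pool.Agent.W_MP_868bb7_ag

open CategoryTheory MonoidalCategory

universe v u

variable {C : Type u} [Category.{v} C] [MonoidalCategory C] [SymmetricCategory C]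

/-- the shuffle `(X ⊗ Y)^{⊗ n} ⟶ X^{⊗ n} ⊗ Y^{⊗ n}` -/
def sh (X Y : C) : (n : ℕ) → (pow (X ⊗ Y) n ⟶ pow X n ⊗ pow Y n)
  | 0 => (λ_ (𝟙_ C)).inv
  | n + 1 => (X ⊗ Y) ◁ sh X Y n ≫ tensorμ X Y (pow X n) (pow Y n)

/-- the inverse shuffle -/
def shInv (X Y : C) : (n : ℕ) → (pow X n ⊗ pow Y n ⟶ pow (X ⊗ Y) n)
  | 0 => (λ_ (𝟙_ C)).hom
  | n + 1 => tensorδ X Y (pow X n) (pow Y n) ≫ (X ⊗ Y) ◁ shInv X Y n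

section Gen

variable (X Y : C) {P A B : C}

theorem sh_gen_inv (s : P ⟶ A ⊗ B) (t : A ⊗ B ⟶ P) (h : s ≫ t = 𝟙 P) :
    ((X ⊗ Y) ◁ s ≫ tensorμ X Y A B) ≫ tensorδ X Y A B ≫ (X ⊗ Y) ◁ t = 𝟙 _ := by
  rw [Category.assoc, tensorμ_tensorδ_assoc, ← whiskerLeft_comp, h, whiskerLeft_id]

theorem sh_gen_inv' (s : P ⟶ A ⊗ B) (t : A ⊗ B ⟶ P) (h : t ≫ s = 𝟙 _) :
    (tensorδ X Y A B ≫ (X ⊗ Y) ◁ t) ≫ (X ⊗ Y) ◁ s ≫ tensorμ X Y A B = 𝟙 _ := by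
  rw [Category.assoc, ← whiskerLeft_comp_assoc, h, whiskerLeft_id, Category.id_comp,
    tensorδ_tensorμ]

theorem sh_gen_mv (s : P ⟶ A ⊗ B) (m : (X ⊗ Y) ⊗ P ⟶ (X ⊗ Y) ⊗ P) (a : X ⊗ A ⟶ X ⊗ A)
    (b : Y ⊗ B ⟶ Y ⊗ B)
    (h : m ≫ (X ⊗ Y) ◁ s ≫ tensorμ X Y A B = ((X ⊗ Y) ◁ s ≫ tensorμ X Y A B) ≫ (a ⊗ₘ b)) :
    (sw (X ⊗ Y) P ≫ (X ⊗ Y) ◁ m) ≫
        (X ⊗ Y) ◁ ((X ⊗ Y) ◁ s ≫ tensorμ X Y A B) ≫ tensorμ X Y (X ⊗ A) (Y ⊗ B) =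
      ((X ⊗ Y) ◁ ((X ⊗ Y) ◁ s ≫ tensorμ X Y A B) ≫ tensorμ X Y (X ⊗ A) (Y ⊗ B)) ≫
        ((sw X A ≫ X ◁ a) ⊗ₘ (sw Y B ≫ Y ◁ b)) := by
  have h1 : (X ⊗ Y) ◁ ((X ⊗ Y) ◁ s ≫ tensorμ X Y A B) ≫ tensorμ X Y (X ⊗ A) (Y ⊗ B) =
      (X ⊗ Y) ◁ ((X ⊗ Y) ◁ s) ≫ shuf X Y A B := by
    rw [shuf, whiskerLeft_comp, Category.assoc]
  have h3 : ((sw X A ≫ X ◁ a) ⊗ₘ (sw Y B ≫ Y ◁ b)) =
      (sw X A ⊗ₘ sw Y B) ≫ (X ◁ a ⊗ₘ Y ◁ b) := by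
    rw [tensorHom_comp_tensorHom]
  calc (sw (X ⊗ Y) P ≫ (X ⊗ Y) ◁ m) ≫
        (X ⊗ Y) ◁ ((X ⊗ Y) ◁ s ≫ tensorμ X Y A B) ≫ tensorμ X Y (X ⊗ A) (Y ⊗ B)
      = sw (X ⊗ Y) P ≫ (X ⊗ Y) ◁ (m ≫ (X ⊗ Y) ◁ s ≫ tensorμ X Y A B) ≫
          tensorμ X Y (X ⊗ A) (Y ⊗ B) := by
        simp only [whiskerLeft_comp, Category.assoc]
    _ = sw (X ⊗ Y) P ≫ ((X ⊗ Y) ◁ ((X ⊗ Y) ◁ s ≫ tensorμ X Y A B) ≫
          tensorμ X Y (X ⊗ A) (Y ⊗ B)) ≫ (X ◁ a ⊗ₘ Y ◁ b) := by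
        rw [h, whiskerLeft_comp, Category.assoc, Category.assoc, tensorμ_natural_right]
    _ = (sw (X ⊗ Y) P ≫ (X ⊗ Y) ◁ ((X ⊗ Y) ◁ s)) ≫ shuf X Y A B ≫ (X ◁ a ⊗ₘ Y ◁ b) := by
        rw [h1]
        simp only [Category.assoc]
    _ = (X ⊗ Y) ◁ ((X ⊗ Y) ◁ s) ≫ (sw (X ⊗ Y) (A ⊗ B) ≫ shuf X Y A B) ≫
          (X ◁ a ⊗ₘ Y ◁ b) := by
        rw [sw_nat]
        simp only [Category.assoc]
    _ = _ := by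
        rw [sw_shuf, h3, h1]
        simp only [Category.assoc]

theorem sh_gen_act (s : P ⟶ A ⊗ B) (p : P ⟶ P) (a : A ⟶ A) (b : B ⟶ B)
    (m : (X ⊗ Y) ⊗ P ⟶ (X ⊗ Y) ⊗ P) (ma : X ⊗ A ⟶ X ⊗ A) (mb : Y ⊗ B ⟶ Y ⊗ B)
    (h : p ≫ s = s ≫ (a ⊗ₘ b))
    (hm : m ≫ (X ⊗ Y) ◁ s ≫ tensorμ X Y A B = ((X ⊗ Y) ◁ s ≫ tensorμ X Y A B) ≫ (ma ⊗ₘ mb)) :
    ((X ⊗ Y) ◁ p ≫ m) ≫ (X ⊗ Y) ◁ s ≫ tensorμ X Y A B =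
      ((X ⊗ Y) ◁ s ≫ tensorμ X Y A B) ≫ ((X ◁ a ≫ ma) ⊗ₘ (Y ◁ b ≫ mb)) := by
  rw [Category.assoc, hm, ← tensorHom_comp_tensorHom, Category.assoc, Category.assoc,
    ← whiskerLeft_comp_assoc, h, whiskerLeft_comp, Category.assoc, tensorμ_natural_right_assoc]

theorem sh_gen_powMap {X' Y' P' A' B' : C} (f : X ⟶ X') (g : Y ⟶ Y') (p : P ⟶ P')
    (a : A ⟶ A') (b : B ⟶ B') (s : P ⟶ A ⊗ B) (s' : P' ⟶ A' ⊗ B')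
    (h : p ≫ s' = s ≫ (a ⊗ₘ b)) :
    ((f ⊗ₘ g) ⊗ₘ p) ≫ (X' ⊗ Y') ◁ s' ≫ tensorμ X' Y' A' B' =
      ((X ⊗ Y) ◁ s ≫ tensorμ X Y A B) ≫ ((f ⊗ₘ a) ⊗ₘ (g ⊗ₘ b)) := by
  rw [Category.assoc, ← tensorμ_natural, ← id_tensorHom, ← id_tensorHom, ← Category.assoc,
    tensorHom_comp_tensorHom, ← Category.assoc, tensorHom_comp_tensorHom, h,
    Category.comp_id, Category.id_comp]

end Gen

theorem sh_shInv (X Y : C) (n : ℕ) : sh X Y n ≫ shInv X Y n = 𝟙 _ := by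
  induction n with
  | zero => exact (λ_ (𝟙_ C)).inv_hom_id
  | succ n ih => exact sh_gen_inv X Y (sh X Y n) (shInv X Y n) ih

theorem shInv_sh (X Y : C) (n : ℕ) : shInv X Y n ≫ sh X Y n = 𝟙 _ := by
  induction n with
  | zero => exact (λ_ (𝟙_ C)).hom_inv_id
  | succ n ih => exact sh_gen_inv' X Y (sh X Y n) (shInv X Y n) ih

theorem sh_mv (X Y : C) (n p : ℕ) :
    mv (X ⊗ Y) n p ≫ sh X Y (n + 1) = sh X Y (n + 1) ≫ (mv X n p ⊗ₘ mv Y n p) := by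
  induction n generalizing p with
  | zero =>
    have h : (mv X 0 p ⊗ₘ mv Y 0 p) = 𝟙 _ := id_tensorHom_id _ _
    rw [h, Category.comp_id]
    exact Category.id_comp _
  | succ n ih =>
    cases p with
    | zero =>
      have h : (mv X (n + 1) 0 ⊗ₘ mv Y (n + 1) 0) = 𝟙 _ := id_tensorHom_id _ _
      rw [h, Category.comp_id]
      exact Category.id_comp _
    | succ p =>
      exact sh_gen_mv X Y (sh X Y n) (mv (X ⊗ Y) n p) (mv X n p) (mv Y n p) (ih p)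

theorem sh_act (X Y : C) (n : ℕ) (σ : Equiv.Perm (Fin n)) :
    act (X ⊗ Y) n σ ≫ sh X Y n = sh X Y n ≫ (act X n σ ⊗ₘ act Y n σ) := by
  induction n with
  | zero =>
    have h : (act X 0 σ ⊗ₘ act Y 0 σ) = 𝟙 _ := id_tensorHom_id _ _
    rw [h, Category.comp_id]
    exact Category.id_comp _
  | succ n ih =>
    exact sh_gen_act X Y (sh X Y n) (act (X ⊗ Y) n (tail σ)) (act X n (tail σ))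
      (act Y n (tail σ)) (mv (X ⊗ Y) n (σ 0 : Fin (n + 1))) (mv X n (σ 0 : Fin (n + 1)))
      (mv Y n (σ 0 : Fin (n + 1))) (ih (tail σ)) (sh_mv X Y n _)

theorem sh_powMap {X X' Y Y' : C} (f : X ⟶ X') (g : Y ⟶ Y') (n : ℕ) :
    powMap (f ⊗ₘ g) n ≫ sh X' Y' n = sh X Y n ≫ (powMap f n ⊗ₘ powMap g n) := by
  induction n with
  | zero =>
    change 𝟙 (𝟙_ C) ≫ (λ_ (𝟙_ C)).inv = (λ_ (𝟙_ C)).inv ≫ (𝟙 (𝟙_ C) ⊗ₘ 𝟙 (𝟙_ C))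
    rw [id_tensorHom_id, Category.comp_id, Category.id_comp]
  | succ n ih =>
    exact sh_gen_powMap X Y f g (powMap (f ⊗ₘ g) n) (powMap f n) (powMap g n) (sh X Y n)
      (sh X' Y' n) ih

end Pool.Agent.W_MP_868bb7_ag
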