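import Pool.Agent.W_MP_868bb7_ag.Defs

set_option autoImplicit false

/-!
# Hook: a representation of the symmetric group killed by a column and by a row is zero

For `A` a set of points, `SE b ρ A = ∑ χ_b(σ) ρ(σ)` over the permutations supported in `A`.

Claim, by induction on `a + m`: if `D` is a finite set, `a * m < |D|`, `W ⊆ V` a subspace stable under
the permutations supported in `D`, `SE b ρ A` kills `W` for `A ⊆ D`, `|A| = a + 1` and
`SE (!b) ρ B` kills `W` for `B ⊆ D`, `|B| = m + 1`, then `W = 0`.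
* `a = 0` or `m = 0`: `SE ρ {x} = 1`.
* Let `a, m ≥ 1`, `A ⊆ D`, `|A| = a`, `D' = D \ A`, `W' = SE b ρ A W`, stable under the permutations
  supported in `D'` (they commute with `SE b ρ A`) and contained in `W`.  Let `B ⊆ D'`, `|B| = m`,
  `w ∈ W`, `w'' = SE (!b) B (SE b A w) = SE b A (SE (!b) B w)`.  Let `c = cs b = -cs (!b)`.
  For `x ∈ B`: `SE b (A ∪ {x}) = (1 + c ∑_{i ∈ A} (i x)) SE b A` (cosets) and
  `SE b (A ∪ {x}) (SE (!b) B w) = 0`, hence `w'' + c ∑_{i ∈ A} (i x) w'' = 0`.
  For `i ∈ A`: `SE (!b) (B ∪ {i}) = (1 - c ∑_{x ∈ B} (i x)) SE (!b) B` kills `SE b A w`, hence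
  `w'' - c ∑_{x ∈ B} (i x) w'' = 0`.  Sum over `x ∈ B`, resp. over `i ∈ A`, and add:
  `(m + a) w'' = 0`, `w'' = 0`.  So `SE (!b) B` kills `W'` for `|B| = m`, and `|D'| > a (m - 1)`: by
  induction `W' = 0`.
  So `SE b A` kills `W` for all `A ⊆ D`, `|A| = a`; by induction for `(a - 1, m)`, `W = 0`.
-/

namespace Pool.Agent.W_MP_868bb7_ag

variable {K V : Type*} [Field K] [CharZero K] [AddCommGroup V] [Module K V]
  {α : Type*} [Fintype α] [DecidableEq α]

/-- (anti)symmetrizer over the permutations supported in `A` -/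
def SE (b : Bool) (ρ : Equiv.Perm α →* Module.End K V) (A : Finset α) : Module.End K V :=
  ∑ σ ∈ Finset.univ.filter (fun σ : Equiv.Perm α => σ.support ⊆ A), ((chi b σ : ℤˣ) : ℤ) • ρ σ

/-- the permutations supported in `A` -/
def SP (A : Finset α) : Finset (Equiv.Perm α) :=
  Finset.univ.filter (fun σ : Equiv.Perm α => σ.support ⊆ A)

theorem mem_SP {A : Finset α} {σ : Equiv.Perm α} : σ ∈ SP A ↔ σ.support ⊆ A := by
  simp [SP]

theorem mem_SP' {A : Finset α} {σ : Equiv.Perm α} : σ ∈ SP A ↔ ∀ y, y ∉ A → σ y = y := by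
  rw [mem_SP]
  constructor
  · intro h y hy
    by_contra hne
    exact hy (h (Equiv.Perm.mem_support.2 hne))
  · intro h y hy
    by_contra hne
    exact (Equiv.Perm.mem_support.1 hy) (h y hne)

theorem SE_eq (b : Bool) (ρ : Equiv.Perm α →* Module.End K V) (A : Finset α) :
    SE b ρ A = ∑ σ ∈ SP A, ((chi b σ : ℤˣ) : ℤ) • ρ σ := rfl

theorem SE_singleton (b : Bool) (ρ : Equiv.Perm α →* Module.End K V) (x : α) :
    SE b ρ {x} = 1 := by
  have h : SP ({x} : Finset α) = {1} := by
    ext σ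
    rw [mem_SP, Finset.mem_singleton]
    constructor
    · intro h
      apply Equiv.Perm.card_support_le_one.1
      exact (Finset.card_le_card h).trans (by simp)
    · rintro rfl
      simp
  rw [SE_eq, h, Finset.sum_singleton]
  simp

theorem chi_swap_aux (b : Bool) {i x : α} (h : i ≠ x) :
    ((chi b (Equiv.swap i x) : ℤˣ) : ℤ) = cs b := by
  cases b
  · simp [chi, cs]
  · simp [chi, cs, Equiv.Perm.sign_swap h]

/-- coset decomposition -/
theorem SE_insert (b : Bool) (ρ : Equiv.Perm α →* Module.End K V) {A : Finset α} {x : α}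
    (hx : x ∉ A) :
    SE b ρ (insert x A) = (1 + (cs b) • ∑ i ∈ A, ρ (Equiv.swap i x)) * SE b ρ A := by
  have hmaps : ∀ σ ∈ SP (insert x A), σ x ∈ insert x A := by
    intro σ hσ
    by_contra hn
    have h1 := mem_SP'.1 hσ (σ x) hn
    have h2 : σ x = x := σ.injective h1
    exact hn (by rw [h2]; exact Finset.mem_insert_self x A)
  have hfib : ∀ i ∈ insert x A,
      ∑ σ ∈ (SP (insert x A)).filter (fun σ => σ x = i), ((chi b σ : ℤˣ) : ℤ) • ρ σ =
        ((chi b (Equiv.swap i x) : ℤˣ) : ℤ) • (ρ (Equiv.swap i x) * SE b ρ A) := by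
    intro i hi
    rw [SE_eq, Finset.mul_sum, Finset.smul_sum]
    refine Finset.sum_bij' (fun σ _ => Equiv.swap i x * σ) (fun τ _ => Equiv.swap i x * τ)
      ?_ ?_ ?_ ?_ ?_
    · intro σ hσ
      rw [Finset.mem_filter] at hσ
      obtain ⟨h1, h2⟩ := hσ
      rw [mem_SP'] at h1 ⊢
      intro y hy
      rw [Equiv.Perm.mul_apply]
      by_cases hyx : y = x
      · subst hyx
        rw [h2, Equiv.swap_apply_left]
      · have h3 : y ∉ insert x A := by
          rw [Finset.mem_insert]
          push Not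
          exact ⟨hyx, hy⟩
        rw [h1 y h3]
        refine Equiv.swap_apply_of_ne_of_ne ?_ hyx
        rintro rfl
        exact h3 hi
    · intro τ hτ
      rw [mem_SP'] at hτ
      rw [Finset.mem_filter, mem_SP']
      refine ⟨?_, ?_⟩
      · intro y hy
        have hyx : y ≠ x := by
          rintro rfl
          exact hy (Finset.mem_insert_self _ _)
        have hyA : y ∉ A := fun h => hy (Finset.mem_insert_of_mem h)
        rw [Equiv.Perm.mul_apply, hτ y hyA]
        refine Equiv.swap_apply_of_ne_of_ne ?_ hyx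
        rintro rfl
        exact hy hi
      · rw [Equiv.Perm.mul_apply, hτ x hx, Equiv.swap_apply_right]
    · intro σ _
      rw [← mul_assoc, Equiv.swap_mul_self, one_mul]
    · intro τ _
      rw [← mul_assoc, Equiv.swap_mul_self, one_mul]
    · intro σ _
      rw [mul_smul_comm, ← map_mul, ← mul_assoc, Equiv.swap_mul_self, one_mul, smul_smul,
        map_mul, ← Units.val_mul, ← mul_assoc, ← map_mul, Equiv.swap_mul_self, map_one, one_mul]
  rw [SE_eq b ρ (insert x A), ← Finset.sum_fiberwise_of_maps_to hmaps, Finset.sum_congr rfl hfib,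
    Finset.sum_insert hx]
  rw [Equiv.swap_self]
  have hrefl : (Equiv.refl α : Equiv.Perm α) = 1 := rfl
  rw [hrefl, map_one, map_one, Units.val_one, one_smul, one_mul, add_mul, one_mul]
  congr 1
  rw [smul_mul_assoc, Finset.sum_mul, Finset.smul_sum]
  refine Finset.sum_congr rfl fun i hi => ?_
  have hne : i ≠ x := by
    rintro rfl
    exact hx hi
  rw [chi_swap_aux b hne]

theorem SE_commute (b : Bool) (ρ : Equiv.Perm α →* Module.End K V) {A : Finset α}
    {τ : Equiv.Perm α} (h : Disjoint τ.support A) : Commute (ρ τ) (SE b ρ A) := by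
  rw [SE_eq]
  refine Commute.sum_right _ _ _ fun σ hσ => ?_
  refine Commute.smul_right ?_ _
  have h1 : Equiv.Perm.Disjoint τ σ :=
    Equiv.Perm.disjoint_iff_disjoint_support.2 (h.mono_right (mem_SP.1 hσ))
  have h2 : Commute τ σ := h1.commute
  exact h2.map ρ

theorem SE_SE_commute (b c : Bool) (ρ : Equiv.Perm α →* Module.End K V) {A B : Finset α}
    (h : Disjoint B A) : Commute (SE c ρ B) (SE b ρ A) := by
  rw [SE_eq c]
  refine Commute.sum_left _ _ _ fun σ hσ => ?_
  refine Commute.smul_left ?_ _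
  exact SE_commute b ρ (h.mono_left (mem_SP.1 hσ))

theorem SE_mem (b : Bool) (ρ : Equiv.Perm α →* Module.End K V) {D A : Finset α}
    {W : Submodule K V} (hW : ∀ σ : Equiv.Perm α, σ.support ⊆ D → ∀ w ∈ W, ρ σ w ∈ W)
    (hA : A ⊆ D) {w : V} (hw : w ∈ W) : SE b ρ A w ∈ W := by
  rw [SE_eq, LinearMap.sum_apply]
  refine W.sum_mem fun σ hσ => ?_
  rw [LinearMap.smul_apply]
  exact W.toAddSubgroup.zsmul_mem (hW σ ((mem_SP.1 hσ).trans hA) w hw) _

/-- the double sum argument -/
theorem hook_key (ρ : Equiv.Perm α →* Module.End K V) (b : Bool) {A B : Finset α}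
    (hAB : Disjoint B A) (hA : A.Nonempty) (w : V)
    (h1 : ∀ x ∈ B, SE b ρ (insert x A) (SE (!b) ρ B w) = 0)
    (h2 : ∀ i ∈ A, SE (!b) ρ (insert i B) (SE b ρ A w) = 0) :
    SE (!b) ρ B (SE b ρ A w) = 0 := by
  set u : V := SE (!b) ρ B (SE b ρ A w) with hu
  have hcom : SE b ρ A (SE (!b) ρ B w) = u := by
    have := (SE_SE_commute b (!b) ρ hAB).eq
    rw [hu, ← Module.End.mul_apply, ← Module.End.mul_apply, this]
  have e1 : ∀ x ∈ B, u + (cs b) • ∑ i ∈ A, ρ (Equiv.swap i x) u = 0 := by
    intro x hx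
    have hxA : x ∉ A := Finset.disjoint_left.1 hAB hx
    have h := h1 x hx
    rw [SE_insert b ρ hxA, Module.End.mul_apply, hcom, LinearMap.add_apply,
      LinearMap.smul_apply, LinearMap.sum_apply] at h
    exact h
  have e2 : ∀ i ∈ A, u + (cs (!b)) • ∑ x ∈ B, ρ (Equiv.swap i x) u = 0 := by
    intro i hi
    have hiB : i ∉ B := Finset.disjoint_right.1 hAB hi
    have h := h2 i hi
    rw [SE_insert (!b) ρ hiB, Module.End.mul_apply, ← hu, LinearMap.add_apply,
      LinearMap.smul_apply, LinearMap.sum_apply] at h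
    simp_rw [Equiv.swap_comm _ i] at h
    exact h
  have hcs : cs (!b) = - cs b := by cases b <;> simp [cs]
  have s1 : ∑ x ∈ B, (u + (cs b) • ∑ i ∈ A, ρ (Equiv.swap i x) u) = 0 :=
    Finset.sum_eq_zero e1
  have s2 : ∑ i ∈ A, (u + (cs (!b)) • ∑ x ∈ B, ρ (Equiv.swap i x) u) = 0 :=
    Finset.sum_eq_zero e2
  rw [Finset.sum_add_distrib, Finset.sum_const, ← Finset.smul_sum] at s1 s2
  rw [Finset.sum_comm, hcs, neg_smul] at s2
  have s3 : (B.card + A.card) • u = 0 := by
    rw [add_smul]
    calc B.card • u + A.card • u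
        = (B.card • u + cs b • ∑ x ∈ B, ∑ i ∈ A, ρ (Equiv.swap i x) u) +
          (A.card • u + -(cs b • ∑ x ∈ B, ∑ i ∈ A, ρ (Equiv.swap i x) u)) := by abel
      _ = 0 := by rw [s1, s2, add_zero]
  have hpos : 0 < A.card := hA.card_pos
  rw [← Nat.cast_smul_eq_nsmul K] at s3
  rcases smul_eq_zero.1 s3 with h | h
  · exfalso
    have : (B.card + A.card : ℕ) = 0 := by exact_mod_cast h
    omega
  · exact h

theorem hook_aux (ρ : Equiv.Perm α →* Module.End K V) (b : Bool) (a : ℕ) :
    ∀ (m : ℕ) (D : Finset α) (W : Submodule K V),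
      (∀ σ : Equiv.Perm α, σ.support ⊆ D → ∀ w ∈ W, ρ σ w ∈ W) → a * m < D.card →
      (∀ A : Finset α, A ⊆ D → A.card = a + 1 → ∀ w ∈ W, SE b ρ A w = 0) →
      (∀ B : Finset α, B ⊆ D → B.card = m + 1 → ∀ w ∈ W, SE (!b) ρ B w = 0) →
      ∀ w ∈ W, w = 0 := by
  induction a with
  | zero =>
    intro m D W hW hD h1 h2 w hw
    have hpos : 0 < D.card := by omega
    obtain ⟨x, hx⟩ := Finset.card_pos.1 hpos
    have := h1 {x} (Finset.singleton_subset_iff.2 hx) (by simp) w hw
    rwa [SE_singleton, Module.End.one_apply] at this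
  | succ a iha =>
    intro m
    induction m with
    | zero =>
      intro D W hW hD h1 h2 w hw
      have hpos : 0 < D.card := by omega
      obtain ⟨x, hx⟩ := Finset.card_pos.1 hpos
      have := h2 {x} (Finset.singleton_subset_iff.2 hx) (by simp) w hw
      rwa [SE_singleton, Module.End.one_apply] at this
    | succ m ihm =>
      intro D W hW hD h1 h2
      refine iha (m + 1) D W hW ?_ ?_ h2
      · calc a * (m + 1) ≤ (a + 1) * (m + 1) := Nat.mul_le_mul_right _ (Nat.le_succ a)
          _ < D.card := hD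
      intro A hAD hA w hw
      have hW' : ∀ σ : Equiv.Perm α, σ.support ⊆ D \ A →
          ∀ v ∈ W.map (SE b ρ A), ρ σ v ∈ W.map (SE b ρ A) := by
        intro σ hσ v hv
        obtain ⟨u, hu, rfl⟩ := Submodule.mem_map.1 hv
        refine Submodule.mem_map.2 ⟨ρ σ u, hW σ (hσ.trans Finset.sdiff_subset) u hu, ?_⟩
        have hdis : Disjoint σ.support A := by
          refine Finset.disjoint_left.2 fun y hy hyA => ?_
          exact (Finset.mem_sdiff.1 (hσ hy)).2 hyA
        have := (SE_commute b ρ hdis).eq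
        rw [← Module.End.mul_apply, ← Module.End.mul_apply, this]
      have hcard : (a + 1) * m < (D \ A).card := by
        rw [Finset.card_sdiff_of_subset hAD, hA]
        have : (a + 1) * (m + 1) = (a + 1) * m + (a + 1) := by ring
        omega
      refine ihm (D \ A) (W.map (SE b ρ A)) hW' hcard ?_ ?_ (SE b ρ A w)
        (Submodule.mem_map_of_mem hw)
      · intro A' hA' hcA' v hv
        obtain ⟨u, hu, rfl⟩ := Submodule.mem_map.1 hv
        exact h1 A' (hA'.trans Finset.sdiff_subset) hcA' _ (SE_mem b ρ hW hAD hu)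
      · intro B hB hcB v hv
        obtain ⟨u, hu, rfl⟩ := Submodule.mem_map.1 hv
        have hBA : Disjoint B A := by
          refine Finset.disjoint_left.2 fun y hy hyA => ?_
          exact (Finset.mem_sdiff.1 (hB hy)).2 hyA
        have hBD : B ⊆ D := hB.trans Finset.sdiff_subset
        refine hook_key ρ b hBA (Finset.card_pos.1 (by omega)) u ?_ ?_
        · intro x hx
          have hxA : x ∉ A := Finset.disjoint_left.1 hBA hx
          refine h1 (insert x A) (Finset.insert_subset (hBD hx) hAD) ?_ _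
            (SE_mem (!b) ρ hW hBD hu)
          rw [Finset.card_insert_of_notMem hxA, hA]
        · intro i hi
          have hiB : i ∉ B := Finset.disjoint_right.1 hBA hi
          refine h2 (insert i B) (Finset.insert_subset (hAD hi) hBD) ?_ _
            (SE_mem b ρ hW hAD hu)
          rw [Finset.card_insert_of_notMem hiB, hcB]

theorem hook (ρ : Equiv.Perm α →* Module.End K V) (b : Bool) (a m : ℕ)
    (ha : 1 ≤ a) (hm : 1 ≤ m) (hN : (a - 1) * (m - 1) < Fintype.card α)
    (h1 : ∀ A : Finset α, A.card = a → SE b ρ A = 0)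
    (h2 : ∀ A : Finset α, A.card = m → SE (!b) ρ A = 0) (v : V) : v = 0 := by
  obtain ⟨a, rfl⟩ : ∃ k, a = k + 1 := ⟨a - 1, by omega⟩
  obtain ⟨m, rfl⟩ : ∃ k, m = k + 1 := ⟨m - 1, by omega⟩
  simp only [Nat.add_sub_cancel] at hN
  refine hook_aux ρ b a m Finset.univ ⊤ (fun _ _ _ _ => Submodule.mem_top) ?_ ?_ ?_ v
    Submodule.mem_top
  · rwa [Finset.card_univ]
  · intro A _ hA w _
    rw [h1 A hA, LinearMap.zero_apply]
  · intro A _ hA w _
    rw [h2 A hA, LinearMap.zero_apply]

end Pool.Agent.W_MP_868bb7_ag
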