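import Pool.Agent.W_MP_868bb7_ag.Euler

set_option autoImplicit false

/-!
# Newton: consequences of the recursion `Cn_succ`, `Tn_succ`

* `nilp`: by induction `Tn (m+1) = 0` and `Cn m = c_m • it f m` with `c_0 = 1`,
  `c_{m+1} = (m+1) (cs b) c_m ≠ 0`; with `n = m + 1`, `comp_Cn` gives `c_m • it f (m+1) = 0`.
* `dim_prod`: by induction `e ≫ Cn b e n = a_n • e`, `a_{n+1} = a_n (tr e + (n+1) cs b)`,
  `Tn (n+1) = a_n tr e`.
-/

namespace Pool.Agent.W_MP_868bb7_ag

open CategoryTheory MonoidalCategory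

universe v u w

variable (K : Type w) [Field K] [CharZero K] {C : Type u} [Category.{v} C] [MonoidalCategory C]
  [Preadditive C] [Linear K C] [MonoidalPreadditive C] [MonoidalLinear K C]
  [SymmetricCategory C] [RightRigidCategory C] [UnitK K C]

theorem cs_ne_zero (b : Bool) : (cs b : K) ≠ 0 := by
  cases b <;> simp [cs]

omit [CharZero K] [MonoidalCategory C] [MonoidalPreadditive C] [MonoidalLinear K C]
  [SymmetricCategory C] [RightRigidCategory C] [UnitK K C] in
theorem zsmul_eq_smul_cast {X Y : C} (a : ℤ) (f : X ⟶ Y) : a • f = (a : K) • f :=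
  (Int.cast_smul_eq_zsmul K a f).symm

theorem Cn_of_trace_zero (b : Bool) {X : C} (f : X ⟶ X) (ht : ∀ j, 1 ≤ j → tr K (it f j) = 0)
    (m : ℕ) : ∃ c : K, c ≠ 0 ∧ Cn b f m = c • it f m := by
  induction m with
  | zero => exact ⟨1, one_ne_zero, by rw [Cn_zero, one_smul]; rfl⟩
  | succ m ih =>
    obtain ⟨c, hc, h⟩ := ih
    have hf : f ≫ Cn b f m = c • it f (m + 1) := by
      rw [h, Linear.comp_smul]
      rfl
    refine ⟨(((m + 1 : ℤ) * cs b : ℤ) : K) * c, ?_, ?_⟩
    · refine mul_ne_zero ?_ hc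
      push_cast
      exact mul_ne_zero (by exact_mod_cast Nat.succ_ne_zero m) (cs_ne_zero K b)
    · rw [Cn_succ K, Tn_succ, hf, tr_smul, ht (m + 1) (Nat.succ_le_succ (Nat.zero_le m)),
        mul_zero, zero_smul, zero_add, zsmul_eq_smul_cast K, smul_smul]

theorem nilp (b : Bool) {X : C} (f : X ⟶ X) (n : ℕ) (hn : 1 ≤ n)
    (h : powMap f n ≫ E b X n = 0) (ht : ∀ j, 1 ≤ j → tr K (it f j) = 0) : it f n = 0 := by
  obtain ⟨m, rfl⟩ : ∃ m, n = m + 1 := ⟨n - 1, by omega⟩
  obtain ⟨c, hc, h1⟩ := Cn_of_trace_zero K b f ht m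
  have h2 : f ≫ Cn b f m = c • it f (m + 1) := by
    rw [h1, Linear.comp_smul]
    rfl
  have h3 : f ≫ Cn b f m = ptr (pow X m) (0 : X ⊗ pow X m ⟶ X ⊗ pow X m) :=
    (comp_Cn b f m).trans
      (congrArg (fun F : X ⊗ pow X m ⟶ X ⊗ pow X m => ptr (pow X m) F) h)
  rw [ptr_zero, h2] at h3
  exact (smul_eq_zero_iff_right hc).1 h3

omit [CharZero K] in
theorem comp_Cn_idem (b : Bool) {X : C} (e : X ⟶ X) (he : e ≫ e = e) (n : ℕ) :
    e ≫ Cn b e n = (∏ i ∈ Finset.range n, (tr K e + (cs b : K) * ((i + 1 : ℕ) : K))) • e := by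
  induction n with
  | zero => rw [Cn_zero, Category.comp_id, Finset.range_zero, Finset.prod_empty, one_smul]
  | succ n ih =>
    rw [Cn_succ K, Preadditive.comp_add, Linear.comp_smul, Category.comp_id, Tn_succ,
      Preadditive.comp_zsmul, ← Category.assoc, he, ih, tr_smul, zsmul_eq_smul_cast K, smul_smul,
      ← add_smul, Finset.prod_range_succ]
    congr 1
    push_cast
    ring

omit [CharZero K] in
theorem dim_prod (b : Bool) {X : C} (e : X ⟶ X) (he : e ≫ e = e) (n : ℕ) :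
    Tn K b e n = ∏ i ∈ Finset.range n, (tr K e + (cs b : K) * i) := by
  cases n with
  | zero => rw [Tn_zero, Finset.range_zero, Finset.prod_empty]
  | succ n =>
    rw [Tn_succ, comp_Cn_idem K b e he, tr_smul, Finset.prod_range_succ']
    congr 1
    simp

/-- the dimension of an idempotent of pure type -/
theorem dim_int (b : Bool) {X : C} (e : X ⟶ X) (he : e ≫ e = e) (h : Fd b e) :
    ∃ i : ℕ, tr K e = -(cs b : K) * i := by
  obtain ⟨n, hn, h⟩ := h
  have h1 := dim_prod K b e he n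
  rw [Tn, h, tr_zero] at h1
  obtain ⟨i, -, hi⟩ := Finset.prod_eq_zero_iff.1 h1.symm
  exact ⟨i, by linear_combination hi⟩

omit [MonoidalCategory C] [Preadditive C] [MonoidalPreadditive C] [SymmetricCategory C]
  [RightRigidCategory C] in
theorem it_idem {X : C} (e : X ⟶ X) (he : e ≫ e = e) (n : ℕ) : it e (n + 1) = e := by
  induction n with
  | zero => exact Category.comp_id e
  | succ n ih =>
    change e ≫ it e (n + 1) = e
    rw [ih, he]

theorem idem_zero (b : Bool) {X : C} (e : X ⟶ X) (he : e ≫ e = e) (h : Fd b e)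
    (h0 : tr K e = 0) : e = 0 := by
  obtain ⟨n, hn, h⟩ := h
  have h1 := nilp K b e n hn h (fun j hj => by
    obtain ⟨m, rfl⟩ : ∃ m, j = m + 1 := ⟨j - 1, by omega⟩
    rw [it_idem e he, h0])
  obtain ⟨m, rfl⟩ : ∃ m, n = m + 1 := ⟨n - 1, by omega⟩
  rwa [it_idem e he] at h1

end Pool.Agent.W_MP_868bb7_ag
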