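import Pool.Agent.W_MP_868bb7_ag.PowE

set_option autoImplicit false

/-!
# FdAdd: the sum of two endomorphisms of the same type

`Fd_add`: `Fd b e → Fd b e' → Fd b (e + e')` (no orthogonality, no idempotence needed).

Proof.  For a word `w : Fin n → Bool` let `wmap e e' n w : pow X n ⟶ pow X n` be the tensor product of
the letters (`e` for `true`, `e'` for `false`), see `wmap`.  Then `powMap (e + e') n = ∑ w, wmap e e' n w`
(induction on `n`, `Fin.consEquiv` / `Fin.insertNthEquiv`, additivity of `⊗ₘ`).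
Let `powMap e a ≫ E b X a = 0`, `powMap e' c ≫ E b X c = 0`, `n = a + c`.  Every word `w` of length `n`
contains `true` at least `a` times or `false` at least `c` times, so it suffices to show:

(*) if `w : Fin n → Bool` contains the letter `x` at least `a` times and `powMap (letter x) a ≫ E b X a = 0`
then `wmap e e' n w ≫ E b X n = 0`.

Move to front (`wmap_front`): if `w i = x` for some `i`, there is a word `w'` with `w' 0 = x`, with the same
number of letters `true` and of letters `false`, and `φ` with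
`wmap w ≫ E b X n = φ ≫ wmap w' ≫ E b X n`.  Induction on `n`: for `i = 0` take `w' = w`; for `i = j + 1`
apply the induction hypothesis to the word `w ∘ succ` (letters `1, ..., n-1`), use
`X ◁ E b X k ≫ E b X (k + 1) = k! • E b X (k + 1)` (`whisker_E`) to insert `E b X k`, then exchange the first
two factors: `(f ⊗ₘ (g ⊗ₘ h)) ≫ sw = sw ≫ (g ⊗ₘ (f ⊗ₘ h))` and `sw ≫ E = cs b • E`
(`act_swap`, `act_E`).
Proof of (*) by induction on `n ≥ a`: if `w ∘ succ` still contains `x` at least `a` times, use the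
induction hypothesis and `whisker_E`.  Otherwise `w 0 = x` and `w ∘ succ` contains `x` exactly `a - 1`
times; if `w` is constant `x` then `n = a` and `wmap w = powMap (letter x) a`; otherwise some letter of `w ∘ succ` is
`y ≠ x`; by `wmap_front` we may assume that `w 0 = y` (same number of `x`), so we are in the first case.
(Alternatively, choose any other bookkeeping: lists, multisets, ...)
-/

namespace Pool.Agent.W_MP_868bb7_ag

open CategoryTheory MonoidalCategory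

universe v u w

variable (K : Type w) [Field K] [CharZero K] {C : Type u} [Category.{v} C] [MonoidalCategory C]
  [Preadditive C] [Linear K C] [MonoidalPreadditive C] [MonoidalLinear K C] [SymmetricCategory C]

omit [MonoidalPreadditive C] in
/-- the tensor product of the letters of a word -/
def wmap {C : Type u} [Category.{v} C] [MonoidalCategory C] {X : C} (e e' : X ⟶ X) :
    (n : ℕ) → (Fin n → Bool) → (pow X n ⟶ pow X n)
  | 0, _ => 𝟙 _
  | n + 1, w => (if w 0 then e else e') ⊗ₘ wmap e e' n (fun i => w i.succ)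

theorem FdAdd_sum_left {C : Type u} [Category.{v} C] [Preadditive C] {P : C} (n : ℕ)
    (s : Equiv.Perm (Fin n) → ℤ) (A : Equiv.Perm (Fin n) → (P ⟶ P)) (T : P ⟶ P)
    (hs : ∀ e, s e * s e = 1) (hA : ∀ e, A e ≫ T = s e • T) :
    (∑ e : Equiv.Perm (Fin n), s e • A e) ≫ T = (n.factorial : ℤ) • T := by
  rw [Preadditive.sum_comp]
  have h2 : ∀ e ∈ (Finset.univ : Finset (Equiv.Perm (Fin n))), (s e • A e) ≫ T = T := by
    intro e _
    rw [Preadditive.zsmul_comp, hA, smul_smul, hs, one_smul]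
  rw [Finset.sum_congr rfl h2, Finset.sum_const, Finset.card_univ, Fintype.card_perm,
    Fintype.card_fin, natCast_zsmul]

theorem FdAdd_sum_right {C : Type u} [Category.{v} C] [Preadditive C] {P : C} (n : ℕ)
    (s : Equiv.Perm (Fin n) → ℤ) (A : Equiv.Perm (Fin n) → (P ⟶ P)) (T : P ⟶ P)
    (hs : ∀ e, s e * s e = 1) (hA : ∀ e, T ≫ A e = s e • T) :
    T ≫ (∑ e : Equiv.Perm (Fin n), s e • A e) = (n.factorial : ℤ) • T := by
  rw [Preadditive.comp_sum]
  have h2 : ∀ e ∈ (Finset.univ : Finset (Equiv.Perm (Fin n))), T ≫ (s e • A e) = T := by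
    intro e _
    rw [Preadditive.comp_zsmul, hA, smul_smul, hs, one_smul]
  rw [Finset.sum_congr rfl h2, Finset.sum_const, Finset.card_univ, Fintype.card_perm,
    Fintype.card_fin, natCast_zsmul]

theorem FdAdd_whisker_sum {C : Type u} [Category.{v} C] [MonoidalCategory C] [Preadditive C]
    [MonoidalPreadditive C] [SymmetricCategory C] (b : Bool) (X : C) (k : ℕ) :
    X ◁ E b X k = ∑ e : Equiv.Perm (Fin k), ((chi b e : ℤˣ) : ℤ) • (X ◁ act X k e) := by
  have h := (tensorLeft X).map_sum (fun e : Equiv.Perm (Fin k) =>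
    ((chi b e : ℤˣ) : ℤ) • act X k e) Finset.univ
  refine h.trans (Finset.sum_congr rfl fun e _ => ?_)
  exact (tensorLeft X).map_zsmul

omit [CharZero K] [Linear K C] [MonoidalLinear K C] in
theorem E_whisker (b : Bool) (X : C) (k : ℕ) :
    E b X (k + 1) ≫ X ◁ E b X k = (k.factorial : ℤ) • E b X (k + 1) := by
  have h1 := FdAdd_sum_right (P := X ⊗ pow X k) k (fun e => ((chi b e : ℤˣ) : ℤ))
    (fun e => X ◁ act X k e) (E b X (k + 1)) (fun e => chi_cast_mul_self b e) (fun e => by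
      have h4 := E_act b X (k + 1) (shift e)
      rw [act_shift, chi_shift] at h4
      exact h4)
  rw [← FdAdd_whisker_sum] at h1
  exact h1

omit [CharZero K] [Linear K C] [MonoidalLinear K C] in
theorem whisker_E (b : Bool) (X : C) (k : ℕ) :
    X ◁ E b X k ≫ E b X (k + 1) = (k.factorial : ℤ) • E b X (k + 1) := by
  have h1 := FdAdd_sum_left (P := X ⊗ pow X k) k (fun e => ((chi b e : ℤˣ) : ℤ))
    (fun e => X ◁ act X k e) (E b X (k + 1)) (fun e => chi_cast_mul_self b e) (fun e => by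
      have h4 := act_E b X (k + 1) (shift e)
      rw [act_shift, chi_shift] at h4
      exact h4)
  rw [← FdAdd_whisker_sum] at h1
  exact h1

/-- `f` is a left multiple of `g` modulo `T` -/
def FdAdd_Rl {C : Type u} [Category.{v} C] {P : C} (T f g : P ⟶ P) : Prop :=
  ∃ φ : P ⟶ P, f ≫ T = φ ≫ g ≫ T

theorem FdAdd_refl {C : Type u} [Category.{v} C] {P : C} (T f : P ⟶ P) : FdAdd_Rl T f f :=
  ⟨𝟙 _, (Category.id_comp _).symm⟩

theorem FdAdd_trans {C : Type u} [Category.{v} C] {P : C} {T f g h : P ⟶ P}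
    (h1 : FdAdd_Rl T f g) (h2 : FdAdd_Rl T g h) : FdAdd_Rl T f h := by
  obtain ⟨φ, h1⟩ := h1
  obtain ⟨ψ, h2⟩ := h2
  exact ⟨φ ≫ ψ, by rw [h1, h2, Category.assoc]⟩

theorem FdAdd_zero {C : Type u} [Category.{v} C] [Preadditive C] {P : C} {T f g : P ⟶ P}
    (h1 : FdAdd_Rl T f g) (h2 : g ≫ T = 0) : f ≫ T = 0 := by
  obtain ⟨φ, h1⟩ := h1
  rw [h1, h2, Limits.comp_zero]

theorem FdAdd_cancel (K : Type w) [Field K] [CharZero K] {C : Type u} [Category.{v} C]
    [Preadditive C] [Linear K C] {A B : C} (k : ℕ) (f g : A ⟶ B)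
    (h : (k.factorial : ℤ) • f = (k.factorial : ℤ) • g) : f = g := by
  have h1 : (k.factorial : K) ≠ 0 := Nat.cast_ne_zero.2 (Nat.factorial_ne_zero _)
  have h2 : (k.factorial : K) • f = (k.factorial : K) • g := by
    have h3 := h
    rw [← Int.cast_smul_eq_zsmul K, ← Int.cast_smul_eq_zsmul K] at h3
    push_cast at h3
    exact h3
  have h4 := congrArg (fun z => ((k.factorial : K)⁻¹) • z) h2
  simp only [smul_smul, inv_mul_cancel₀ h1, one_smul] at h4
  exact h4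

/-- insert the smaller (anti)symmetrizer -/
theorem FdAdd_insert {C : Type u} [Category.{v} C] [MonoidalCategory C] [Preadditive C]
    {X P : C} {k : ℤ} (T : P ⟶ P) (T' : X ⊗ P ⟶ X ⊗ P) (hT : X ◁ T ≫ T' = k • T')
    (x : X ⟶ X) (f : P ⟶ P) : k • ((x ⊗ₘ f) ≫ T') = (x ⊗ₘ (f ≫ T)) ≫ T' := by
  have h1 : (x ⊗ₘ (f ≫ T)) = (x ⊗ₘ f) ≫ X ◁ T := by
    rw [← id_tensorHom, tensorHom_comp_tensorHom, Category.comp_id]
  rw [h1, Category.assoc, hT, Preadditive.comp_zsmul]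

theorem FdAdd_cons (K : Type w) [Field K] [CharZero K] {C : Type u} [Category.{v} C]
    [MonoidalCategory C] [Preadditive C] [Linear K C] {X P : C} {k : ℕ} {T : P ⟶ P}
    {T' : X ⊗ P ⟶ X ⊗ P} (hT : X ◁ T ≫ T' = (k.factorial : ℤ) • T')
    (x : X ⟶ X) {f g : P ⟶ P} (h : FdAdd_Rl T f g) : FdAdd_Rl T' (x ⊗ₘ f) (x ⊗ₘ g) := by
  obtain ⟨φ, h⟩ := h
  refine ⟨X ◁ φ, FdAdd_cancel K k _ _ ?_⟩
  have h1 : (x ⊗ₘ (φ ≫ g ≫ T)) = X ◁ φ ≫ (x ⊗ₘ (g ≫ T)) := by
    rw [← id_tensorHom, tensorHom_comp_tensorHom, Category.id_comp]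
  rw [FdAdd_insert T T' hT, h, h1, Category.assoc, ← FdAdd_insert T T' hT,
    Preadditive.comp_zsmul]

theorem FdAdd_swap {C : Type u} [Category.{v} C] [MonoidalCategory C] [Preadditive C]
    [SymmetricCategory C] {X P : C} {c : ℤ} (hc : c * c = 1) {T : X ⊗ (X ⊗ P) ⟶ X ⊗ (X ⊗ P)}
    (hT : sw X P ≫ T = c • T) (x y : X ⟶ X) (f : P ⟶ P) :
    FdAdd_Rl T (x ⊗ₘ (y ⊗ₘ f)) (y ⊗ₘ (x ⊗ₘ f)) := by
  have h1 : (x ⊗ₘ (y ⊗ₘ f)) ≫ sw X P = sw X P ≫ (y ⊗ₘ (x ⊗ₘ f)) := by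
    unfold sw
    rw [associator_inv_naturality_assoc, Category.assoc, Category.assoc]
    congr 1
    rw [← associator_naturality]
    rw [← Category.assoc, ← Category.assoc]
    congr 1
    rw [← tensorHom_id, tensorHom_comp_tensorHom, tensorHom_comp_tensorHom,
      BraidedCategory.braiding_naturality, Category.comp_id, Category.id_comp]
  have h4 : T = c • (sw X P ≫ T) := by rw [hT, smul_smul, hc, one_smul]
  refine ⟨c • sw X P, ?_⟩
  rw [Preadditive.zsmul_comp, ← Category.assoc (sw X P), ← h1, Category.assoc,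
    ← Preadditive.comp_zsmul, ← h4]

theorem FdAdd_sw_E {C : Type u} [Category.{v} C] [MonoidalCategory C] [Preadditive C]
    [SymmetricCategory C] (b : Bool) (X : C) (n : ℕ) :
    sw X (pow X n) ≫ (E b X (n + 2) : X ⊗ (X ⊗ pow X n) ⟶ X ⊗ (X ⊗ pow X n)) =
      cs b • (E b X (n + 2) : X ⊗ (X ⊗ pow X n) ⟶ X ⊗ (X ⊗ pow X n)) := by
  have h3 := act_E b X (n + 2) (Equiv.swap 0 1)
  rw [act_swap, chi_swap b _ _ (by simp)] at h3
  exact h3

theorem FdAdd_cs (b : Bool) : cs b * cs b = 1 := by cases b <;> rfl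

/-- the word `e ... e e' ... e'` of length `n` beginning with `i` letters `e` -/
def FdAdd_W {C : Type u} [Category.{v} C] [MonoidalCategory C] {X : C} (e e' : X ⟶ X) :
    (n : ℕ) → ℕ → (pow X n ⟶ pow X n)
  | 0, _ => 𝟙 _
  | n + 1, 0 => e' ⊗ₘ FdAdd_W e e' n 0
  | n + 1, i + 1 => e ⊗ₘ FdAdd_W e e' n i

theorem FdAdd_W_zero {C : Type u} [Category.{v} C] [MonoidalCategory C] {X : C}
    (e e' : X ⟶ X) (n : ℕ) : FdAdd_W e e' n 0 = powMap e' n := by
  induction n with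
  | zero => rfl
  | succ n ih =>
    change e' ⊗ₘ FdAdd_W e e' n 0 = e' ⊗ₘ powMap e' n
    rw [ih]

theorem FdAdd_W_self {C : Type u} [Category.{v} C] [MonoidalCategory C] {X : C}
    (e e' : X ⟶ X) (n i : ℕ) (h : n ≤ i) : FdAdd_W e e' n i = powMap e n := by
  induction n generalizing i with
  | zero => rfl
  | succ n ih =>
    obtain ⟨i, rfl⟩ : ∃ m, i = m + 1 := ⟨i - 1, by omega⟩
    change e ⊗ₘ FdAdd_W e e' n i = e ⊗ₘ powMap e n
    rw [ih i (by omega)]

omit [MonoidalLinear K C] in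
include K in
theorem FdAdd_front (b : Bool) {X : C} (e e' : X ⟶ X) (n i : ℕ) (h : i ≤ n) :
    FdAdd_Rl (P := X ⊗ pow X n) (E b X (n + 1)) (e' ⊗ₘ FdAdd_W e e' n i)
      (FdAdd_W e e' (n + 1) i) ∧
    FdAdd_Rl (P := X ⊗ pow X n) (E b X (n + 1)) (FdAdd_W e e' (n + 1) i)
      (e' ⊗ₘ FdAdd_W e e' n i) := by
  induction i generalizing n with
  | zero => exact ⟨FdAdd_refl _ _, FdAdd_refl _ _⟩
  | succ i ih =>
    obtain ⟨n, rfl⟩ : ∃ m, n = m + 1 := ⟨n - 1, by omega⟩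
    obtain ⟨h1, h2⟩ := ih n (by omega)
    have h3 := FdAdd_cons K (P := X ⊗ pow X n) (whisker_E b X (n + 1)) e h1
    have h4 := FdAdd_cons K (P := X ⊗ pow X n) (whisker_E b X (n + 1)) e h2
    exact ⟨FdAdd_trans (FdAdd_swap (FdAdd_cs b) (FdAdd_sw_E b X n) e' e (FdAdd_W e e' n i)) h3,
      FdAdd_trans h4 (FdAdd_swap (FdAdd_cs b) (FdAdd_sw_E b X n) e e' (FdAdd_W e e' n i))⟩

theorem FdAdd_cons_zero (K : Type w) [Field K] [CharZero K] {C : Type u} [Category.{v} C]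
    [MonoidalCategory C] [Preadditive C] [Linear K C] [MonoidalPreadditive C] {X P : C} {k : ℕ}
    {T : P ⟶ P} {T' : X ⊗ P ⟶ X ⊗ P} (hT : X ◁ T ≫ T' = (k.factorial : ℤ) • T')
    (x : X ⟶ X) {f : P ⟶ P} (h : f ≫ T = 0) : (x ⊗ₘ f) ≫ T' = 0 := by
  refine FdAdd_cancel K k _ _ ?_
  rw [FdAdd_insert T T' hT, h, MonoidalPreadditive.tensor_zero, smul_zero, Limits.zero_comp]

omit [MonoidalLinear K C] in
include K in
theorem FdAdd_kill (b : Bool) {X : C} (e e' : X ⟶ X) (a : ℕ) (ha : powMap e a ≫ E b X a = 0)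
    (n i : ℕ) (h1 : a ≤ i) (h2 : i ≤ n) : FdAdd_W e e' n i ≫ E b X n = 0 := by
  induction n, h2 using Nat.le_induction with
  | base =>
    rw [FdAdd_W_self e e' i i le_rfl]
    exact Fd_mono' b e a i h1 ha
  | succ n hn ih =>
    exact FdAdd_zero (FdAdd_front K b e e' n i hn).2 (FdAdd_cons_zero K (whisker_E b X n) e' ih)

omit [MonoidalLinear K C] in
include K in
theorem FdAdd_kill' (b : Bool) {X : C} (e e' : X ⟶ X) (c : ℕ) (hc : powMap e' c ≫ E b X c = 0)
    (n i : ℕ) (h1 : c ≤ n) : FdAdd_W e e' (n + i) i ≫ E b X (n + i) = 0 := by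
  induction i with
  | zero =>
    rw [FdAdd_W_zero]
    exact Fd_mono' b e' c _ h1 hc
  | succ i ih => exact FdAdd_cons_zero K (whisker_E b X (n + i)) e ih

/-- the inductive step of the expansion -/
theorem FdAdd_step (K : Type w) [Field K] [CharZero K] {C : Type u} [Category.{v} C]
    [MonoidalCategory C] [Preadditive C] [Linear K C] [MonoidalPreadditive C] {X P : C} {k : ℕ}
    {T : P ⟶ P} {T' : X ⊗ P ⟶ X ⊗ P} (hT : X ◁ T ≫ T' = (k.factorial : ℤ) • T')
    (e e' : X ⟶ X) (F : P ⟶ P) (s : Finset ℕ) (φ W : ℕ → (P ⟶ P))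
    (h : F ≫ T = ∑ i ∈ s, φ i ≫ W i ≫ T) :
    ((e + e') ⊗ₘ F) ≫ T' = ∑ i ∈ s, (X ◁ φ i ≫ (e ⊗ₘ W i) ≫ T' +
      X ◁ φ i ≫ (e' ⊗ₘ W i) ≫ T') := by
  refine FdAdd_cancel K k _ _ ?_
  rw [FdAdd_insert T T' hT, h, tensor_sum, Preadditive.sum_comp, Finset.smul_sum]
  refine Finset.sum_congr rfl fun i _ => ?_
  have h4 : ((e + e') ⊗ₘ (φ i ≫ W i ≫ T)) =
      X ◁ φ i ≫ (e ⊗ₘ (W i ≫ T)) + X ◁ φ i ≫ (e' ⊗ₘ (W i ≫ T)) := by
    rw [MonoidalPreadditive.add_tensor, ← id_tensorHom, tensorHom_comp_tensorHom,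
      tensorHom_comp_tensorHom, Category.id_comp, Category.id_comp]
  rw [h4, Preadditive.add_comp, Category.assoc, Category.assoc, ← FdAdd_insert T T' hT,
    ← FdAdd_insert T T' hT, Preadditive.comp_zsmul, Preadditive.comp_zsmul, smul_add]

/-- regrouping of the sum in the inductive step -/
theorem FdAdd_group {C : Type u} [Category.{v} C] [Preadditive C] {P : C} (n : ℕ)
    (T : P ⟶ P) (α ψ W : ℕ → (P ⟶ P)) :
    ∑ i ∈ Finset.range (n + 1), (α i ≫ W (i + 1) ≫ T + α i ≫ ψ i ≫ W i ≫ T) =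
      ∑ i ∈ Finset.range (n + 2), ((if i = 0 then 0 else α (i - 1)) +
        (if i = n + 1 then 0 else α i ≫ ψ i)) ≫ W i ≫ T := by
  simp only [Preadditive.add_comp]
  rw [Finset.sum_add_distrib, Finset.sum_add_distrib]
  congr 1
  · rw [Finset.sum_range_succ' _ (n + 1)]
    simp
  · rw [Finset.sum_range_succ _ (n + 1)]
    have h8 : ∀ j ∈ Finset.range (n + 1), j ≠ n + 1 := by
      intro j hj
      have := Finset.mem_range.1 hj
      omega
    simp only [if_true, Limits.zero_comp, add_zero]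
    refine Finset.sum_congr rfl fun j hj => ?_
    rw [if_neg (h8 j hj), Category.assoc]

theorem FdAdd_step2 (K : Type w) [Field K] [CharZero K] {C : Type u} [Category.{v} C]
    [MonoidalCategory C] [Preadditive C] [Linear K C] [MonoidalPreadditive C] {X P : C} {k : ℕ}
    {T : P ⟶ P} {T' : X ⊗ P ⟶ X ⊗ P} (hT : X ◁ T ≫ T' = (k.factorial : ℤ) • T')
    (e e' : X ⟶ X) (F : P ⟶ P) (n : ℕ) (φ W : ℕ → (P ⟶ P)) (V ψ : ℕ → (X ⊗ P ⟶ X ⊗ P))
    (h : F ≫ T = ∑ i ∈ Finset.range (n + 1), φ i ≫ W i ≫ T)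
    (hV : ∀ i, e ⊗ₘ W i = V (i + 1)) (hψ : ∀ i ≤ n, (e' ⊗ₘ W i) ≫ T' = ψ i ≫ V i ≫ T') :
    ∃ θ : ℕ → (X ⊗ P ⟶ X ⊗ P),
      ((e + e') ⊗ₘ F) ≫ T' = ∑ i ∈ Finset.range (n + 2), θ i ≫ V i ≫ T' := by
  refine ⟨_, (FdAdd_step K hT e e' F (Finset.range (n + 1)) φ W h).trans
    (Eq.trans (Finset.sum_congr rfl fun i hi => ?_)
      (FdAdd_group n T' (fun i => X ◁ φ i) ψ V))⟩
  have hi' : i ≤ n := Nat.lt_succ_iff.1 (Finset.mem_range.1 hi)
  rw [hψ i hi', hV]

omit [MonoidalLinear K C] in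
include K in
theorem FdAdd_expand (b : Bool) {X : C} (e e' : X ⟶ X) (n : ℕ) :
    ∃ φ : ℕ → (pow X n ⟶ pow X n), powMap (e + e') n ≫ E b X n =
      ∑ i ∈ Finset.range (n + 1), φ i ≫ FdAdd_W e e' n i ≫ E b X n := by
  induction n with
  | zero =>
    refine ⟨fun _ => 𝟙 _, ?_⟩
    rw [zero_add, Finset.sum_range_one, Category.id_comp]
    rfl
  | succ n ih =>
    obtain ⟨φ, hφ⟩ := ih
    have hA : ∀ i : ℕ, ∃ ψ : X ⊗ pow X n ⟶ X ⊗ pow X n, i ≤ n →
        (e' ⊗ₘ FdAdd_W e e' n i) ≫ (E b X (n + 1) : X ⊗ pow X n ⟶ X ⊗ pow X n) =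
          ψ ≫ (FdAdd_W e e' (n + 1) i : X ⊗ pow X n ⟶ X ⊗ pow X n) ≫
            (E b X (n + 1) : X ⊗ pow X n ⟶ X ⊗ pow X n) := by
      intro i
      by_cases hi : i ≤ n
      · obtain ⟨ψ, hψ⟩ := (FdAdd_front K b e e' n i hi).1
        exact ⟨ψ, fun _ => hψ⟩
      · exact ⟨𝟙 _, fun h => absurd h hi⟩
    choose ψ hψ using hA
    exact FdAdd_step2 K (whisker_E b X n) e e' (powMap (e + e') n) n φ (FdAdd_W e e' n)
      (FdAdd_W e e' (n + 1)) ψ hφ (fun _ => rfl) hψ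

include K in
theorem Fd_add (b : Bool) {X : C} (e e' : X ⟶ X) (h : Fd b e) (h' : Fd b e') :
    Fd b (e + e') := by
  obtain ⟨a, ha, h⟩ := h
  obtain ⟨c, hc, h'⟩ := h'
  refine ⟨a + c, by omega, ?_⟩
  obtain ⟨φ, hφ⟩ := FdAdd_expand K b e e' (a + c)
  rw [hφ]
  refine Finset.sum_eq_zero fun i hi => ?_
  have hi' : i ≤ a + c := Nat.lt_succ_iff.1 (Finset.mem_range.1 hi)
  by_cases h1 : a ≤ i
  · rw [FdAdd_kill K b e e' a h (a + c) i h1 hi', Limits.comp_zero]
  · obtain ⟨m, hm⟩ : ∃ m, a + c = m + i := ⟨a + c - i, by omega⟩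
    have h2 := FdAdd_kill' K b e e' c h' m i (by omega)
    rw [← hm] at h2
    rw [h2, Limits.comp_zero]

end Pool.Agent.W_MP_868bb7_ag
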