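import Pool.Agent.W_MP_868bb7_ag.Join
import Pool.Agent.W_MP_868bb7_ag.FdAdd

set_option autoImplicit false

/-!
# SymId: the identity behind `X ⊗ S^(m+a) X ⊂ S^(a+1) X ⊗ S^m X`

Notation: `F = FE b X (m + a) = X ◁ E b X (m + a)`.
* `E_EL`: induction on `a`: `E (m+a+1) ≫ X ◁ EL a = (m+a)!⁻¹ • E (m+a+1) ≫ X ◁ (E (m+a) ≫ EL a)
  = a! • E (m+a+1)` (`E_whisker`), then `E ≫ mv p = cs^p • E` (`E_mv`, `p ≤ a ≤ m + a`) and `cs^p * cs^p = 1`,
  `a + 1` summands.
* `wT_E`: induction on `a`: `X ◁ wT g a ≫ E (m+a+1) = (m+a)!⁻¹ • X ◁ (wT g a ≫ E (m+a)) ≫ E (m+a+1)`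
  (`whisker_E`).
* `mv_E`: `mv X n p ≫ E b X (n+1) = cs^p • E b X (n+1)` (`mv_eq`, `act_E`, `chi_cycleRange`).
* `F_mv_F`: `F ≫ mv X (m+a) (q+1) ≫ F = cs^q • W`, `W = F ≫ sw ≫ F` (for `m + a = k + 1`, `q ≤ k`): unfold `mv`,
  `X ◁ mv X k q ≫ X ◁ E (k+1) = cs^q • X ◁ E (k+1)` (`mv_E`).
* `sym_id`: `EL (a+1) = ∑_{p ≤ a} cs^p • (X ◁ EL a ≫ mv p)`, `F ≫ X ◁ EL a = a! • F` (`E_EL`), so
  `F ≫ EL (a+1) ≫ F = a! • ((m+a)! • F + a • cs • W)` (`Fin.sum_univ_succ`; `cs^(q+1) cs^q = cs`), and by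
  `E_succ`, `E_whisker` `(m+a)! • E (m+a+1) = E (m+a+1) ≫ F = ∑_{p ≤ m+a} cs^p • F ≫ mv p ≫ F
  = (m+a)! • F + (m+a) • cs • W`.  Eliminate `W`.
-/

namespace Pool.Agent.W_MP_868bb7_ag

open CategoryTheory MonoidalCategory

universe v u w

variable (K : Type w) [Field K] [CharZero K] {C : Type u} [Category.{v} C] [MonoidalCategory C]
  [Preadditive C] [Linear K C] [MonoidalPreadditive C] [MonoidalLinear K C] [SymmetricCategory C]

omit [CharZero K] [Linear K C] [MonoidalLinear K C] [MonoidalPreadditive C] in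
theorem mv_E (b : Bool) (X : C) (n : ℕ) (p : Fin (n + 1)) :
    mv X n p ≫ E b X (n + 1) = (cs b) ^ (p : ℕ) • E b X (n + 1) := by
  rw [mv_eq, act_E, chi_cycleRange]

section Aux

variable {C : Type u} [Category.{v} C] [MonoidalCategory C]

/-- `X ◁ f` as an endomorphism of `pow X (n + 1)` -/
def symid_wl (X : C) (n : ℕ) (f : pow X n ⟶ pow X n) : pow X (n + 1) ⟶ pow X (n + 1) := X ◁ f

theorem symid_wl_comp (X : C) (n : ℕ) (f g : pow X n ⟶ pow X n) :
    symid_wl X n f ≫ symid_wl X n g = symid_wl X n (f ≫ g) :=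
  (MonoidalCategory.whiskerLeft_comp X f g).symm

variable [Preadditive C] [MonoidalPreadditive C]

theorem symid_wl_zsmul (X : C) (n : ℕ) (c : ℤ) (f : pow X n ⟶ pow X n) :
    symid_wl X n (c • f) = c • symid_wl X n f :=
  (tensorLeft X).map_zsmul

end Aux

section Aux2

variable {C : Type u} [Category.{v} C] [MonoidalCategory C] [SymmetricCategory C] [Preadditive C]

theorem symid_EL_succ (b : Bool) (X : C) (m a : ℕ) :
    EL b X m (a + 1) = ∑ p : Fin (a + 1), (cs b) ^ (p : ℕ) •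
      (symid_wl X (m + a) (EL b X m a) ≫ mv X (m + a) p) := rfl

/-- `sw` as an endomorphism of `pow X (k + 2)` -/
def symid_sw (X : C) (k : ℕ) : pow X (k + 2) ⟶ pow X (k + 2) := sw X (pow X k)

theorem symid_cs (b : Bool) (q : ℕ) : (cs b) ^ q * (cs b) ^ q = 1 := by
  rw [← mul_pow]
  cases b <;> simp [cs]

variable [MonoidalPreadditive C]

theorem symid_E_succ (b : Bool) (X : C) (n : ℕ) :
    E b X (n + 1) = ∑ p : Fin (n + 1), (cs b) ^ (p : ℕ) •
      (symid_wl X n (E b X n) ≫ mv X n p) := E_succ b X n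

theorem symid_E_whisker (b : Bool) (X : C) (k : ℕ) :
    E b X (k + 1) ≫ symid_wl X k (E b X k) = (k.factorial : ℤ) • E b X (k + 1) :=
  E_whisker b X k

theorem symid_whisker_E (b : Bool) (X : C) (k : ℕ) :
    symid_wl X k (E b X k) ≫ E b X (k + 1) = (k.factorial : ℤ) • E b X (k + 1) :=
  whisker_E b X k

theorem symid_mv_F (b : Bool) (X : C) (n q : ℕ) (hq : q + 1 ≤ n) :
    mv X n (q + 1) ≫ symid_wl X n (E b X n) =
      (cs b) ^ q • (mv X n 1 ≫ symid_wl X n (E b X n)) := by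
  obtain ⟨k, rfl⟩ : ∃ k, n = k + 1 := ⟨n - 1, by omega⟩
  have h : ∀ p : ℕ, p < k + 1 → mv X (k + 1) (p + 1) ≫ symid_wl X (k + 1) (E b X (k + 1)) =
      (cs b) ^ p • (symid_sw X k ≫ symid_wl X (k + 1) (E b X (k + 1))) := by
    intro p hp
    have h1 : mv X (k + 1) (p + 1) = symid_sw X k ≫ symid_wl X (k + 1) (mv X k p) := rfl
    have h2 : mv X k p ≫ E b X (k + 1) = (cs b) ^ p • E b X (k + 1) := mv_E b X k ⟨p, hp⟩
    rw [h1, Category.assoc, symid_wl_comp, h2, symid_wl_zsmul, Preadditive.comp_zsmul]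
  rw [h q (by omega)]
  have h0 := h 0 (by omega)
  rw [pow_zero, one_smul] at h0
  rw [← h0]

/-- the common sum -/
theorem symid_sum (b : Bool) (X : C) (n j : ℕ) (hj : j ≤ n) :
    ∑ p : Fin (j + 1), (cs b) ^ (p : ℕ) •
      (symid_wl X n (E b X n) ≫ mv X n p ≫ symid_wl X n (E b X n)) =
      (n.factorial : ℤ) • symid_wl X n (E b X n) + ((j : ℤ) * cs b) •
        (symid_wl X n (E b X n) ≫ mv X n 1 ≫ symid_wl X n (E b X n)) := by
  rw [Fin.sum_univ_succ]
  congr 1
  · simp only [Fin.val_zero, pow_zero, one_smul]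
    rw [mv_zero, Category.id_comp, symid_wl_comp, E_E, symid_wl_zsmul]
  · have h : ∀ q : Fin j, (cs b) ^ ((q.succ : Fin (j + 1)) : ℕ) •
        (symid_wl X n (E b X n) ≫ mv X n (q.succ : Fin (j + 1)) ≫ symid_wl X n (E b X n)) =
        cs b • (symid_wl X n (E b X n) ≫ mv X n 1 ≫ symid_wl X n (E b X n)) := by
      intro q
      have hq : (q : ℕ) + 1 ≤ n := by
        have := q.2
        omega
      rw [Fin.val_succ, symid_mv_F b X n q hq, Preadditive.comp_zsmul, smul_smul, pow_succ,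
        mul_assoc, mul_comm (cs b) ((cs b) ^ (q : ℕ)), ← mul_assoc, symid_cs, one_mul]
    rw [Finset.sum_congr rfl fun q _ => h q, Finset.sum_const, Finset.card_univ, Fintype.card_fin,
      ← natCast_zsmul, smul_smul]

end Aux2

omit [MonoidalCategory C] [MonoidalPreadditive C] [MonoidalLinear K C] [SymmetricCategory C] in
include K in
theorem symid_cancel {X Y : C} (n : ℕ) (f g : X ⟶ Y)
    (h : (n.factorial : ℤ) • f = (n.factorial : ℤ) • g) : f = g := by
  have h1 : ((n.factorial : ℤ) : K) • f = ((n.factorial : ℤ) : K) • g := by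
    rw [Int.cast_smul_eq_zsmul, Int.cast_smul_eq_zsmul, h]
  have h2 : ((n.factorial : ℤ) : K) ≠ 0 := by
    rw [Int.cast_natCast]
    exact Nat.cast_ne_zero.2 n.factorial_ne_zero
  have h3 := congrArg (fun z => (((n.factorial : ℤ) : K)⁻¹) • z) h1
  simpa only [smul_smul, inv_mul_cancel₀ h2, one_smul] using h3

include K in
theorem E_EL (b : Bool) (X : C) (m a : ℕ) :
    E b X (m + a) ≫ EL b X m a = (a.factorial : ℤ) • E b X (m + a) := by
  induction a with
  | zero =>
    change E b X m ≫ 𝟙 _ = _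
    rw [Category.comp_id, Nat.factorial_zero, Nat.cast_one, one_smul]
    rfl
  | succ a ih =>
    have h1 : E b X (m + a + 1) ≫ symid_wl X (m + a) (EL b X m a) =
        (a.factorial : ℤ) • E b X (m + a + 1) := by
      apply symid_cancel K (m + a)
      rw [← Preadditive.zsmul_comp, ← symid_E_whisker, Category.assoc, symid_wl_comp, ih,
        symid_wl_zsmul, Preadditive.comp_zsmul, symid_E_whisker, smul_smul,
        smul_smul, mul_comm]
    change E b X (m + a + 1) ≫ EL b X m (a + 1) = _ • E b X (m + a + 1)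
    rw [symid_EL_succ, Preadditive.comp_sum]
    have h2 : ∀ p : Fin (a + 1), E b X (m + a + 1) ≫ ((cs b) ^ (p : ℕ) •
        (symid_wl X (m + a) (EL b X m a) ≫ mv X (m + a) p)) =
        (a.factorial : ℤ) • E b X (m + a + 1) := by
      intro p
      have hp : (p : ℕ) < m + a + 1 := by
        have := p.2
        omega
      have h3 : E b X (m + a + 1) ≫ mv X (m + a) p = (cs b) ^ (p : ℕ) • E b X (m + a + 1) :=
        E_mv b X (m + a) ⟨p, hp⟩
      have h4 : (cs b) ^ (p : ℕ) * ((a.factorial : ℤ) * (cs b) ^ (p : ℕ)) = (a.factorial : ℤ) := by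
        rw [mul_left_comm, symid_cs, mul_one]
      rw [Preadditive.comp_zsmul, ← Category.assoc, h1, Preadditive.zsmul_comp, h3, smul_smul,
        smul_smul, mul_assoc, h4]
    rw [Finset.sum_congr rfl fun p _ => h2 p, Finset.sum_const, Finset.card_univ,
      Fintype.card_fin, ← natCast_zsmul, smul_smul, Nat.factorial_succ, Nat.cast_mul]

include K in
theorem wT_E (b : Bool) (X : C) (m a : ℕ) :
    wT X (E b X m) a ≫ E b X (m + a) = (m.factorial : ℤ) • E b X (m + a) := by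
  induction a with
  | zero => exact E_E b X m
  | succ a ih =>
    change symid_wl X (m + a) (wT X (E b X m) a) ≫ E b X (m + a + 1) =
      (m.factorial : ℤ) • E b X (m + a + 1)
    apply symid_cancel K (m + a)
    rw [← Preadditive.comp_zsmul, ← symid_whisker_E, ← Category.assoc, symid_wl_comp, ih,
      symid_wl_zsmul, Preadditive.zsmul_comp, symid_whisker_E, smul_smul, smul_smul, mul_comm]

/-- `X ◁ E b X n` as an endomorphism of `pow X (n + 1)` -/
def FE {C : Type u} [Category.{v} C] [MonoidalCategory C] [SymmetricCategory C] [Preadditive C]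
    (b : Bool) (X : C) (n : ℕ) : pow X (n + 1) ⟶ pow X (n + 1) :=
  X ◁ E b X n

include K in
theorem sym_id (b : Bool) (X : C) (m a : ℕ) :
    ((m + a : ℕ) : ℤ) • (FE b X (m + a) ≫ EL b X m (a + 1) ≫ FE b X (m + a))
      = ((a.factorial * (m + a).factorial : ℕ) : ℤ) •
        ((m : ℤ) • FE b X (m + a) + (a : ℤ) • E b X (m + a + 1)) := by
  change ((m + a : ℕ) : ℤ) • (symid_wl X (m + a) (E b X (m + a)) ≫ EL b X m (a + 1) ≫
    symid_wl X (m + a) (E b X (m + a))) = ((a.factorial * (m + a).factorial : ℕ) : ℤ) •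
        ((m : ℤ) • symid_wl X (m + a) (E b X (m + a)) + (a : ℤ) • E b X (m + a + 1))
  set F := symid_wl X (m + a) (E b X (m + a)) with hF
  set W := F ≫ mv X (m + a) 1 ≫ F with hW
  have hFEL : F ≫ symid_wl X (m + a) (EL b X m a) = (a.factorial : ℤ) • F := by
    rw [hF, symid_wl_comp, E_EL K, symid_wl_zsmul]
  have h1 : F ≫ EL b X m (a + 1) ≫ F = (a.factorial : ℤ) •
      (((m + a).factorial : ℤ) • F + ((a : ℤ) * cs b) • W) := by
    rw [hW, ← symid_sum b X (m + a) a (by omega), symid_EL_succ, Preadditive.sum_comp,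
      Preadditive.comp_sum, Finset.smul_sum]
    refine Finset.sum_congr rfl fun p _ => ?_
    rw [Preadditive.zsmul_comp, Preadditive.comp_zsmul, Category.assoc, ← Category.assoc F, hFEL,
      Preadditive.zsmul_comp, smul_smul, smul_smul, mul_comm]
  have h2 : ((m + a).factorial : ℤ) • E b X (m + a + 1) =
      ((m + a).factorial : ℤ) • F + (((m + a : ℕ) : ℤ) * cs b) • W := by
    rw [hW, ← symid_sum b X (m + a) (m + a) le_rfl, ← symid_E_whisker, symid_E_succ,
      Preadditive.sum_comp]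
    refine Finset.sum_congr rfl fun p _ => ?_
    rw [Preadditive.zsmul_comp, Category.assoc]
  have h3 : (((m + a : ℕ) : ℤ) * cs b) • W =
      ((m + a).factorial : ℤ) • E b X (m + a + 1) - ((m + a).factorial : ℤ) • F := by
    rw [h2]
    abel
  rw [h1]
  have h4 : ((m + a : ℕ) : ℤ) • ((a.factorial : ℤ) •
      (((m + a).factorial : ℤ) • F + ((a : ℤ) * cs b) • W)) =
      ((a.factorial : ℤ) * (((m + a : ℕ) : ℤ) * ((m + a).factorial : ℤ))) • F +
      ((a.factorial : ℤ) * (a : ℤ)) • ((((m + a : ℕ) : ℤ) * cs b) • W) := by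
    simp only [smul_add, smul_smul]
    congr 2 <;> ring
  rw [h4, h3]
  simp only [smul_sub, smul_add, smul_smul]
  push_cast
  module

end Pool.Agent.W_MP_868bb7_ag
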