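import Pool.Agent.W_MP_868bb7_ag.TraceA

set_option autoImplicit false

/-!
# TraceB: partial trace over a tensor product (vanishing axiom)

`(X ⊗ Y)ᘁ` is identified with `Yᘁ ⊗ Xᘁ` by `rightDualTensorIso X Y` (or `rightDualIso` applied to the
given pairing and the instance `ExactPairing.tensor`).  Under this isomorphism
* `η_ (X ⊗ Y) _` becomes the nested coevaluation (`ExactPairing.tensor_coevaluation`);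
* `cap (X ⊗ Y)` becomes the nested `X ◁ cap Y ▷ Xᘁ` followed by `cap X`
  (`ExactPairing.tensor_evaluation` and the hexagon identities, `braiding_tensor_left_hom`,
  `braiding_tensor_right_hom`, naturality of the braiding).
The rest is coherence (`monoidal`).
-/

namespace Pool.Agent.W_MP_868bb7_ag

open CategoryTheory MonoidalCategory

universe v u

variable {C : Type u} [Category.{v} C] [MonoidalCategory C]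

/-- partial trace with respect to an arbitrary pair of a coevaluation and an evaluation -/
def ptrG (X D : C) (e : 𝟙_ C ⟶ X ⊗ D) (c : X ⊗ D ⟶ 𝟙_ C) {A B : C} (F : A ⊗ X ⟶ B ⊗ X) : A ⟶ B :=
  (ρ_ A).inv ≫ A ◁ e ≫ (α_ A X D).inv ≫ F ▷ D ≫ (α_ B X D).hom ≫ B ◁ c ≫ (ρ_ B).hom

theorem ptrG_change {X D D' : C} (e : 𝟙_ C ⟶ X ⊗ D) (c : X ⊗ D' ⟶ 𝟙_ C) (φ : D ⟶ D')
    {A B : C} (F : A ⊗ X ⟶ B ⊗ X) :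
    ptrG X D' (e ≫ X ◁ φ) c F = ptrG X D e (X ◁ φ ≫ c) F := by
  unfold ptrG
  simp only [MonoidalCategory.whiskerLeft_comp, Category.assoc, associator_inv_naturality_right_assoc,
    whisker_exchange_assoc]
  simp only [← associator_naturality_right_assoc]

theorem ptrG_tensor {X Y P Q : C} (e1 : 𝟙_ C ⟶ X ⊗ Q) (e2 : 𝟙_ C ⟶ Y ⊗ P)
    (c1 : X ⊗ Q ⟶ 𝟙_ C) (c2 : Y ⊗ P ⟶ 𝟙_ C) {A B : C} (F : A ⊗ (X ⊗ Y) ⟶ B ⊗ (X ⊗ Y)) :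
    ptrG (X ⊗ Y) (P ⊗ Q) (e1 ⊗≫ (X ◁ e2) ▷ Q ⊗≫ 𝟙 _) (𝟙 _ ⊗≫ (X ◁ c2) ▷ Q ⊗≫ c1) F =
    ptrG X Q e1 c1 (ptrG Y P e2 c2 ((α_ A X Y).hom ≫ F ≫ (α_ B X Y).inv)) := by
  unfold ptrG
  monoidal

variable [SymmetricCategory C]

theorem cap_nat {P X Q : C} (c : X ⊗ Q ⟶ 𝟙_ C) :
    (𝟙 _ ⊗≫ (β_ X P).hom ▷ Q ⊗≫ P ◁ c ⊗≫ 𝟙 _ : X ⊗ (P ⊗ Q) ⟶ P) =
      𝟙 _ ⊗≫ X ◁ (β_ P Q).hom ⊗≫ c ▷ P ⊗≫ 𝟙 _ := by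
  have h : c ▷ P = (β_ (X ⊗ Q) P).hom ≫ P ◁ c ≫ (β_ (𝟙_ C) P).inv := by
    rw [← BraidedCategory.braiding_naturality_left_assoc, Iso.hom_inv_id, Category.comp_id]
  rw [h, BraidedCategory.braiding_tensor_left_hom, braiding_inv_tensorUnit_left]
  calc _ = 𝟙 _ ⊗≫ X ◁ ((β_ P Q).hom ≫ (β_ Q P).hom) ⊗≫ (β_ X P).hom ▷ Q ⊗≫ P ◁ c ⊗≫ 𝟙 _ := by
        rw [SymmetricCategory.symmetry]; monoidal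
    _ = _ := by monoidal

theorem cap_tensor_gen {X Y P Q : C} (e1 : Q ⊗ X ⟶ 𝟙_ C) (e2 : P ⊗ Y ⟶ 𝟙_ C) :
    (β_ (X ⊗ Y) (P ⊗ Q)).hom ≫ (𝟙 _ ⊗≫ P ◁ (e1 ▷ Y) ⊗≫ e2) =
      𝟙 _ ⊗≫ (X ◁ ((β_ Y P).hom ≫ e2)) ▷ Q ⊗≫ ((β_ X Q).hom ≫ e1) := by
  calc _ = 𝟙 _ ⊗≫ X ◁ (β_ Y P).hom ▷ Q ⊗≫ X ◁ P ◁ (β_ Y Q).hom ⊗≫
        ((𝟙 _ ⊗≫ (β_ X P).hom ▷ Q ⊗≫ P ◁ ((β_ X Q).hom ≫ e1) ⊗≫ 𝟙 _ : X ⊗ (P ⊗ Q) ⟶ P)) ▷ Y ⊗≫ e2 := by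
        rw [BraidedCategory.braiding_tensor_left_hom, BraidedCategory.braiding_tensor_right_hom,
          BraidedCategory.braiding_tensor_right_hom]
        monoidal
    _ = 𝟙 _ ⊗≫ X ◁ (β_ Y P).hom ▷ Q ⊗≫ X ◁ P ◁ (β_ Y Q).hom ⊗≫
        ((𝟙 _ ⊗≫ X ◁ (β_ P Q).hom ⊗≫ ((β_ X Q).hom ≫ e1) ▷ P ⊗≫ 𝟙 _ : X ⊗ (P ⊗ Q) ⟶ P)) ▷ Y ⊗≫ e2 := by
        rw [cap_nat]
    _ = 𝟙 _ ⊗≫ X ◁ (β_ Y P).hom ▷ Q ⊗≫ X ◁ (β_ (P ⊗ Y) Q).hom ⊗≫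
        (((β_ X Q).hom ≫ e1) ▷ (P ⊗ Y) ≫ 𝟙_ C ◁ e2) ⊗≫ 𝟙 _ := by
        rw [BraidedCategory.braiding_tensor_left_hom]
        monoidal
    _ = 𝟙 _ ⊗≫ X ◁ (β_ Y P).hom ▷ Q ⊗≫ X ◁ ((β_ (P ⊗ Y) Q).hom ≫ Q ◁ e2) ⊗≫
        ((β_ X Q).hom ≫ e1) ⊗≫ 𝟙 _ := by
        rw [← whisker_exchange]
        monoidal
    _ = 𝟙 _ ⊗≫ X ◁ (β_ Y P).hom ▷ Q ⊗≫ X ◁ (e2 ▷ Q ≫ (β_ (𝟙_ C) Q).hom) ⊗≫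
        ((β_ X Q).hom ≫ e1) ⊗≫ 𝟙 _ := by
        rw [BraidedCategory.braiding_naturality_left]
    _ = _ := by
        rw [braiding_tensorUnit_left]
        monoidal


variable [RightRigidCategory C]

theorem ptr_eq_ptrG (X : C) {A B : C} (F : A ⊗ X ⟶ B ⊗ X) :
    ptr X F = ptrG X Xᘁ (η_ X Xᘁ) (cap X) F := rfl

theorem cap_tensor_nested (X Y : C) :
    (β_ (X ⊗ Y) (Yᘁ ⊗ Xᘁ)).hom ≫ ε_ (X ⊗ Y) (Yᘁ ⊗ Xᘁ) =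
      𝟙 _ ⊗≫ (X ◁ cap Y) ▷ Xᘁ ⊗≫ cap X := by
  rw [ExactPairing.tensor_evaluation, cap_tensor_gen]
  rfl

theorem ptr_tensor {X Y A B : C} (F : A ⊗ (X ⊗ Y) ⟶ B ⊗ (X ⊗ Y)) :
    ptr (X ⊗ Y) F = ptr X (ptr Y ((α_ A X Y).hom ≫ F ≫ (α_ B X Y).inv)) := by
  let φ : Yᘁ ⊗ Xᘁ ⟶ (X ⊗ Y)ᘁ :=
    @rightAdjointMate C _ _ (X ⊗ Y) (X ⊗ Y) _ hasRightDualTensor (𝟙 (X ⊗ Y))
  have h1 : η_ (X ⊗ Y) (Yᘁ ⊗ Xᘁ) ≫ (X ⊗ Y) ◁ φ = η_ (X ⊗ Y) (X ⊗ Y)ᘁ := by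
    have h := @coevaluation_comp_rightAdjointMate C _ _ (X ⊗ Y) (X ⊗ Y) _ hasRightDualTensor
      (𝟙 (X ⊗ Y))
    rw [id_whiskerRight, Category.comp_id] at h
    exact h
  have h2 : φ ▷ (X ⊗ Y) ≫ ε_ (X ⊗ Y) (X ⊗ Y)ᘁ = ε_ (X ⊗ Y) (Yᘁ ⊗ Xᘁ) := by
    have h := @rightAdjointMate_comp_evaluation C _ _ (X ⊗ Y) (X ⊗ Y) _ hasRightDualTensor
      (𝟙 (X ⊗ Y))
    rw [whiskerLeft_id, Category.id_comp] at h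
    exact h
  have h3 : (X ⊗ Y) ◁ φ ≫ cap (X ⊗ Y) = 𝟙 _ ⊗≫ (X ◁ cap Y) ▷ Xᘁ ⊗≫ cap X := by
    rw [← cap_tensor_nested, ← h2, ← BraidedCategory.braiding_naturality_right_assoc]
    rfl
  rw [ptr_eq_ptrG, ← h1, ptrG_change, h3, ExactPairing.tensor_coevaluation, ptrG_tensor]
  rfl

end Pool.Agent.W_MP_868bb7_ag
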