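import Pool.Agent.W_MP_868bb7_ag.BCSym
import Pool.Agent.W_MP_868bb7_ag.PowAct
import Pool.Agent.W_MP_868bb7_ag.TraceK

set_option autoImplicit false

/-!
# BCPow: base change of tensor powers, symmetrizers and traces
-/

namespace Pool.Agent.W_MP_868bb7_ag

open CategoryTheory MonoidalCategory TensorProduct

universe v u w

variable (K L : Type w) [Field K] [Field L] [Algebra K L] {C : Type u} [Category.{v} C]
  [Preadditive C] [Linear K C] [MonoidalCategory C] [MonoidalPreadditive C] [MonoidalLinear K C]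

theorem bc_wl (X : C) {Y Z : C} (f : Y ⟶ Z) :
    bc K L (X ◁ f) = (BC.mk X : BC K L C) ◁ bc K L f :=
  (wl_tm K L (BC.mk X) (Y := BC.mk Y) (Z := BC.mk Z) 1 f).symm

theorem bc_wr (X : C) {Y Z : C} (f : Y ⟶ Z) :
    bc K L (f ▷ X) = bc K L f ▷ (BC.mk X : BC K L C) :=
  (wr_tm K L (BC.mk X) (Y := BC.mk Y) (Z := BC.mk Z) 1 f).symm

theorem bc_th {X₁ Y₁ X₂ Y₂ : C} (f : X₁ ⟶ Y₁) (g : X₂ ⟶ Y₂) :
    bc K L (f ⊗ₘ g) = (bc K L f ⊗ₘ bc K L g) := by
  rw [MonoidalCategory.tensorHom_def, bc_comp, bc_wr, bc_wl]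
  rfl

/-- comparison of tensor powers -/
noncomputable def powIso (X : C) : (n : ℕ) → (pow (BC.mk X : BC K L C) n ≅ BC.mk (pow X n))
  | 0 => Iso.refl _
  | n + 1 => whiskerLeftIso (BC.mk X : BC K L C) (powIso X n)

theorem powIso_succ (X : C) (n : ℕ) :
    (powIso K L X (n + 1)).hom = (BC.mk X : BC K L C) ◁ (powIso K L X n).hom := rfl

theorem powMap_bc {X Y : C} (f : X ⟶ Y) (n : ℕ) :
    powMap (bc K L f) n ≫ (powIso K L Y n).hom = (powIso K L X n).hom ≫ bc K L (powMap f n) := by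
  induction n with
  | zero => exact (Category.comp_id _).trans (Category.id_comp _).symm
  | succ n ih =>
    rw [powIso_succ, powIso_succ]
    change (bc K L f ⊗ₘ powMap (bc K L f) n) ≫ (BC.mk Y : BC K L C) ◁ (powIso K L Y n).hom
      = (BC.mk X : BC K L C) ◁ (powIso K L X n).hom ≫ bc K L (f ⊗ₘ powMap f n)
    rw [bc_th, MonoidalCategory.tensorHom_def, Category.assoc, ← MonoidalCategory.whiskerLeft_comp,
      ih, MonoidalCategory.whiskerLeft_comp, ← Category.assoc, ← MonoidalCategory.whisker_exchange,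
      Category.assoc]
    rfl

variable [SymmetricCategory C]

theorem bc_sw (X Z : C) : bc K L (sw X Z) = sw (BC.mk X : BC K L C) (BC.mk Z) := by
  unfold sw
  rw [bc_comp, bc_comp, bc_wr]
  rfl

theorem mv_bc (X : C) (n p : ℕ) :
    mv (BC.mk X : BC K L C) n p ≫ (powIso K L X (n + 1)).hom
      = (powIso K L X (n + 1)).hom ≫ bc K L (mv X n p) := by
  induction n generalizing p with
  | zero => exact (Category.id_comp _).trans (Category.comp_id _).symm
  | succ n ih =>
    cases p with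
    | zero => exact (Category.id_comp _).trans (Category.comp_id _).symm
    | succ p =>
      have h1 : (BC.mk X : BC K L C) ◁ mv (BC.mk X : BC K L C) n p ≫
          (BC.mk X : BC K L C) ◁ (powIso K L X (n + 1)).hom
          = (BC.mk X : BC K L C) ◁ ((BC.mk X : BC K L C) ◁ (powIso K L X n).hom) ≫
            bc K L (X ◁ mv X n p) := by
        refine (MonoidalCategory.whiskerLeft_comp (BC.mk X : BC K L C) (mv (BC.mk X : BC K L C) n p)
          (powIso K L X (n + 1)).hom).symm.trans ?_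
        refine (congrArg (fun z : pow (BC.mk X : BC K L C) (n + 1) ⟶ BC.mk (pow X (n + 1)) =>
          (BC.mk X : BC K L C) ◁ z) (ih p)).trans ?_
        refine (MonoidalCategory.whiskerLeft_comp (BC.mk X : BC K L C)
          (powIso K L X (n + 1)).hom (bc K L (mv X n p))).trans ?_
        exact congrArg (fun z => (BC.mk X : BC K L C) ◁ (powIso K L X (n + 1)).hom ≫ z)
          (bc_wl K L X (mv X n p)).symm
      refine (Category.assoc (sw (BC.mk X : BC K L C) (pow (BC.mk X : BC K L C) n))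
        ((BC.mk X : BC K L C) ◁ mv (BC.mk X : BC K L C) n p)
        ((BC.mk X : BC K L C) ◁ (powIso K L X (n + 1)).hom)).trans ?_
      refine (congrArg (fun z => sw (BC.mk X : BC K L C) (pow (BC.mk X : BC K L C) n) ≫ z)
        h1).trans ?_
      refine (Category.assoc (sw (BC.mk X : BC K L C) (pow (BC.mk X : BC K L C) n))
        ((BC.mk X : BC K L C) ◁ ((BC.mk X : BC K L C) ◁ (powIso K L X n).hom))
        (bc K L (X ◁ mv X n p))).symm.trans ?_
      refine (congrArg (fun z => z ≫ bc K L (X ◁ mv X n p))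
        (sw_nat (BC.mk X : BC K L C) (powIso K L X n).hom)).trans ?_
      refine (Category.assoc ((BC.mk X : BC K L C) ◁ ((BC.mk X : BC K L C) ◁ (powIso K L X n).hom))
        (sw (BC.mk X : BC K L C) (BC.mk (pow X n))) (bc K L (X ◁ mv X n p))).trans ?_
      refine congrArg (fun z => (BC.mk X : BC K L C) ◁ ((BC.mk X : BC K L C) ◁
        (powIso K L X n).hom) ≫ z) ?_
      refine Eq.trans ?_ (bc_comp K L (sw X (pow X n)) (X ◁ mv X n p)).symm
      rw [bc_sw]
      rfl

theorem act_bc (X : C) (n : ℕ) (σ : Equiv.Perm (Fin n)) :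
    act (BC.mk X : BC K L C) n σ ≫ (powIso K L X n).hom
      = (powIso K L X n).hom ≫ bc K L (act X n σ) := by
  induction n with
  | zero => exact (Category.id_comp _).trans (Category.comp_id _).symm
  | succ n ih =>
    have h1 : (BC.mk X : BC K L C) ◁ act (BC.mk X : BC K L C) n (tail σ) ≫
        (BC.mk X : BC K L C) ◁ (powIso K L X n).hom
        = (BC.mk X : BC K L C) ◁ (powIso K L X n).hom ≫ bc K L (X ◁ act X n (tail σ)) := by
      rw [← MonoidalCategory.whiskerLeft_comp, ih, MonoidalCategory.whiskerLeft_comp]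
      exact congrArg (fun z => (BC.mk X : BC K L C) ◁ (powIso K L X n).hom ≫ z)
          (bc_wl K L X (act X n (tail σ))).symm
    refine (Category.assoc ((BC.mk X : BC K L C) ◁ act (BC.mk X : BC K L C) n (tail σ))
      (mv (BC.mk X : BC K L C) n (σ 0 : Fin (n + 1))) (powIso K L X (n + 1)).hom).trans ?_
    refine (congrArg (fun z : pow (BC.mk X : BC K L C) (n + 1) ⟶ BC.mk (pow X (n + 1)) =>
      (BC.mk X : BC K L C) ◁ act (BC.mk X : BC K L C) n (tail σ) ≫ z)
      (mv_bc K L X n (σ 0 : Fin (n + 1)))).trans ?_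
    refine (Category.assoc ((BC.mk X : BC K L C) ◁ act (BC.mk X : BC K L C) n (tail σ))
      (powIso K L X (n + 1)).hom (bc K L (mv X n (σ 0 : Fin (n + 1))))).symm.trans ?_
    refine (congrArg (fun z : pow (BC.mk X : BC K L C) (n + 1) ⟶ BC.mk (pow X (n + 1)) =>
      z ≫ bc K L (mv X n (σ 0 : Fin (n + 1)))) h1).trans ?_
    refine (Category.assoc ((BC.mk X : BC K L C) ◁ (powIso K L X n).hom)
      (bc K L (X ◁ act X n (tail σ))) (bc K L (mv X n (σ 0 : Fin (n + 1))))).trans ?_
    exact congrArg (fun z => (BC.mk X : BC K L C) ◁ (powIso K L X n).hom ≫ z)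
      (bc_comp K L (X ◁ act X n (tail σ)) (mv X n (σ 0 : Fin (n + 1)))).symm

theorem E_bc (b : Bool) (X : C) (n : ℕ) :
    E b (BC.mk X : BC K L C) n ≫ (powIso K L X n).hom
      = (powIso K L X n).hom ≫ bc K L (E b X n) := by
  unfold E
  rw [bc_sum, Preadditive.sum_comp, Preadditive.comp_sum]
  refine Finset.sum_congr rfl fun σ _ => ?_
  rw [bc_zsmul, Preadditive.zsmul_comp, Preadditive.comp_zsmul, act_bc]

theorem Fd_bc (b : Bool) {X : C} (f : X ⟶ X) (h : Fd b f) : Fd b (bc K L f) := by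
  obtain ⟨n, hn, h⟩ := h
  refine ⟨n, hn, ?_⟩
  rw [← cancel_mono (powIso K L X n).hom, Category.assoc, E_bc, ← Category.assoc, powMap_bc,
    Category.assoc, ← bc_comp, h, bc_zero, Limits.comp_zero, Limits.zero_comp]

variable [RightRigidCategory C]

theorem bc_cap (X : C) : bc K L (cap X) = cap (BC.mk X : BC K L C) := by
  unfold cap
  rw [bc_comp]
  rfl

theorem bc_ptr (X : C) {A B : C} (F : A ⊗ X ⟶ B ⊗ X) :
    bc K L (ptr X F) = ptr (C := BC K L C) (BC.mk X) (A := BC.mk A) (B := BC.mk B)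
      (bc K L (C := C) (X := A ⊗ X) (Y := B ⊗ X) F) := by
  unfold ptr
  rw [bc_comp, bc_comp, bc_comp, bc_comp, bc_comp, bc_comp, bc_wl, bc_wl, bc_wr, bc_cap]
  rfl

theorem bc_trU {X : C} (f : X ⟶ X) : bc K L (trU f) = trU (bc K L f) := by
  unfold trU
  rw [bc_comp, bc_comp, bc_wr, bc_cap]
  rfl

theorem bc_tr [UnitK K C] [UnitK L (BC K L C)] {X : C} (f : X ⟶ X) :
    tr L (bc K L f) = algebraMap K L (tr K f) := by
  apply tr_unique
  rw [← bc_trU, tr_spec K f, bc_smul]
  rfl

end Pool.Agent.W_MP_868bb7_ag
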