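import Pool.Agent.W_MP_868bb7_ag.Concl
import Pool.Agent.W_MP_868bb7_ag.BCPow

set_option autoImplicit false

/-!
# BaseChange: the square root of `la` is in `K`

Let `L = AlgebraicClosure K` (any field extension in which `la` is a square will do) and let `BC L C` be
the category with the objects of `C` and `Hom(X, Y) = L ⊗[K] (X ⟶ Y)`, composition
`TensorProduct.map₂ (LinearMap.mul K L) (composition)`, i.e. `(l ⊗ f) ≫ (m ⊗ g) = (l m) ⊗ (f ≫ g)`.
All structures are extended: preadditive, `L`-linear, monoidal (`X ◁ (l ⊗ f) = l ⊗ (X ◁ f)`,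
associator `1 ⊗ α` ...), monoidal preadditive, monoidal linear, symmetric, right rigid (dual object of
`C`, `η = 1 ⊗ η`, `ε = 1 ⊗ ε`), `UnitK L`.  All axioms are checked on pure tensors
(`TensorProduct.induction_on`).  For `f : X ⟶ Y` let `bc f = 1 ⊗ f`; it is compatible with everything
(`rfl` or one rewrite), in particular `bc (ptr N F) = ptr N (bc F)`, `tr L (bc f) = algebraMap K L (tr K f)`.
`bc` is injective on morphisms (`L` is faithfully flat / has a basis containing `1`).
`Fd b f → Fd b (bc f)`: `powMap (bc f) n ≫ E b n` is `bc` of `powMap f n ≫ E b n` up to the identity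
isomorphisms `pow X n` (in `BC L C`) `≅ pow X n` (in `C`): construct by induction on `n` an isomorphism
`pow (X : BC L C) n ≅ (pow X n : C)` in `BC L C` which intertwines `mv`, `act`, `powMap`.
So `D : Dat M N` gives `D.bc : Dat M N` in `BC L C` with `t` and `la` the images of `t`, `la`.  Choose
`s : L` with `s^2 = la` (`IsAlgClosed.exists_pow_nat_eq`); `int_ratio` gives `t = j s`, `j : ℤ`,
`t ≠ 0` (`t_ne`), so `s = t / j` is in the image of `K` and `(t / j)^2 = la` in `K`.
-/

namespace Pool.Agent.W_MP_868bb7_ag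

open CategoryTheory MonoidalCategory

universe v u w

variable (K : Type w) [Field K] [CharZero K] {C : Type u} [Category.{v} C] [MonoidalCategory C]
  [Preadditive C] [Linear K C] [MonoidalPreadditive C] [MonoidalLinear K C]
  [SymmetricCategory C] [RightRigidCategory C] [UnitK K C]

section

variable (L : Type w) [Field L] [Algebra K L]

/-- base change of the data -/
noncomputable def Dat.bcDat {M N : C} (D : Dat M N) :
    Dat (C := BC K L C) (BC.mk M : BC K L C) (BC.mk N : BC K L C) where
  e := bc K L D.e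
  idem := by
    have h := congrArg (bc K L) D.idem
    rw [bc_comp] at h
    exact h
  ev := Fd_bc K L true D.e D.ev
  od := by
    have h := Fd_bc K L false _ D.od
    rw [bc_sub] at h
    exact h
  ne := by
    intro h
    apply D.ne
    apply bc_injective K L
    rw [bc_zero]
    exact h

theorem Dat.bcDat_T {M N : C} (D : Dat M N) : (D.bcDat K L).T = bc K L D.T := by
  unfold Dat.T
  rw [bc_sub, bc_sub]
  rfl

theorem Dat.bcDat_T' {M N : C} (D : Dat M N) : (D.bcDat K L).T' = bc K L D.T' := by
  unfold Dat.T'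
  rw [bcDat_T, bc_comp, bc_comp]
  rfl

theorem Dat.bcDat_c {M N : C} (D : Dat M N) : (D.bcDat K L).c = bc K L D.c := by
  unfold Dat.c
  rw [bcDat_T', bc_ptr]

variable [UnitK L (BC K L C)]

theorem Dat.bcDat_t {M N : C} (D : Dat M N) : (D.bcDat K L).t L = algebraMap K L (D.t K) := by
  unfold Dat.t
  rw [bcDat_T]
  exact bc_tr K L D.T

theorem Dat.bcDat_la {M N : C} (D : Dat M N) :
    (D.bcDat K L).la L = algebraMap K L (D.la K) := by
  unfold Dat.la
  rw [bcDat_t, bcDat_c, map_div₀, map_pow, ← bc_tr, bc_comp, bc_comp]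

end

theorem Dat.exists_sqrt {M N : C} (D : Dat M N) : ∃ s : K, s ^ 2 = D.la K := by
  haveI : UnitK (AlgebraicClosure K) (BC K (AlgebraicClosure K) C) :=
    unitK_BC K (AlgebraicClosure K)
  obtain ⟨s, hs⟩ := IsAlgClosed.exists_pow_nat_eq (algebraMap K (AlgebraicClosure K) (D.la K))
    (n := 2) (by norm_num)
  rw [← D.bcDat_la K (AlgebraicClosure K)] at hs
  obtain ⟨j, hj⟩ := (D.bcDat K (AlgebraicClosure K)).int_ratio (AlgebraicClosure K) s hs
  rw [D.bcDat_t K (AlgebraicClosure K)] at hj
  have ht : algebraMap K (AlgebraicClosure K) (D.t K) ≠ 0 := by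
    rw [Ne, map_eq_zero]
    exact D.t_ne K
  have hj0 : (j : AlgebraicClosure K) ≠ 0 := by
    intro h
    rw [h, zero_mul] at hj
    exact ht hj
  have hjK : (j : K) ≠ 0 := by
    intro h
    apply hj0
    have := congrArg (algebraMap K (AlgebraicClosure K)) h
    simpa using this
  refine ⟨D.t K / j, ?_⟩
  apply (algebraMap K (AlgebraicClosure K)).injective
  rw [← D.bcDat_la K (AlgebraicClosure K), ← hs, map_pow, map_div₀, hj, map_intCast]
  field_simp

include K in
/-- the splitting of `M` -/
theorem Dat.main {M N : C} (D : Dat M N) :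
    ∃ u : M ⟶ M, u ≫ u = u ∧ Fd true u ∧ Fd false (𝟙 M - u) := by
  obtain ⟨s, hs⟩ := D.exists_sqrt K
  obtain ⟨u, hu⟩ := D.exists_proj K s hs
  obtain ⟨b, h1, h2⟩ := D.concl K s hs u hu
  cases b
  · refine ⟨𝟙 M - u, ?_, h2, ?_⟩
    · simp [hu.1]
    · simpa using h1
  · exact ⟨u, hu.1, h1, h2⟩

end Pool.Agent.W_MP_868bb7_ag
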