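import Pool.Agent.W_MP_868bb7_ag.BaseChange

set_option autoImplicit false

/-!
# ObjForm: from idempotents to objects

* `Fd_even`, `Fd_odd`: `altPart K X n = (n!)⁻¹ • E true X n`, `powMap_id`.
* `kimura_of_idem`: split the idempotents `u`, `𝟙 - u` (`IsIdempotentComplete`): `P`, `Q` with
  `i ≫ p = 𝟙`, `p ≫ i = u` etc.; `X ≅ P ⊞ Q`; `𝟙 P = i ≫ u ≫ p` and `Fd_conj`.
* `idem_of_kimura`: with `φ : X ≅ P ⊞ Q`, `e = φ.hom ≫ fst ≫ inl ≫ φ.inv`, `Fd_conj`.
-/

namespace Pool.Agent.W_MP_868bb7_ag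

open CategoryTheory MonoidalCategory Limits

universe v u w

variable (K : Type w) [Field K] [CharZero K] {C : Type u} [Category.{v} C] [MonoidalCategory C]
  [Preadditive C] [Linear K C] [SymmetricCategory C]

theorem of_E_true (X : C) (n : ℕ) : altPart K X n = ((n.factorial : K)⁻¹) • E true X n := by
  unfold altPart E chi
  rfl

theorem of_E_false (X : C) (n : ℕ) : symPart K X n = ((n.factorial : K)⁻¹) • E false X n := by
  unfold symPart E chi
  simp

theorem of_fact_ne (n : ℕ) : ((n.factorial : K)⁻¹) ≠ 0 :=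
  inv_ne_zero (Nat.cast_ne_zero.2 (Nat.factorial_ne_zero n))

theorem Fd_even (X : C) : Fd true (𝟙 X) ↔ EvenFD K X := by
  unfold Fd EvenFD
  refine exists_congr fun n => and_congr_right fun _ => ?_
  rw [powMap_id, Category.id_comp, of_E_true, smul_eq_zero_iff_right (of_fact_ne K n)]

theorem Fd_odd (X : C) : Fd false (𝟙 X) ↔ OddFD K X := by
  unfold Fd OddFD
  refine exists_congr fun n => and_congr_right fun _ => ?_
  rw [powMap_id, Category.id_comp, of_E_false, smul_eq_zero_iff_right (of_fact_ne K n)]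

variable [HasBinaryBiproducts C]

theorem kimura_of_idem [IsIdempotentComplete C] {X : C} (u : X ⟶ X) (h : u ≫ u = u)
    (h1 : Fd true u) (h2 : Fd false (𝟙 X - u)) : KimuraFD K X := by
  have h' : (𝟙 X - u) ≫ (𝟙 X - u) = 𝟙 X - u := by
    simp [Preadditive.sub_comp, Preadditive.comp_sub, h]
  obtain ⟨P, i, e, hie, hei⟩ := IsIdempotentComplete.idempotents_split X u h
  obtain ⟨Q, j, f, hjf, hfj⟩ := IsIdempotentComplete.idempotents_split X (𝟙 X - u) h'
  have hP : 𝟙 P = i ≫ u ≫ e := by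
    rw [← hei, Category.assoc, hie, Category.comp_id, hie]
  have hQ : 𝟙 Q = j ≫ (𝟙 X - u) ≫ f := by
    rw [← hfj, Category.assoc, hjf, Category.comp_id, hjf]
  have h12 : u ≫ (𝟙 X - u) = 0 := by
    rw [Preadditive.comp_sub, Category.comp_id, h, sub_self]
  have h21 : (𝟙 X - u) ≫ u = 0 := by
    rw [Preadditive.sub_comp, Category.id_comp, h, sub_self]
  have hiu : i ≫ u = i := by
    rw [← hei, ← Category.assoc, hie, Category.id_comp]
  have hjv : j ≫ (𝟙 X - u) = j := by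
    rw [← hfj, ← Category.assoc, hjf, Category.id_comp]
  have hvf : (𝟙 X - u) ≫ f = f := by
    rw [← hfj, Category.assoc, hjf, Category.comp_id]
  have hue : u ≫ e = e := by
    rw [← hei, Category.assoc, hie, Category.comp_id]
  have hif : i ≫ f = 0 := by
    rw [← hiu, ← hvf, Category.assoc, ← Category.assoc u, h12, zero_comp, comp_zero]
  have hje : j ≫ e = 0 := by
    rw [← hjv, ← hue, Category.assoc, ← Category.assoc (𝟙 X - u), h21, zero_comp, comp_zero]
  refine ⟨P, Q, ?_, ?_, ⟨⟨biprod.lift e f, biprod.desc i j, ?_, ?_⟩⟩⟩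
  · rw [← Fd_even, hP]
    exact Fd_conj true i u e h1
  · rw [← Fd_odd, hQ]
    exact Fd_conj false j (𝟙 X - u) f h2
  · rw [biprod.lift_desc, hei, hfj, add_sub_cancel]
  · ext
    · simp [hie]
    · simp [hif]
    · simp [hje]
    · simp [hjf]

theorem idem_of_kimura {X : C} (h : KimuraFD K X) :
    ∃ e : X ⟶ X, e ≫ e = e ∧ Fd true e ∧ Fd false (𝟙 X - e) := by
  obtain ⟨P, Q, hP, hQ, ⟨φ⟩⟩ := h
  rw [← Fd_even] at hP
  rw [← Fd_odd] at hQ
  have h0 : 𝟙 X - (φ.hom ≫ biprod.fst) ≫ 𝟙 P ≫ (biprod.inl ≫ φ.inv) =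
      (φ.hom ≫ biprod.snd) ≫ 𝟙 Q ≫ (biprod.inr ≫ φ.inv) := by
    have h1 : 𝟙 X = φ.hom ≫ (biprod.fst ≫ biprod.inl + biprod.snd ≫ biprod.inr) ≫ φ.inv := by
      rw [biprod.total, Category.id_comp, φ.hom_inv_id]
    rw [h1, Preadditive.add_comp, Preadditive.comp_add]
    simp only [Category.assoc, Category.id_comp]
    abel
  refine ⟨(φ.hom ≫ biprod.fst) ≫ 𝟙 P ≫ (biprod.inl ≫ φ.inv), ?_,
    Fd_conj true _ (𝟙 P) _ hP, ?_⟩
  · simp only [Category.assoc, Category.id_comp, Iso.inv_hom_id_assoc, biprod.inl_fst_assoc]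
  · rw [h0]
    exact Fd_conj false _ (𝟙 Q) _ hQ

end Pool.Agent.W_MP_868bb7_ag
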