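import Pool.Agent.W_MP_868bb7_ag.FdAdd
import Pool.Agent.W_MP_868bb7_ag.ObjForm

set_option autoImplicit false

/-!
# KimTensor: Kimura-finite objects are closed under tensor products

* `kimura_tensor`: let `e`, `f` be the projections to the even parts (`idem_of_kimura`).  Then
  `u = e ⊗ₘ f + (1 - e) ⊗ₘ (1 - f)` is idempotent, `1 - u = e ⊗ₘ (1 - f) + (1 - e) ⊗ₘ f`; `Fd_tensor` (with
  `true == true`, `false == false`, `true == false`, `false == true`), `Fd_add`, `kimura_of_idem`.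
* `kimura_even`, `kimura_odd`: `kimura_of_idem` with `u = 𝟙` or `u = 0` (`Fd b 0` with `n = 1`).
* `kimura_unit`: `E true (𝟙_ C) 2 = 0`: `act _ 2 (swap 0 1) = sw (𝟙_) (𝟙_)` (`act_swap`) is the identity
  (the braiding of the unit with itself is the identity), so
  `E 2 = act (swap 0 1) ≫ E 2 = - E 2` (`act_E`, `chi_swap`), and `2 • E 2 = 0` in a `K`-vector space.
* `kimura_pow`: induction.
-/

namespace Pool.Agent.W_MP_868bb7_ag

open CategoryTheory MonoidalCategory Limits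

universe v u w

variable (K : Type w) [Field K] [CharZero K] {C : Type u} [Category.{v} C] [MonoidalCategory C]
  [Preadditive C] [Linear K C] [MonoidalPreadditive C] [MonoidalLinear K C]
  [SymmetricCategory C] [RightRigidCategory C] [UnitK K C]
  [HasBinaryBiproducts C] [IsIdempotentComplete C]

omit [CharZero K] [MonoidalPreadditive C] [MonoidalLinear K C] [RightRigidCategory C]
  [UnitK K C] [HasBinaryBiproducts C] [IsIdempotentComplete C] [Linear K C] in
theorem kimTensor_orth {X : C} {e : X ⟶ X} (he : e ≫ e = e) :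
    e ≫ (𝟙 X - e) = 0 ∧ (𝟙 X - e) ≫ e = 0 ∧ (𝟙 X - e) ≫ (𝟙 X - e) = 𝟙 X - e := by
  refine ⟨?_, ?_, ?_⟩
  · rw [Preadditive.comp_sub, Category.comp_id, he, sub_self]
  · rw [Preadditive.sub_comp, Category.id_comp, he, sub_self]
  · rw [Preadditive.comp_sub, Category.comp_id, Preadditive.sub_comp, Category.id_comp, he,
      sub_self, sub_zero]

theorem kimTensor_zero (b : Bool) (X : C) : Fd b (0 : X ⟶ X) := by
  refine ⟨1, le_rfl, ?_⟩
  have h : powMap (0 : X ⟶ X) 1 = 0 := by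
    change (0 : X ⟶ X) ⊗ₘ (𝟙 (𝟙_ C)) = 0
    exact MonoidalPreadditive.zero_tensor _
  rw [h, zero_comp]

theorem kimura_tensor (X Y : C) (hX : KimuraFD K X) (hY : KimuraFD K Y) : KimuraFD K (X ⊗ Y) := by
  obtain ⟨e, he, he1, he2⟩ := idem_of_kimura K hX
  obtain ⟨f, hf, hf1, hf2⟩ := idem_of_kimura K hY
  obtain ⟨e3, e4, e5⟩ := kimTensor_orth he
  obtain ⟨f3, f4, f5⟩ := kimTensor_orth hf
  have h11 : Fd true (e ⊗ₘ f) := Fd_tensor K true true e f he1 hf1
  have h22 : Fd true ((𝟙 X - e) ⊗ₘ (𝟙 Y - f)) := Fd_tensor K false false _ _ he2 hf2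
  have h12 : Fd false (e ⊗ₘ (𝟙 Y - f)) := Fd_tensor K true false _ _ he1 hf2
  have h21 : Fd false ((𝟙 X - e) ⊗ₘ f) := Fd_tensor K false true _ _ he2 hf1
  have hsum : 𝟙 (X ⊗ Y) - (e ⊗ₘ f + (𝟙 X - e) ⊗ₘ (𝟙 Y - f)) =
      e ⊗ₘ (𝟙 Y - f) + (𝟙 X - e) ⊗ₘ f := by
    have h1 : 𝟙 (X ⊗ Y) = (e + (𝟙 X - e)) ⊗ₘ (f + (𝟙 Y - f)) := by
      rw [add_sub_cancel, add_sub_cancel, id_tensorHom_id]
    rw [h1, MonoidalPreadditive.add_tensor, MonoidalPreadditive.tensor_add,
      MonoidalPreadditive.tensor_add]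
    abel
  refine kimura_of_idem K (e ⊗ₘ f + (𝟙 X - e) ⊗ₘ (𝟙 Y - f)) ?_ (Fd_add K true _ _ h11 h22) ?_
  · rw [Preadditive.add_comp, Preadditive.comp_add, Preadditive.comp_add,
      tensorHom_comp_tensorHom, tensorHom_comp_tensorHom, tensorHom_comp_tensorHom,
      tensorHom_comp_tensorHom, he, hf, e3, e4, e5, f5, MonoidalPreadditive.zero_tensor,
      MonoidalPreadditive.zero_tensor, add_zero, zero_add]
  · rw [hsum]
    exact Fd_add K false _ _ h12 h21

theorem kimura_even (X : C) (h : Fd true (𝟙 X)) : KimuraFD K X := by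
  refine kimura_of_idem K (𝟙 X) (Category.id_comp _) h ?_
  rw [sub_self]
  exact kimTensor_zero false X

theorem kimura_odd (X : C) (h : Fd false (𝟙 X)) : KimuraFD K X := by
  refine kimura_of_idem K (0 : X ⟶ X) zero_comp (kimTensor_zero true X) ?_
  rw [sub_zero]
  exact h

theorem kimTensor_braid : (β_ (𝟙_ C) (𝟙_ C)).hom = 𝟙 _ := by
  rw [braiding_tensorUnit_right, ← unitors_equal, Iso.hom_inv_id]

theorem kimura_unit : KimuraFD K (𝟙_ C) := by
  apply kimura_even
  refine ⟨2, by norm_num, ?_⟩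
  rw [powMap_id, Category.id_comp]
  have h1 : act (𝟙_ C) 2 (Equiv.swap 0 1) = 𝟙 _ := by
    have h2 := act_swap (𝟙_ C) 0
    refine h2.trans ?_
    unfold sw
    rw [kimTensor_braid, id_whiskerRight, Category.id_comp, Iso.inv_hom_id]
    rfl
  have h3 := act_E true (𝟙_ C) 2 (Equiv.swap 0 1)
  rw [h1, Category.id_comp, chi_swap true (0 : Fin 2) 1 (by decide)] at h3
  have h4 : (2 : K) • E true (𝟙_ C) 2 = 0 := by
    have h5 : E true (𝟙_ C) 2 = -E true (𝟙_ C) 2 := by
      refine h3.trans ?_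
      change (-1 : ℤ) • _ = _
      rw [neg_smul, one_smul]
    rw [two_smul]
    nth_rewrite 2 [h5]
    exact add_neg_cancel _
  exact (smul_eq_zero_iff_right (two_ne_zero : (2 : K) ≠ 0)).1 h4

theorem kimura_pow (X : C) (hX : KimuraFD K X) (n : ℕ) : KimuraFD K (pow X n) := by
  induction n with
  | zero => exact kimura_unit K
  | succ n ih => exact kimura_tensor K X (pow X n) hX ih

end Pool.Agent.W_MP_868bb7_ag
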