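import Pool.Agent.W_MP_868bb7_ag.Dat

set_option autoImplicit false

/-!
# Split: the splitting of `M` from a square root of `la`

`la = t^3 / tr (c^3)`, `lc = t^3 / tr (a^3)`.

* `a3_ne`, `c3_ne`: `key` for `x = a`, `y = c`: `t^4 = tr (a^3) tr (c^3)`.
* `neg_a`: `key` for `y = c`: `tr (x ≫ a ≫ a) tr(c^3) = t^3 tr x` for all `x`.
* `neg_T`: from `star`.
* `Neg_tensor_left`: `tr ((x ⊗ₘ y) ≫ g) = tr (x ≫ ptr N (M ◁ y ≫ g))` (`tr_ptr`, `ptr_nat_left`).
* `nil_M`: let `f : M ⟶ M` be negligible; `f ▷ N` is negligible (`Neg_tensor_left`), so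
  `it (f ▷ N) k = it f k ▷ N = 0` for some `k` (`neg_nil` with `e`), compose with `M ◁ c` and take
  `ptr N`: `0 = ptr N (it f k ⊗ₘ c) = tr c • it f k = t • it f k`.
-/

namespace Pool.Agent.W_MP_868bb7_ag

open CategoryTheory MonoidalCategory

universe v u w

variable (K : Type w) [Field K] [CharZero K] {C : Type u} [Category.{v} C] [MonoidalCategory C]
  [Preadditive C] [Linear K C] [MonoidalPreadditive C] [MonoidalLinear K C]
  [SymmetricCategory C] [RightRigidCategory C] [UnitK K C]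

omit [CharZero K] in
theorem Neg_tensor_left {X X' Y Y' : C} (f : X ⟶ X') (g : Y ⟶ Y') (h : Neg K f) :
    Neg K (f ⊗ₘ g) := by
  intro u
  rw [MonoidalCategory.tensorHom_def, Category.assoc, ← tr_ptr, ptr_nat_left]
  exact h _

omit [CharZero K] in
theorem Neg_tensor_right {X X' Y Y' : C} (f : X ⟶ X') (g : Y ⟶ Y') (h : Neg K g) :
    Neg K (f ⊗ₘ g) := by
  intro u
  have h1 : f ⊗ₘ g = (β_ X Y).hom ≫ (g ⊗ₘ f) ≫ (β_ Y' X').hom := by
    rw [← BraidedCategory.braiding_naturality_assoc, SymmetricCategory.symmetry, Category.comp_id]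
  rw [h1, Category.assoc, tr_comp_comm]
  simp only [Category.assoc]
  exact Neg_tensor_left K g f h _

namespace Dat

variable {M N : C} (D : Dat M N)

omit [MonoidalPreadditive C] [RightRigidCategory C] in
/-- exchange the roles of `M` and `N` -/
def swap : Dat N M where
  e := (β_ N M).hom ≫ D.e ≫ (β_ M N).hom
  idem := by
    simp only [Category.assoc, SymmetricCategory.symmetry_assoc]
    rw [← Category.assoc D.e, D.idem]
  ev := Fd_conj true _ _ _ D.ev
  od := by
    have h : 𝟙 (N ⊗ M) - (β_ N M).hom ≫ D.e ≫ (β_ M N).hom =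
        (β_ N M).hom ≫ (𝟙 (M ⊗ N) - D.e) ≫ (β_ M N).hom := by
      rw [Preadditive.sub_comp, Preadditive.comp_sub, Category.id_comp,
        SymmetricCategory.symmetry]
    rw [h]
    exact Fd_conj false _ _ _ D.od
  ne := by
    intro h
    apply D.ne
    calc 𝟙 (M ⊗ N) = (β_ M N).hom ≫ 𝟙 (N ⊗ M) ≫ (β_ N M).hom := by
          rw [Category.id_comp, SymmetricCategory.symmetry]
      _ = 0 := by rw [h, Limits.zero_comp, Limits.comp_zero]

omit [MonoidalPreadditive C] [RightRigidCategory C] in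
theorem swap_T_aux : D.swap.T = D.T' := by
  unfold T T' swap T
  simp only [Preadditive.sub_comp, Preadditive.comp_sub, Category.id_comp,
    SymmetricCategory.symmetry]

theorem swap_T : D.swap.T = D.T' := D.swap_T_aux

theorem swap_a : D.swap.a = D.c := by
  unfold a c
  rw [swap_T_aux]

omit [MonoidalPreadditive C] [RightRigidCategory C] in
theorem swap_T'_aux : D.swap.T' = D.T := by
  unfold T'
  rw [swap_T_aux]
  unfold T'
  simp only [Category.assoc, SymmetricCategory.symmetry, SymmetricCategory.symmetry_assoc,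
    Category.comp_id]

theorem swap_c : D.swap.c = D.a := by
  unfold a c
  rw [swap_T'_aux]

theorem swap_t : D.swap.t K = D.t K := by
  unfold t
  rw [swap_T_aux]
  unfold T'
  rw [tr_comp_comm, Category.assoc, SymmetricCategory.symmetry, Category.comp_id]

/-- the scalar `a ≫ a ≡ la` -/
noncomputable def la : K := D.t K ^ 3 / tr K (D.c ≫ D.c ≫ D.c)

theorem key_ac : D.t K ^ 4 = tr K (D.a ≫ D.a ≫ D.a) * tr K (D.c ≫ D.c ≫ D.c) := by
  have h := D.key K D.a D.c
  rw [D.tr_a K, D.tr_c K] at h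
  rw [← h]
  ring

theorem a3_ne : tr K (D.a ≫ D.a ≫ D.a) ≠ 0 := by
  intro h
  have h1 := D.key_ac K
  rw [h, zero_mul] at h1
  exact D.t_ne K (pow_eq_zero_iff (by norm_num) |>.1 h1)

theorem c3_ne : tr K (D.c ≫ D.c ≫ D.c) ≠ 0 := by
  intro h
  have h1 := D.key_ac K
  rw [h, mul_zero] at h1
  exact D.t_ne K (pow_eq_zero_iff (by norm_num) |>.1 h1)

theorem la_ne : D.la K ≠ 0 :=
  div_ne_zero (pow_ne_zero _ (D.t_ne K)) (D.c3_ne K)

theorem la_mul : D.la K * D.swap.la K = D.t K ^ 2 := by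
  unfold la
  rw [swap_t, swap_c]
  have h1 := D.key_ac K
  have h2 := D.a3_ne K
  have h3 := D.c3_ne K
  have h4 := D.t_ne K
  rw [div_mul_div_comm, mul_comm (tr K (D.c ≫ D.c ≫ D.c)), ← h1]
  field_simp

theorem neg_a : Neg K (D.a ≫ D.a - D.la K • 𝟙 M) := by
  intro g
  have h := D.key K g D.c
  rw [D.tr_c K] at h
  have h3 := D.c3_ne K
  rw [Preadditive.sub_comp, tr_sub, Linear.smul_comp, tr_smul, Category.id_comp,
    tr_comp_comm K (D.a ≫ D.a) g]
  unfold la
  rw [sub_eq_zero, div_mul_eq_mul_div, eq_div_iff h3, ← h]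
  ring

theorem neg_T : Neg K (D.T - (D.t K)⁻¹ • (D.a ⊗ₘ D.c)) := by
  intro g
  have h := D.star K g
  rw [Preadditive.sub_comp, tr_sub, Linear.smul_comp, tr_smul, ← h,
    inv_mul_cancel_left₀ (D.t_ne K), sub_self]

omit [CharZero K] [MonoidalPreadditive C] [MonoidalLinear K C] [SymmetricCategory C]
  [RightRigidCategory C] [UnitK K C] [Linear K C] [Field K] [Preadditive C] in
theorem it_whiskerRight {X : C} (Y : C) (f : X ⟶ X) (k : ℕ) : it (f ▷ Y) k = it f k ▷ Y := by
  induction k with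
  | zero => exact (MonoidalCategory.id_whiskerRight X Y).symm
  | succ k ih =>
    unfold it
    rw [ih, MonoidalCategory.comp_whiskerRight]

include D in
theorem nil_M (f : M ⟶ M) (hf : Neg K f) : ∃ k, it f k = 0 := by
  have h1 : Neg K (f ▷ N) := by
    rw [← MonoidalCategory.tensorHom_id]
    exact Neg_tensor_left K f (𝟙 N) hf
  obtain ⟨k, hk⟩ := neg_nil K true D.e D.idem D.ev D.od (f ▷ N) h1
  refine ⟨k, ?_⟩
  rw [it_whiskerRight] at hk
  have h2 : ptr N (it f k ⊗ₘ D.c) = 0 := by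
    rw [MonoidalCategory.tensorHom_def, hk, Limits.zero_comp, ptr_zero]
  rw [ptr_tensorHom K, D.tr_c K] at h2
  exact (smul_eq_zero.1 h2).resolve_left (D.t_ne K)

end Dat

end Pool.Agent.W_MP_868bb7_ag
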