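import Mathlib

set_option autoImplicit false

/-!
# IdemLift: lifting an idempotent modulo a nilpotent

`d = u * u - u` is nilpotent, `d^k = 0`.  Take `e = 1 - (1 - u^k)^k`; or the Newton iteration
`u ↦ 3 u^2 - 2 u^3`, for which `d` becomes a multiple of `d^2` (everything is a polynomial in `u`).
Both `e` and `q` are polynomials in `u`.  (In `K[X]`: `e(X) ≡ X` modulo `X^2 - X`.)
-/

namespace Pool.Agent.W_MP_868bb7_ag

open Polynomial in
theorem idem_poly (k : ℕ) : ∃ e q r : ℤ[X], e = X + (X * X - X) * q ∧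
    e * e - e = (X * X - X) ^ (k + 1) * r := by
  induction k with
  | zero => exact ⟨X, 0, 1, by ring, by ring⟩
  | succ k ih =>
    obtain ⟨e, q, r, h1, h2⟩ := ih
    refine ⟨e + (e * e - e) * (1 - 2 * e), q + (X * X - X) ^ k * r * (1 - 2 * e),
      -((X * X - X) ^ k * r ^ 2 * (3 - 2 * e) * (1 + 2 * e)), ?_, ?_⟩
    · have h3 : (e * e - e) * (1 - 2 * e) = (X * X - X) ^ (k + 1) * r * (1 - 2 * e) := by rw [h2]
      rw [h3]
      nth_rewrite 1 [h1]
      ring
    · have h3 : (e + (e * e - e) * (1 - 2 * e)) * (e + (e * e - e) * (1 - 2 * e)) -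
          (e + (e * e - e) * (1 - 2 * e)) = -((e * e - e) ^ 2 * (3 - 2 * e) * (1 + 2 * e)) := by
        ring
      rw [h3, h2]
      ring

theorem idem_lift {R : Type*} [Ring R] (u : R) (h : IsNilpotent (u * u - u)) :
    ∃ e q : R, e * e = e ∧ e = u + (u * u - u) * q ∧ Commute u e ∧ Commute u q := by
  obtain ⟨k, hk⟩ := h
  obtain ⟨e, q, r, h1, h2⟩ := idem_poly k
  have hX : Polynomial.aeval u (Polynomial.X : Polynomial ℤ) = u := Polynomial.aeval_X u
  have hc : ∀ p : Polynomial ℤ, Commute u (Polynomial.aeval u p) := by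
    intro p
    have h3 := (Commute.all (Polynomial.X : Polynomial ℤ) p).map (Polynomial.aeval u)
    rwa [hX] at h3
  refine ⟨Polynomial.aeval u e, Polynomial.aeval u q, ?_, ?_, hc e, hc q⟩
  · have h3 := congrArg (Polynomial.aeval u) h2
    simp only [map_sub, map_mul, map_pow, hX] at h3
    rw [pow_succ, hk, zero_mul, zero_mul] at h3
    exact sub_eq_zero.1 h3
  · have h3 := congrArg (Polynomial.aeval u) h1
    simpa only [map_add, map_sub, map_mul, hX] using h3

end Pool.Agent.W_MP_868bb7_ag
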