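import Pool.Agent.W_MP_868bb7_ag.Defs

set_option autoImplicit false

/-!
# BCCat: extension of the coefficients of a `K`-linear monoidal category to a field `L`

`BC K L C` has the objects of `C` and the morphisms `L ⊗[K] (X ⟶ Y)`.
-/

namespace Pool.Agent.W_MP_868bb7_ag

open CategoryTheory MonoidalCategory TensorProduct

universe v u w

/-- the category with coefficients extended from `K` to `L` -/
@[nolint unusedArguments]
def BC (_K _L : Type w) (C : Type u) : Type u := C

section

variable {K L : Type w} {C : Type u}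

/-- the underlying object -/
def BC.un (X : BC K L C) : C := X

/-- the object of the extended category -/
def BC.mk (X : C) : BC K L C := X

end

variable (K L : Type w) [Field K] [Field L] [Algebra K L] {C : Type u} [Category.{v} C]
  [Preadditive C] [Linear K C]

/-- composition -/
noncomputable def bcComp (X Y Z : C) :
    (L ⊗[K] (X ⟶ Y)) →ₗ[K] (L ⊗[K] (Y ⟶ Z)) →ₗ[K] (L ⊗[K] (X ⟶ Z)) :=
  TensorProduct.map₂ (LinearMap.mul K L) (Linear.comp X Y Z)

theorem bcComp_tmul (X Y Z : C) (a b : L) (f : X ⟶ Y) (g : Y ⟶ Z) :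
    bcComp K L X Y Z (a ⊗ₜ f) (b ⊗ₜ g) = (a * b) ⊗ₜ (f ≫ g) := by
  simp [bcComp]

noncomputable instance instCatBC : Category (BC K L C) where
  Hom X Y := L ⊗[K] (X.un ⟶ Y.un)
  id X := (1 : L) ⊗ₜ[K] (𝟙 X.un)
  comp {X Y Z} f g := bcComp K L X.un Y.un Z.un f g
  id_comp {X Y} f := by
    change bcComp K L X.un X.un Y.un (1 ⊗ₜ 𝟙 _) f = f
    induction f using TensorProduct.induction_on with
    | zero => simp
    | tmul a f => rw [bcComp_tmul]; simp
    | add f g hf hg => rw [map_add, hf, hg]
  comp_id {X Y} f := by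
    change bcComp K L X.un Y.un Y.un f (1 ⊗ₜ 𝟙 _) = f
    induction f using TensorProduct.induction_on with
    | zero => simp
    | tmul a f => rw [bcComp_tmul]; simp
    | add f g hf hg => rw [map_add, LinearMap.add_apply, hf, hg]
  assoc {W X Y Z} f g h := by
    change bcComp K L W.un Y.un Z.un (bcComp K L W.un X.un Y.un f g) h
      = bcComp K L W.un X.un Z.un f (bcComp K L X.un Y.un Z.un g h)
    induction f using TensorProduct.induction_on with
    | zero => simp
    | add f f' hf hf' => simp only [map_add, LinearMap.add_apply, hf, hf']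
    | tmul a f =>
      induction g using TensorProduct.induction_on with
      | zero => simp
      | add g g' hg hg' => simp only [map_add, LinearMap.add_apply, hg, hg']
      | tmul b g =>
        induction h using TensorProduct.induction_on with
        | zero => simp
        | add h h' hh hh' => simp only [map_add, hh, hh']
        | tmul c h => simp only [bcComp_tmul, mul_assoc, Category.assoc]

/-- a pure tensor as a morphism -/
noncomputable def tm {X Y : BC K L C} (a : L) (f : X.un ⟶ Y.un) : X ⟶ Y := a ⊗ₜ[K] f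

theorem tm_comp {X Y Z : BC K L C} (a b : L) (f : X.un ⟶ Y.un) (g : Y.un ⟶ Z.un) :
    tm K L (X := X) (Y := Y) a f ≫ tm K L (X := Y) (Y := Z) b g
      = tm K L (X := X) (Y := Z) (a * b) (f ≫ g) :=
  bcComp_tmul K L X.un Y.un Z.un a b f g

theorem id_eq (X : BC K L C) : 𝟙 X = tm K L (X := X) (Y := X) 1 (𝟙 X.un) := rfl

noncomputable instance instPreaddBC : Preadditive (BC K L C) where
  homGroup X Y := inferInstanceAs (AddCommGroup (L ⊗[K] (X.un ⟶ Y.un)))
  add_comp X Y Z f f' g := LinearMap.map_add₂ (bcComp K L X.un Y.un Z.un) f f' g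
  comp_add X Y Z f g g' := (bcComp K L X.un Y.un Z.un f).map_add g g'

theorem bc_ind {X Y : BC K L C} {P : (X ⟶ Y) → Prop} (h0 : P 0)
    (ht : ∀ (a : L) (f : X.un ⟶ Y.un), P (tm K L a f)) (ha : ∀ f g, P f → P g → P (f + g))
    (f : X ⟶ Y) : P f :=
  TensorProduct.induction_on (motive := P) f h0 ht ha

noncomputable instance instModBC (X Y : BC K L C) : Module L (X ⟶ Y) :=
  inferInstanceAs (Module L (L ⊗[K] (X.un ⟶ Y.un)))

theorem smul_tm {X Y : BC K L C} (r a : L) (f : X.un ⟶ Y.un) :
    r • tm K L (X := X) (Y := Y) a f = tm K L (r * a) f := rfl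

theorem bc_smul_comp {X Y Z : BC K L C} (r : L) (f : X ⟶ Y) (g : Y ⟶ Z) :
    (r • f) ≫ g = r • f ≫ g := by
  induction f using bc_ind with
  | h0 => simp
  | ha f f' hf hf' => rw [smul_add, Preadditive.add_comp, hf, hf', Preadditive.add_comp, smul_add]
  | ht a f =>
    induction g using bc_ind with
    | h0 => simp
    | ha g g' hg hg' => rw [Preadditive.comp_add, hg, hg', Preadditive.comp_add, smul_add]
    | ht b g => rw [tm_comp, smul_tm, smul_tm, tm_comp, mul_assoc]

theorem bc_comp_smul {X Y Z : BC K L C} (r : L) (f : X ⟶ Y) (g : Y ⟶ Z) :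
    f ≫ (r • g) = r • f ≫ g := by
  induction f using bc_ind with
  | h0 => simp
  | ha f f' hf hf' => rw [Preadditive.add_comp, hf, hf', Preadditive.add_comp, smul_add]
  | ht a f =>
    induction g using bc_ind with
    | h0 => simp
    | ha g g' hg hg' =>
      rw [smul_add, Preadditive.comp_add, hg, hg', Preadditive.comp_add, smul_add]
    | ht b g => rw [tm_comp, smul_tm, smul_tm, tm_comp, mul_left_comm]

noncomputable instance instLinBC : Linear L (BC K L C) where
  homModule X Y := instModBC K L X Y
  smul_comp _ _ _ r f g := bc_smul_comp K L r f g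
  comp_smul _ _ _ f r g := bc_comp_smul K L r f g

theorem tm_add {X Y : BC K L C} (a : L) (f g : X.un ⟶ Y.un) :
    tm K L (X := X) (Y := Y) a (f + g) = tm K L a f + tm K L a g :=
  TensorProduct.tmul_add a f g

theorem add_tm {X Y : BC K L C} (a b : L) (f : X.un ⟶ Y.un) :
    tm K L (X := X) (Y := Y) (a + b) f = tm K L a f + tm K L b f :=
  TensorProduct.add_tmul a b f

theorem tm_smul {X Y : BC K L C} (r : K) (a : L) (f : X.un ⟶ Y.un) :
    tm K L (X := X) (Y := Y) a (r • f) = tm K L (algebraMap K L r * a) f := by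
  change a ⊗ₜ[K] (r • f) = (algebraMap K L r * a) ⊗ₜ[K] f
  rw [TensorProduct.tmul_smul, ← Algebra.smul_def, TensorProduct.smul_tmul']

end Pool.Agent.W_MP_868bb7_ag
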