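import Pool.Agent.W_MP_868bb7_ag.BCCat

set_option autoImplicit false

/-!
# BCMon: the monoidal structure of `BC K L C`
-/

namespace Pool.Agent.W_MP_868bb7_ag

open CategoryTheory MonoidalCategory TensorProduct

universe v u w

variable (K L : Type w) [Field K] [Field L] [Algebra K L] {C : Type u} [Category.{v} C]
  [Preadditive C] [Linear K C]

/-- image of a morphism -/
noncomputable def bc {X Y : C} (f : X ⟶ Y) : (BC.mk X : BC K L C) ⟶ BC.mk Y := tm K L 1 f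

theorem bc_comp {X Y Z : C} (f : X ⟶ Y) (g : Y ⟶ Z) : bc K L (f ≫ g) = bc K L f ≫ bc K L g :=
  ((tm_comp K L (X := BC.mk X) (Y := BC.mk Y) (Z := BC.mk Z) 1 1 f g).trans
    (by rw [one_mul]; rfl)).symm

theorem bc_id (X : C) : bc K L (𝟙 X) = 𝟙 (BC.mk X : BC K L C) := rfl

theorem bc_add {X Y : C} (f g : X ⟶ Y) : bc K L (f + g) = bc K L f + bc K L g := tm_add K L 1 f g

theorem bc_smul {X Y : C} (r : K) (f : X ⟶ Y) :
    bc K L (r • f) = algebraMap K L r • bc K L f :=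
  (tm_smul K L (X := BC.mk X) (Y := BC.mk Y) r 1 f).trans
    (smul_tm K L (X := BC.mk X) (Y := BC.mk Y) (algebraMap K L r) 1 f).symm

theorem bc_zero {X Y : C} : bc K L (0 : X ⟶ Y) = 0 := by
  have := bc_add K L (0 : X ⟶ Y) 0
  rw [add_zero] at this
  exact left_eq_add.mp this

theorem bc_neg {X Y : C} (f : X ⟶ Y) : bc K L (-f) = -bc K L f := by
  rw [eq_neg_iff_add_eq_zero, ← bc_add, neg_add_cancel, bc_zero]

theorem bc_sub {X Y : C} (f g : X ⟶ Y) : bc K L (f - g) = bc K L f - bc K L g := by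
  rw [sub_eq_add_neg, sub_eq_add_neg, bc_add, bc_neg]

theorem bc_zsmul {X Y : C} (r : ℤ) (f : X ⟶ Y) : bc K L (r • f) = r • bc K L f := by
  let φ : (X ⟶ Y) →+ ((BC.mk X : BC K L C) ⟶ BC.mk Y) :=
    { toFun := bc K L, map_zero' := bc_zero K L, map_add' := bc_add K L }
  exact map_zsmul φ r f

theorem bc_sum {ι : Type*} (s : Finset ι) {X Y : C} (f : ι → (X ⟶ Y)) :
    bc K L (∑ i ∈ s, f i) = ∑ i ∈ s, bc K L (f i) := by
  let φ : (X ⟶ Y) →+ ((BC.mk X : BC K L C) ⟶ BC.mk Y) :=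
    { toFun := bc K L, map_zero' := bc_zero K L, map_add' := bc_add K L }
  exact map_sum φ f s

theorem bc_injective {X Y : C} : Function.Injective (bc K L (X := X) (Y := Y)) := by
  intro f g h
  have h1 : (1 : L) ⊗ₜ[K] f = (1 : L) ⊗ₜ[K] g := h
  have := Module.FaithfullyFlat.tensorProduct_mk_injective (A := K) (B := L) (X ⟶ Y)
  exact this h1

/-- image of an isomorphism -/
noncomputable def bcIso {X Y : C} (f : X ≅ Y) : (BC.mk X : BC K L C) ≅ BC.mk Y where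
  hom := bc K L f.hom
  inv := bc K L f.inv
  hom_inv_id := by rw [← bc_comp, f.hom_inv_id]; rfl
  inv_hom_id := by rw [← bc_comp, f.inv_hom_id]; rfl

variable [MonoidalCategory C] [MonoidalPreadditive C] [MonoidalLinear K C]

/-- left whiskering as a linear map -/
def wlLin (X Y Z : C) : (Y ⟶ Z) →ₗ[K] (X ⊗ Y ⟶ X ⊗ Z) where
  toFun f := X ◁ f
  map_add' f g := by simp
  map_smul' r f := by simp

/-- right whiskering as a linear map -/
def wrLin (X Y Z : C) : (Y ⟶ Z) →ₗ[K] (Y ⊗ X ⟶ Z ⊗ X) where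
  toFun f := f ▷ X
  map_add' f g := by simp
  map_smul' r f := by simp

/-- left whiskering -/
noncomputable def bcWl (X : BC K L C) {Y Z : BC K L C} (f : Y ⟶ Z) :
    (BC.mk (X.un ⊗ Y.un) : BC K L C) ⟶ BC.mk (X.un ⊗ Z.un) :=
  LinearMap.lTensor L (wlLin K X.un Y.un Z.un) f

/-- right whiskering -/
noncomputable def bcWr (X : BC K L C) {Y Z : BC K L C} (f : Y ⟶ Z) :
    (BC.mk (Y.un ⊗ X.un) : BC K L C) ⟶ BC.mk (Z.un ⊗ X.un) :=
  LinearMap.lTensor L (wrLin K X.un Y.un Z.un) f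

theorem bcWl_tm (X : BC K L C) {Y Z : BC K L C} (a : L) (f : Y.un ⟶ Z.un) :
    bcWl K L X (tm K L (X := Y) (Y := Z) a f)
      = tm K L (X := BC.mk (X.un ⊗ Y.un)) (Y := BC.mk (X.un ⊗ Z.un)) a (X.un ◁ f) :=
  LinearMap.lTensor_tmul _ _ _ _

theorem bcWr_tm (X : BC K L C) {Y Z : BC K L C} (a : L) (f : Y.un ⟶ Z.un) :
    bcWr K L X (tm K L (X := Y) (Y := Z) a f)
      = tm K L (X := BC.mk (Y.un ⊗ X.un)) (Y := BC.mk (Z.un ⊗ X.un)) a (f ▷ X.un) :=
  LinearMap.lTensor_tmul _ _ _ _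

theorem bcWl_add (X : BC K L C) {Y Z : BC K L C} (f g : Y ⟶ Z) :
    bcWl K L X (f + g) = bcWl K L X f + bcWl K L X g := map_add _ _ _

theorem bcWr_add (X : BC K L C) {Y Z : BC K L C} (f g : Y ⟶ Z) :
    bcWr K L X (f + g) = bcWr K L X f + bcWr K L X g := map_add _ _ _

theorem bcWl_zero (X : BC K L C) {Y Z : BC K L C} :
    bcWl K L X (0 : Y ⟶ Z) = 0 := map_zero _

theorem bcWr_zero (X : BC K L C) {Y Z : BC K L C} :
    bcWr K L X (0 : Y ⟶ Z) = 0 := map_zero _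

theorem bcWl_smul (X : BC K L C) {Y Z : BC K L C} (r : L) (f : Y ⟶ Z) :
    bcWl K L X (r • f) = r • bcWl K L X f := by
  induction f using bc_ind with
  | h0 => rw [smul_zero, bcWl_zero, smul_zero]
  | ha f f' hf hf' => rw [smul_add, bcWl_add, hf, hf', bcWl_add, smul_add]
  | ht a f => rw [smul_tm, bcWl_tm, bcWl_tm]; rfl

theorem bcWr_smul (X : BC K L C) {Y Z : BC K L C} (r : L) (f : Y ⟶ Z) :
    bcWr K L X (r • f) = r • bcWr K L X f := by
  induction f using bc_ind with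
  | h0 => rw [smul_zero, bcWr_zero, smul_zero]
  | ha f f' hf hf' => rw [smul_add, bcWr_add, hf, hf', bcWr_add, smul_add]
  | ht a f => rw [smul_tm, bcWr_tm, bcWr_tm]; rfl

noncomputable instance instMonStrBC : MonoidalCategoryStruct (BC K L C) where
  tensorObj X Y := BC.mk (X.un ⊗ Y.un)
  whiskerLeft X _ _ f := bcWl K L X f
  whiskerRight f X := bcWr K L X f
  tensorUnit := BC.mk (𝟙_ C)
  associator X Y Z := bcIso K L (α_ X.un Y.un Z.un)
  leftUnitor X := bcIso K L (λ_ X.un)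
  rightUnitor X := bcIso K L (ρ_ X.un)

end Pool.Agent.W_MP_868bb7_ag
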