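import Pool.Agent.W_MP_868bb7_ag.BCMon

set_option autoImplicit false

/-!
# BCMon2: `BC K L C` is a monoidal `L`-linear category
-/

namespace Pool.Agent.W_MP_868bb7_ag

open CategoryTheory MonoidalCategory TensorProduct

universe v u w

variable (K L : Type w) [Field K] [Field L] [Algebra K L] {C : Type u} [Category.{v} C]
  [Preadditive C] [Linear K C] [MonoidalCategory C] [MonoidalPreadditive C] [MonoidalLinear K C]

omit [MonoidalCategory C] [MonoidalPreadditive C] [MonoidalLinear K C] in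
theorem tm_congr {X Y : BC K L C} {a b : L} {f g : X.un ⟶ Y.un} (h : a = b) (h' : f = g) :
    tm K L (X := X) (Y := Y) a f = tm K L b g := by
  rw [h, h']

theorem th_def {X₁ Y₁ X₂ Y₂ : BC K L C} (f : X₁ ⟶ Y₁) (g : X₂ ⟶ Y₂) :
    (f ⊗ₘ g : X₁ ⊗ X₂ ⟶ Y₁ ⊗ Y₂) = bcWr K L X₂ f ≫ bcWl K L Y₁ g := rfl

theorem th_tm {X₁ Y₁ X₂ Y₂ : BC K L C} (a b : L) (f : X₁.un ⟶ Y₁.un) (g : X₂.un ⟶ Y₂.un) :
    (tm K L (X := X₁) (Y := Y₁) a f ⊗ₘ tm K L (X := X₂) (Y := Y₂) b g)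
      = tm K L (X := X₁ ⊗ X₂) (Y := Y₁ ⊗ Y₂) (a * b) (MonoidalCategoryStruct.tensorHom (C := C) f g) := by
  rw [th_def, bcWr_tm, bcWl_tm, MonoidalCategory.tensorHom_def]
  exact tm_comp K L (X := BC.mk (X₁.un ⊗ X₂.un)) (Y := BC.mk (Y₁.un ⊗ X₂.un))
    (Z := BC.mk (Y₁.un ⊗ Y₂.un)) a b (f ▷ X₂.un) (Y₁.un ◁ g)

theorem th_add_left {X₁ Y₁ X₂ Y₂ : BC K L C} (f f' : X₁ ⟶ Y₁) (g : X₂ ⟶ Y₂) :
    ((f + f') ⊗ₘ g) = (f ⊗ₘ g) + (f' ⊗ₘ g) := by
  rw [th_def, bcWr_add, Preadditive.add_comp]; rfl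

theorem th_add_right {X₁ Y₁ X₂ Y₂ : BC K L C} (f : X₁ ⟶ Y₁) (g g' : X₂ ⟶ Y₂) :
    (f ⊗ₘ (g + g')) = (f ⊗ₘ g) + (f ⊗ₘ g') := by
  rw [th_def, bcWl_add, Preadditive.comp_add]; rfl

theorem th_zero_left {X₁ Y₁ X₂ Y₂ : BC K L C} (g : X₂ ⟶ Y₂) :
    ((0 : X₁ ⟶ Y₁) ⊗ₘ g) = 0 := by
  rw [th_def, bcWr_zero, Limits.zero_comp]

theorem th_zero_right {X₁ Y₁ X₂ Y₂ : BC K L C} (f : X₁ ⟶ Y₁) :
    (f ⊗ₘ (0 : X₂ ⟶ Y₂)) = 0 := by
  rw [th_def, bcWl_zero, Limits.comp_zero]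

theorem wl_tm (X : BC K L C) {Y Z : BC K L C} (a : L) (f : Y.un ⟶ Z.un) :
    X ◁ tm K L (X := Y) (Y := Z) a f = tm K L (X := X ⊗ Y) (Y := X ⊗ Z) a (X.un ◁ f) :=
  bcWl_tm K L X a f

theorem wr_tm (X : BC K L C) {Y Z : BC K L C} (a : L) (f : Y.un ⟶ Z.un) :
    tm K L (X := Y) (Y := Z) a f ▷ X = tm K L (X := Y ⊗ X) (Y := Z ⊗ X) a (f ▷ X.un) :=
  bcWr_tm K L X a f

theorem wl_add (X : BC K L C) {Y Z : BC K L C} (f g : Y ⟶ Z) : X ◁ (f + g) = X ◁ f + X ◁ g :=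
  bcWl_add K L X f g

theorem wr_add (X : BC K L C) {Y Z : BC K L C} (f g : Y ⟶ Z) : (f + g) ▷ X = f ▷ X + g ▷ X :=
  bcWr_add K L X f g

theorem wl_zero (X : BC K L C) {Y Z : BC K L C} : X ◁ (0 : Y ⟶ Z) = 0 := bcWl_zero K L X

theorem wr_zero (X : BC K L C) {Y Z : BC K L C} : (0 : Y ⟶ Z) ▷ X = 0 := bcWr_zero K L X

noncomputable instance instMonBC : MonoidalCategory (BC K L C) where
  tensorHom_def f g := rfl
  id_tensorHom_id X₁ X₂ := by
    rw [id_eq, id_eq, th_tm, MonoidalCategory.id_tensorHom_id, one_mul]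
    rfl
  tensorHom_comp_tensorHom {X₁ Y₁ Z₁ X₂ Y₂ Z₂} f₁ f₂ g₁ g₂ := by
    induction f₁ using bc_ind with
    | h0 => simp only [th_zero_left, Limits.zero_comp]
    | ha f f' hf hf' => simp only [th_add_left, Preadditive.add_comp, hf, hf']
    | ht a f₁ =>
    induction f₂ using bc_ind with
    | h0 => simp only [th_zero_right, Limits.zero_comp]
    | ha f f' hf hf' => simp only [th_add_right, Preadditive.add_comp, hf, hf']
    | ht b f₂ =>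
    induction g₁ using bc_ind with
    | h0 => simp only [th_zero_left, Limits.comp_zero]
    | ha f f' hf hf' => simp only [th_add_left, Preadditive.comp_add, hf, hf']
    | ht c g₁ =>
    induction g₂ using bc_ind with
    | h0 => simp only [th_zero_right, Limits.comp_zero]
    | ha f f' hf hf' => simp only [th_add_right, Preadditive.comp_add, hf, hf']
    | ht d g₂ =>
      refine (congrArg₂ (fun y z => y ≫ z)
        (th_tm K L (X₁ := X₁) (Y₁ := Y₁) (X₂ := X₂) (Y₂ := Y₂) a b f₁ f₂)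
        (th_tm K L (X₁ := Y₁) (Y₁ := Z₁) (X₂ := Y₂) (Y₂ := Z₂) c d g₁ g₂)).trans ?_
      refine Eq.trans ?_ ((congrArg₂ (fun (y : X₁ ⟶ Z₁) (z : X₂ ⟶ Z₂) => y ⊗ₘ z)
        (tm_comp K L (X := X₁) (Y := Y₁) (Z := Z₁) a c f₁ g₁)
        (tm_comp K L (X := X₂) (Y := Y₂) (Z := Z₂) b d f₂ g₂)).trans
        (th_tm K L (X₁ := X₁) (Y₁ := Z₁) (X₂ := X₂) (Y₂ := Z₂) (a * c) (b * d)
          (f₁ ≫ g₁) (f₂ ≫ g₂))).symm
      refine (tm_comp K L (X := X₁ ⊗ X₂) (Y := Y₁ ⊗ Y₂) (Z := Z₁ ⊗ Z₂) (a * b) (c * d)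
        (MonoidalCategoryStruct.tensorHom (C := C) f₁ f₂)
        (MonoidalCategoryStruct.tensorHom (C := C) g₁ g₂)).trans ?_
      exact tm_congr K L (mul_mul_mul_comm _ _ _ _)
        (MonoidalCategory.tensorHom_comp_tensorHom _ _ _ _)
  whiskerLeft_id X Y := by
    rw [id_eq, wl_tm, MonoidalCategory.whiskerLeft_id]
    rfl
  id_whiskerRight X Y := by
    rw [id_eq, wr_tm, MonoidalCategory.id_whiskerRight]
    rfl
  associator_naturality {X₁ X₂ X₃ Y₁ Y₂ Y₃} f₁ f₂ f₃ := by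
    induction f₁ using bc_ind with
    | h0 => simp only [th_zero_left, Limits.zero_comp, Limits.comp_zero]
    | ha f f' hf hf' => simp only [th_add_left, Preadditive.add_comp, Preadditive.comp_add, hf, hf']
    | ht a f₁ =>
    induction f₂ using bc_ind with
    | h0 => simp only [th_zero_left, th_zero_right, Limits.zero_comp, Limits.comp_zero]
    | ha f f' hf hf' =>
      simp only [th_add_left, th_add_right, Preadditive.add_comp, Preadditive.comp_add, hf, hf']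
    | ht b f₂ =>
    induction f₃ using bc_ind with
    | h0 => simp only [th_zero_right, Limits.zero_comp, Limits.comp_zero]
    | ha f f' hf hf' =>
      simp only [th_add_right, Preadditive.add_comp, Preadditive.comp_add, hf, hf']
    | ht c f₃ =>
      refine (congrArg (fun (z : X₁ ⊗ X₂ ⟶ Y₁ ⊗ Y₂) => (z ⊗ₘ (tm K L c f₃ : X₃ ⟶ Y₃)) ≫
        (α_ Y₁ Y₂ Y₃).hom) (th_tm K L (X₁ := X₁) (Y₁ := Y₁) (X₂ := X₂) (Y₂ := Y₂)
        a b f₁ f₂)).trans ?_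
      refine Eq.trans ?_ (congrArg (fun (z : X₂ ⊗ X₃ ⟶ Y₂ ⊗ Y₃) => (α_ X₁ X₂ X₃).hom ≫
        ((tm K L a f₁ : X₁ ⟶ Y₁) ⊗ₘ z)) (th_tm K L (X₁ := X₂) (Y₁ := Y₂) (X₂ := X₃) (Y₂ := Y₃)
        b c f₂ f₃)).symm
      refine (congrArg (fun z => z ≫ (α_ Y₁ Y₂ Y₃).hom) (th_tm K L (X₁ := X₁ ⊗ X₂)
        (Y₁ := Y₁ ⊗ Y₂) (X₂ := X₃) (Y₂ := Y₃) (a * b) c
        (MonoidalCategoryStruct.tensorHom (C := C) f₁ f₂) f₃)).trans ?_
      refine Eq.trans ?_ (congrArg (fun z => (α_ X₁ X₂ X₃).hom ≫ z) (th_tm K L (X₁ := X₁)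
        (Y₁ := Y₁) (X₂ := X₂ ⊗ X₃) (Y₂ := Y₂ ⊗ Y₃) a (b * c) f₁
        (MonoidalCategoryStruct.tensorHom (C := C) f₂ f₃))).symm
      refine (tm_comp K L (X := (X₁ ⊗ X₂) ⊗ X₃) (Y := (Y₁ ⊗ Y₂) ⊗ Y₃) (Z := Y₁ ⊗ (Y₂ ⊗ Y₃))
        (a * b * c) 1 (MonoidalCategoryStruct.tensorHom (C := C)
        (MonoidalCategoryStruct.tensorHom (C := C) f₁ f₂) f₃) (α_ Y₁.un Y₂.un Y₃.un).hom).trans ?_
      refine Eq.trans ?_ (tm_comp K L (X := (X₁ ⊗ X₂) ⊗ X₃) (Y := X₁ ⊗ (X₂ ⊗ X₃))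
        (Z := Y₁ ⊗ (Y₂ ⊗ Y₃)) 1 (a * (b * c)) (α_ X₁.un X₂.un X₃.un).hom
        (MonoidalCategoryStruct.tensorHom (C := C) f₁
        (MonoidalCategoryStruct.tensorHom (C := C) f₂ f₃))).symm
      exact tm_congr K L (by rw [mul_one, one_mul, mul_assoc])
        (MonoidalCategory.associator_naturality _ _ _)
  leftUnitor_naturality {X Y} f := by
    induction f using bc_ind with
    | h0 => simp only [wl_zero, Limits.zero_comp, Limits.comp_zero]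
    | ha f f' hf hf' => simp only [wl_add, Preadditive.add_comp, Preadditive.comp_add, hf, hf']
    | ht a f =>
      rw [wl_tm]
      refine (tm_comp K L (X := (𝟙_ (BC K L C)) ⊗ X) (Y := (𝟙_ (BC K L C)) ⊗ Y) (Z := Y) a 1
        ((𝟙_ C) ◁ f) (λ_ Y.un).hom).trans ?_
      refine Eq.trans ?_ (tm_comp K L (X := (𝟙_ (BC K L C)) ⊗ X) (Y := X) (Z := Y) 1 a
        (λ_ X.un).hom f).symm
      exact tm_congr K L (by rw [mul_one, one_mul]) (MonoidalCategory.leftUnitor_naturality _)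
  rightUnitor_naturality {X Y} f := by
    induction f using bc_ind with
    | h0 => simp only [wr_zero, Limits.zero_comp, Limits.comp_zero]
    | ha f f' hf hf' => simp only [wr_add, Preadditive.add_comp, Preadditive.comp_add, hf, hf']
    | ht a f =>
      rw [wr_tm]
      refine (tm_comp K L (X := X ⊗ (𝟙_ (BC K L C))) (Y := Y ⊗ (𝟙_ (BC K L C))) (Z := Y) a 1
        (f ▷ (𝟙_ C)) (ρ_ Y.un).hom).trans ?_
      refine Eq.trans ?_ (tm_comp K L (X := X ⊗ (𝟙_ (BC K L C))) (Y := X) (Z := Y) 1 a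
        (ρ_ X.un).hom f).symm
      exact tm_congr K L (by rw [mul_one, one_mul]) (MonoidalCategory.rightUnitor_naturality _)
  pentagon W X Y Z := by
    have h := congrArg (bc K L) (MonoidalCategory.pentagon W.un X.un Y.un Z.un)
    rw [bc_comp, bc_comp, bc_comp] at h
    exact h
  triangle X Y := by
    have h := congrArg (bc K L) (MonoidalCategory.triangle X.un Y.un)
    rw [bc_comp] at h
    exact h

instance instMonPreBC : MonoidalPreadditive (BC K L C) where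
  whiskerLeft_zero {X _ _} := wl_zero K L X
  zero_whiskerRight {X _ _} := wr_zero K L X
  whiskerLeft_add {X _ _} f g := wl_add K L X f g
  add_whiskerRight {X _ _} f g := wr_add K L X f g

instance instMonLinBC : MonoidalLinear L (BC K L C) where
  whiskerLeft_smul X _ _ r f := bcWl_smul K L X r f
  smul_whiskerRight r _ _ f X := bcWr_smul K L X r f

end Pool.Agent.W_MP_868bb7_ag
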