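import Pool.Agent.W_MP_868bb7_ag.BCMon2

set_option autoImplicit false

/-!
# BCSym: `BC K L C` is symmetric, rigid, with `End(1) = L`
-/

namespace Pool.Agent.W_MP_868bb7_ag

open CategoryTheory MonoidalCategory TensorProduct

universe v u w

variable (K L : Type w) [Field K] [Field L] [Algebra K L] {C : Type u} [Category.{v} C]
  [Preadditive C] [Linear K C] [MonoidalCategory C] [MonoidalPreadditive C] [MonoidalLinear K C]

section Braid

variable [SymmetricCategory C]

noncomputable instance instSymBC : SymmetricCategory (BC K L C) where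
  braiding X Y := bcIso K L (β_ X.un Y.un)
  braiding_naturality_right X Y Z f := by
    induction f using bc_ind with
    | h0 => simp only [wr_zero, wl_zero, Limits.zero_comp, Limits.comp_zero]
    | ha f f' hf hf' =>
      simp only [wr_add, wl_add, Preadditive.add_comp, Preadditive.comp_add, hf, hf']
    | ht a f =>
      rw [wl_tm, wr_tm]
      refine (tm_comp K L (X := X ⊗ Y) (Y := X ⊗ Z) (Z := Z ⊗ X) a 1
        (X.un ◁ f) (β_ X.un Z.un).hom).trans ?_
      refine Eq.trans ?_ (tm_comp K L (X := X ⊗ Y) (Y := Y ⊗ X) (Z := Z ⊗ X) 1 a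
        (β_ X.un Y.un).hom (f ▷ X.un)).symm
      exact tm_congr K L (by rw [mul_one, one_mul])
        (BraidedCategory.braiding_naturality_right _ _)
  braiding_naturality_left {X Y} f Z := by
    induction f using bc_ind with
    | h0 => simp only [wr_zero, wl_zero, Limits.zero_comp, Limits.comp_zero]
    | ha f f' hf hf' =>
      simp only [wr_add, wl_add, Preadditive.add_comp, Preadditive.comp_add, hf, hf']
    | ht a f =>
      rw [wl_tm, wr_tm]
      refine (tm_comp K L (X := X ⊗ Z) (Y := Y ⊗ Z) (Z := Z ⊗ Y) a 1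
        (f ▷ Z.un) (β_ Y.un Z.un).hom).trans ?_
      refine Eq.trans ?_ (tm_comp K L (X := X ⊗ Z) (Y := Z ⊗ X) (Z := Z ⊗ Y) 1 a
        (β_ X.un Z.un).hom (Z.un ◁ f)).symm
      exact tm_congr K L (by rw [mul_one, one_mul])
        (BraidedCategory.braiding_naturality_left _ _)
  hexagon_forward X Y Z := by
    have h := congrArg (bc K L) (BraidedCategory.hexagon_forward X.un Y.un Z.un)
    rw [bc_comp, bc_comp, bc_comp, bc_comp] at h
    exact h
  hexagon_reverse X Y Z := by
    have h := congrArg (bc K L) (BraidedCategory.hexagon_reverse X.un Y.un Z.un)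
    rw [bc_comp, bc_comp, bc_comp, bc_comp] at h
    exact h
  symmetry X Y := by
    have h := congrArg (bc K L) (SymmetricCategory.symmetry X.un Y.un)
    rw [bc_comp] at h
    exact h

end Braid

section Rigid

variable [RightRigidCategory C]

noncomputable instance instPairBC (X : BC K L C) :
    ExactPairing X (BC.mk (X.unᘁ) : BC K L C) where
  coevaluation' := bc K L (η_ X.un X.unᘁ)
  evaluation' := bc K L (ε_ X.un X.unᘁ)
  coevaluation_evaluation' := by
    have h := congrArg (bc K L) (ExactPairing.coevaluation_evaluation X.un X.unᘁ)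
    rw [bc_comp, bc_comp, bc_comp] at h
    exact h
  evaluation_coevaluation' := by
    have h := congrArg (bc K L) (ExactPairing.evaluation_coevaluation X.un X.unᘁ)
    rw [bc_comp, bc_comp, bc_comp] at h
    exact h

noncomputable instance instDualBC (X : BC K L C) : HasRightDual X where
  rightDual := BC.mk (X.unᘁ)

noncomputable instance instRigidBC : RightRigidCategory (BC K L C) where
  rightDual X := instDualBC K L X

end Rigid

theorem unitK_BC [h : UnitK K C] : UnitK L (BC K L C) := by
  constructor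
  let e : K ≃ₗ[K] (𝟙_ C ⟶ 𝟙_ C) :=
    LinearEquiv.ofBijective (LinearMap.toSpanSingleton K _ (𝟙 (𝟙_ C))) h.bij
  let e' : L ≃ₗ[K] (L ⊗[K] (𝟙_ C ⟶ 𝟙_ C)) :=
    (TensorProduct.rid K L).symm ≪≫ₗ TensorProduct.congr (LinearEquiv.refl K L) e
  have h1 : ∀ a : L, e' a = (a ⊗ₜ[K] (𝟙 (𝟙_ C))) := by
    intro a
    simp [e', e]
  have h2 : (fun a : L => a • 𝟙 (𝟙_ (BC K L C))) = fun a => e' a := by
    funext a
    rw [h1]
    exact (smul_tm K L (X := BC.mk (𝟙_ C)) (Y := BC.mk (𝟙_ C)) a 1 (𝟙 (𝟙_ C))).trans
      (tm_congr K L (mul_one a) rfl)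
  rw [h2]
  exact e'.bijective

end Pool.Agent.W_MP_868bb7_ag
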