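import Pool.Agent.W_MP_868bb7_ag.SplitB

set_option autoImplicit false

/-!
# Concl: the two parts of `M` are of pure, opposite type

* `type_of_tensor`: `v` idempotent, `tr v ≠ 0`.  By `dim_prod` the numbers `Tn K b0 v n` are all
  non-zero for `b0 = true` or for `b0 = false` (`∏ (d - i)` and `∏ (d + i)` can vanish only for
  `d ∈ ℕ`, resp. `-d ∈ ℕ`, and `d ≠ 0`).  If `powMap (x ⊗ₘ v) n ≫ E d .. n = 0`, then `split_tensor` with
  `c = b0`, `b = xor d b0` and `ptr_tensorHom` (`(f ⊗ₘ g) = 0`, `tr g ≠ 0` imply `f = 0`) give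
  `powMap x n ≫ E b n = 0`.
* `concl`: let `s' = t / s`, so `s'^2 = swap.la` (`la_mul`), and `v` as in `exists_proj` for
  `D.swap`, `s'`.  `tr v - tr (𝟙 - v) = t / s' = s ≠ 0` (`tr_proj`, `proj_compl`, `swap_t`), so
  `tr v ≠ 0` or `tr (𝟙 - v) ≠ 0`.  In the first case apply `type_of_tensor` to `u ⊗ₘ v` (even,
  `pure_even`) and `(𝟙 - u) ⊗ₘ v` (odd, `pure_odd` with `-s`, `s'`), in the second case to
  `u ⊗ₘ (𝟙 - v)` (odd) and `(𝟙 - u) ⊗ₘ (𝟙 - v)` (even).
* `int_ratio`: `t / s = tr u - tr (𝟙 - u)` and both are integers (`dim_int`).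
-/

namespace Pool.Agent.W_MP_868bb7_ag

open CategoryTheory MonoidalCategory

universe v u w

variable (K : Type w) [Field K] [CharZero K] {C : Type u} [Category.{v} C] [MonoidalCategory C]
  [Preadditive C] [Linear K C] [MonoidalPreadditive C] [MonoidalLinear K C]
  [SymmetricCategory C] [RightRigidCategory C] [UnitK K C]

theorem type_of_tensor {Y : C} (v : Y ⟶ Y) (hv : v ≫ v = v) (h : tr K v ≠ 0) :
    ∃ b0 : Bool, ∀ (X : C) (x : X ⟶ X) (d : Bool), Fd d (x ⊗ₘ v) → Fd (xor d b0) x := by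
  obtain ⟨b0, hb0⟩ : ∃ b0 : Bool, ∀ n, Tn K b0 v n ≠ 0 := by
    by_cases hT : ∀ n, Tn K true v n ≠ 0
    · exact ⟨true, hT⟩
    · push Not at hT
      obtain ⟨n, hn⟩ := hT
      rw [dim_prod K true v hv n, Finset.prod_eq_zero_iff] at hn
      obtain ⟨i, -, hi⟩ := hn
      have hi' : tr K v = i := by
        have : (cs true : K) = -1 := by simp [cs]
        rw [this] at hi
        linear_combination hi
      have hi0 : i ≠ 0 := by
        rintro rfl
        apply h
        rw [hi']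
        simp
      refine ⟨false, fun m hm => ?_⟩
      rw [dim_prod K false v hv m, Finset.prod_eq_zero_iff] at hm
      obtain ⟨j, -, hj⟩ := hm
      have : (cs false : K) = 1 := by simp [cs]
      rw [this, hi', one_mul] at hj
      have h2 : ((i + j : ℕ) : K) = 0 := by
        push_cast
        exact hj
      rw [Nat.cast_eq_zero] at h2
      omega
  refine ⟨b0, fun X x d hd => ?_⟩
  obtain ⟨n, hn, h0⟩ := hd
  refine ⟨n, hn, ?_⟩
  have hx : xor (xor d b0) b0 = d := by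
    cases d <;> cases b0 <;> rfl
  have h1 := split_tensor K (xor d b0) b0 x v n (by rw [hx]; exact h0)
  have h2 := ptr_tensorHom K (powMap x n ≫ E (xor d b0) X n) (powMap v n ≫ E b0 Y n)
  rw [h1, ptr_zero] at h2
  have h3 : tr K (powMap v n ≫ E b0 Y n) ≠ 0 := hb0 n
  have h4 : powMap x n ≫ E (xor d b0) X n =
      (tr K (powMap v n ≫ E b0 Y n))⁻¹ • (tr K (powMap v n ≫ E b0 Y n) •
        (powMap x n ≫ E (xor d b0) X n)) := by
    rw [smul_smul, inv_mul_cancel₀ h3, one_smul]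
  rw [h4, ← h2, smul_zero]

namespace Dat

variable {M N : C} (D : Dat M N)

theorem concl (s : K) (hs : s ^ 2 = D.la K) (u : M ⟶ M) (hu : D.IsP K s u) :
    ∃ b : Bool, Fd b u ∧ Fd (!b) (𝟙 M - u) := by
  have hla := D.la_ne K
  have ht := D.t_ne K
  have hs0 : s ≠ 0 := by
    rintro rfl
    apply hla
    rw [← hs]
    ring
  have hs'0 : D.t K / s ≠ 0 := div_ne_zero ht hs0
  have hs' : (D.t K / s) ^ 2 = D.swap.la K := by
    have h1 := D.la_mul K
    rw [div_pow, hs, ← h1, mul_div_cancel_left₀ _ hla]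
  obtain ⟨v, hv⟩ := D.swap.exists_proj K (D.t K / s) hs'
  have e1 : s * (D.t K / s) = D.t K := mul_div_cancel₀ _ hs0
  have hsum : tr K v - tr K (𝟙 N - v) = s := by
    rw [tr_sub, D.swap.tr_proj K _ v hv, D.swap_t K]
    field_simp
    ring
  have hu' := D.proj_compl K s u hu
  have hv' := D.swap.proj_compl K (D.t K / s) v hv
  by_cases h0 : tr K v = 0
  · have h1 : tr K (𝟙 N - v) ≠ 0 := by
      intro h1
      rw [h0, h1, sub_zero] at hsum
      exact hs0 hsum.symm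
    obtain ⟨b0, hb0⟩ := type_of_tensor K (𝟙 N - v) hv'.1 h1
    have k1 := hb0 M u false (D.pure_odd K s (-(D.t K / s)) hs0 (neg_ne_zero.2 hs'0) u _ hu hv'
      (by rw [mul_neg, e1]))
    have k2 := hb0 M (𝟙 M - u) true (D.pure_even K (-s) (-(D.t K / s)) (neg_ne_zero.2 hs0)
      (neg_ne_zero.2 hs'0) _ _ hu' hv' (by rw [neg_mul_neg, e1]))
    refine ⟨b0, ?_, ?_⟩
    · simpa using k1
    · simpa using k2
  · obtain ⟨b0, hb0⟩ := type_of_tensor K v hv.1 h0
    have k1 := hb0 M u true (D.pure_even K s (D.t K / s) hs0 hs'0 u v hu hv e1)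
    have k2 := hb0 M (𝟙 M - u) false (D.pure_odd K (-s) (D.t K / s) (neg_ne_zero.2 hs0) hs'0
      _ _ hu' hv (by rw [neg_mul, e1]))
    refine ⟨!b0, ?_, ?_⟩
    · simpa using k1
    · simpa using k2

theorem int_ratio (s : K) (hs : s ^ 2 = D.la K) : ∃ j : ℤ, D.t K = j * s := by
  have hla := D.la_ne K
  have hs0 : s ≠ 0 := by
    rintro rfl
    apply hla
    rw [← hs]
    ring
  obtain ⟨u, hu⟩ := D.exists_proj K s hs
  obtain ⟨b, hb1, hb2⟩ := D.concl K s hs u hu
  have hu' := D.proj_compl K s u hu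
  obtain ⟨i, hi⟩ := dim_int K b u hu.1 hb1
  obtain ⟨j, hj⟩ := dim_int K (!b) (𝟙 M - u) hu'.1 hb2
  have hsum : tr K u - tr K (𝟙 M - u) = s⁻¹ * D.t K := by
    rw [tr_sub, D.tr_proj K _ u hu]
    ring
  refine ⟨-(cs b) * i + cs (!b) * j, ?_⟩
  have h1 : D.t K = s * (tr K u - tr K (𝟙 M - u)) := by
    rw [hsum, mul_inv_cancel_left₀ hs0]
  rw [h1, hi, hj]
  push_cast
  ring

end Dat

end Pool.Agent.W_MP_868bb7_ag
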