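import Pool.Agent.W_MP_868bb7_ag.Euler

set_option autoImplicit false

/-!
# Cross: a composite which is of both types has trace zero

Let `u = f ≫ g`, `u' = g ≫ f`, `p_j = tr (it u j) = tr (it u' j)` (`j ≥ 1`,
`tr_comp_comm`), `c = cs b`, `a_n = Tn b u n / n!`, `h_n = Tn (!b) u' n / n!`.  The recursion
(`Cn_succ`, `Tn_succ`) gives
`(n+1) a_{n+1} = ∑_{k ≤ n} c^k a_{n-k} p_{k+1}`, `(n+1) h_{n+1} = ∑_{k ≤ n} (-c)^k h_{n-k} p_{k+1}`.
For the power series `A(t) = ∑ a_n t^n`, `B(t) = ∑ h_n t^n`, `P(t) = ∑ p_{k+1} t^k`: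
`A'(t) = A(t) P(ct)`, `B'(t) = B(t) P(-ct)`, so `A(t) B(-t)` has derivative `0`, and
`A(t) B(-t) = 1`.  Both are polynomials (`Fd_mono'`), so `A = B = 1` (units of `K[t]`), and
`p_1 = a_1 = 0`.  (Without power series: show `∑_{i+j=n} (-1)^j a_i h_j = 0` for `n ≥ 1` by induction
from the recursion, and compare the top coefficients.)
-/

namespace Pool.Agent.W_MP_868bb7_ag

open CategoryTheory MonoidalCategory

universe v u w

theorem cross_series {K : Type*} [Field K] [CharZero K] (c : K) (a b p : ℕ → K)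
    (ha0 : a 0 = 1) (hb0 : b 0 = 1)
    (ha : ∀ n, a (n + 1) * (n + 1) = ∑ k ∈ Finset.range (n + 1), c ^ k * p k * a (n - k))
    (hb : ∀ n, b (n + 1) * (n + 1) = ∑ k ∈ Finset.range (n + 1), (-c) ^ k * p k * b (n - k))
    (N : ℕ) (haN : ∀ n, N ≤ n → a n = 0) (hbN : ∀ n, N ≤ n → b n = 0) : a 1 = 0 := by
  set A : PowerSeries K := PowerSeries.mk a with hA
  set B : PowerSeries K := PowerSeries.mk (fun n => (-1) ^ n * b n) with hB
  set P : PowerSeries K := PowerSeries.mk (fun k => c ^ k * p k) with hP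
  have h1 : PowerSeries.derivative K A = P * A := by
    ext n
    rw [PowerSeries.coeff_derivative, PowerSeries.coeff_mul, hA, PowerSeries.coeff_mk, ha,
      Finset.Nat.sum_antidiagonal_eq_sum_range_succ_mk]
    refine Finset.sum_congr rfl fun k _ => ?_
    simp only [hP, PowerSeries.coeff_mk]
  have h2 : PowerSeries.derivative K B = - (P * B) := by
    ext n
    rw [PowerSeries.coeff_derivative, map_neg, PowerSeries.coeff_mul, hB, PowerSeries.coeff_mk,
      Finset.Nat.sum_antidiagonal_eq_sum_range_succ_mk, mul_assoc, hb, ← Finset.sum_neg_distrib,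
      Finset.mul_sum]
    refine Finset.sum_congr rfl fun k hk => ?_
    simp only [hP, PowerSeries.coeff_mk]
    have hk' : k ≤ n := Nat.lt_succ_iff.1 (Finset.mem_range.1 hk)
    obtain ⟨m, rfl⟩ := Nat.exists_eq_add_of_le hk'
    rw [Nat.add_sub_cancel_left, neg_pow c k]
    have h3 : ((-1 : K)) ^ k * (-1) ^ k = 1 := by rw [← mul_pow]; norm_num
    linear_combination (-(-1 : K) ^ m * c ^ k * p k * b m) * h3
  have h3 : A * B = 1 := by
    refine PowerSeries.derivative.ext ?_ ?_
    · rw [Derivation.leibniz, h1, h2, PowerSeries.derivative_one]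
      simp only [smul_eq_mul]
      ring
    · rw [map_mul]
      simp [hA, hB, ha0, hb0]
  set PA : Polynomial K := ∑ i ∈ Finset.range N, Polynomial.monomial i (a i) with hPA
  set PB : Polynomial K := ∑ i ∈ Finset.range N, Polynomial.monomial i ((-1) ^ i * b i) with hPB
  have h4 : (PA : PowerSeries K) = A := by
    ext n
    rw [Polynomial.coeff_coe, hPA, Polynomial.finsetSum_coeff, hA, PowerSeries.coeff_mk]
    simp only [Polynomial.coeff_monomial]
    rw [Finset.sum_ite_eq' (Finset.range N) n]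
    split_ifs with h
    · rfl
    · exact (haN n (not_lt.1 fun h' => h (Finset.mem_range.2 h'))).symm
  have h5 : (PB : PowerSeries K) = B := by
    ext n
    rw [Polynomial.coeff_coe, hPB, Polynomial.finsetSum_coeff, hB, PowerSeries.coeff_mk]
    simp only [Polynomial.coeff_monomial]
    rw [Finset.sum_ite_eq' (Finset.range N) n]
    split_ifs with h
    · rfl
    · rw [hbN n (not_lt.1 fun h' => h (Finset.mem_range.2 h')), mul_zero]
  have h6 : PA * PB = 1 := by
    apply Polynomial.coe_injective K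
    rw [Polynomial.coe_mul, h4, h5, h3, Polynomial.coe_one]
  have h7 : IsUnit PA := IsUnit.of_mul_eq_one PB h6
  have h8 : PA.natDegree = 0 := Polynomial.natDegree_eq_zero_of_isUnit h7
  have h9 : PA.coeff 1 = 0 := Polynomial.coeff_eq_zero_of_natDegree_lt (by omega)
  have h10 : PowerSeries.coeff 1 (PA : PowerSeries K) = 0 := by rw [Polynomial.coeff_coe, h9]
  rw [h4, hA, PowerSeries.coeff_mk] at h10
  exact h10

variable (K : Type w) [Field K] [CharZero K] {C : Type u} [Category.{v} C] [MonoidalCategory C]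
  [Preadditive C] [Linear K C] [MonoidalPreadditive C] [MonoidalLinear K C]
  [SymmetricCategory C] [RightRigidCategory C] [UnitK K C]

/-- The recursion solved for `Cn`. -/
theorem Cn_eq (b : Bool) {X : C} (f : X ⟶ X) (n : ℕ) :
    Cn b f n = (n.factorial : K) • ∑ k ∈ Finset.range (n + 1),
      ((cs b : K) ^ k * (Tn K b f (n - k) / ((n - k).factorial : K))) • it f k := by
  induction n with
  | zero =>
    rw [Cn_zero]
    simp [it, Tn_zero]
  | succ n ih =>
    rw [Cn_succ K, Finset.sum_range_succ', smul_add, add_comm]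
    congr 1
    · have h1 : (((n : ℤ) + 1) * cs b) • (f ≫ Cn b f n) =
          ((((n : K) + 1) * (cs b : K)) : K) • (f ≫ Cn b f n) := by
        rw [← Int.cast_smul_eq_zsmul K]
        push_cast
        rfl
      rw [h1, ih, Linear.comp_smul, smul_smul, Preadditive.comp_sum, Finset.smul_sum,
        Finset.smul_sum]
      refine Finset.sum_congr rfl fun k hk => ?_
      rw [Linear.comp_smul, smul_smul, smul_smul]
      have h2 : n + 1 - (k + 1) = n - k := by omega
      rw [h2]
      have h3 : f ≫ it f k = it f (k + 1) := rfl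
      rw [h3]
      congr 1
      rw [Nat.factorial_succ, pow_succ]
      push_cast
      ring
    · rw [pow_zero, one_mul, Nat.sub_zero, smul_smul]
      have h4 : ((n + 1).factorial : K) ≠ 0 := Nat.cast_ne_zero.2 (Nat.factorial_ne_zero _)
      rw [mul_div_cancel₀ _ h4]
      rfl

theorem Tn_rec (b : Bool) {X : C} (f : X ⟶ X) (n : ℕ) :
    Tn K b f (n + 1) / ((n + 1).factorial : K) * (n + 1) = ∑ k ∈ Finset.range (n + 1),
      (cs b : K) ^ k * tr K (it f (k + 1)) * (Tn K b f (n - k) / ((n - k).factorial : K)) := by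
  have h4 : ((n).factorial : K) ≠ 0 := Nat.cast_ne_zero.2 (Nat.factorial_ne_zero _)
  have h5 : ((n : K) + 1) ≠ 0 := by exact_mod_cast Nat.succ_ne_zero n
  rw [Tn_succ, Cn_eq K, Linear.comp_smul, Preadditive.comp_sum, tr_smul, tr_sum,
    Nat.factorial_succ]
  push_cast
  rw [mul_div_assoc, mul_comm ((n : K) + 1), ← div_div, mul_assoc, div_mul_cancel₀ _ h5,
    mul_div_cancel₀ _ h4]
  refine Finset.sum_congr rfl fun k _ => ?_
  rw [Linear.comp_smul, tr_smul]
  have h3 : f ≫ it f k = it f (k + 1) := rfl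
  rw [h3]
  ring

omit [Field K] [CharZero K] [Preadditive C] [Linear K C] [MonoidalPreadditive C] [MonoidalLinear K C]
  [SymmetricCategory C] [RightRigidCategory C] [UnitK K C] [MonoidalCategory C] in
theorem it_comp {X Y : C} (f : X ⟶ Y) (g : Y ⟶ X) (j : ℕ) :
    it (f ≫ g) (j + 1) = f ≫ it (g ≫ f) j ≫ g := by
  induction j with
  | zero => simp [it]
  | succ j ih =>
    have h1 : it (f ≫ g) (j + 1 + 1) = (f ≫ g) ≫ it (f ≫ g) (j + 1) := rfl
    have h2 : it (g ≫ f) (j + 1) = (g ≫ f) ≫ it (g ≫ f) j := rfl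
    rw [h1, ih, h2]
    simp only [Category.assoc]

omit [Field K] [CharZero K] [Preadditive C] [Linear K C] [MonoidalPreadditive C] [MonoidalLinear K C]
  [SymmetricCategory C] [RightRigidCategory C] [UnitK K C] [MonoidalCategory C] in
theorem it_succ' {X : C} (f : X ⟶ X) (j : ℕ) : it f (j + 1) = it f j ≫ f := by
  induction j with
  | zero => simp [it]
  | succ j ih =>
    have h1 : it f (j + 1 + 1) = f ≫ it f (j + 1) := rfl
    have h2 : it f (j + 1) = f ≫ it f j := rfl
    rw [h1, ih, ← Category.assoc, ← h2, ih]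

theorem cross (b : Bool) {X Y : C} (f : X ⟶ Y) (g : Y ⟶ X) (h1 : Fd b (f ≫ g))
    (h2 : Fd (!b) (g ≫ f)) : tr K (f ≫ g) = 0 := by
  obtain ⟨n1, -, h1⟩ := h1
  obtain ⟨n2, -, h2⟩ := h2
  have hc : (cs (!b) : K) = -(cs b : K) := by cases b <;> simp [cs]
  have h3 := cross_series (cs b : K) (fun n => Tn K b (f ≫ g) n / (n.factorial : K))
    (fun n => Tn K (!b) (g ≫ f) n / (n.factorial : K)) (fun k => tr K (it (f ≫ g) (k + 1)))
    (by simp [Tn_zero]) (by simp [Tn_zero]) (fun n => Tn_rec K b (f ≫ g) n) ?_ (max n1 n2) ?_ ?_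
  · have h4 : Tn K b (f ≫ g) 1 = 0 := by simpa using h3
    rw [Tn_succ, Cn_zero, Category.comp_id] at h4
    exact h4
  · intro n
    have h4 := Tn_rec K (!b) (g ≫ f) n
    rw [hc] at h4
    rw [h4]
    refine Finset.sum_congr rfl fun k _ => ?_
    congr 2
    rw [it_comp f g, tr_comp_comm, Category.assoc, ← it_succ']
  · intro n hn
    have h4 := Fd_mono' b (f ≫ g) n1 n ((le_max_left _ _).trans hn) h1
    simp [Tn, h4, tr_zero]
  · intro n hn
    have h4 := Fd_mono' (!b) (g ≫ f) n2 n ((le_max_right _ _).trans hn) h2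
    simp [Tn, h4, tr_zero]

end Pool.Agent.W_MP_868bb7_ag
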