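import Pool.Agent.W_MP_868bb7_ag.TraceK

set_option autoImplicit false

/-!
# Exch: the exchange identity

On `(M ⊗ N) ⊗ (N ⊗ M)` let `swi` exchange the two middle factors `N`.  For `T : M ⊗ N ⟶ M ⊗ N` and
`T' : N ⊗ M ⟶ N ⊗ M`,
`ptr (N ⊗ M) (swi ≫ (T ⊗ₘ T') ≫ swi) = ptr N T ⊗ₘ ptr M T'`.

Proof.  By `ptr_tensor` the left side is `ptr N (ptr M (α ≫ .. ≫ α⁻¹))`.  Write
`T ⊗ₘ T' = T ▷ (N ⊗ M) ≫ (M ⊗ N) ◁ T'`.  With `s = rsw M N N`: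
`α.hom ≫ swi ≫ (T ⊗ₘ T') ≫ swi ≫ α.inv
  = s ▷ M ≫ (T ▷ N) ▷ M ≫ (α.hom ≫ (M ⊗ N) ◁ T' ≫ α.inv) ≫ s ▷ M`,
so that `ptr M` of it is `s ≫ T ▷ N ≫ (M ⊗ N) ◁ t' ≫ s` with `t' = ptr M T'`
(`ptr_nat_left`, `ptr_nat_right`, `ptr_whisker`).  Further `(M ⊗ N) ◁ t' ≫ s = s ≫ (M ◁ t') ▷ N` by
naturality of the braiding, so `ptr N` of it is `ptr N (s ≫ T ▷ N ≫ s) ≫ M ◁ t'`
(`ptr_nat_right`) `= (ptr N T) ▷ N ≫ M ◁ t'` (`ptr_rsw`).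
-/

namespace Pool.Agent.W_MP_868bb7_ag

open CategoryTheory MonoidalCategory

universe v u

variable {C : Type u} [Category.{v} C] [MonoidalCategory C] [SymmetricCategory C]

/-- exchange of the two middle factors of `(M ⊗ N) ⊗ (N ⊗ M)` -/
def swi (M N : C) : (M ⊗ N) ⊗ (N ⊗ M) ⟶ (M ⊗ N) ⊗ (N ⊗ M) :=
  (α_ (M ⊗ N) N M).inv ≫ rsw M N N ▷ M ≫ (α_ (M ⊗ N) N M).hom

theorem swi_swi (M N : C) : swi M N ≫ swi M N = 𝟙 _ := by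
  simp only [swi, Category.assoc, Iso.hom_inv_id_assoc]
  rw [← MonoidalCategory.comp_whiskerRight_assoc, rsw_rsw]
  simp

/-- sliding an endomorphism of the last factor through `rsw` -/
theorem whisker_rsw {M N : C} (t : N ⟶ N) :
    (M ⊗ N) ◁ t ≫ rsw M N N = rsw M N N ≫ (M ◁ t) ▷ N := by
  simp only [rsw, Category.assoc]
  rw [← associator_inv_naturality_middle, ← MonoidalCategory.whiskerLeft_comp_assoc,
    ← BraidedCategory.braiding_naturality_right, MonoidalCategory.whiskerLeft_comp_assoc,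
    associator_naturality_right_assoc]

variable [RightRigidCategory C]

theorem ptr_swi {M N : C} (T : M ⊗ N ⟶ M ⊗ N) (T' : N ⊗ M ⟶ N ⊗ M) :
    ptr (N ⊗ M) (swi M N ≫ (T ⊗ₘ T') ≫ swi M N) = ptr N T ⊗ₘ ptr M T' := by
  have h1 : (α_ (M ⊗ N) N M).hom ≫ (swi M N ≫ (T ⊗ₘ T') ≫ swi M N) ≫ (α_ (M ⊗ N) N M).inv =
      rsw M N N ▷ M ≫ (T ▷ N) ▷ M ≫
        ((α_ (M ⊗ N) N M).hom ≫ (M ⊗ N) ◁ T' ≫ (α_ (M ⊗ N) N M).inv) ≫ rsw M N N ▷ M := by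
    rw [MonoidalCategory.tensorHom_def]
    simp only [swi, Category.assoc, Iso.hom_inv_id_assoc, Iso.hom_inv_id, Category.comp_id]
    rw [associator_naturality_left_assoc]
  rw [ptr_tensor, h1, ptr_nat_left, ptr_nat_left, ptr_nat_right, ptr_whisker, whisker_rsw,
    MonoidalCategory.tensorHom_def]
  have h2 : rsw M N N ≫ T ▷ N ≫ rsw M N N ≫ (M ◁ ptr M T') ▷ N =
      (rsw M N N ≫ T ▷ N ≫ rsw M N N) ≫ (M ◁ ptr M T') ▷ N := by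
    simp only [Category.assoc]
  rw [h2, ptr_nat_right, ptr_rsw]

end Pool.Agent.W_MP_868bb7_ag
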