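import Pool.Agent.W_MP_868bb7_ag.PowE

set_option autoImplicit false

/-!
# SEPow: partial (anti)symmetrizers kill `powMap f N`

For the set `A0` of the last `a` positions (`A0 = {i | N - a ≤ i}`) the sum over the
permutations supported in `A0` is `1 ⊗ ... ⊗ 1 ⊗ E b X a` (induction on `N` with `act_shift`: a
permutation supported in `A0`, `a < N`, is `shift e`), so it is killed by `powMap f N`.  For general
`A` choose `π` with `π A0 = A`, conjugate by `act X N π` (`act_mul`, `powMap_act`, `chi` is invariant
under conjugation).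
-/

namespace Pool.Agent.W_MP_868bb7_ag

open CategoryTheory MonoidalCategory

universe v u

section Perm

theorem sepow_shift_inj {n : ℕ} {e e' : Equiv.Perm (Fin n)} (h : shift e = shift e') : e = e' := by
  ext i
  have := congrArg (fun s : Equiv.Perm (Fin (n + 1)) => s i.succ) h
  simp only [shift_succ] at this
  exact congrArg Fin.val (Fin.succ_injective _ this)

theorem sepow_eq_shift {n : ℕ} (σ : Equiv.Perm (Fin (n + 1))) (h : σ 0 = 0) :
    shift (tail σ) = σ := by
  have h1 := perm_eq σ
  rw [h] at h1
  ext i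
  have h2 := congrArg (fun s : Equiv.Perm (Fin (n + 1)) => s i) h1
  simp only [Equiv.Perm.coe_mul, Function.comp_apply] at h2
  rw [h2]
  simp

theorem sepow_chi_shift (b : Bool) {n : ℕ} (e : Equiv.Perm (Fin n)) :
    chi b (shift e) = chi b e := by
  cases b
  · rfl
  · show Equiv.Perm.sign (shift e) = Equiv.Perm.sign e
    rw [shift, Equiv.Perm.decomposeFin.symm_sign]
    simp

theorem sepow_chi_conj (b : Bool) {α : Type*} [Fintype α] [DecidableEq α] (p s : Equiv.Perm α) :
    chi b (p * s * p⁻¹) = chi b s := by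
  rw [map_mul, map_mul, mul_comm, ← mul_assoc, ← map_mul]
  simp

theorem sepow_supp_shift {n : ℕ} (e : Equiv.Perm (Fin n)) (A : Finset (Fin (n + 1))) :
    (shift e).support ⊆ A ↔ e.support ⊆ Finset.univ.filter (fun i : Fin n => i.succ ∈ A) := by
  constructor
  · intro h i hi
    rw [Finset.mem_filter]
    refine ⟨Finset.mem_univ _, h ?_⟩
    rw [Equiv.Perm.mem_support] at hi ⊢
    rw [shift_succ]
    intro h'
    exact hi (Fin.succ_injective _ h')
  · intro h i hi
    rw [Equiv.Perm.mem_support] at hi
    rcases Fin.eq_zero_or_eq_succ i with rfl | ⟨j, rfl⟩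
    · exact absurd (shift_zero e) hi
    · rw [shift_succ] at hi
      have : j ∈ e.support := by
        rw [Equiv.Perm.mem_support]
        intro h'
        exact hi (by rw [h'])
      exact (Finset.mem_filter.1 (h this)).2

end Perm

variable {C : Type u} [Category.{v} C] [MonoidalCategory C]
  [Preadditive C] [MonoidalPreadditive C] [SymmetricCategory C]

/-- sum over the permutations with support in `A` -/
def SEsum (b : Bool) (X : C) (N : ℕ) (A : Finset (Fin N)) : pow X N ⟶ pow X N :=
  ∑ σ ∈ Finset.univ.filter (fun σ : Equiv.Perm (Fin N) => σ.support ⊆ A),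
      ((chi b σ : ℤˣ) : ℤ) • act X N σ

omit [MonoidalPreadditive C] in
theorem SEsum_conj (b : Bool) (X : C) (N : ℕ) (A : Finset (Fin N)) (p : Equiv.Perm (Fin N)) :
    SEsum b X N (A.map p.toEmbedding) = act X N p⁻¹ ≫ SEsum b X N A ≫ act X N p := by
  unfold SEsum
  rw [Preadditive.sum_comp, Preadditive.comp_sum]
  symm
  refine Finset.sum_bij (fun s _ => p * s * p⁻¹) ?_ ?_ ?_ ?_
  · intro s hs
    rw [Finset.mem_filter] at hs ⊢
    refine ⟨Finset.mem_univ _, ?_⟩
    rw [Equiv.Perm.support_conj]
    exact Finset.map_subset_map.2 hs.2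
  · intro s _ t _ h
    simpa using h
  · intro s hs
    rw [Finset.mem_filter] at hs
    refine ⟨p⁻¹ * s * p, ?_, by group⟩
    rw [Finset.mem_filter]
    refine ⟨Finset.mem_univ _, ?_⟩
    have h2 : p⁻¹ * s * p = p⁻¹ * s * (p⁻¹)⁻¹ := by group
    rw [h2, Equiv.Perm.support_conj]
    intro x hx
    rw [Finset.mem_map] at hx
    obtain ⟨y, hy, rfl⟩ := hx
    have h3 := hs.2 hy
    rw [Finset.mem_map] at h3
    obtain ⟨z, hz, rfl⟩ := h3
    simpa using hz
  · intro s _
    rw [sepow_chi_conj, Preadditive.zsmul_comp, Preadditive.comp_zsmul, act_mul, act_mul]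

theorem SEsum_succ (b : Bool) (X : C) (N : ℕ) (A : Finset (Fin (N + 1))) (h0 : (0 : Fin (N + 1)) ∉ A) :
    SEsum b X (N + 1) A
      = X ◁ SEsum b X N (Finset.univ.filter (fun i : Fin N => i.succ ∈ A)) := by
  unfold SEsum
  have h1 : X ◁ (∑ σ ∈ Finset.univ.filter (fun σ : Equiv.Perm (Fin N) => σ.support ⊆
      (Finset.univ.filter (fun i : Fin N => i.succ ∈ A))), ((chi b σ : ℤˣ) : ℤ) • act X N σ)
      = ∑ σ ∈ Finset.univ.filter (fun σ : Equiv.Perm (Fin N) => σ.support ⊆
      (Finset.univ.filter (fun i : Fin N => i.succ ∈ A))),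
        ((chi b σ : ℤˣ) : ℤ) • (X ◁ act X N σ) := by
    have h2 := map_sum (tensorLeft X).mapAddHom (fun σ : Equiv.Perm (Fin N) =>
      ((chi b σ : ℤˣ) : ℤ) • act X N σ) (Finset.univ.filter (fun σ : Equiv.Perm (Fin N) =>
        σ.support ⊆ (Finset.univ.filter (fun i : Fin N => i.succ ∈ A))))
    refine Eq.trans h2 ?_
    refine Finset.sum_congr rfl fun s _ => ?_
    exact map_zsmul (tensorLeft X).mapAddHom _ _
  rw [h1]
  symm
  refine Finset.sum_bij (fun e _ => shift e) ?_ ?_ ?_ ?_
  · intro e he
    rw [Finset.mem_filter] at he ⊢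
    exact ⟨Finset.mem_univ _, (sepow_supp_shift e A).2 he.2⟩
  · intro e _ e' _ h
    exact sepow_shift_inj h
  · intro s hs
    rw [Finset.mem_filter] at hs
    have h3 : s 0 = 0 := by
      by_contra h
      exact h0 (hs.2 (Equiv.Perm.mem_support.2 h))
    refine ⟨tail s, ?_, sepow_eq_shift s h3⟩
    rw [Finset.mem_filter]
    refine ⟨Finset.mem_univ _, (sepow_supp_shift _ A).1 ?_⟩
    rw [sepow_eq_shift s h3]
    exact hs.2
  · intro e _
    rw [sepow_chi_shift, act_shift]
    rfl

theorem SEsum_pow (b : Bool) {X : C} (f : X ⟶ X) (a : ℕ) (h : powMap f a ≫ E b X a = 0) :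
    ∀ (N : ℕ) (A : Finset (Fin N)), A.card = a → powMap f N ≫ SEsum b X N A = 0 := by
  have key : ∀ (N : ℕ) (A : Finset (Fin N)), A.card = a → A = Finset.univ →
      powMap f N ≫ SEsum b X N A = 0 := by
    intro N A hA hu
    subst hu
    rw [Finset.card_univ, Fintype.card_fin] at hA
    subst hA
    have : SEsum b X N Finset.univ = E b X N := by
      unfold SEsum E
      rw [Finset.filter_true_of_mem]
      intro s _
      exact Finset.subset_univ _
    rw [this, h]
  intro N
  induction N with
  | zero =>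
    intro A hA
    refine key 0 A hA ?_
    ext i
    exact i.elim0
  | succ N ih =>
    intro A hA
    -- the case `0 ∉ A`
    have case0 : ∀ A : Finset (Fin (N + 1)), A.card = a → (0 : Fin (N + 1)) ∉ A →
        powMap f (N + 1) ≫ SEsum b X (N + 1) A = 0 := by
      intro A hA h0
      rw [SEsum_succ b X N A h0]
      have hc : (Finset.univ.filter (fun i : Fin N => i.succ ∈ A)).card = a := by
        rw [← hA]
        have : A = (Finset.univ.filter (fun i : Fin N => i.succ ∈ A)).map
            (Fin.succEmb N) := by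
          ext i
          rw [Finset.mem_map]
          constructor
          · intro hi
            rcases Fin.eq_zero_or_eq_succ i with rfl | ⟨j, rfl⟩
            · exact absurd hi h0
            · exact ⟨j, Finset.mem_filter.2 ⟨Finset.mem_univ _, hi⟩, rfl⟩
          · rintro ⟨j, hj, rfl⟩
            exact (Finset.mem_filter.1 hj).2
        conv_rhs => rw [this]
        rw [Finset.card_map]
      have h1 := ih _ hc
      have h2 : (f ⊗ₘ powMap f N) ≫ (X ◁ SEsum b X N
          (Finset.univ.filter (fun i : Fin N => i.succ ∈ A))) = 0 := by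
        rw [MonoidalCategory.tensorHom_def, Category.assoc, ← MonoidalCategory.whiskerLeft_comp, h1]
        simp
      exact h2
    by_cases hu : A = Finset.univ
    · exact key _ A hA hu
    · obtain ⟨i, hi⟩ : ∃ i, i ∉ A := by
        by_contra hcon
        push Not at hcon
        exact hu (Finset.eq_univ_iff_forall.2 hcon)
      have hA2 : (A.map (Equiv.swap 0 i).toEmbedding).card = a := by
        rw [Finset.card_map, hA]
      have h02 : (0 : Fin (N + 1)) ∉ A.map (Equiv.swap 0 i).toEmbedding := by
        rw [Finset.mem_map]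
        rintro ⟨j, hj, hj2⟩
        have : j = i := by
          have h5 : Equiv.swap 0 i j = 0 := hj2
          have h6 : Equiv.swap 0 i (Equiv.swap 0 i j) = Equiv.swap 0 i 0 := by rw [h5]
          rw [Equiv.swap_apply_left] at h6
          simpa using h6
        exact hi (this ▸ hj)
      have h7 := case0 _ hA2 h02
      have h8 : A = (A.map (Equiv.swap 0 i).toEmbedding).map (Equiv.swap 0 i).toEmbedding := by
        ext j
        simp
      rw [h8, SEsum_conj, ← Category.assoc, powMap_act, Category.assoc, ← Category.assoc (powMap f _),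
        h7]
      simp

theorem SE_pow (b : Bool) {X : C} (f : X ⟶ X) (a N : ℕ) (A : Finset (Fin N)) (hA : A.card = a)
    (h : powMap f a ≫ E b X a = 0) :
    powMap f N ≫ (∑ σ ∈ Finset.univ.filter (fun σ : Equiv.Perm (Fin N) => σ.support ⊆ A),
      ((chi b σ : ℤˣ) : ℤ) • act X N σ) = 0 :=
  SEsum_pow b f a h N A hA

end Pool.Agent.W_MP_868bb7_ag
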