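import Pool.Agent.W_MP_868bb7_ag.HookTensor
import Pool.Agent.W_MP_868bb7_ag.SEPow
import Pool.Agent.W_MP_868bb7_ag.Shuffle

set_option autoImplicit false

/-!
# TensorFd: (anti)symmetrizers and tensor products

* `Fd_tensor`: take `N = (a - 1) (m - 1) + 1`,
  `V = (pow X N ⊗ pow Y N ⟶ pow X N ⊗ pow Y N)`, `ρ1 σ x = x ≫ act X N σ ▷ pow Y N`,
  `ρ2 σ x = x ≫ pow X N ◁ act Y N σ`, `v = powMap f N ⊗ₘ powMap g N`, `hook_tensor`; go back with
  `sh_powMap`, `sh_act`, `sh_shInv`.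
* `split_tensor`: compose with `E b X n ⊗ₘ E c Y n` on the right: the diagonal sum
  `D = ∑ χ_d(σ) (act X n σ ⊗ₘ act Y n σ)`, `d = xor b c`, `χ_d = χ_b χ_c`, satisfies
  `D ≫ (E b X n ⊗ₘ E c Y n) = n! • (E b X n ⊗ₘ E c Y n)` (`act_E`).
-/

namespace Pool.Agent.W_MP_868bb7_ag

open CategoryTheory MonoidalCategory

universe v u w

/-- the diagonal sum on `X^{⊗ n} ⊗ Y^{⊗ n}` -/
def tfdDiag {C : Type u} [Category.{v} C] [MonoidalCategory C] [Preadditive C]
    [SymmetricCategory C] (d : Bool) (X Y : C) (n : ℕ) :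
    pow X n ⊗ pow Y n ⟶ pow X n ⊗ pow Y n :=
  ∑ σ : Equiv.Perm (Fin n), ((chi d σ : ℤˣ) : ℤ) • (act X n σ ⊗ₘ act Y n σ)

theorem tfd_E_sh {C : Type u} [Category.{v} C] [MonoidalCategory C] [Preadditive C]
    [SymmetricCategory C] (d : Bool) (X Y : C) (n : ℕ) :
    E d (X ⊗ Y) n ≫ sh X Y n = sh X Y n ≫ tfdDiag d X Y n := by
  unfold E tfdDiag
  rw [Preadditive.sum_comp, Preadditive.comp_sum]
  refine Finset.sum_congr rfl fun σ _ => ?_
  rw [Preadditive.zsmul_comp, Preadditive.comp_zsmul, sh_act]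

theorem tfd_powMap_iff {C : Type u} [Category.{v} C] [MonoidalCategory C] [Preadditive C]
    [SymmetricCategory C] (d : Bool) {X Y : C} (f : X ⟶ X) (g : Y ⟶ Y) (n : ℕ) :
    powMap (f ⊗ₘ g) n ≫ E d (X ⊗ Y) n = 0 ↔
      (powMap f n ⊗ₘ powMap g n) ≫ tfdDiag d X Y n = 0 := by
  have key : powMap (f ⊗ₘ g) n ≫ E d (X ⊗ Y) n ≫ sh X Y n =
      sh X Y n ≫ (powMap f n ⊗ₘ powMap g n) ≫ tfdDiag d X Y n := by
    rw [tfd_E_sh, ← Category.assoc, sh_powMap, Category.assoc]
  constructor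
  · intro h
    have h1 : sh X Y n ≫ (powMap f n ⊗ₘ powMap g n) ≫ tfdDiag d X Y n = 0 := by
      rw [← key, ← Category.assoc, h, Limits.zero_comp]
    have h2 := congrArg (fun t => shInv X Y n ≫ t) h1
    simp only [Limits.comp_zero] at h2
    rw [← Category.assoc, shInv_sh, Category.id_comp] at h2
    exact h2
  · intro h
    have h1 : (powMap (f ⊗ₘ g) n ≫ E d (X ⊗ Y) n) ≫ sh X Y n = 0 := by
      rw [Category.assoc, key, h, Limits.comp_zero]
    have h2 := congrArg (fun t => t ≫ shInv X Y n) h1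
    simp only [Limits.zero_comp] at h2
    rw [Category.assoc, sh_shInv, Category.comp_id] at h2
    exact h2

theorem tfd_zsmul_tensorHom {C : Type u} [Category.{v} C] [MonoidalCategory C] [Preadditive C]
    [MonoidalPreadditive C] {W X Y Z : C} (e : ℤ) (f : W ⟶ X) (g : Y ⟶ Z) :
    (e • f) ⊗ₘ g = e • (f ⊗ₘ g) := by
  have h : (e • f) ▷ Y = e • (f ▷ Y) := (tensorRight Y).map_zsmul (f := f) (r := e)
  rw [MonoidalCategory.tensorHom_def, MonoidalCategory.tensorHom_def, ← Preadditive.zsmul_comp]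
  exact congrArg (fun t => t ≫ X ◁ g) h

theorem tfd_tensorHom_zsmul {C : Type u} [Category.{v} C] [MonoidalCategory C] [Preadditive C]
    [MonoidalPreadditive C] {W X Y Z : C} (e : ℤ) (f : W ⟶ X) (g : Y ⟶ Z) :
    f ⊗ₘ (e • g) = e • (f ⊗ₘ g) := by
  have h : X ◁ (e • g) = e • (X ◁ g) := (tensorLeft X).map_zsmul (f := g) (r := e)
  rw [MonoidalCategory.tensorHom_def, MonoidalCategory.tensorHom_def, ← Preadditive.comp_zsmul]
  exact congrArg (fun t => f ▷ Y ≫ t) h

theorem tfd_chi_xor (b c : Bool) {α : Type*} [Fintype α] [DecidableEq α] (σ : Equiv.Perm α) :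
    chi (xor b c) σ = chi b σ * chi c σ := by
  cases b <;> cases c <;> simp [chi]

variable (K : Type w) [Field K] [CharZero K] {C : Type u} [Category.{v} C] [MonoidalCategory C]
  [Preadditive C] [Linear K C] [MonoidalPreadditive C] [MonoidalLinear K C]
  [SymmetricCategory C]

/-- the action on the first factor, as a representation -/
def tfdRho1 (X Y : C) (n : ℕ) : Equiv.Perm (Fin n) →*
    Module.End K (pow X n ⊗ pow Y n ⟶ pow X n ⊗ pow Y n) where
  toFun σ := Linear.rightComp K _ (act X n σ ▷ pow Y n)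
  map_one' := by
    ext x
    simp [act_one]
  map_mul' σ τ := by
    ext x
    simp [act_mul]

/-- the action on the second factor, as a representation -/
def tfdRho2 (X Y : C) (n : ℕ) : Equiv.Perm (Fin n) →*
    Module.End K (pow X n ⊗ pow Y n ⟶ pow X n ⊗ pow Y n) where
  toFun σ := Linear.rightComp K _ (pow X n ◁ act Y n σ)
  map_one' := by
    ext x
    simp [act_one]
  map_mul' σ τ := by
    ext x
    simp [act_mul]

omit [CharZero K] [MonoidalPreadditive C] [MonoidalLinear K C] in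
theorem tfdRho1_apply (X Y : C) (n : ℕ) (σ : Equiv.Perm (Fin n))
    (x : pow X n ⊗ pow Y n ⟶ pow X n ⊗ pow Y n) :
    tfdRho1 K X Y n σ x = x ≫ act X n σ ▷ pow Y n := rfl

omit [CharZero K] [MonoidalPreadditive C] [MonoidalLinear K C] in
theorem tfdRho2_apply (X Y : C) (n : ℕ) (σ : Equiv.Perm (Fin n))
    (x : pow X n ⊗ pow Y n ⟶ pow X n ⊗ pow Y n) :
    tfdRho2 K X Y n σ x = x ≫ pow X n ◁ act Y n σ := rfl

include K in
theorem Fd_tensor (b c : Bool) {X Y : C} (f : X ⟶ X) (g : Y ⟶ Y) (hf : Fd b f) (hg : Fd c g) :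
    Fd (b == c) (f ⊗ₘ g) := by
  obtain ⟨a, ha, hfa⟩ := hf
  obtain ⟨m, hm, hgm⟩ := hg
  refine ⟨(a - 1) * (m - 1) + 1, by omega, ?_⟩
  rw [tfd_powMap_iff]
  set N := (a - 1) * (m - 1) + 1 with hN
  have h1 : ∀ A : Finset (Fin N), A.card = a →
      SE b (tfdRho1 K X Y N) A (powMap f N ⊗ₘ powMap g N) = 0 := by
    intro A hA
    have e := SE_pow b f a N A hA hfa
    have : SE b (tfdRho1 K X Y N) A (powMap f N ⊗ₘ powMap g N) =
        (powMap f N ≫ (∑ σ ∈ Finset.univ.filter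
          (fun σ : Equiv.Perm (Fin N) => σ.support ⊆ A),
          ((chi b σ : ℤˣ) : ℤ) • act X N σ)) ⊗ₘ powMap g N := by
      unfold SE
      rw [LinearMap.sum_apply, Preadditive.comp_sum, sum_tensor]
      refine Finset.sum_congr rfl fun σ _ => ?_
      rw [LinearMap.smul_apply, tfdRho1_apply, Preadditive.comp_zsmul, tfd_zsmul_tensorHom,
        ← tensorHom_id, tensorHom_comp_tensorHom, Category.comp_id]
    rw [this, e, MonoidalPreadditive.zero_tensor]
  have h2 : ∀ A : Finset (Fin N), A.card = m →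
      SE c (tfdRho2 K X Y N) A (powMap f N ⊗ₘ powMap g N) = 0 := by
    intro A hA
    have e := SE_pow c g m N A hA hgm
    have : SE c (tfdRho2 K X Y N) A (powMap f N ⊗ₘ powMap g N) =
        powMap f N ⊗ₘ (powMap g N ≫ (∑ σ ∈ Finset.univ.filter
          (fun σ : Equiv.Perm (Fin N) => σ.support ⊆ A),
          ((chi c σ : ℤˣ) : ℤ) • act Y N σ)) := by
      unfold SE
      rw [LinearMap.sum_apply, Preadditive.comp_sum, tensor_sum]
      refine Finset.sum_congr rfl fun σ _ => ?_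
      rw [LinearMap.smul_apply, tfdRho2_apply, Preadditive.comp_zsmul, tfd_tensorHom_zsmul,
        ← id_tensorHom, tensorHom_comp_tensorHom, Category.comp_id]
    rw [this, e, MonoidalPreadditive.tensor_zero]
  have key := hook_tensor (tfdRho1 K X Y N) (tfdRho2 K X Y N) (fun σ τ => by
    ext x
    simp only [Module.End.mul_apply, tfdRho1_apply, tfdRho2_apply, Category.assoc]
    rw [whisker_exchange]) b c a m ha hm (by rw [Fintype.card_fin]; omega)
    (powMap f N ⊗ₘ powMap g N) h1 h2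
  unfold tfdDiag
  rw [Preadditive.comp_sum, ← key]
  refine Finset.sum_congr rfl fun σ _ => ?_
  rw [Preadditive.comp_zsmul, tfdRho1_apply, tfdRho2_apply, Category.assoc]
  congr 2
  rw [tensorHom_def' (act X N σ) (act Y N σ)]

include K in
/-- `d` is the exclusive or of `b` and `c` -/
theorem split_tensor (b c : Bool) {X Y : C} (f : X ⟶ X) (g : Y ⟶ Y) (n : ℕ)
    (h : powMap (f ⊗ₘ g) n ≫ E (xor b c) (X ⊗ Y) n = 0) :
    (powMap f n ≫ E b X n) ⊗ₘ (powMap g n ≫ E c Y n) = 0 := by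
  rw [tfd_powMap_iff] at h
  have h1 : tfdDiag (xor b c) X Y n ≫ (E b X n ⊗ₘ E c Y n) =
      (n.factorial : ℤ) • (E b X n ⊗ₘ E c Y n) := by
    unfold tfdDiag
    rw [Preadditive.sum_comp]
    have : ∀ σ : Equiv.Perm (Fin n),
        (((chi (xor b c) σ : ℤˣ) : ℤ) • (act X n σ ⊗ₘ act Y n σ)) ≫ (E b X n ⊗ₘ E c Y n) =
          E b X n ⊗ₘ E c Y n := by
      intro σ
      rw [Preadditive.zsmul_comp, tensorHom_comp_tensorHom, act_E, act_E, tfd_zsmul_tensorHom,
        tfd_tensorHom_zsmul, smul_smul, smul_smul, tfd_chi_xor]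
      have h3 : (((chi b σ * chi c σ : ℤˣ) : ℤ) * ((chi b σ : ℤˣ) : ℤ) * ((chi c σ : ℤˣ) : ℤ)) =
          1 := by
        rcases Int.units_eq_one_or (chi b σ) with h4 | h4 <;>
          rcases Int.units_eq_one_or (chi c σ) with h5 | h5 <;> simp [h4, h5]
      rw [h3, one_smul]
    rw [Finset.sum_congr rfl fun σ _ => this σ, Finset.sum_const, Finset.card_univ,
      Fintype.card_perm, Fintype.card_fin, natCast_zsmul]
  have h2 := congrArg (fun t => t ≫ (E b X n ⊗ₘ E c Y n)) h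
  simp only [Limits.zero_comp] at h2
  rw [Category.assoc, h1, Preadditive.comp_zsmul, tensorHom_comp_tensorHom] at h2
  have h3 : ((n.factorial : ℕ) : K) •
      ((powMap f n ≫ E b X n) ⊗ₘ (powMap g n ≫ E c Y n)) = 0 := by
    rw [Nat.cast_smul_eq_nsmul K, ← natCast_zsmul]
    exact h2
  exact (smul_eq_zero.1 h3).resolve_left (Nat.cast_ne_zero.2 (Nat.factorial_ne_zero n))

end Pool.Agent.W_MP_868bb7_ag
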