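import Pool.Agent.W_MP_868bb7_ag.NegLem
import Pool.Agent.W_MP_868bb7_ag.TensorFd
import Pool.Agent.W_MP_868bb7_ag.Exch

set_option autoImplicit false

/-!
# Dat: the parity operator of a Kimura-finite tensor product

`e` is the projection of `M ⊗ N` to its even part, `T = e - (1 - e)`, `T' = β ≫ T ≫ β` on `N ⊗ M`,
`a = ptr N T : M ⟶ M`, `c = ptr M T' : N ⟶ N`, `t = tr T`.

* `t_ne`: `tr e = i`, `tr (1 - e) = -j` with `i j : ℕ` (`dim_int`), so `t = i + j`; if it vanishes,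
  `e = 0` and `1 - e = 0` (`idem_zero`), contradiction.
* `comm`: let `e' = β ≫ e ≫ β`, `S = T ⊗ₘ T'`, `Π_1 = e ⊗ₘ e' + (1-e) ⊗ₘ (1-e')`,
  `Π_2 = e ⊗ₘ (1-e') + (1-e) ⊗ₘ e'`; `S = Π_1 - Π_2`, `Π_1 + Π_2 = 1`, so
  `S ≫ φ - φ ≫ S = 2 (Π_1 ≫ φ ≫ Π_2 - Π_2 ≫ φ ≫ Π_1)`, and
  `tr (π ≫ φ ≫ π' ≫ ψ) = 0` for `π` a summand of `Π_1` (type `true`, `Fd_tensor`) and `π'` a summand of
  `Π_2` (type `false`): `cross` with `f = π ≫ φ ≫ π'`, `g = π' ≫ ψ ≫ π` (`Fd_conj`).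
* `star`: `comm` with `φ = swi M N`, `ψ = swi M N ≫ g ▷ (N ⊗ M)`; the left side is
  `tr ((T ≫ g) ⊗ₘ T') = tr (T ≫ g) * t` (`swi_swi`, `tr_tensor`), the right side is by `tr_ptr`,
  `ptr_nat_right`, `ptr_swi` equal to `tr ((a ⊗ₘ c) ≫ g)`.
* `tr_a`, `tr_c`: `tr_ptr`, and `tr T' = tr T` (`tr_comp_comm`).
* `key`: `star` for `g = (x ⊗ₘ y) ≫ T`... : `t tr(x) tr(y) = t tr (T ≫ (T ≫ (x ⊗ₘ y)))
  = tr ((a ⊗ₘ c) ≫ T ≫ (x ⊗ₘ y)) = tr (T ≫ ((x ≫ a) ⊗ₘ (y ≫ c)))` and `star` again: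
  `t^2 tr(x) tr(y) = tr ((a ≫ x ≫ a) ⊗ₘ (c ≫ y ≫ c)) = tr (x ≫ a ≫ a) tr (y ≫ c ≫ c)`.
-/

namespace Pool.Agent.W_MP_868bb7_ag

open CategoryTheory MonoidalCategory

universe v u w

variable (K : Type w) [Field K] [CharZero K] {C : Type u} [Category.{v} C] [MonoidalCategory C]
  [Preadditive C] [Linear K C] [MonoidalPreadditive C] [MonoidalLinear K C]
  [SymmetricCategory C] [RightRigidCategory C] [UnitK K C]

/-- vanishing of mixed traces -/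
theorem datMixed (b : Bool) {X : C} (p q φ ψ : X ⟶ X)
    (hp : Fd b p) (hq : Fd (!b) q) : tr K (p ≫ φ ≫ q ≫ ψ) = 0 := by
  have h1 : Fd b ((p ≫ φ) ≫ (q ≫ ψ)) := by
    have h := Fd_conj b (𝟙 X) p (φ ≫ q ≫ ψ) hp
    rw [Category.id_comp] at h
    rw [Category.assoc]
    exact h
  have h2 : Fd (!b) ((q ≫ ψ) ≫ (p ≫ φ)) := by
    have h := Fd_conj (!b) (𝟙 X) q (ψ ≫ p ≫ φ) hq
    rw [Category.id_comp] at h
    rw [Category.assoc]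
    exact h
  have h3 := cross K b (p ≫ φ) (q ≫ ψ) h1 h2
  rw [Category.assoc] at h3
  exact h3

omit [CharZero K] [Linear K C] [MonoidalLinear K C] [RightRigidCategory C] [UnitK K C] [Field K]
  [SymmetricCategory C] in
theorem dat_tensor_sub {W X Y Z : C} (f : W ⟶ X)
    (g h : Y ⟶ Z) : f ⊗ₘ (g - h) = f ⊗ₘ g - f ⊗ₘ h := by
  have h1 : f ⊗ₘ (g - h) + f ⊗ₘ h = f ⊗ₘ g := by
    rw [← MonoidalPreadditive.tensor_add, sub_add_cancel]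
  exact eq_sub_of_add_eq h1

omit [CharZero K] [Linear K C] [MonoidalLinear K C] [RightRigidCategory C] [UnitK K C] [Field K]
  [SymmetricCategory C] in
theorem dat_sub_tensor {W X Y Z : C} (f g : W ⟶ X)
    (h : Y ⟶ Z) : (f - g) ⊗ₘ h = f ⊗ₘ h - g ⊗ₘ h := by
  have h1 : (f - g) ⊗ₘ h + g ⊗ₘ h = f ⊗ₘ h := by
    rw [← MonoidalPreadditive.add_tensor, sub_add_cancel]
  exact eq_sub_of_add_eq h1

/-- `M ⊗ N` is non-zero and Kimura-finite, with even part `e` -/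
structure Dat {C : Type u} [Category.{v} C] [MonoidalCategory C] [Preadditive C]
    [SymmetricCategory C] (M N : C) where
  e : M ⊗ N ⟶ M ⊗ N
  idem : e ≫ e = e
  ev : Fd true e
  od : Fd false (𝟙 (M ⊗ N) - e)
  ne : 𝟙 (M ⊗ N) ≠ 0

namespace Dat

variable {M N : C} (D : Dat M N)

omit [MonoidalPreadditive C] [RightRigidCategory C] in
/-- parity -/
def T : M ⊗ N ⟶ M ⊗ N := D.e - (𝟙 (M ⊗ N) - D.e)

omit [MonoidalPreadditive C] [RightRigidCategory C] in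
/-- parity on `N ⊗ M` -/
def T' : N ⊗ M ⟶ N ⊗ M := (β_ N M).hom ≫ D.T ≫ (β_ M N).hom

/-- partial trace of the parity over `N` -/
def a : M ⟶ M := ptr N D.T

/-- partial trace of the parity over `M` -/
def c : N ⟶ N := ptr M D.T'

/-- trace of the parity -/
noncomputable def t : K := tr K D.T

theorem T_sq : D.T ≫ D.T = 𝟙 _ := by
  simp only [T, Preadditive.comp_sub, Preadditive.sub_comp, D.idem, Category.id_comp,
    Category.comp_id]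
  abel

omit [MonoidalPreadditive C] [RightRigidCategory C] in
/-- the odd part is an idempotent -/
theorem datIdem' : (𝟙 (M ⊗ N) - D.e) ≫ (𝟙 (M ⊗ N) - D.e) = 𝟙 (M ⊗ N) - D.e := by
  simp only [Preadditive.comp_sub, Preadditive.sub_comp, D.idem, Category.id_comp,
    Category.comp_id]
  abel

/-- the two dimensions -/
theorem dat_dims : ∃ i j : ℕ, tr K D.e = i ∧ tr K (𝟙 (M ⊗ N) - D.e) = -(j : K) ∧
    D.t K = ((i + j : ℕ) : K) := by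
  obtain ⟨i, hi⟩ := dim_int K true D.e D.idem D.ev
  obtain ⟨j, hj⟩ := dim_int K false (𝟙 (M ⊗ N) - D.e) D.datIdem' D.od
  have hi' : tr K D.e = i := by
    rw [hi]
    simp [cs]
  have hj' : tr K (𝟙 (M ⊗ N) - D.e) = -(j : K) := by
    rw [hj]
    simp [cs]
  refine ⟨i, j, hi', hj', ?_⟩
  unfold t T
  rw [tr_sub, hi', hj']
  push_cast
  ring

theorem t_ne : D.t K ≠ 0 := by
  intro h
  obtain ⟨i, j, hi, hj, ht⟩ := D.dat_dims K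
  rw [ht] at h
  have h1 : i + j = 0 := by
    exact_mod_cast h
  have hi0 : i = 0 := by omega
  have hj0 : j = 0 := by omega
  have h2 : tr K D.e = 0 := by
    rw [hi, hi0]
    simp
  have h3 : tr K (𝟙 (M ⊗ N) - D.e) = 0 := by
    rw [hj, hj0]
    simp
  have h4 := idem_zero K true D.e D.idem D.ev h2
  have h5 := idem_zero K false (𝟙 (M ⊗ N) - D.e) D.datIdem' D.od h3
  apply D.ne
  rw [h4, sub_zero] at h5
  exact h5

/-- the dimension count `t = i + j` with natural numbers -/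
theorem t_nat : ∃ i : ℕ, D.t K = i := by
  obtain ⟨i, j, _, _, ht⟩ := D.dat_dims K
  exact ⟨i + j, ht⟩

theorem comm (φ ψ : (M ⊗ N) ⊗ (N ⊗ M) ⟶ (M ⊗ N) ⊗ (N ⊗ M)) :
    tr K ((D.T ⊗ₘ D.T') ≫ φ ≫ ψ) = tr K (φ ≫ (D.T ⊗ₘ D.T') ≫ ψ) := by
  obtain ⟨e', he'⟩ : ∃ e' : N ⊗ M ⟶ N ⊗ M, e' = (β_ N M).hom ≫ D.e ≫ (β_ M N).hom := ⟨_, rfl⟩
  have hf' : 𝟙 (N ⊗ M) - e' = (β_ N M).hom ≫ (𝟙 (M ⊗ N) - D.e) ≫ (β_ M N).hom := by
    rw [he', Preadditive.sub_comp, Preadditive.comp_sub, Category.id_comp,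
      SymmetricCategory.symmetry]
  have hT' : D.T' = e' - (𝟙 (N ⊗ M) - e') := by
    rw [hf', he']
    simp only [T', T, Preadditive.sub_comp, Preadditive.comp_sub]
  have hev' : Fd true e' := by
    rw [he']
    exact Fd_conj true _ _ _ D.ev
  have hod' : Fd false (𝟙 (N ⊗ M) - e') := by
    rw [hf']
    exact Fd_conj false _ _ _ D.od
  obtain ⟨f, hf⟩ : ∃ f : M ⊗ N ⟶ M ⊗ N, f = 𝟙 (M ⊗ N) - D.e := ⟨_, rfl⟩
  obtain ⟨f', hff'⟩ : ∃ f' : N ⊗ M ⟶ N ⊗ M, f' = 𝟙 (N ⊗ M) - e' := ⟨_, rfl⟩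
  have hod : Fd false f := by
    rw [hf]
    exact D.od
  rw [← hff'] at hod'
  have hP1 : Fd true (D.e ⊗ₘ e') := Fd_tensor K true true D.e e' D.ev hev'
  have hP2 : Fd true (f ⊗ₘ f') := Fd_tensor K false false f f' hod hod'
  have hQ1 : Fd false (D.e ⊗ₘ f') := Fd_tensor K true false D.e f' D.ev hod'
  have hQ2 : Fd false (f ⊗ₘ e') := Fd_tensor K false true f e' hod hev'
  obtain ⟨A, hA⟩ : ∃ A, A = (D.e ⊗ₘ e') + (f ⊗ₘ f') := ⟨_, rfl⟩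
  obtain ⟨B, hB⟩ : ∃ B, B = (D.e ⊗ₘ f') + (f ⊗ₘ e') := ⟨_, rfl⟩
  have hS : D.T ⊗ₘ D.T' = A - B := by
    rw [hA, hB, hT', ← hff']
    unfold T
    rw [← hf, dat_sub_tensor, dat_tensor_sub, dat_tensor_sub]
    abel
  have h1 : 𝟙 ((M ⊗ N) ⊗ (N ⊗ M)) = A + B := by
    have h2 : 𝟙 (M ⊗ N) = D.e + f := by
      rw [hf]
      abel
    have h3 : 𝟙 (N ⊗ M) = e' + f' := by
      rw [hff']
      abel
    rw [← MonoidalCategory.id_tensorHom_id, h2, h3, hA, hB, MonoidalPreadditive.add_tensor,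
      MonoidalPreadditive.tensor_add, MonoidalPreadditive.tensor_add]
    abel
  have hAB : ∀ φ ψ, tr K (A ≫ φ ≫ B ≫ ψ) = 0 := by
    intro φ ψ
    rw [hA, hB]
    simp only [Preadditive.add_comp, Preadditive.comp_add, tr_add]
    rw [datMixed K true _ _ φ ψ hP1 hQ1, datMixed K true _ _ φ ψ hP1 hQ2,
      datMixed K true _ _ φ ψ hP2 hQ1, datMixed K true _ _ φ ψ hP2 hQ2]
    simp
  have hBA : ∀ φ ψ, tr K (B ≫ φ ≫ A ≫ ψ) = 0 := by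
    intro φ ψ
    rw [hA, hB]
    simp only [Preadditive.add_comp, Preadditive.comp_add, tr_add]
    rw [datMixed K false _ _ φ ψ hQ1 hP1, datMixed K false _ _ φ ψ hQ1 hP2,
      datMixed K false _ _ φ ψ hQ2 hP1, datMixed K false _ _ φ ψ hQ2 hP2]
    simp
  have hl : tr K ((A - B) ≫ φ ≫ ψ) = tr K (A ≫ φ ≫ A ≫ ψ) - tr K (B ≫ φ ≫ B ≫ ψ) := by
    have h2 : (A - B) ≫ φ ≫ ψ = (A - B) ≫ φ ≫ 𝟙 _ ≫ ψ := by
      rw [Category.id_comp]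
    rw [h2, h1]
    simp only [Preadditive.add_comp, Preadditive.comp_add, Preadditive.sub_comp, tr_add, tr_sub]
    rw [hAB, hBA]
    ring
  have hr : tr K (φ ≫ (A - B) ≫ ψ) = tr K (A ≫ φ ≫ A ≫ ψ) - tr K (B ≫ φ ≫ B ≫ ψ) := by
    have h2 : φ ≫ (A - B) ≫ ψ = 𝟙 _ ≫ φ ≫ (A - B) ≫ ψ := by
      rw [Category.id_comp]
    rw [h2, h1]
    simp only [Preadditive.add_comp, Preadditive.comp_sub, Preadditive.sub_comp, tr_add, tr_sub]
    rw [hAB, hBA]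
    ring
  rw [hS, hl, hr]

theorem dat_tr_T' : tr K D.T' = D.t K := by
  unfold T' t
  rw [tr_comp_comm, Category.assoc, SymmetricCategory.symmetry, Category.comp_id]

theorem star (g : M ⊗ N ⟶ M ⊗ N) : D.t K * tr K (D.T ≫ g) = tr K ((D.a ⊗ₘ D.c) ≫ g) := by
  have h1 := D.comm K (swi M N) (swi M N ≫ g ▷ (N ⊗ M))
  have h2 : (D.T ⊗ₘ D.T') ≫ swi M N ≫ swi M N ≫ g ▷ (N ⊗ M) = (D.T ≫ g) ⊗ₘ D.T' := by
    rw [← Category.assoc (swi M N), swi_swi, Category.id_comp, ← MonoidalCategory.tensorHom_id]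
    rw [MonoidalCategory.tensorHom_comp_tensorHom, Category.comp_id]
  rw [h2, tr_tensor, dat_tr_T'] at h1
  have h3 : tr K (swi M N ≫ (D.T ⊗ₘ D.T') ≫ swi M N ≫ g ▷ (N ⊗ M)) =
      tr K ((D.a ⊗ₘ D.c) ≫ g) := by
    rw [← tr_ptr K]
    have h4 : swi M N ≫ (D.T ⊗ₘ D.T') ≫ swi M N ≫ g ▷ (N ⊗ M) =
        (swi M N ≫ (D.T ⊗ₘ D.T') ≫ swi M N) ≫ g ▷ (N ⊗ M) := by
      simp only [Category.assoc]
    rw [h4, ptr_nat_right, ptr_swi]
    rfl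
  rw [h3] at h1
  rw [mul_comm]
  exact h1

theorem tr_a : tr K D.a = D.t K := by
  unfold a t
  rw [tr_ptr]

theorem tr_c : tr K D.c = D.t K := by
  unfold c
  rw [tr_ptr, dat_tr_T']

theorem key (x : M ⟶ M) (y : N ⟶ N) :
    D.t K ^ 2 * (tr K x * tr K y) = tr K (x ≫ D.a ≫ D.a) * tr K (y ≫ D.c ≫ D.c) := by
  have h1 := D.star K (D.T ≫ (x ⊗ₘ y))
  have h2 : D.T ≫ D.T ≫ (x ⊗ₘ y) = x ⊗ₘ y := by
    rw [← Category.assoc, T_sq, Category.id_comp]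
  rw [h2, tr_tensor] at h1
  have h3 : tr K ((D.a ⊗ₘ D.c) ≫ D.T ≫ (x ⊗ₘ y)) = tr K (D.T ≫ ((x ≫ D.a) ⊗ₘ (y ≫ D.c))) := by
    rw [tr_comp_comm, Category.assoc, MonoidalCategory.tensorHom_comp_tensorHom]
  have h4 := D.star K ((x ≫ D.a) ⊗ₘ (y ≫ D.c))
  rw [MonoidalCategory.tensorHom_comp_tensorHom, tr_tensor] at h4
  have h5 : tr K (D.a ≫ x ≫ D.a) = tr K (x ≫ D.a ≫ D.a) := by
    rw [tr_comp_comm, Category.assoc]
  have h6 : tr K (D.c ≫ y ≫ D.c) = tr K (y ≫ D.c ≫ D.c) := by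
    rw [tr_comp_comm, Category.assoc]
  rw [h5, h6] at h4
  rw [← h4, ← h3, ← h1]
  ring

end Dat

end Pool.Agent.W_MP_868bb7_ag
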