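import Mathlib

set_option autoImplicit false

/-!
# MP_868bb7_ag: Kimura finite-dimensionality in rigid tensor categories, definitions

`C` is a `K`-linear symmetric monoidal category.  Composition is written in diagrammatic order
`f ≫ g` (first `f`).
-/

namespace Pool.Agent.W_MP_868bb7_ag

open CategoryTheory MonoidalCategory Limits

universe v u w

section Pow

variable {C : Type u} [Category.{v} C] [MonoidalCategory C]

/-- the tensor power `X ⊗ (X ⊗ (... ⊗ 𝟙))` with `n` factors `X` -/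
def pow (X : C) : ℕ → C
  | 0 => 𝟙_ C
  | n + 1 => X ⊗ pow X n

/-- tensor power of a morphism -/
def powMap {X Y : C} (f : X ⟶ Y) : (n : ℕ) → (pow X n ⟶ pow Y n)
  | 0 => 𝟙 _
  | n + 1 => f ⊗ₘ powMap f n

/-- iterates of an endomorphism -/
def it {X : C} (f : X ⟶ X) : ℕ → (X ⟶ X)
  | 0 => 𝟙 X
  | n + 1 => f ≫ it f n

variable [SymmetricCategory C]

/-- exchange of the first two factors -/
def sw (X Z : C) : X ⊗ (X ⊗ Z) ⟶ X ⊗ (X ⊗ Z) :=
  (α_ X X Z).inv ≫ (β_ X X).hom ▷ Z ≫ (α_ X X Z).hom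

/-- move the factor in position `0` to position `p`; the factors in positions `1, ..., p` move one
step to the left -/
def mv (X : C) : (n : ℕ) → ℕ → (pow X (n + 1) ⟶ pow X (n + 1))
  | 0, _ => 𝟙 _
  | _ + 1, 0 => 𝟙 _
  | n + 1, p + 1 => sw X (pow X n) ≫ X ◁ mv X n p

/-- `tail σ` is the permutation of `Fin n` with
`σ (i + 1) = (σ 0).succAbove (tail σ i)`, see `tail_spec` -/
def tail {n : ℕ} (σ : Equiv.Perm (Fin (n + 1))) : Equiv.Perm (Fin n) :=
  (Equiv.Perm.decomposeFin ((σ 0).cycleRange * σ)).2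

/-- the action of the symmetric group on the tensor power: `act X n σ` moves the factor in
position `i` to position `σ i` -/
def act (X : C) : (n : ℕ) → Equiv.Perm (Fin n) → (pow X n ⟶ pow X n)
  | 0, _ => 𝟙 _
  | n + 1, σ => X ◁ act X n (tail σ) ≫ mv X n (σ 0 : Fin (n + 1))

end Pow

section Lin

variable {C : Type u} [Category.{v} C] [MonoidalCategory C] [SymmetricCategory C] [Preadditive C]

/-- the sign character (`b = true`) or the trivial character (`b = false`) -/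
def chi (b : Bool) {α : Type*} [Fintype α] [DecidableEq α] : Equiv.Perm α →* ℤˣ :=
  if b then Equiv.Perm.sign else 1

/-- value of `chi b` on a transposition -/
def cs (b : Bool) : ℤ := if b then -1 else 1

/-- unnormalised antisymmetrizer (`b = true`) or symmetrizer (`b = false`) -/
def E (b : Bool) (X : C) (n : ℕ) : pow X n ⟶ pow X n :=
  ∑ σ : Equiv.Perm (Fin n), ((chi b σ : ℤˣ) : ℤ) • act X n σ

/-- `b = true`: some exterior power of `f` vanishes; `b = false`: some symmetric power vanishes -/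
def Fd (b : Bool) {X : C} (f : X ⟶ X) : Prop :=
  ∃ n : ℕ, 1 ≤ n ∧ powMap f n ≫ E b X n = 0

variable (K : Type w) [Field K] [Linear K C]

/-- the symmetrizer `(1/n!) ∑ σ` of `X^{⊗ n}` -/
noncomputable def symPart (X : C) (n : ℕ) : pow X n ⟶ pow X n :=
  ((n.factorial : K)⁻¹) • ∑ σ : Equiv.Perm (Fin n), act X n σ

/-- the antisymmetrizer `(1/n!) ∑ sgn(σ) σ` of `X^{⊗ n}` -/
noncomputable def altPart (X : C) (n : ℕ) : pow X n ⟶ pow X n :=
  ((n.factorial : K)⁻¹) • ∑ σ : Equiv.Perm (Fin n), ((Equiv.Perm.sign σ : ℤˣ) : ℤ) • act X n σ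

/-- `Λ^n X = 0` for some `n ≥ 1` -/
def EvenFD (X : C) : Prop := ∃ n : ℕ, 1 ≤ n ∧ altPart K X n = 0

/-- `Sym^n X = 0` for some `n ≥ 1` -/
def OddFD (X : C) : Prop := ∃ n : ℕ, 1 ≤ n ∧ symPart K X n = 0

/-- Kimura finite-dimensional: `X ≅ P ⊞ Q` with `P` evenly and `Q` oddly finite-dimensional -/
def KimuraFD [HasBinaryBiproducts C] (X : C) : Prop :=
  ∃ P Q : C, EvenFD K P ∧ OddFD K Q ∧ Nonempty (X ≅ P ⊞ Q)

end Lin

section Trace

variable {C : Type u} [Category.{v} C] [MonoidalCategory C] [SymmetricCategory C]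
  [RightRigidCategory C]

/-- evaluation `X ⊗ X^∨ ⟶ 𝟙` -/
def cap (X : C) : X ⊗ Xᘁ ⟶ 𝟙_ C := (β_ X Xᘁ).hom ≫ ε_ X Xᘁ

/-- partial trace over the second factor -/
def ptr (X : C) {A B : C} (F : A ⊗ X ⟶ B ⊗ X) : A ⟶ B :=
  (ρ_ A).inv ≫ A ◁ η_ X Xᘁ ≫ (α_ A X Xᘁ).inv ≫ F ▷ Xᘁ ≫ (α_ B X Xᘁ).hom ≫ B ◁ cap X ≫ (ρ_ B).hom

/-- trace with values in the endomorphisms of the unit -/
def trU {X : C} (f : X ⟶ X) : 𝟙_ C ⟶ 𝟙_ C := η_ X Xᘁ ≫ f ▷ Xᘁ ≫ cap X

end Trace

section Scalar

variable (K : Type w) [Field K] (C : Type u) [Category.{v} C] [MonoidalCategory C]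
  [Preadditive C] [Linear K C]

/-- the endomorphism ring of the unit object is `K` -/
class UnitK : Prop where
  bij : Function.Bijective (fun a : K => a • 𝟙 (𝟙_ C))

variable {C}

/-- the scalar of an endomorphism of the unit -/
noncomputable def sc [h : UnitK K C] (f : 𝟙_ C ⟶ 𝟙_ C) : K := Classical.choose (h.bij.2 f)

variable [SymmetricCategory C] [RightRigidCategory C]

/-- the trace with values in `K` -/
noncomputable def tr [UnitK K C] {X : C} (f : X ⟶ X) : K := sc K (trU f)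

/-- negligible (numerically trivial) morphisms -/
def Neg [UnitK K C] {X Y : C} (f : X ⟶ Y) : Prop := ∀ g : Y ⟶ X, tr K (f ≫ g) = 0

end Scalar

end Pool.Agent.W_MP_868bb7_ag
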