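import Pool.Agent.W_MP_868bb7_ag.PowAct

set_option autoImplicit false

/-!
# PowE: tensor powers of morphisms and the (anti)symmetrizers

* `powMap_act`: induction on `n`, naturality of `sw` and `mv`.
* `E_succ`: permutations of `Fin (n + 1)` are the `p.cycleRange⁻¹ * shift e` (`perm_eq`,
  `tail_cycleRange_shift`, `perm_ext`), `sign (cycleRange p) = (-1)^p` (`Fin.sign_cycleRange`),
  `sign (shift e) = sign e` (`Equiv.Perm.decomposeFin.symm_sign`), `act` of it is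
  `X ◁ act e ≫ mv p` by definition.
* `E_act`, `act_E`: reindex the sum, `act_mul`.
* `Fd_mono'`: `powMap f (n+1) ≫ E (n+1) = ∑ ± (f ⊗ₘ (powMap f n ≫ E n)) ≫ mv p` by `E_succ`.
-/

namespace Pool.Agent.W_MP_868bb7_ag

open CategoryTheory MonoidalCategory

universe v u

section A

variable {C : Type u} [Category.{v} C] [MonoidalCategory C]

theorem powMap_id (X : C) (n : ℕ) : powMap (𝟙 X) n = 𝟙 _ := by
  induction n with
  | zero => rfl
  | succ n ih =>
    change 𝟙 X ⊗ₘ powMap (𝟙 X) n = 𝟙 (X ⊗ pow X n)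
    rw [ih, id_tensorHom_id]

theorem powMap_comp {X Y Z : C} (f : X ⟶ Y) (g : Y ⟶ Z) (n : ℕ) :
    powMap (f ≫ g) n = powMap f n ≫ powMap g n := by
  induction n with
  | zero => exact (Category.id_comp _).symm
  | succ n ih =>
    change (f ≫ g) ⊗ₘ powMap (f ≫ g) n = (f ⊗ₘ powMap f n) ≫ (g ⊗ₘ powMap g n)
    rw [ih, tensorHom_comp_tensorHom]

variable [SymmetricCategory C]

theorem tensorHom_sw {X Y Z Z' : C} (f : X ⟶ Y) (h : Z ⟶ Z') :
    (f ⊗ₘ (f ⊗ₘ h)) ≫ sw Y Z' = sw X Z ≫ (f ⊗ₘ (f ⊗ₘ h)) := by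
  unfold sw
  rw [associator_inv_naturality_assoc, Category.assoc, Category.assoc]
  congr 1
  rw [← associator_naturality]
  rw [← Category.assoc, ← Category.assoc]
  congr 1
  rw [← tensorHom_id, ← tensorHom_id, tensorHom_comp_tensorHom, tensorHom_comp_tensorHom,
    BraidedCategory.braiding_naturality, Category.comp_id, Category.id_comp]

omit [SymmetricCategory C] in
theorem tensorHom_whisker {X Y A B : C} (f : X ⟶ Y) (g : A ⟶ B) (u : A ⟶ A) (v : B ⟶ B)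
    (h : g ≫ v = u ≫ g) : (f ⊗ₘ g) ≫ Y ◁ v = X ◁ u ≫ (f ⊗ₘ g) := by
  rw [← id_tensorHom, ← id_tensorHom, tensorHom_comp_tensorHom, tensorHom_comp_tensorHom, h,
    Category.comp_id, Category.id_comp]

omit [MonoidalCategory C] [SymmetricCategory C] in
theorem comp_comm_aux {A B : C} (F : A ⟶ B) (s1 s2 : B ⟶ B) (t1 t2 : A ⟶ A)
    (h1 : F ≫ s1 = t1 ≫ F) (h2 : F ≫ s2 = t2 ≫ F) : F ≫ (s1 ≫ s2) = (t1 ≫ t2) ≫ F := by
  rw [← Category.assoc, h1, Category.assoc, h2, Category.assoc]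

theorem powMap_mv {X Y : C} (f : X ⟶ Y) (n p : ℕ) :
    powMap f (n + 1) ≫ mv Y n p = mv X n p ≫ powMap f (n + 1) := by
  induction n generalizing p with
  | zero =>
    change powMap f 1 ≫ 𝟙 _ = 𝟙 _ ≫ powMap f 1
    rw [Category.comp_id, Category.id_comp]
  | succ n ih =>
    cases p with
    | zero =>
      change powMap f (n + 2) ≫ 𝟙 _ = 𝟙 _ ≫ powMap f (n + 2)
      rw [Category.comp_id, Category.id_comp]
    | succ p =>
      exact comp_comm_aux (A := X ⊗ pow X (n + 1)) (B := Y ⊗ pow Y (n + 1)) (powMap f (n + 2))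
        (sw Y (pow Y n)) (Y ◁ mv Y n p) (sw X (pow X n)) (X ◁ mv X n p) (tensorHom_sw f _)
        (tensorHom_whisker f _ _ _ (ih p))

theorem powMap_act {X Y : C} (f : X ⟶ Y) (n : ℕ) (σ : Equiv.Perm (Fin n)) :
    powMap f n ≫ act Y n σ = act X n σ ≫ powMap f n := by
  induction n with
  | zero => rfl
  | succ n ih =>
    exact comp_comm_aux (A := X ⊗ pow X n) (B := Y ⊗ pow Y n) (powMap f (n + 1))
      (Y ◁ act Y n (tail σ)) (mv Y n (σ 0 : Fin (n + 1))) (X ◁ act X n (tail σ))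
      (mv X n (σ 0 : Fin (n + 1))) (tensorHom_whisker f _ _ _ (ih (tail σ))) (powMap_mv f n _)

end A

variable {C : Type u} [Category.{v} C] [MonoidalCategory C] [SymmetricCategory C] [Preadditive C]

theorem chi_mul_self (b : Bool) {α : Type*} [Fintype α] [DecidableEq α] (σ : Equiv.Perm α) :
    chi b σ * chi b σ = 1 := Int.units_mul_self _

theorem chi_swap (b : Bool) {α : Type*} [Fintype α] [DecidableEq α] (x y : α) (h : x ≠ y) :
    ((chi b (Equiv.swap x y) : ℤˣ) : ℤ) = cs b := by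
  cases b
  · rfl
  · change ((Equiv.Perm.sign (Equiv.swap x y) : ℤˣ) : ℤ) = -1
    rw [Equiv.Perm.sign_swap h]
    rfl

theorem chi_cast_mul_self (b : Bool) {α : Type*} [Fintype α] [DecidableEq α]
    (σ : Equiv.Perm α) : ((chi b σ : ℤˣ) : ℤ) * ((chi b σ : ℤˣ) : ℤ) = 1 := by
  rw [← Units.val_mul, chi_mul_self]
  rfl

theorem chi_cycleRange (b : Bool) (n : ℕ) (p : Fin (n + 1)) :
    ((chi b (p.cycleRange⁻¹) : ℤˣ) : ℤ) = (cs b) ^ (p : ℕ) := by
  cases b
  · change (1 : ℤ) = 1 ^ (p : ℕ)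
    rw [one_pow]
  · change ((Equiv.Perm.sign (p.cycleRange⁻¹) : ℤˣ) : ℤ) = (-1) ^ (p : ℕ)
    rw [Equiv.Perm.sign_inv, Fin.sign_cycleRange]
    push_cast
    rfl

theorem chi_shift (b : Bool) (n : ℕ) (e : Equiv.Perm (Fin n)) :
    chi b (shift e) = chi b e := by
  cases b
  · rfl
  · change Equiv.Perm.sign (Equiv.Perm.decomposeFin.symm (0, e)) = Equiv.Perm.sign e
    rw [Equiv.Perm.decomposeFin.symm_sign]
    simp

theorem E_zero (b : Bool) (X : C) : E b X 0 = 𝟙 _ := by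
  unfold E
  rw [Fintype.sum_unique]
  have h : chi b (default : Equiv.Perm (Fin 0)) = 1 := map_one _
  rw [h]
  change ((1 : ℤˣ) : ℤ) • 𝟙 _ = 𝟙 _
  rw [Units.val_one, one_smul]

theorem E_act (b : Bool) (X : C) (n : ℕ) (σ : Equiv.Perm (Fin n)) :
    E b X n ≫ act X n σ = ((chi b σ : ℤˣ) : ℤ) • E b X n := by
  unfold E
  rw [Preadditive.sum_comp, Finset.smul_sum]
  refine Fintype.sum_equiv (Equiv.mulLeft σ) _ _ fun τ => ?_
  rw [Preadditive.zsmul_comp, ← act_mul, smul_smul]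
  change _ = (((chi b σ : ℤˣ) : ℤ) * ((chi b (σ * τ) : ℤˣ) : ℤ)) • act X n (σ * τ)
  rw [map_mul, Units.val_mul, ← mul_assoc, chi_cast_mul_self, one_mul]

theorem act_E (b : Bool) (X : C) (n : ℕ) (σ : Equiv.Perm (Fin n)) :
    act X n σ ≫ E b X n = ((chi b σ : ℤˣ) : ℤ) • E b X n := by
  unfold E
  rw [Preadditive.comp_sum, Finset.smul_sum]
  refine Fintype.sum_equiv (Equiv.mulRight σ) _ _ fun τ => ?_
  rw [Preadditive.comp_zsmul, ← act_mul, smul_smul]
  change _ = (((chi b σ : ℤˣ) : ℤ) * ((chi b (τ * σ) : ℤˣ) : ℤ)) • act X n (τ * σ)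
  rw [map_mul, Units.val_mul, mul_comm ((chi b τ : ℤˣ) : ℤ), ← mul_assoc, chi_cast_mul_self,
    one_mul]

theorem E_mv (b : Bool) (X : C) (n : ℕ) (p : Fin (n + 1)) :
    E b X (n + 1) ≫ mv X n p = (cs b) ^ (p : ℕ) • E b X (n + 1) := by
  rw [mv_eq, E_act, chi_cycleRange]

theorem E_E (b : Bool) (X : C) (n : ℕ) : E b X n ≫ E b X n = (n.factorial : ℤ) • E b X n := by
  have h : E b X n ≫ E b X n =
      ∑ σ : Equiv.Perm (Fin n), E b X n ≫ (((chi b σ : ℤˣ) : ℤ) • act X n σ) := by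
    rw [← Preadditive.comp_sum]
    rfl
  rw [h]
  have h2 : ∀ σ : Equiv.Perm (Fin n),
      E b X n ≫ (((chi b σ : ℤˣ) : ℤ) • act X n σ) = E b X n := by
    intro σ
    rw [Preadditive.comp_zsmul, E_act, smul_smul, chi_cast_mul_self, one_smul]
  rw [Finset.sum_congr rfl fun σ _ => h2 σ, Finset.sum_const, Finset.card_univ,
    Fintype.card_perm, Fintype.card_fin, natCast_zsmul]

theorem powMap_E (b : Bool) {X Y : C} (f : X ⟶ Y) (n : ℕ) :
    powMap f n ≫ E b Y n = E b X n ≫ powMap f n := by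
  unfold E
  rw [Preadditive.comp_sum, Preadditive.sum_comp]
  refine Finset.sum_congr rfl fun σ _ => ?_
  rw [Preadditive.comp_zsmul, Preadditive.zsmul_comp, powMap_act]

variable [MonoidalPreadditive C]

theorem whisker_E_comp (b : Bool) (X : C) (n : ℕ) {B : C} (M : X ⊗ pow X n ⟶ B) :
    X ◁ E b X n ≫ M =
      ∑ e : Equiv.Perm (Fin n), ((chi b e : ℤˣ) : ℤ) • (X ◁ act X n e ≫ M) := by
  have hw : X ◁ E b X n =
      ∑ e : Equiv.Perm (Fin n), ((chi b e : ℤˣ) : ℤ) • (X ◁ act X n e) := by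
    have h := (tensorLeft X).map_sum (fun e : Equiv.Perm (Fin n) =>
      ((chi b e : ℤˣ) : ℤ) • act X n e) Finset.univ
    refine h.trans (Finset.sum_congr rfl fun e _ => ?_)
    exact (tensorLeft X).map_zsmul
  rw [hw, Preadditive.sum_comp]
  refine Finset.sum_congr rfl fun e _ => ?_
  rw [Preadditive.zsmul_comp]

theorem E_succ_aux (b : Bool) (X : C) (n : ℕ) (p : Fin (n + 1))
    (M : X ⊗ pow X n ⟶ X ⊗ pow X n)
    (G : Equiv.Perm (Fin n) → (X ⊗ pow X n ⟶ X ⊗ pow X n))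
    (hG : ∀ e, G e = X ◁ act X n e ≫ M) :
    ∑ e : Equiv.Perm (Fin n), ((chi b (p.cycleRange⁻¹ * shift e) : ℤˣ) : ℤ) • G e =
      (cs b) ^ (p : ℕ) • (X ◁ E b X n ≫ M) := by
  rw [whisker_E_comp, Finset.smul_sum]
  refine Finset.sum_congr rfl fun e _ => ?_
  rw [map_mul, Units.val_mul, chi_shift, chi_cycleRange, smul_smul, hG]

omit [Preadditive C] [MonoidalPreadditive C] in
theorem act_cycleRange_shift (X : C) (n : ℕ) (p : Fin (n + 1)) (e : Equiv.Perm (Fin n)) :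
    (act X (n + 1) (p.cycleRange⁻¹ * shift e) : X ⊗ pow X n ⟶ X ⊗ pow X n) =
      X ◁ act X n e ≫ (mv X n p : X ⊗ pow X n ⟶ X ⊗ pow X n) := by
  obtain ⟨h0, ht⟩ := tail_cycleRange_shift p e
  have h : ∀ (q : Fin (n + 1)) (t : Equiv.Perm (Fin n)),
      (p.cycleRange⁻¹ * shift e) 0 = q → tail (p.cycleRange⁻¹ * shift e) = t →
      (act X (n + 1) (p.cycleRange⁻¹ * shift e) : X ⊗ pow X n ⟶ X ⊗ pow X n) =
      X ◁ act X n t ≫ (mv X n q : X ⊗ pow X n ⟶ X ⊗ pow X n) := by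
    rintro _ _ rfl rfl
    rfl
  exact h p e h0 ht

theorem E_succ (b : Bool) (X : C) (n : ℕ) :
    E b X (n + 1) = ∑ p : Fin (n + 1), (cs b) ^ (p : ℕ) • (X ◁ E b X n ≫ mv X n p) := by
  have key : (∑ p : Fin (n + 1), ∑ e : Equiv.Perm (Fin n),
      ((chi b (p.cycleRange⁻¹ * shift e) : ℤˣ) : ℤ) •
        act X (n + 1) (p.cycleRange⁻¹ * shift e) : pow X (n + 1) ⟶ pow X (n + 1)) =
      E b X (n + 1) := by
    rw [← Fintype.sum_prod_type' (f := fun (p : Fin (n + 1)) (e : Equiv.Perm (Fin n)) =>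
      ((chi b (p.cycleRange⁻¹ * shift e) : ℤˣ) : ℤ) • act X (n + 1) (p.cycleRange⁻¹ * shift e))]
    unfold E
    refine Fintype.sum_bijective (fun q : Fin (n + 1) × Equiv.Perm (Fin n) =>
      q.1.cycleRange⁻¹ * shift q.2) ⟨?_, ?_⟩ _ _ fun q => rfl
    · rintro ⟨p, e⟩ ⟨p', e'⟩ h
      have h' : p.cycleRange⁻¹ * shift e = p'.cycleRange⁻¹ * shift e' := h
      obtain ⟨h0, ht⟩ := tail_cycleRange_shift p e
      obtain ⟨h0', ht'⟩ := tail_cycleRange_shift p' e'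
      have hp : p = p' := by rw [← h0, ← h0', h']
      have he : e = e' := by rw [← ht, ← ht', h']
      rw [hp, he]
    · intro σ
      exact ⟨(σ 0, tail σ), (perm_eq σ).symm⟩
  exact key.symm.trans (Finset.sum_congr rfl fun p _ => E_succ_aux b X n p (mv X n p)
    (fun e => act X (n + 1) (p.cycleRange⁻¹ * shift e)) (act_cycleRange_shift X n p))

theorem Fd_mono_aux (b : Bool) {X : C} (f : X ⟶ X) (m : ℕ) (h : powMap f m ≫ E b X m = 0)
    (c : Fin (m + 1) → ℤ) (M : Fin (m + 1) → (X ⊗ pow X m ⟶ X ⊗ pow X m)) :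
    (f ⊗ₘ powMap f m) ≫ (∑ p : Fin (m + 1), c p • (X ◁ E b X m ≫ M p)) = 0 := by
  rw [Preadditive.comp_sum]
  refine Finset.sum_eq_zero fun p _ => ?_
  rw [Preadditive.comp_zsmul, ← Category.assoc, ← id_tensorHom, tensorHom_comp_tensorHom, h,
    MonoidalPreadditive.tensor_zero, Limits.zero_comp, smul_zero]

theorem Fd_mono' (b : Bool) {X : C} (f : X ⟶ X) (n m : ℕ) (hnm : n ≤ m)
    (h : powMap f n ≫ E b X n = 0) : powMap f m ≫ E b X m = 0 := by
  induction m, hnm using Nat.le_induction with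
  | base => exact h
  | succ m _ ih =>
    have h1 := Fd_mono_aux b f m ih (fun p => (cs b) ^ (p : ℕ)) (fun p => mv X m p)
    have h2 := congrArg (fun z : X ⊗ pow X m ⟶ X ⊗ pow X m => (f ⊗ₘ powMap f m) ≫ z)
      (E_succ b X m)
    exact h2.trans h1

omit [MonoidalPreadditive C] in
theorem Fd_conj (b : Bool) {X Y : C} (a : Y ⟶ X) (f : X ⟶ X) (c : X ⟶ Y) (h : Fd b f) :
    Fd b (a ≫ f ≫ c) := by
  obtain ⟨n, hn, h⟩ := h
  refine ⟨n, hn, ?_⟩
  rw [powMap_comp, powMap_comp, Category.assoc, Category.assoc, powMap_E,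
    ← Category.assoc (powMap f n), h, Limits.zero_comp, Limits.comp_zero]

end Pool.Agent.W_MP_868bb7_ag
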