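import Pool.Agent.W_MP_868bb7_ag.TraceK
import Pool.Agent.W_MP_868bb7_ag.PowE

set_option autoImplicit false

/-!
# Euler: the recursion for traces of (anti)symmetrized powers

`Tn n = tr (f^{⊗ n} E_n)` and `Cn n : X ⟶ X` is the partial trace over the last `n` factors of
`(1 ⊗ f^{⊗ n}) E_{n+1}`.

* `Cn_zero`: `E b X 1 = 𝟙`, `ptr_unit`.
* `Cn_succ`: `X ◁ F ≫ E_{n+2} = ∑_p ± X ◁ (F ≫ E_{n+1}) ≫ mv p` with `F = f^{⊗ (n+1)}` (`E_succ`).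
  The term `p = 0` gives `Tn (n+1) • 𝟙` (`ptr_whiskerLeft`).  For `p + 1`:
  `mv (p+1) = sw ≫ X ◁ mv p`, and with `G = F ≫ E_{n+1}`:
  `ptr (X ◁ G ≫ sw ≫ X ◁ mv p) = ptr (X ◁ mv p ≫ X ◁ G ≫ sw) = (cs b)^p ptr (X ◁ G ≫ sw)` (`ptr_slide`,
  `powMap_mv`, `E_act`/`mv_eq`: `mv p ≫ F ≫ E = F ≫ mv p ≫ E = (cs b)^p F ≫ E`), and
  `ptr_{X ⊗ Z} (X ◁ G ≫ sw X Z) = ptr_Z G` (`ptr_sw`).  The signs multiply to `cs b` for each of the
  `n + 1` values of `p`.  Finally `ptr (pow X n) (powMap f (n+1) ≫ E_{n+1}) = f ≫ Cn n`.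
* `ptr_sw`: `ptr_tensor`, then the inner `ptr Z` of `α ≫ X ◁ G ≫ sw ≫ α⁻¹ = (α ≫ X ◁ G ≫ α⁻¹) ≫ β ▷ Z` is
  `X ◁ (ptr Z G) ≫ β` (`ptr_nat_right`, `ptr_whisker`), and `ptr X (X ◁ u ≫ β) = u`
  (`ptr_slide`, `ptr_braid_whisker`).
* `Tn_succ`: `tr_ptr` (the trace of `powMap f (n+1) ≫ E_{n+1}` over all factors).
-/

namespace Pool.Agent.W_MP_868bb7_ag

open CategoryTheory MonoidalCategory

universe v u w

variable (K : Type w) [Field K] {C : Type u} [Category.{v} C] [MonoidalCategory C]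
  [Preadditive C] [Linear K C] [MonoidalPreadditive C] [MonoidalLinear K C]
  [SymmetricCategory C] [RightRigidCategory C]

omit [Linear K C] [MonoidalLinear K C] [Field K] [Preadditive C] [MonoidalPreadditive C] in
theorem ptr_sw (X : C) {Z : C} (G : X ⊗ Z ⟶ X ⊗ Z) :
    ptr (X ⊗ Z) (X ◁ G ≫ sw X Z) = ptr Z G := by
  have h1 : (α_ X X Z).hom ≫ (X ◁ G ≫ sw X Z) ≫ (α_ X X Z).inv =
      ((α_ X X Z).hom ≫ X ◁ G ≫ (α_ X X Z).inv) ≫ (β_ X X).hom ▷ Z := by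
    simp only [sw, Category.assoc, Iso.hom_inv_id, Category.comp_id]
  rw [ptr_tensor, h1, ptr_nat_right, ptr_whisker, ← ptr_slide, ptr_braid_whisker]

omit [Linear K C] [MonoidalLinear K C] [Field K] [MonoidalPreadditive C]
  [RightRigidCategory C] in
theorem euler_mv_E (b : Bool) (X : C) (n : ℕ) (p : Fin (n + 1)) :
    mv X n p ≫ E b X (n + 1) = (cs b) ^ (p : ℕ) • E b X (n + 1) := by
  rw [mv_eq, act_E]
  congr 1
  cases b
  · simp [chi, cs]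
  · simp only [chi, cs, if_true]
    rw [map_inv, Fin.sign_cycleRange]
    rcases Nat.even_or_odd (p : ℕ) with h | h
    · rw [h.neg_one_pow, h.neg_one_pow]; simp
    · rw [h.neg_one_pow, h.neg_one_pow]; simp

omit [Linear K C] [MonoidalLinear K C] [Field K] [SymmetricCategory C]
  [RightRigidCategory C] in
theorem euler_whiskerLeft_zsmul (X : C) {Y Z : C} (a : ℤ) (g : Y ⟶ Z) :
    X ◁ (a • g) = a • (X ◁ g) :=
  map_zsmul (AddMonoidHom.mk' (fun g : Y ⟶ Z => X ◁ g)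
    fun g h => MonoidalPreadditive.whiskerLeft_add g h) a g

/-- trace of the (anti)symmetrized power -/
noncomputable def Tn [UnitK K C] (b : Bool) {X : C} (f : X ⟶ X) (n : ℕ) : K :=
  tr K (powMap f n ≫ E b X n)

omit [Linear K C] [MonoidalLinear K C] [Field K] in
theorem euler_ptr_step (X : C) {Z : C} (m G : X ⊗ Z ⟶ X ⊗ Z) (c : ℤ) (h : m ≫ G = c • G) :
    ptr (X ⊗ Z) (X ◁ G ≫ sw X Z ≫ X ◁ m) = c • ptr Z G := by
  have h1 : X ◁ G ≫ sw X Z ≫ X ◁ m = (X ◁ G ≫ sw X Z) ≫ X ◁ m := (Category.assoc _ _ _).symm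
  have h2 : X ◁ m ≫ X ◁ G ≫ sw X Z = c • (X ◁ G ≫ sw X Z) := by
    rw [← Category.assoc, ← MonoidalCategory.whiskerLeft_comp, h, euler_whiskerLeft_zsmul,
      Preadditive.zsmul_comp]
  rw [h1, ptr_slide, h2, ptr_zsmul, ptr_sw]

omit [Linear K C] [MonoidalLinear K C] [Field K] in
/-- partial trace over the last `n` factors -/
def Cn (b : Bool) {X : C} (f : X ⟶ X) (n : ℕ) : X ⟶ X :=
  ptr (pow X n) (X ◁ powMap f n ≫ E b X (n + 1))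

omit [Linear K C] [MonoidalLinear K C] [Field K] in
theorem comp_Cn (b : Bool) {X : C} (f : X ⟶ X) (n : ℕ) :
    f ≫ Cn b f n = ptr (pow X n) (powMap f (n + 1) ≫ E b X (n + 1)) := by
  have h1 : powMap f (n + 1) = f ▷ pow X n ≫ X ◁ powMap f n := tensorHom_def f (powMap f n)
  rw [h1, Cn, ← ptr_nat_left]
  congr 1
  exact (Category.assoc _ _ _).symm

omit [Linear K C] [MonoidalLinear K C] [Field K] in
theorem euler_E_one (b : Bool) (X : C) : E b X 1 = 𝟙 (X ⊗ 𝟙_ C) := by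
  rw [E_succ, Fin.sum_univ_one, E_zero]
  have h1 : mv X 0 ((0 : Fin (0 + 1)) : ℕ) = 𝟙 (X ⊗ 𝟙_ C) := rfl
  have h2 : X ◁ 𝟙 (pow X 0) = 𝟙 (X ⊗ 𝟙_ C) := MonoidalCategory.whiskerLeft_id _ _
  rw [h1, h2]
  have h3 : (cs b) ^ ((0 : Fin (0 + 1)) : ℕ) = 1 := by simp
  rw [h3]
  refine Eq.trans (one_zsmul (𝟙 (X ⊗ 𝟙_ C) ≫ 𝟙 (X ⊗ 𝟙_ C))) ?_
  exact Category.comp_id _

omit [Linear K C] [MonoidalLinear K C] [Field K] in
theorem Cn_zero (b : Bool) {X : C} (f : X ⟶ X) : Cn b f 0 = 𝟙 X := by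
  have h2 : X ◁ powMap f 0 = 𝟙 (X ⊗ 𝟙_ C) := MonoidalCategory.whiskerLeft_id _ _
  have h3 : ptr (𝟙_ C) (𝟙 (X ⊗ 𝟙_ C)) = 𝟙 X := by
    rw [ptr_unit, Category.id_comp, Iso.inv_hom_id]
  unfold Cn
  rw [h2, euler_E_one]
  refine Eq.trans ?_ h3
  congr 1
  exact Category.id_comp _

variable [UnitK K C]

theorem Tn_zero (b : Bool) {X : C} (f : X ⟶ X) : Tn K b f 0 = 1 := by
  have h1 : powMap f 0 ≫ E b X 0 = 𝟙 (𝟙_ C) := by
    rw [E_zero]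
    exact Category.id_comp _
  unfold Tn
  rw [h1]
  exact tr_unit K

theorem Tn_succ (b : Bool) {X : C} (f : X ⟶ X) (n : ℕ) :
    Tn K b f (n + 1) = tr K (f ≫ Cn b f n) := by
  rw [comp_Cn, tr_ptr]
  rfl

theorem Cn_succ (b : Bool) {X : C} (f : X ⟶ X) (n : ℕ) :
    Cn b f (n + 1) = Tn K b f (n + 1) • 𝟙 X + ((n + 1 : ℤ) * cs b) • (f ≫ Cn b f n) := by
  have hcs : ∀ p : ℕ, (cs b) ^ (p + 1) * (cs b) ^ p = cs b := by
    intro p
    have h1 : cs b * cs b = 1 := by cases b <;> simp [cs]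
    rw [pow_succ, mul_right_comm, ← mul_pow, h1, one_pow, one_mul]
  have hcomp : f ≫ Cn b f n = ptr (pow X n) (powMap f (n + 1) ≫ E b X (n + 1)) := comp_Cn b f n
  have hG : ∀ p : Fin (n + 1), mv X n p ≫ powMap f (n + 1) ≫ E b X (n + 1) =
      (cs b) ^ (p : ℕ) • (powMap f (n + 1) ≫ E b X (n + 1)) := by
    intro p
    rw [← Category.assoc, ← powMap_mv, Category.assoc, euler_mv_E, Preadditive.comp_zsmul]
  obtain ⟨M, hM⟩ : ∃ M : Fin (n + 1 + 1) → (X ⊗ pow X (n + 1) ⟶ X ⊗ pow X (n + 1)),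
      ∀ p, M p = mv X (n + 1) p := ⟨fun p => mv X (n + 1) p, fun _ => rfl⟩
  obtain ⟨E2, hE2⟩ : ∃ E2 : X ⊗ pow X (n + 1) ⟶ X ⊗ pow X (n + 1), E2 = E b X (n + 1 + 1) :=
    ⟨_, rfl⟩
  obtain ⟨F, hF⟩ : ∃ F : pow X (n + 1) ⟶ pow X (n + 1), F = powMap f (n + 1) := ⟨_, rfl⟩
  obtain ⟨E1, hE1⟩ : ∃ E1 : pow X (n + 1) ⟶ pow X (n + 1), E1 = E b X (n + 1) := ⟨_, rfl⟩
  have hEM : E2 = ∑ p : Fin (n + 1 + 1), (cs b) ^ (p : ℕ) • (X ◁ E1 ≫ M p) := by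
    refine hE2.trans ((E_succ b X (n + 1)).trans ?_)
    refine Finset.sum_congr rfl fun p _ => ?_
    rw [hM, hE1]
    rfl
  have hexp : X ◁ F ≫ E2 = ∑ p : Fin (n + 1 + 1), (cs b) ^ (p : ℕ) • (X ◁ (F ≫ E1) ≫ M p) := by
    rw [hEM, Preadditive.comp_sum]
    refine Finset.sum_congr rfl fun p _ => ?_
    rw [Preadditive.comp_zsmul, MonoidalCategory.whiskerLeft_comp, Category.assoc]
  have hsucc : ∀ p : Fin (n + 1), ptr (pow X (n + 1)) (X ◁ (F ≫ E1) ≫ M p.succ) =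
      (cs b) ^ (p : ℕ) • (f ≫ Cn b f n) := by
    intro p
    rw [hcomp, hM, hF, hE1]
    exact euler_ptr_step X (mv X n p) (powMap f (n + 1) ≫ E b X (n + 1)) ((cs b) ^ (p : ℕ)) (hG p)
  have hterm : ∀ p : Fin (n + 1), ptr (pow X (n + 1)) ((cs b) ^ ((p.succ : Fin (n + 1 + 1)) : ℕ) •
      (X ◁ (F ≫ E1) ≫ M p.succ)) = cs b • (f ≫ Cn b f n) := by
    intro p
    rw [ptr_zsmul, hsucc, smul_smul, Fin.val_succ, hcs]
  have hzero : ptr (pow X (n + 1)) ((cs b) ^ ((0 : Fin (n + 1 + 1)) : ℕ) •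
      (X ◁ (F ≫ E1) ≫ M 0)) = Tn K b f (n + 1) • 𝟙 X := by
    have h0 : M 0 = 𝟙 _ := hM 0
    have h1 : (cs b) ^ ((0 : Fin (n + 1 + 1)) : ℕ) = 1 := by simp
    rw [h0, h1, one_smul, Category.comp_id, ptr_whiskerLeft K, hF, hE1]
    rfl
  have hC : Cn b f (n + 1) = ptr (pow X (n + 1)) (X ◁ F ≫ E2) := by
    rw [hF, hE2]
    rfl
  rw [hC, hexp, ptr_sum, Fin.sum_univ_succ, hzero]
  refine congrArg (fun t => Tn K b f (n + 1) • 𝟙 X + t) ?_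
  refine (Finset.sum_congr rfl fun p _ => hterm p).trans ?_
  rw [Finset.sum_const, Finset.card_univ, Fintype.card_fin, mul_smul]
  norm_cast

end Pool.Agent.W_MP_868bb7_ag
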