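import Pool.Agent.W_MP_868bb7_ag.Hook

set_option autoImplicit false

/-!
# HookTensor: vanishing of a diagonal (anti)symmetrizer

`D = ∑ χ_d(σ) ρ1(σ) ρ2(σ)` with `d = (b == c)`, i.e. `χ_d χ_{!b} = χ_c`.
Let `W` be the span of the orbit of `v` under `ρ1 σ`, `ρ2 τ`.  By conjugation `SE b ρ1 A` kills `W` for
`|A| = a` and `SE c ρ2 A` kills `W` for `|A| = m`
(`SE b ρ A ∘ ρ π = ρ π ∘ SE b ρ (π⁻¹ A)`).
Let `U` be the set of all `x` with `D (ρ1 σ (ρ2 τ x)) = 0` for all `σ`, `τ`.
* `U` contains `x = SE (!b) ρ1 A w`, `w ∈ W`, `|A| = m`.  For `g` supported in `A`,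
  `ρ1 g x = χ_{!b}(g) x`, and `D ∘ ρ1 g ∘ ρ2 g = χ_d(g) D`, so `D (ρ2 g x) = χ_c(g) D x`; sum with
  `χ_c(g)`: `0 = D (SE c ρ2 A x) = m! D x`.
* The quotient `W / U` is a representation (through `ρ1`) killed by `SE b ρ1 A`, `|A| = a` and
  by `SE (!b) ρ1 A`, `|A| = m`; it is zero by `hook`.
-/

namespace Pool.Agent.W_MP_868bb7_ag

namespace HT

variable {K V : Type*} [Field K] [AddCommGroup V] [Module K V]
  {α : Type*} [Fintype α] [DecidableEq α]

/-- integer sign -/
def sg (b : Bool) (σ : Equiv.Perm α) : ℤ := ((chi b σ : ℤˣ) : ℤ)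

theorem sg_mul (b : Bool) (σ τ : Equiv.Perm α) : sg b (σ * τ) = sg b σ * sg b τ := by
  simp [sg, map_mul]

theorem sg_sq (b : Bool) (σ : Equiv.Perm α) : sg b σ * sg b σ = 1 := by
  unfold sg
  exact Int.units_coe_mul_self _

theorem sg_inv (b : Bool) (σ : Equiv.Perm α) : sg b σ⁻¹ = sg b σ := by
  have h : sg b (σ * σ⁻¹) = 1 := by simp [sg]
  rw [sg_mul] at h
  calc sg b σ⁻¹ = (sg b σ * sg b σ) * sg b σ⁻¹ := by rw [sg_sq, one_mul]
    _ = sg b σ * (sg b σ * sg b σ⁻¹) := by ring
    _ = sg b σ := by rw [h, mul_one]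

theorem sg_conj (b : Bool) (σ τ : Equiv.Perm α) : sg b (σ * τ * σ⁻¹) = sg b τ := by
  rw [sg_mul, sg_mul, sg_inv]
  calc sg b σ * sg b τ * sg b σ = (sg b σ * sg b σ) * sg b τ := by ring
    _ = sg b τ := by rw [sg_sq, one_mul]

theorem sg_rel (b c : Bool) (σ : Equiv.Perm α) : sg (b == c) σ * sg (!b) σ = sg c σ := by
  cases b <;> cases c <;> simp [sg, chi]

theorem SE_apply (b : Bool) (ρ : Equiv.Perm α →* Module.End K V) (A : Finset α) (x : V) :
    SE b ρ A x = ∑ σ ∈ Finset.univ.filter (fun σ : Equiv.Perm α => σ.support ⊆ A),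
      sg b σ • ρ σ x := by
  simp [SE, sg, LinearMap.sum_apply]

/-- conjugation -/
theorem SE_conj (b : Bool) (ρ : Equiv.Perm α →* Module.End K V) (A : Finset α)
    (π : Equiv.Perm α) (x : V) :
    SE b ρ A (ρ π x) = ρ π (SE b ρ (A.map (π⁻¹).toEmbedding) x) := by
  rw [SE_apply, SE_apply, map_sum]
  refine Finset.sum_bij' (fun σ _ => π⁻¹ * σ * π) (fun σ _ => π * σ * π⁻¹) ?_ ?_ ?_ ?_ ?_
  · intro σ hσ
    simp only [Finset.mem_filter, Finset.mem_univ, true_and] at hσ ⊢
    intro i hi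
    rw [Equiv.Perm.mem_support] at hi
    have h2 : π i ∈ σ.support := by
      rw [Equiv.Perm.mem_support]
      intro h
      apply hi
      simp [Equiv.Perm.mul_apply, h]
    have h3 := hσ h2
    rw [Finset.mem_map]
    exact ⟨π i, h3, by simp⟩
  · intro σ hσ
    simp only [Finset.mem_filter, Finset.mem_univ, true_and] at hσ ⊢
    intro i hi
    rw [Equiv.Perm.mem_support] at hi
    have h2 : π⁻¹ i ∈ σ.support := by
      rw [Equiv.Perm.mem_support]
      intro h
      apply hi
      simp only [Equiv.Perm.mul_apply, h]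
      simp
    have h3 := hσ h2
    rw [Finset.mem_map] at h3
    obtain ⟨j, hj, hji⟩ := h3
    have : j = i := by
      have := congrArg π hji
      simpa using this
    exact this ▸ hj
  · intro σ _
    group
  · intro σ _
    group
  · intro σ _
    have h1 : sg b (π⁻¹ * σ * π) = sg b σ := by
      have := sg_conj b π⁻¹ σ
      simpa using this
    rw [h1, map_zsmul, ← Module.End.mul_apply, ← Module.End.mul_apply, ← map_mul, ← map_mul]
    congr 3
    group

theorem SE_comm (c : Bool) (ρ1 ρ2 : Equiv.Perm α →* Module.End K V)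
    (hcomm : ∀ σ τ, ρ1 σ * ρ2 τ = ρ2 τ * ρ1 σ) (A : Finset α) (π : Equiv.Perm α) (x : V) :
    SE c ρ2 A (ρ1 π x) = ρ1 π (SE c ρ2 A x) := by
  rw [SE_apply, SE_apply, map_sum]
  refine Finset.sum_congr rfl fun σ _ => ?_
  rw [map_zsmul, ← Module.End.mul_apply, ← Module.End.mul_apply, hcomm]

theorem SE_absorb (b : Bool) (ρ : Equiv.Perm α →* Module.End K V) (A : Finset α)
    (g : Equiv.Perm α) (hg : g.support ⊆ A) (x : V) :
    ρ g (SE b ρ A x) = sg b g • SE b ρ A x := by
  rw [SE_apply, map_sum, Finset.smul_sum]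
  refine Finset.sum_bij' (fun σ _ => g * σ) (fun σ _ => g⁻¹ * σ) ?_ ?_ ?_ ?_ ?_
  · intro σ hσ
    simp only [Finset.mem_filter, Finset.mem_univ, true_and] at hσ ⊢
    exact (Equiv.Perm.support_mul_le g σ).trans (Finset.union_subset hg hσ)
  · intro σ hσ
    simp only [Finset.mem_filter, Finset.mem_univ, true_and] at hσ ⊢
    refine (Equiv.Perm.support_mul_le g⁻¹ σ).trans (Finset.union_subset ?_ hσ)
    rw [Equiv.Perm.support_inv]
    exact hg
  · intro σ _
    group
  · intro σ _
    group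
  · intro σ _
    rw [map_zsmul, ← Module.End.mul_apply, ← map_mul, sg_mul, smul_smul, ← mul_assoc, sg_sq,
      one_mul]

end HT

open HT

variable {K V : Type*} [Field K] [CharZero K] [AddCommGroup V] [Module K V]
  {α : Type*} [Fintype α] [DecidableEq α]

theorem hook_tensor (ρ1 ρ2 : Equiv.Perm α →* Module.End K V)
    (hcomm : ∀ σ τ, Commute (ρ1 σ) (ρ2 τ)) (b c : Bool) (a m : ℕ)
    (ha : 1 ≤ a) (hm : 1 ≤ m) (hN : (a - 1) * (m - 1) < Fintype.card α) (v : V)
    (h1 : ∀ A : Finset α, A.card = a → SE b ρ1 A v = 0)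
    (h2 : ∀ A : Finset α, A.card = m → SE c ρ2 A v = 0) :
    ∑ σ : Equiv.Perm α, ((chi (b == c) σ : ℤˣ) : ℤ) • ρ1 σ (ρ2 σ v) = 0 := by
  have hc1 : ∀ σ τ, ρ1 σ * ρ2 τ = ρ2 τ * ρ1 σ := fun σ τ => (hcomm σ τ).eq
  have hc2 : ∀ σ τ, ρ2 σ * ρ1 τ = ρ1 τ * ρ2 σ := fun σ τ => (hcomm τ σ).eq.symm
  -- the operator
  let D : V →ₗ[K] V := ∑ σ : Equiv.Perm α, sg (b == c) σ • (ρ1 σ * ρ2 σ)
  have hD : ∀ x, D x = ∑ σ : Equiv.Perm α, sg (b == c) σ • ρ1 σ (ρ2 σ x) := by
    intro x
    simp [D, LinearMap.sum_apply]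
  have hDg : ∀ (g : Equiv.Perm α) (x : V), D (ρ1 g (ρ2 g x)) = sg (b == c) g • D x := by
    intro g x
    rw [hD, hD, Finset.smul_sum]
    refine Finset.sum_bij' (fun σ _ => σ * g) (fun σ _ => σ * g⁻¹) ?_ ?_ ?_ ?_ ?_
    · intro σ _
      exact Finset.mem_univ _
    · intro σ _
      exact Finset.mem_univ _
    · intro σ _
      group
    · intro σ _
      group
    · intro σ _
      rw [sg_mul, smul_smul]
      have e1 : ρ1 σ (ρ2 σ (ρ1 g (ρ2 g x))) = ρ1 (σ * g) (ρ2 (σ * g) x) := by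
        rw [map_mul, map_mul]
        simp only [Module.End.mul_apply]
        congr 1
        rw [← Module.End.mul_apply, hc2, Module.End.mul_apply]
      rw [e1]
      congr 1
      calc sg (b == c) σ = sg (b == c) σ * (sg (b == c) g * sg (b == c) g) := by
            rw [sg_sq, mul_one]
        _ = _ := by ring
  -- the cyclic subspace
  let W : Submodule K V := Submodule.span K
    (Set.range fun p : Equiv.Perm α × Equiv.Perm α => ρ1 p.1 (ρ2 p.2 v))
  have hvW : v ∈ W := by
    refine Submodule.subset_span ⟨(1, 1), ?_⟩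
    simp
  have hW1 : ∀ π x, x ∈ W → ρ1 π x ∈ W := by
    intro π x hx
    refine Submodule.span_induction (p := fun x _ => ρ1 π x ∈ W) ?_ ?_ ?_ ?_ hx
    · rintro _ ⟨p, rfl⟩
      refine Submodule.subset_span ⟨(π * p.1, p.2), ?_⟩
      simp only [map_mul, Module.End.mul_apply]
    · simp
    · intro x y _ _ hx hy
      rw [map_add]
      exact W.add_mem hx hy
    · intro r x _ hx
      rw [map_smul]
      exact W.smul_mem r hx
  have hW2 : ∀ π x, x ∈ W → ρ2 π x ∈ W := by
    intro π x hx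
    refine Submodule.span_induction (p := fun x _ => ρ2 π x ∈ W) ?_ ?_ ?_ ?_ hx
    · rintro _ ⟨p, rfl⟩
      refine Submodule.subset_span ⟨(p.1, π * p.2), ?_⟩
      simp only [map_mul, Module.End.mul_apply]
      rw [← Module.End.mul_apply, hc1, Module.End.mul_apply]
    · simp
    · intro x y _ _ hx hy
      rw [map_add]
      exact W.add_mem hx hy
    · intro r x _ hx
      rw [map_smul]
      exact W.smul_mem r hx
  have hS1 : ∀ A : Finset α, A.card = a → ∀ x ∈ W, SE b ρ1 A x = 0 := by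
    intro A hA x hx
    refine Submodule.span_induction (p := fun x _ => SE b ρ1 A x = 0) ?_ ?_ ?_ ?_ hx
    · rintro _ ⟨p, rfl⟩
      dsimp only
      rw [SE_conj, SE_comm b ρ2 ρ1 hc2, h1 _ (by rw [Finset.card_map]; exact hA), map_zero,
        map_zero]
    · simp
    · intro x y _ _ hx hy
      rw [map_add, hx, hy, add_zero]
    · intro r x _ hx
      rw [map_smul, hx, smul_zero]
  have hS2 : ∀ A : Finset α, A.card = m → ∀ x ∈ W, SE c ρ2 A x = 0 := by
    intro A hA x hx
    refine Submodule.span_induction (p := fun x _ => SE c ρ2 A x = 0) ?_ ?_ ?_ ?_ hx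
    · rintro _ ⟨p, rfl⟩
      dsimp only
      rw [SE_comm c ρ1 ρ2 hc1, SE_conj, h2 _ (by rw [Finset.card_map]; exact hA), map_zero,
        map_zero]
    · simp
    · intro x y _ _ hx hy
      rw [map_add, hx, hy, add_zero]
    · intro r x _ hx
      rw [map_smul, hx, smul_zero]
  -- `D` kills the images of the other symmetrizer
  have hU : ∀ A : Finset α, A.card = m → ∀ w ∈ W, D (SE (!b) ρ1 A w) = 0 := by
    intro A hA w hw
    have e0 : ∀ g : Equiv.Perm α, g.support ⊆ A →
        sg c g • D (ρ2 g (SE (!b) ρ1 A w)) = D (SE (!b) ρ1 A w) := by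
      intro g hg
      have q1 := hDg g (SE (!b) ρ1 A w)
      have q2 : ρ1 g (ρ2 g (SE (!b) ρ1 A w)) = sg (!b) g • ρ2 g (SE (!b) ρ1 A w) := by
        rw [← Module.End.mul_apply, hc1, Module.End.mul_apply, SE_absorb (!b) ρ1 A g hg,
          map_zsmul]
      rw [q2, map_zsmul] at q1
      have q3 : D (ρ2 g (SE (!b) ρ1 A w)) = sg c g • D (SE (!b) ρ1 A w) := by
        calc D (ρ2 g (SE (!b) ρ1 A w))
            = (sg (!b) g * sg (!b) g) • D (ρ2 g (SE (!b) ρ1 A w)) := by rw [sg_sq, one_smul]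
          _ = sg (!b) g • (sg (b == c) g • D (SE (!b) ρ1 A w)) := by rw [mul_smul, q1]
          _ = (sg (b == c) g * sg (!b) g) • D (SE (!b) ρ1 A w) := by
              rw [smul_smul, mul_comm]
          _ = sg c g • D (SE (!b) ρ1 A w) := by rw [sg_rel]
      rw [q3, smul_smul, sg_sq, one_smul]
    have e1 : SE c ρ2 A (SE (!b) ρ1 A w) = 0 := by
      have : SE c ρ2 A (SE (!b) ρ1 A w) = SE (!b) ρ1 A (SE c ρ2 A w) := by
        rw [SE_apply (!b) ρ1 A w, SE_apply (!b) ρ1 A (SE c ρ2 A w), map_sum]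
        refine Finset.sum_congr rfl fun σ _ => ?_
        rw [map_zsmul, SE_comm c ρ1 ρ2 hc1]
      rw [this, hS2 A hA w hw, map_zero]
    have e2 : D (SE c ρ2 A (SE (!b) ρ1 A w)) =
        ((Finset.univ.filter (fun σ : Equiv.Perm α => σ.support ⊆ A)).card : ℕ) •
          D (SE (!b) ρ1 A w) := by
      rw [SE_apply c ρ2 A, map_sum, Finset.sum_congr rfl
        (g := fun _ => D (SE (!b) ρ1 A w)), Finset.sum_const]
      intro g hg
      rw [map_zsmul]
      exact e0 g (Finset.mem_filter.mp hg).2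
    rw [e1, map_zero, ← Nat.cast_smul_eq_nsmul K] at e2
    have e3 := (smul_eq_zero.mp e2.symm)
    rcases e3 with e3 | e3
    · exfalso
      rw [Nat.cast_eq_zero, Finset.card_eq_zero] at e3
      have : (1 : Equiv.Perm α) ∈ Finset.univ.filter
          (fun σ : Equiv.Perm α => σ.support ⊆ A) := by
        simp
      rw [e3] at this
      exact absurd this (Finset.notMem_empty _)
    · exact e3
  -- the restricted representation and its quotient
  let ρW : Equiv.Perm α →* Module.End K W :=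
    { toFun := fun g => (ρ1 g).restrict (hW1 g)
      map_one' := by
        ext x
        simp
      map_mul' := by
        intro g h
        ext x
        simp }
  have hρW : ∀ g (x : W), ((ρW g x : W) : V) = ρ1 g x := fun g x => rfl
  let U : Submodule K W :=
    { carrier := {x | ∀ σ τ : Equiv.Perm α, D (ρ1 σ (ρ2 τ (x : V))) = 0}
      add_mem' := by
        intro x y hx hy σ τ
        rw [Submodule.coe_add, map_add, map_add, map_add, hx σ τ, hy σ τ, add_zero]
      zero_mem' := by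
        intro σ τ
        simp
      smul_mem' := by
        intro r x hx σ τ
        rw [Submodule.coe_smul, map_smul, map_smul, map_smul, hx σ τ, smul_zero] }
  have hUmem : ∀ x : W, x ∈ U ↔ ∀ σ τ : Equiv.Perm α, D (ρ1 σ (ρ2 τ (x : V))) = 0 :=
    fun x => Iff.rfl
  have hUst : ∀ g, U ≤ U.comap (ρW g) := by
    intro g x hx
    rw [Submodule.mem_comap, hUmem]
    intro σ τ
    rw [hρW]
    have : ρ1 σ (ρ2 τ (ρ1 g (x : V))) = ρ1 (σ * g) (ρ2 τ (x : V)) := by
      rw [map_mul, Module.End.mul_apply]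
      congr 1
      rw [← Module.End.mul_apply, hc2, Module.End.mul_apply]
    rw [this]
    exact hx _ _
  let ρQ : Equiv.Perm α →* Module.End K (W ⧸ U) :=
    { toFun := fun g => U.mapQ U (ρW g) (hUst g)
      map_one' := by
        ext x
        simp
      map_mul' := by
        intro g h
        ext x
        simp }
  have hρQ : ∀ g (x : W), ρQ g (U.mkQ x) = U.mkQ (ρW g x) := fun g x => rfl
  have hSW : ∀ (e : Bool) (A : Finset α) (x : W), ((SE e ρW A x : W) : V) = SE e ρ1 A x := by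
    intro e A x
    rw [SE_apply, SE_apply, Submodule.coe_sum]
    rfl
  have hSQ : ∀ (e : Bool) (A : Finset α) (x : W), SE e ρQ A (U.mkQ x) = U.mkQ (SE e ρW A x) := by
    intro e A x
    rw [SE_apply, SE_apply, map_sum]
    refine Finset.sum_congr rfl fun σ _ => ?_
    rw [map_zsmul, hρQ]
  have key := hook ρQ b a m ha hm hN
    (by
      intro A hA
      ext x
      rw [LinearMap.comp_apply, hSQ]
      have : SE b ρW A x = 0 := by
        apply Subtype.ext
        rw [hSW]
        exact hS1 A hA x x.2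
      rw [this]
      simp)
    (by
      intro A hA
      ext x
      rw [LinearMap.comp_apply, hSQ]
      have : SE (!b) ρW A x ∈ U := by
        rw [hUmem]
        intro σ τ
        rw [hSW]
        have e1 : ρ1 σ (ρ2 τ (SE (!b) ρ1 A (x : V))) =
            SE (!b) ρ1 (A.map σ.toEmbedding) (ρ1 σ (ρ2 τ (x : V))) := by
          rw [← SE_comm (!b) ρ2 ρ1 hc2, SE_conj, Finset.map_map]
          congr 2
          conv_lhs => rw [← Finset.map_refl (s := A)]
          congr 1
          ext i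
          simp
        rw [e1]
        exact hU _ (by rw [Finset.card_map]; exact hA) _ (hW1 _ _ (hW2 _ _ x.2))
      rw [LinearMap.comp_apply, LinearMap.zero_apply]
      exact (Submodule.Quotient.mk_eq_zero U).mpr this)
    (U.mkQ ⟨v, hvW⟩)
  have key2 : (⟨v, hvW⟩ : W) ∈ U := (Submodule.Quotient.mk_eq_zero U).mp key
  have key3 := (hUmem _).mp key2 1 1
  rw [map_one, map_one, Module.End.one_apply, Module.End.one_apply, hD] at key3
  exact key3

end Pool.Agent.W_MP_868bb7_ag
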