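import Pool.Agent.W_MP_868bb7_ag.PowE

set_option autoImplicit false

/-!
# Join: `X^a ⊗ X^m ≅ X^(m + a)`

* `J X a m`: by recursion on `a`; note that `pow X (m + (a + 1)) = X ⊗ pow X (m + a)` holds by `rfl`.
* `EL b X a m`: the (anti)symmetrizer of the first `a` factors of `X^(m + a)`.
* `wT X a g`: `g` on the last `m` factors.
* `sw_assoc`: coherence (both sides exchange the two factors `X`); expand `sw`, use `pentagon` and
  naturality of the associator (or `monoidal` / `coherence` after moving the braiding).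
* `mv_J`: induction on `a` (generalizing `p`), `sw_assoc`, naturality of `sw` (`sw_nat`).
* `E_J`: induction on `a`, `E_succ`, `mv_J`.
-/

namespace Pool.Agent.W_MP_868bb7_ag

open CategoryTheory MonoidalCategory

universe v u

section A

variable {C : Type u} [Category.{v} C] [MonoidalCategory C]

/-- joining tensor powers -/
def J (X : C) : (a m : ℕ) → (pow X a ⊗ pow X m ≅ pow X (m + a))
  | 0, m => λ_ (pow X m)
  | a + 1, m => α_ X (pow X a) (pow X m) ≪≫ whiskerLeftIso X (J X a m)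

/-- `g` on the last `m` factors -/
def wT (X : C) {m : ℕ} (g : pow X m ⟶ pow X m) : (a : ℕ) → (pow X (m + a) ⟶ pow X (m + a))
  | 0 => g
  | a + 1 => X ◁ wT X g a

theorem join_wT {X P M Q : C} (g : M ⟶ M) (j : P ⊗ M ⟶ Q) (w : Q ⟶ Q)
    (h : P ◁ g ≫ j = j ≫ w) : ((X ⊗ P) ◁ g) ≫ (α_ X P M).hom ≫ X ◁ j =
      ((α_ X P M).hom ≫ X ◁ j) ≫ X ◁ w := by
  rw [associator_naturality_right_assoc, Category.assoc, ← MonoidalCategory.whiskerLeft_comp,
    ← MonoidalCategory.whiskerLeft_comp, h]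

theorem join_mid {X P M Q : C} (f : P ⟶ P) (j : P ⊗ M ⟶ Q) (w : Q ⟶ Q)
    (h : f ▷ M ≫ j = j ≫ w) : ((X ◁ f) ▷ M) ≫ (α_ X P M).hom ≫ X ◁ j =
      ((α_ X P M).hom ≫ X ◁ j) ≫ X ◁ w := by
  rw [associator_naturality_middle_assoc, Category.assoc, ← MonoidalCategory.whiskerLeft_comp,
    ← MonoidalCategory.whiskerLeft_comp, h]

theorem join_comp {A B M : C} (u v : A ⟶ A) (j : A ⊗ M ⟶ B) (u' v' : B ⟶ B)
    (hu : u ▷ M ≫ j = j ≫ u') (hv : v ▷ M ≫ j = j ≫ v') :
    (u ≫ v) ▷ M ≫ j = j ≫ (u' ≫ v') := by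
  rw [comp_whiskerRight, Category.assoc, hv, ← Category.assoc, hu, Category.assoc]

theorem wT_J (X : C) {m : ℕ} (g : pow X m ⟶ pow X m) (a : ℕ) :
    (pow X a ◁ g) ≫ (J X a m).hom = (J X a m).hom ≫ wT X g a := by
  induction a with
  | zero => exact leftUnitor_naturality g
  | succ a ih => exact join_wT (X := X) g (J X a m).hom (wT X g a) ih

variable [SymmetricCategory C]

theorem sw_assoc (X Z Y : C) :
    sw X Z ▷ Y ≫ (α_ X (X ⊗ Z) Y).hom ≫ X ◁ (α_ X Z Y).hom
      = (α_ X (X ⊗ Z) Y).hom ≫ X ◁ (α_ X Z Y).hom ≫ sw X (Z ⊗ Y) := by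
  unfold sw
  simp only [comp_whiskerRight, Category.assoc, pentagon]
  rw [associator_naturality_left_assoc]
  have h : (α_ X X Z).inv ▷ Y ≫ (α_ (X ⊗ X) Z Y).hom =
      (α_ X (X ⊗ Z) Y).hom ≫ X ◁ (α_ X Z Y).hom ≫ (α_ X X (Z ⊗ Y)).inv := by
    monoidal
  rw [← Category.assoc, h]
  simp only [Category.assoc]

theorem join_sw {X P M Q : C} (j : P ⊗ M ⟶ Q) :
    (sw X P ▷ M) ≫ (α_ X (X ⊗ P) M).hom ≫ X ◁ ((α_ X P M).hom ≫ X ◁ j) =
      ((α_ X (X ⊗ P) M).hom ≫ X ◁ ((α_ X P M).hom ≫ X ◁ j)) ≫ sw X Q := by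
  have h1 := sw_assoc X P M
  have h2 := sw_nat X j
  rw [MonoidalCategory.whiskerLeft_comp]
  calc (sw X P ▷ M) ≫ (α_ X (X ⊗ P) M).hom ≫ X ◁ (α_ X P M).hom ≫ X ◁ X ◁ j
      = (sw X P ▷ M ≫ (α_ X (X ⊗ P) M).hom ≫ X ◁ (α_ X P M).hom) ≫ X ◁ X ◁ j := by
        simp only [Category.assoc]
    _ = (α_ X (X ⊗ P) M).hom ≫ X ◁ (α_ X P M).hom ≫ (sw X (P ⊗ M) ≫ X ◁ X ◁ j) := by
        rw [h1]
        simp only [Category.assoc]
    _ = _ := by
        rw [h2]
        simp only [Category.assoc]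

theorem mv_zero (X : C) (n : ℕ) : mv X n 0 = 𝟙 _ := by
  cases n <;> rfl

theorem mv_J (X : C) (a m p : ℕ) (hp : p ≤ a) :
    (mv X a p ▷ pow X m) ≫ (J X (a + 1) m).hom = (J X (a + 1) m).hom ≫ mv X (m + a) p := by
  induction a generalizing p with
  | zero =>
    obtain rfl : p = 0 := Nat.le_zero.1 hp
    have h1 : mv X (m + 0) 0 = 𝟙 _ := mv_zero X (m + 0)
    have h2 : mv X 0 0 = 𝟙 _ := rfl
    refine (congrArg (fun z => z ▷ pow X m ≫ (J X (0 + 1) m).hom) h2).trans ?_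
    refine Eq.trans ?_ (congrArg (fun z => (J X (0 + 1) m).hom ≫ z) h1.symm)
    exact (congrArg (fun z => z ≫ (J X (0 + 1) m).hom) (id_whiskerRight _ _)).trans
      ((Category.id_comp _).trans (Category.comp_id _).symm)
  | succ a ih =>
    cases p with
    | zero =>
      have h1 : mv X (m + (a + 1)) 0 = 𝟙 _ := mv_zero X (m + (a + 1))
      have h2 : mv X (a + 1) 0 = 𝟙 _ := rfl
      refine (congrArg (fun z => z ▷ pow X m ≫ (J X (a + 1 + 1) m).hom) h2).trans ?_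
      refine Eq.trans ?_ (congrArg (fun z => (J X (a + 1 + 1) m).hom ≫ z) h1.symm)
      exact (congrArg (fun z => z ≫ (J X (a + 1 + 1) m).hom) (id_whiskerRight _ _)).trans
        ((Category.id_comp _).trans (Category.comp_id _).symm)
    | succ p =>
      exact join_comp (A := X ⊗ pow X (a + 1)) (B := X ⊗ pow X (m + (a + 1))) (M := pow X m)
        (sw X (pow X a)) (X ◁ mv X a p) (J X (a + 1 + 1) m).hom
        (sw X (pow X (m + a))) (X ◁ mv X (m + a) p)
        (join_sw (X := X) (P := pow X a) (M := pow X m) (Q := pow X (m + a)) (J X a m).hom)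
        (join_mid (X := X) (P := pow X (a + 1)) (M := pow X m) (Q := pow X (m + (a + 1)))
          (mv X a p) (J X (a + 1) m).hom (mv X (m + a) p) (ih p (Nat.le_of_succ_le_succ hp)))

end A

variable {C : Type u} [Category.{v} C] [MonoidalCategory C] [SymmetricCategory C] [Preadditive C]
  [MonoidalPreadditive C]

/-- the (anti)symmetrizer of the first `a` factors -/
def EL {C : Type u} [Category.{v} C] [MonoidalCategory C] [SymmetricCategory C] [Preadditive C]
    (b : Bool) (X : C) (m : ℕ) : (a : ℕ) → (pow X (m + a) ⟶ pow X (m + a))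
  | 0 => 𝟙 _
  | a + 1 => ∑ p : Fin (a + 1), (cs b) ^ (p : ℕ) • (X ◁ EL b X m a ≫ mv X (m + a) p)

theorem join_sum {A B M : C} {ι : Type*} (s : Finset ι) (c : ι → ℤ) (j : A ⊗ M ⟶ B)
    (u : ι → (A ⟶ A)) (u' : ι → (B ⟶ B)) (h : ∀ i ∈ s, u i ▷ M ≫ j = j ≫ u' i) :
    (∑ i ∈ s, c i • u i) ▷ M ≫ j = j ≫ ∑ i ∈ s, c i • u' i := by
  have hw : (∑ i ∈ s, c i • u i) ▷ M = ∑ i ∈ s, c i • (u i ▷ M) := by
    have h1 := (tensorRight M).map_sum (fun i => c i • u i) s
    refine h1.trans (Finset.sum_congr rfl fun i _ => ?_)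
    exact (tensorRight M).map_zsmul
  rw [hw, Preadditive.sum_comp, Preadditive.comp_sum]
  refine Finset.sum_congr rfl fun i hi => ?_
  rw [Preadditive.zsmul_comp, Preadditive.comp_zsmul, h i hi]

theorem E_J (b : Bool) (X : C) (a m : ℕ) :
    (E b X a ▷ pow X m) ≫ (J X a m).hom = (J X a m).hom ≫ EL b X m a := by
  induction a with
  | zero =>
    refine (congrArg (fun z => z ▷ pow X m ≫ (J X 0 m).hom) (E_zero b X)).trans ?_
    exact (congrArg (fun z => z ≫ (J X 0 m).hom) (id_whiskerRight _ _)).trans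
      ((Category.id_comp _).trans (Category.comp_id _).symm)
  | succ a ih =>
    refine (congrArg (fun z => z ▷ pow X m ≫ (J X (a + 1) m).hom) (E_succ b X a)).trans ?_
    refine join_sum (A := X ⊗ pow X a) (B := X ⊗ pow X (m + a)) (M := pow X m) Finset.univ
      (fun p : Fin (a + 1) => (cs b) ^ (p : ℕ)) (J X (a + 1) m).hom
      (fun p => X ◁ E b X a ≫ mv X a p) (fun p => X ◁ EL b X m a ≫ mv X (m + a) p)
      fun p _ => ?_
    exact join_comp (A := X ⊗ pow X a) (B := X ⊗ pow X (m + a)) (M := pow X m)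
      (X ◁ E b X a) (mv X a p) (J X (a + 1) m).hom (X ◁ EL b X m a) (mv X (m + a) p)
      (join_mid (X := X) (P := pow X a) (M := pow X m) (Q := pow X (m + a)) (E b X a)
        (J X a m).hom (EL b X m a) ih)
      (mv_J X a m p (Nat.lt_succ_iff.1 p.2))

end Pool.Agent.W_MP_868bb7_ag
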