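import Pool.Agent.W_MP_868bb7_ag.NagHig

set_option autoImplicit false

/-!
# NilMixed: a mixed nilpotence statement

`nil_mixed`: `I` two-sided ideal (a subspace), `e + o = 1` idempotents, `e I e` and `o I o` nil of
bounded index.  By `nagata_higman` there is `m` such that products of `m` elements of `e I e` (resp.
`o I o`) vanish.  Let `F ∈ I`, `F^2 = x + y`, `x = F e F`, `y = F o F`.  A product of factors `x`, `y` with at
least `m + 1` factors `x` vanishes, as it contains `e (F u_1 F) e (F u_2 F) e ... e` with `m` factors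
`F u_i F ∈ I`; the same for `y`.  So `(x + y)^(2m+1) = 0`.
-/

namespace Pool.Agent.W_MP_868bb7_ag

/-- The counting argument: `a` (resp. `b`) factors of the first (second) kind are still needed. -/
theorem nil_mixed_aux {K R : Type*} [Field K] [Ring R] [Algebra K R]
    (I : Submodule K R) (hl : ∀ x, ∀ y ∈ I, x * y ∈ I) (hr : ∀ x ∈ I, ∀ y, x * y ∈ I)
    (e o : R) (he : e * e = e) (ho : o * o = o) (F : R) (hF : F ∈ I) (n : ℕ) :
    ∀ a b : ℕ, a + b = n → ∀ w : R,
      (∀ A : R, ∀ l : List R, (∀ x ∈ l, ∃ y ∈ I, x = e * y * e) → l.length = a →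
        l.prod * (e * F * A * w) = 0) →
      (∀ A : R, ∀ l : List R, (∀ x ∈ l, ∃ y ∈ I, x = o * y * o) → l.length = b →
        l.prod * (o * F * A * w) = 0) →
      (F * e * F + F * o * F) ^ (n + 1) * w = 0 := by
  induction n with
  | zero =>
    intro a b hab w ha hb
    have ha0 : a = 0 := by omega
    have hb0 : b = 0 := by omega
    have h1 := ha 1 [] (by simp) (by simp [ha0])
    have h2 := hb 1 [] (by simp) (by simp [hb0])
    simp only [List.prod_nil, one_mul, mul_one] at h1 h2
    rw [zero_add, pow_one, add_mul]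
    have e1 : F * e * F * w = F * (e * F * w) := by simp only [mul_assoc]
    have e2 : F * o * F * w = F * (o * F * w) := by simp only [mul_assoc]
    rw [e1, e2, h1, h2]; simp
  | succ n ih =>
    intro a b hab w ha hb
    have hX : (F * e * F + F * o * F) ^ (n + 1) * (F * e * F * w) = 0 := by
      cases a with
      | zero =>
        have h1 := ha 1 [] (by simp) (by simp)
        simp only [List.prod_nil, one_mul, mul_one] at h1
        have e1 : F * e * F * w = F * (e * F * w) := by simp only [mul_assoc]
        rw [e1, h1]; simp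
      | succ a =>
        refine ih a b (by omega) _ (fun A l hm hlen => ?_) (fun A l hm hlen => ?_)
        · have h1 := ha 1 (l ++ [e * (F * A * F) * e]) (by
            intro x hx
            rcases List.mem_append.mp hx with hx | hx
            · exact hm x hx
            · exact ⟨F * A * F, hr _ (hr _ hF _) _, by simpa using hx⟩) (by simp [hlen])
          rw [List.prod_append, List.prod_singleton] at h1
          rw [← h1]
          calc l.prod * (e * F * A * (F * e * F * w))
              = l.prod * (e * F * A * (F * (e * e) * F * w)) := by rw [he]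
            _ = _ := by simp only [mul_assoc, mul_one, one_mul]
        · have h1 := hb (A * (F * e * F)) l hm hlen
          rw [← h1]
          simp only [mul_assoc]
    have hY : (F * e * F + F * o * F) ^ (n + 1) * (F * o * F * w) = 0 := by
      cases b with
      | zero =>
        have h1 := hb 1 [] (by simp) (by simp)
        simp only [List.prod_nil, one_mul, mul_one] at h1
        have e1 : F * o * F * w = F * (o * F * w) := by simp only [mul_assoc]
        rw [e1, h1]; simp
      | succ b =>
        refine ih a b (by omega) _ (fun A l hm hlen => ?_) (fun A l hm hlen => ?_)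
        · have h1 := ha (A * (F * o * F)) l hm hlen
          rw [← h1]
          simp only [mul_assoc]
        · have h1 := hb 1 (l ++ [o * (F * A * F) * o]) (by
            intro x hx
            rcases List.mem_append.mp hx with hx | hx
            · exact hm x hx
            · exact ⟨F * A * F, hr _ (hr _ hF _) _, by simpa using hx⟩) (by simp [hlen])
          rw [List.prod_append, List.prod_singleton] at h1
          rw [← h1]
          calc l.prod * (o * F * A * (F * o * F * w))
              = l.prod * (o * F * A * (F * (o * o) * F * w)) := by rw [ho]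
            _ = _ := by simp only [mul_assoc, mul_one, one_mul]
    rw [pow_succ, mul_assoc, add_mul (F * e * F), mul_add, hX, hY, add_zero]

/-- Products of many elements of `e I e` vanish. -/
theorem nil_mixed_prod {K R : Type*} [Field K] [CharZero K] [Ring R] [Algebra K R]
    (I : Submodule K R) (hl : ∀ x, ∀ y ∈ I, x * y ∈ I) (hr : ∀ x ∈ I, ∀ y, x * y ∈ I)
    (e : R) (p : ℕ) (hp : 1 ≤ p) (hpe : ∀ x ∈ I, (e * x * e) ^ p = 0)
    (l : List R) (hm : ∀ x ∈ l, ∃ y ∈ I, x = e * y * e) (hlen : l.length = 2 ^ p - 1) :
    l.prod = 0 := by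
  let S : Submodule K R :=
    { carrier := {x | ∃ y ∈ I, x = e * y * e}
      add_mem' := by
        rintro _ _ ⟨a, ha, rfl⟩ ⟨b, hb, rfl⟩
        exact ⟨a + b, I.add_mem ha hb, by rw [mul_add, add_mul]⟩
      zero_mem' := ⟨0, I.zero_mem, by simp⟩
      smul_mem' := by
        rintro c _ ⟨a, ha, rfl⟩
        exact ⟨c • a, I.smul_mem c ha, by rw [mul_smul_comm, smul_mul_assoc]⟩ }
  refine nagata_higman S ?_ p hp ?_ l hm hlen
  · rintro _ ⟨a, ha, rfl⟩ _ ⟨b, hb, rfl⟩
    exact ⟨a * e * (e * b), hl _ _ (hl _ _ hb), by simp only [mul_assoc]⟩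
  · rintro _ ⟨a, ha, rfl⟩
    exact hpe a ha

theorem nil_mixed {K R : Type*} [Field K] [CharZero K] [Ring R] [Algebra K R]
    (I : Submodule K R) (hl : ∀ x, ∀ y ∈ I, x * y ∈ I) (hr : ∀ x ∈ I, ∀ y, x * y ∈ I)
    (e o : R) (he : e * e = e) (ho : o * o = o) (h1 : e + o = 1) (p q : ℕ) (hp : 1 ≤ p)
    (hq : 1 ≤ q) (hpe : ∀ x ∈ I, (e * x * e) ^ p = 0) (hqo : ∀ x ∈ I, (o * x * o) ^ q = 0)
    (x : R) (hx : x ∈ I) : IsNilpotent x := by
  have h := nil_mixed_aux I hl hr e o he ho x hx ((2 ^ p - 1) + (2 ^ q - 1)) (2 ^ p - 1)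
    (2 ^ q - 1) rfl 1
    (fun A l hm hlen => by rw [nil_mixed_prod I hl hr e p hp hpe l hm hlen, zero_mul])
    (fun A l hm hlen => by rw [nil_mixed_prod I hl hr o q hq hqo l hm hlen, zero_mul])
  have e1 : x * e * x + x * o * x = x ^ 2 := by
    rw [← add_mul, ← mul_add, h1, mul_one, pow_two]
  rw [mul_one, e1, ← pow_mul] at h
  exact ⟨_, h⟩

end Pool.Agent.W_MP_868bb7_ag
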