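import Pool.Agent.W_MP_868bb7_ag.Newton
import Pool.Agent.W_MP_868bb7_ag.Cross
import Pool.Agent.W_MP_868bb7_ag.NilMixed
import Pool.Agent.W_MP_868bb7_ag.IdemLift

set_option autoImplicit false

/-!
# NegLem: negligible endomorphisms

`Neg K f` means `tr K (f ≫ g) = 0` for all `g`; negligible morphisms form an ideal (`tr_comp_comm`).

* `neg_nil`: `P` with idempotents `e`, `𝟙 - e` of opposite pure types.  Apply `nil_mixed` with
  `R = End P` (multiplication `f * g = g ≫ f`), `I` the negligible endomorphisms;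
  `(e x e)^p = 0` by `nilp` (`Fd_conj`: with `p` from `Fd b e`; `e x e = e ≫ x ≫ e = (e ≫ x ≫ e)`,
  `powMap (e ≫ x ≫ e) p ≫ E = powMap e p ≫ .. = 0`, all traces of powers vanish).
  Convert `f ^ n` in `End P` into `it f n`.
* `Fd_of_neg`: `w` idempotent, `w ≫ o` negligible, `o = 𝟙 - e` of pure type `!b`, `e` of type `b`.
  `f = o ≫ w ≫ o` is negligible and of type `!b` (`Fd_conj`), so `it f k = 0` (`nilp`).  Let
  `y = w ≫ o ≫ w`; `it y (j+1) = w ≫ it f j ≫ w` (for `j ≥ 1`), so `y` is nilpotent.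
  `w ≫ e ≫ w = w - y`, and with `z = w + y + ... + y^k`: `(w - y) ≫ z = w`.  So
  `w = w ≫ e ≫ (w ≫ z)` and `Fd_conj` gives `Fd b w`.
* `lift_proj`: from `neg_nil`-type nilpotence and `idem_lift`.
-/

namespace Pool.Agent.W_MP_868bb7_ag

open CategoryTheory MonoidalCategory

universe v u w

variable (K : Type w) [Field K] [CharZero K] {C : Type u} [Category.{v} C] [MonoidalCategory C]
  [Preadditive C] [Linear K C] [MonoidalPreadditive C] [MonoidalLinear K C]
  [SymmetricCategory C] [RightRigidCategory C] [UnitK K C]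

omit [CharZero K] in
theorem Neg_comp_left {X Y Z : C} (f : X ⟶ Y) (g : Y ⟶ Z) (h : Neg K g) : Neg K (f ≫ g) := by
  intro u
  rw [Category.assoc, tr_comp_comm, Category.assoc]
  exact h _

omit [CharZero K] in
theorem Neg_comp_right {X Y Z : C} (f : X ⟶ Y) (g : Y ⟶ Z) (h : Neg K f) : Neg K (f ≫ g) := by
  intro u
  rw [Category.assoc]
  exact h _

omit [CharZero K] in
theorem Neg_add {X Y : C} (f g : X ⟶ Y) (hf : Neg K f) (hg : Neg K g) : Neg K (f + g) := by
  intro u
  rw [Preadditive.add_comp, tr_add, hf, hg, add_zero]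

omit [CharZero K] in
theorem Neg_sub {X Y : C} (f g : X ⟶ Y) (hf : Neg K f) (hg : Neg K g) : Neg K (f - g) := by
  intro u
  rw [Preadditive.sub_comp, tr_sub, hf, hg, sub_zero]

omit [CharZero K] in
theorem Neg_smul {X Y : C} (a : K) (f : X ⟶ Y) (hf : Neg K f) : Neg K (a • f) := by
  intro u
  rw [Linear.smul_comp, tr_smul, hf, mul_zero]

omit [CharZero K] in
theorem Neg_zero {X Y : C} : Neg K (0 : X ⟶ Y) := by
  intro u
  rw [Limits.zero_comp, tr_zero]

omit [CharZero K] in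
theorem Neg_tr {X : C} (f : X ⟶ X) (hf : Neg K f) : tr K f = 0 := by
  have := hf (𝟙 X)
  rwa [Category.comp_id] at this

/-- the negligible endomorphisms -/
def negSub (P : C) : Submodule K (End P) where
  carrier := {x | Neg K (show P ⟶ P from x)}
  add_mem' hx hy := Neg_add K _ _ hx hy
  zero_mem' := Neg_zero K
  smul_mem' a _ hx := Neg_smul K a _ hx

omit [Preadditive C] [MonoidalCategory C] [SymmetricCategory C] [RightRigidCategory C]
  [MonoidalPreadditive C] in
theorem it_eq_pow {P : C} (f : P ⟶ P) (n : ℕ) : it f n = ((show End P from f) ^ n : End P) := by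
  induction n with
  | zero => rfl
  | succ n ih =>
    rw [pow_succ, End.mul_def, ← ih]
    rfl

omit [CharZero K] in
theorem Neg_it {X : C} (f : X ⟶ X) (hf : Neg K f) (j : ℕ) (hj : 1 ≤ j) : Neg K (it f j) := by
  obtain ⟨j, rfl⟩ : ∃ i, j = i + 1 := ⟨j - 1, by omega⟩
  exact Neg_comp_right K f (it f j) hf

/-- an endomorphism of pure type which is negligible is nilpotent -/
theorem it_zero_of_neg (b : Bool) {X : C} (f : X ⟶ X) (n : ℕ) (hn : 1 ≤ n)
    (h : powMap f n ≫ E b X n = 0) (hf : Neg K f) : it f n = 0 :=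
  nilp K b f n hn h fun j hj => Neg_tr K _ (Neg_it K f hf j hj)

omit [MonoidalPreadditive C] [RightRigidCategory C] in
theorem powMap_conj_zero (b : Bool) {X : C} (e x : X ⟶ X) (n : ℕ)
    (h : powMap e n ≫ E b X n = 0) : powMap (e ≫ x) n ≫ E b X n = 0 := by
  rw [powMap_comp, Category.assoc, powMap_E, ← Category.assoc, h, Limits.zero_comp]

theorem neg_nil (b : Bool) {P : C} (e : P ⟶ P) (he : e ≫ e = e) (h1 : Fd b e)
    (h2 : Fd (!b) (𝟙 P - e)) (f : P ⟶ P) (hf : Neg K f) : ∃ k, it f k = 0 := by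
  obtain ⟨p, hp, hp2⟩ := h1
  obtain ⟨q, hq, hq2⟩ := h2
  have key := nil_mixed (K := K) (R := End P) (negSub K P)
    (fun x y hy => Neg_comp_right K (show P ⟶ P from y) (show P ⟶ P from x) hy)
    (fun x hx y => Neg_comp_left K (show P ⟶ P from y) (show P ⟶ P from x) hx)
    (show End P from e) (show End P from (𝟙 P - e)) he
    (by
      change (𝟙 P - e) ≫ (𝟙 P - e) = 𝟙 P - e
      simp [he])
    (by
      change e + (𝟙 P - e) = 𝟙 P
      abel) p q hp hq
    (by
      intro x hx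
      have e1 : ((show End P from e) * x * (show End P from e) : End P) =
        (show End P from (e ≫ (show P ⟶ P from x) ≫ e)) := rfl
      rw [e1, ← it_eq_pow]
      apply it_zero_of_neg K b _ p hp (powMap_conj_zero b e _ p hp2)
      exact Neg_comp_left K _ _ (Neg_comp_right K _ _ hx))
    (by
      intro x hx
      have e1 : ((show End P from (𝟙 P - e)) * x * (show End P from (𝟙 P - e)) : End P) =
        (show End P from ((𝟙 P - e) ≫ (show P ⟶ P from x) ≫ (𝟙 P - e))) := rfl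
      rw [e1, ← it_eq_pow]
      apply it_zero_of_neg K (!b) _ q hq (powMap_conj_zero (!b) (𝟙 P - e) _ q hq2)
      exact Neg_comp_left K _ _ (Neg_comp_right K _ _ hx))
    (show End P from f) hf
  obtain ⟨k, hk⟩ := key
  exact ⟨k, by rw [it_eq_pow]; exact hk⟩

theorem Fd_of_neg (b : Bool) {P : C} (e w : P ⟶ P) (he : e ≫ e = e) (hw : w ≫ w = w)
    (h1 : Fd b e) (h2 : Fd (!b) (𝟙 P - e)) (h : Neg K (w ≫ (𝟙 P - e))) : Fd b w := by
  obtain ⟨o, ho⟩ : ∃ o : P ⟶ P, o = 𝟙 P - e := ⟨_, rfl⟩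
  rw [← ho] at h2 h
  have hoo : o ≫ o = o := by
    rw [ho]
    simp [he]
  obtain ⟨n, hn, hn2⟩ := h2
  have hf := it_zero_of_neg K (!b) (o ≫ w ≫ o) n hn (powMap_conj_zero (!b) o _ n hn2)
    (Neg_comp_left K _ _ h)
  -- powers of `w ≫ o ≫ w`
  have hy : ∀ j : ℕ, it (w ≫ o ≫ w) (j + 2) = w ≫ it (o ≫ w ≫ o) (j + 1) ≫ w := by
    intro j
    induction j with
    | zero =>
      change (w ≫ o ≫ w) ≫ (w ≫ o ≫ w) ≫ 𝟙 P = w ≫ ((o ≫ w ≫ o) ≫ 𝟙 P) ≫ w
      simp only [Category.comp_id, Category.assoc]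
      rw [reassoc_of% hw]
    | succ j ih =>
      change (w ≫ o ≫ w) ≫ it (w ≫ o ≫ w) (j + 2) =
        w ≫ ((o ≫ w ≫ o) ≫ it (o ≫ w ≫ o) (j + 1)) ≫ w
      rw [ih]
      have e1 : it (o ≫ w ≫ o) (j + 1) = o ≫ it (o ≫ w ≫ o) (j + 1) := by
        change (o ≫ w ≫ o) ≫ it (o ≫ w ≫ o) j = o ≫ (o ≫ w ≫ o) ≫ it (o ≫ w ≫ o) j
        simp only [Category.assoc]
        rw [reassoc_of% hoo]
      generalize it (o ≫ w ≫ o) (j + 1) = I at e1 ⊢
      simp only [Category.assoc]
      rw [reassoc_of% hw]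
      congr 3
      nth_rewrite 1 [e1]
      rw [Category.assoc]
  have hnil : IsNilpotent (show End P from (w ≫ o ≫ w)) := by
    refine ⟨n + 1, ?_⟩
    rw [← it_eq_pow]
    obtain ⟨j, rfl⟩ : ∃ i, n = i + 1 := ⟨n - 1, by omega⟩
    rw [hy j, hf]
    simp
  obtain ⟨u, hu⟩ := hnil.isUnit_one_sub
  -- `w = w ≫ e ≫ w ≫ u⁻¹`
  have h3 : (𝟙 P - w ≫ o ≫ w) ≫ (show P ⟶ P from (↑u⁻¹ : End P)) = 𝟙 P := by
    have h4 : ((↑u⁻¹ : End P) * (↑u : End P)) = 1 := u.inv_mul
    rw [hu] at h4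
    exact h4
  have h5 : w ≫ (𝟙 P - w ≫ o ≫ w) = w ≫ e ≫ w := by
    rw [ho]
    simp only [Preadditive.comp_sub, Preadditive.sub_comp, Category.comp_id, Category.id_comp,
      hw, reassoc_of% hw]
    abel
  have h6 : w = w ≫ e ≫ (w ≫ (show P ⟶ P from (↑u⁻¹ : End P))) := by
    calc w = w ≫ (𝟙 P - w ≫ o ≫ w) ≫ (show P ⟶ P from (↑u⁻¹ : End P)) := by
          rw [h3, Category.comp_id]
      _ = (w ≫ (𝟙 P - w ≫ o ≫ w)) ≫ (show P ⟶ P from (↑u⁻¹ : End P)) := by
          rw [Category.assoc]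
      _ = _ := by rw [h5]; simp only [Category.assoc]
  rw [h6]
  exact Fd_conj b w e _ h1

omit [CharZero K] in
/-- idempotent lifting in a category: `f` with `f ≫ f - f` negligible and nilpotent -/
theorem lift_proj {X : C} (f : X ⟶ X) (hneg : Neg K (f ≫ f - f)) (k : ℕ)
    (hk : it (f ≫ f - f) k = 0) :
    ∃ e : X ⟶ X, e ≫ e = e ∧ Neg K (e - f) := by
  have hnil : IsNilpotent ((show End X from f) * (show End X from f) - (show End X from f)) := by
    refine ⟨k, ?_⟩
    rw [it_eq_pow] at hk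
    exact hk
  obtain ⟨e, q, he, heq, _, _⟩ := idem_lift (show End X from f) hnil
  refine ⟨e, he, ?_⟩
  have h1 : (show X ⟶ X from e) - f = (show X ⟶ X from q) ≫ (f ≫ f - f) := by
    have h2 : e - (show End X from f) =
      ((show End X from f) * (show End X from f) - (show End X from f)) * q := by
      rw [heq]
      abel
    exact h2
  change Neg K ((show X ⟶ X from e) - f)
  rw [h1]
  exact Neg_comp_left K _ _ hneg

end Pool.Agent.W_MP_868bb7_ag
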