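import Pool.Agent.W_MP_868bb7_ag.ObjForm
import Pool.Agent.W_MP_868bb7_ag.NegLem
import Pool.Agent.W_MP_868bb7_ag.Cross

set_option autoImplicit false

/-!
# KimRetract: Kimura-finite objects are closed under retracts

Let `i ≫ r = 𝟙 P`, `u` the projection of `X` to its even part, `v = 𝟙 X - u` (`idem_of_kimura`),
`x = i ≫ u ≫ r : P ⟶ P`.
* `cross_neg`: if `u`, `v` are idempotents, `Fd true u`, `Fd false v`, then `u ≫ f ≫ v` is negligible:
  `tr ((u ≫ f ≫ v) ≫ g) = tr ((u ≫ f ≫ v) ≫ (v ≫ g ≫ u))` (`tr_comp_comm`) `= 0` by `cross` with `b = true`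
  (`Fd_conj`: `(u ≫ f ≫ v) ≫ (v ≫ g ≫ u) = u ≫ (..) ` is of the form `a ≫ u ≫ c`, same for `v`).
* `f ≫ f - f` for `f = x`: `x ≫ x - x = - i ≫ (u ≫ (r ≫ i) ≫ v) ≫ r` (as `x + i ≫ v ≫ r = 𝟙`) is negligible
  (`Neg_comp_left`, `Neg_comp_right`).
* a negligible `g : P ⟶ P` is nilpotent: `r ≫ g ≫ i : X ⟶ X` is negligible, so nilpotent (`neg_nil` with
  `e = u`), `it (r ≫ g ≫ i) k = r ≫ it g k ≫ i`-like (`it_comp`), compose with `i` and `r`.
* `lift_proj` gives an idempotent `w : P ⟶ P` with `w - x` negligible.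
* `Fd true w`: let `w' = r ≫ w ≫ i : X ⟶ X` (idempotent).  `w' ≫ v = r ≫ w ≫ i ≫ v` differs by a negligible
  morphism from `r ≫ x ≫ i ≫ v = (r ≫ i) ≫ (u ≫ (r ≫ i) ≫ v)`, which is negligible.  `Fd_of_neg` (`b = true`,
  `e = u`) gives `Fd true w'`, and `w = i ≫ w' ≫ r` (`Fd_conj`).
* `Fd false (𝟙 - w)`: the same with `v` instead of `u` (`(𝟙 - w) - i ≫ v ≫ r = -(w - x)` is negligible;
  `Fd_of_neg` with `b = false`, `e = v`).
* `kimura_of_idem`.
-/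

namespace Pool.Agent.W_MP_868bb7_ag

open CategoryTheory MonoidalCategory Limits

universe v u w

variable (K : Type w) [Field K] [CharZero K] {C : Type u} [Category.{v} C] [MonoidalCategory C]
  [Preadditive C] [Linear K C] [MonoidalPreadditive C] [MonoidalLinear K C]
  [SymmetricCategory C] [RightRigidCategory C] [UnitK K C]

theorem cross_neg (b : Bool) {X Y : C} (u : X ⟶ X) (v : Y ⟶ Y) (hu : u ≫ u = u) (hv : v ≫ v = v)
    (h1 : Fd b u) (h2 : Fd (!b) v) (f : X ⟶ Y) : Neg K (u ≫ f ≫ v) := by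
  intro g
  have e1 : (u ≫ f ≫ v) ≫ (v ≫ g ≫ u) = 𝟙 X ≫ u ≫ (f ≫ v ≫ g ≫ u) := by
    simp only [Category.assoc, Category.id_comp]
    rw [← Category.assoc v v, hv]
  have e2 : (v ≫ g ≫ u) ≫ (u ≫ f ≫ v) = 𝟙 Y ≫ v ≫ (g ≫ u ≫ f ≫ v) := by
    simp only [Category.assoc, Category.id_comp]
    rw [← Category.assoc u u, hu]
  have h3 : Fd b ((u ≫ f ≫ v) ≫ (v ≫ g ≫ u)) := by
    rw [e1]
    exact Fd_conj b _ _ _ h1
  have h4 : Fd (!b) ((v ≫ g ≫ u) ≫ (u ≫ f ≫ v)) := by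
    rw [e2]
    exact Fd_conj (!b) _ _ _ h2
  have h5 := cross K b (u ≫ f ≫ v) (v ≫ g ≫ u) h3 h4
  have e3 : (u ≫ f ≫ v) ≫ (v ≫ g ≫ u) = (u ≫ f ≫ v ≫ g) ≫ u := by
    simp only [Category.assoc]
    rw [← Category.assoc v v, hv]
  have e4 : u ≫ u ≫ f ≫ v ≫ g = (u ≫ f ≫ v) ≫ g := by
    simp only [Category.assoc]
    rw [← Category.assoc u u, hu]
  rw [e3, tr_comp_comm K, e4] at h5
  exact h5

omit [CharZero K] in
theorem KimRetract_neg_neg {X Y : C} (f : X ⟶ Y) (hf : Neg K f) : Neg K (-f) := by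
  have h := Neg_sub K 0 f (Neg_zero K) hf
  rwa [zero_sub] at h

/-- an idempotent of a retract which is congruent to the compression of `u` has the type of `u` -/
theorem KimRetract_fd (b : Bool) {X P : C} (i : P ⟶ X) (r : X ⟶ P) (h : i ≫ r = 𝟙 P)
    (u v : X ⟶ X) (huv : v = 𝟙 X - u) (hu : u ≫ u = u) (hv : v ≫ v = v)
    (h1 : Fd b u) (h2 : Fd (!b) v) (w : P ⟶ P) (hw : w ≫ w = w)
    (hn : Neg K (w - i ≫ u ≫ r)) : Fd b w := by
  have h3 : (r ≫ w ≫ i) ≫ (r ≫ w ≫ i) = r ≫ w ≫ i := by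
    simp only [Category.assoc]
    rw [← Category.assoc i r, h, Category.id_comp, ← Category.assoc w w, hw]
  have h4 : Neg K ((r ≫ w ≫ i) ≫ (𝟙 X - u)) := by
    rw [← huv]
    have e : (r ≫ w ≫ i) ≫ v = r ≫ (w - i ≫ u ≫ r) ≫ i ≫ v +
        (r ≫ i) ≫ (u ≫ (r ≫ i) ≫ v) := by
      rw [Preadditive.sub_comp, Preadditive.comp_sub]
      simp only [Category.assoc]
      abel
    rw [e]
    exact Neg_add K _ _ (Neg_comp_left K _ _ (Neg_comp_right K _ _ hn))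
      (Neg_comp_left K _ _ (cross_neg K b u v hu hv h1 h2 (r ≫ i)))
  rw [huv] at h2
  have h5 := Fd_of_neg K b u (r ≫ w ≫ i) hu h3 h1 h2 h4
  have h6 : i ≫ (r ≫ w ≫ i) ≫ r = w := by
    simp only [Category.assoc]
    rw [h, Category.comp_id, ← Category.assoc i r, h, Category.id_comp]
  rw [← h6]
  exact Fd_conj b _ _ _ h5

theorem kimura_retract [HasBinaryBiproducts C] [IsIdempotentComplete C] {X P : C}
    (hX : KimuraFD K X) (i : P ⟶ X) (r : X ⟶ P) (h : i ≫ r = 𝟙 P) : KimuraFD K P := by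
  obtain ⟨u, hu, hu1, hu2⟩ := idem_of_kimura K hX
  obtain ⟨v, huv⟩ : ∃ v : X ⟶ X, v = 𝟙 X - u := ⟨_, rfl⟩
  rw [← huv] at hu2
  have huv' : u = 𝟙 X - v := by rw [huv]; abel
  have hv : v ≫ v = v := by
    rw [huv]
    simp [Preadditive.sub_comp, Preadditive.comp_sub, hu]
  obtain ⟨x, hx⟩ : ∃ x : P ⟶ P, x = i ≫ u ≫ r := ⟨_, rfl⟩
  have hy : 𝟙 P - x = i ≫ v ≫ r := by
    rw [hx, huv, Preadditive.sub_comp, Preadditive.comp_sub, Category.id_comp, h]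
  have hxx : x ≫ x - x = -(i ≫ (u ≫ (r ≫ i) ≫ v) ≫ r) := by
    have e1 : x ≫ x - x = -(x ≫ (𝟙 P - x)) := by
      rw [Preadditive.comp_sub, Category.comp_id]
      abel
    rw [e1, hy, hx]
    simp only [Category.assoc]
  have hneg : Neg K (x ≫ x - x) := by
    rw [hxx]
    exact KimRetract_neg_neg K _ (Neg_comp_left K _ _ (Neg_comp_right K _ _
      (cross_neg K true u v hu hv hu1 hu2 (r ≫ i))))
  have hnil : ∀ g : P ⟶ P, Neg K g → ∃ k, it g k = 0 := by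
    intro g hg
    have hg' : Neg K ((r ≫ g) ≫ i) := Neg_comp_right K _ _ (Neg_comp_left K _ _ hg)
    rw [huv] at hu2
    obtain ⟨k, hk⟩ := neg_nil K true u hu hu1 hu2 ((r ≫ g) ≫ i) hg'
    refine ⟨k + 1, ?_⟩
    have e2 : g = i ≫ (r ≫ g) := by
      rw [← Category.assoc, h, Category.id_comp]
    rw [e2, it_comp, hk]
    simp
  obtain ⟨k, hk⟩ := hnil _ hneg
  obtain ⟨w, hw, hwx⟩ := lift_proj K x hneg k hk
  have hA : Fd true w := by
    refine KimRetract_fd K true i r h u v huv hu hv hu1 hu2 w hw ?_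
    rw [← hx]
    exact hwx
  have hw' : (𝟙 P - w) ≫ (𝟙 P - w) = 𝟙 P - w := by
    simp [Preadditive.sub_comp, Preadditive.comp_sub, hw]
  have hB : Fd false (𝟙 P - w) := by
    refine KimRetract_fd K false i r h v u huv' hv hu hu2 hu1 (𝟙 P - w) hw' ?_
    rw [← hy]
    have e3 : 𝟙 P - w - (𝟙 P - x) = -(w - x) := by abel
    rw [e3]
    exact KimRetract_neg_neg K _ hwx
  exact kimura_of_idem K w hw hA hB

end Pool.Agent.W_MP_868bb7_ag
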