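import Mathlib

set_option autoImplicit false

/-!
# NagHig: the Nagata-Higman theorem

`nagata_higman`: Let `S` be a subspace of a `K`-algebra `R` closed under multiplication, `x^n = 0` for
all `x ∈ S`.  Then every product of `2^n - 1` elements of `S` is zero.
Proof.  Relative version, by induction on `n`, for every subspace `J ⊆ S` which is an ideal of `S`
(`S J ⊆ J`, `J S ⊆ J`): if `x^n ∈ J` for all `x ∈ S`, then products of `2^n - 1` elements of `S` are in
`J`.  `n = 1`: clear.  Step: linearizing `(x + s y)^n ∈ J` (`s ∈ K`, `n + 1` different values of `s`,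
Vandermonde) gives `∑_{i<n} x^i y x^(n-1-i) ∈ J` for `x, y ∈ S`.  Then
`∑_{i,j<n} x^(n-1-i) z y^j x^i y^(n-1-j)` is in `J` (for fixed `j` it is the linearization at `x` of
the element `z y^j`, times `y^(n-1-j)`; read `y^0` as nothing) and equals
`∑_i x^(n-1-i) z (∑_j y^j x^i y^(n-1-j))`, where the inner sum is in `J` for `i ≥ 1` and is
`n y^(n-1)` for `i = 0`.  Hence `x^(n-1) z y^(n-1) ∈ J` for `x, y, z ∈ S`.
Let `I` be the intersection of `L = {w ∈ S | w z y^(n-1) ∈ J}` and `{w ∈ S | l z w ∈ J, l ∈ L}`.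
Then `I S I ⊆ J`, `x^(n-1) ∈ I`, and by
induction products of `2^(n-1) - 1` elements are in `I`, so products of
`2 (2^(n-1) - 1) + 1 = 2^n - 1` elements are in `J`.
-/

namespace Pool.Agent.W_MP_868bb7_ag

open Finset

set_option linter.unusedSectionVars false

section

variable {K R : Type*} [Field K] [CharZero K] [Ring R] [Algebra K R]

/-- Expansion of `(x + s y)^m` with the first two coefficients identified. -/
theorem nh_expand (x y : R) (m : ℕ) : ∃ c : ℕ → R, (∀ k, m < k → c k = 0) ∧ c 0 = x ^ m ∧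
    c 1 = ∑ i ∈ range m, x ^ i * y * x ^ (m - 1 - i) ∧
    ∀ s : K, (x + s • y) ^ m = ∑ k ∈ range (m + 1), s ^ k • c k := by
  induction m with
  | zero =>
    refine ⟨fun k => if k = 0 then 1 else 0, fun k hk => ?_, by simp, by simp, fun s => by simp⟩
    simp [Nat.pos_iff_ne_zero.mp hk]
  | succ m ih =>
    obtain ⟨c, hc, hc0, hc1, hs⟩ := ih
    refine ⟨fun k => c k * x + (if k = 0 then 0 else c (k - 1) * y), fun k hk => ?_, ?_, ?_,
      fun s => ?_⟩
    · have h1 : c k = 0 := hc k (by omega)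
      have h2 : c (k - 1) = 0 := hc (k - 1) (by omega)
      simp [h1, h2]
    · simp [hc0, pow_succ]
    · simp only [one_ne_zero, if_false, Nat.sub_self, hc1, hc0]
      rw [Finset.sum_range_succ, Finset.sum_mul]
      congr 1
      · refine Finset.sum_congr rfl fun i hi => ?_
        have hi' := Finset.mem_range.mp hi
        rw [show m + 1 - 1 - i = (m - 1 - i) + 1 by omega, pow_succ]
        simp only [mul_assoc]
      · simp
    · rw [pow_succ, hs s, mul_add, Finset.sum_mul, Finset.sum_mul]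
      have e1 : ∑ k ∈ range (m + 1), s ^ k • c k * x = ∑ k ∈ range (m + 2), s ^ k • (c k * x) := by
        rw [Finset.sum_range_succ _ (m + 1), hc (m + 1) (by omega)]
        simp
      have e2 : ∑ k ∈ range (m + 1), s ^ k • c k * s • y
          = ∑ k ∈ range (m + 2), s ^ k • (if k = 0 then 0 else c (k - 1) * y) := by
        rw [Finset.sum_range_succ' _ (m + 1)]
        simp only [Nat.add_eq_zero_iff, one_ne_zero, and_false, if_false, Nat.add_sub_cancel,
          if_true, smul_zero, add_zero]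
        refine Finset.sum_congr rfl fun k _ => ?_
        rw [smul_mul_assoc, mul_smul_comm, smul_smul, pow_succ]
      rw [e1, e2, ← Finset.sum_add_distrib]
      refine Finset.sum_congr rfl fun k _ => ?_
      rw [smul_add]

/-- If `∑ s^k c_k ∈ J` for all `s`, then all `c_k ∈ J`. -/
theorem nh_coeff (J : Submodule K R) (c : ℕ → R) (m : ℕ)
    (h : ∀ s : K, ∑ k ∈ range m, s ^ k • c k ∈ J) : ∀ k < m, c k ∈ J := by
  intro k hk
  rw [← Submodule.Quotient.mk_eq_zero J]
  rw [← Module.forall_dual_apply_eq_zero_iff K]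
  intro φ
  set p : Polynomial K := ∑ k ∈ range m, Polynomial.C (φ (Submodule.Quotient.mk (c k))) *
    Polynomial.X ^ k with hp
  have hp0 : p = 0 := by
    apply Polynomial.funext
    intro s
    have := (Submodule.Quotient.mk_eq_zero J).mpr (h s)
    have h2 := congrArg φ this
    rw [map_zero] at h2
    have e : (Submodule.Quotient.mk (∑ k ∈ range m, s ^ k • c k) : R ⧸ J)
        = ∑ k ∈ range m, s ^ k • (Submodule.Quotient.mk (c k) : R ⧸ J) := by
      rw [← Submodule.mkQ_apply, map_sum]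
      simp
    rw [e, map_sum] at h2
    rw [hp, Polynomial.eval_finsetSum, Polynomial.eval_zero, ← h2]
    refine Finset.sum_congr rfl fun k _ => ?_
    rw [Polynomial.eval_mul, Polynomial.eval_C, Polynomial.eval_pow, Polynomial.eval_X, map_smul,
      smul_eq_mul, mul_comm]
  have hk' : p.coeff k = φ (Submodule.Quotient.mk (c k)) := by
    rw [hp, Polynomial.finsetSum_coeff]
    simp [Polynomial.coeff_C_mul, Polynomial.coeff_X_pow, hk]
  rw [← hk', hp0, Polynomial.coeff_zero]

/-- Linearization. -/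
theorem nh_lin (S J : Submodule K R) (n : ℕ) (h : ∀ x ∈ S, x ^ (n + 1) ∈ J) (x : R) (hx : x ∈ S)
    (y : R) (hy : y ∈ S) : ∑ i ∈ range (n + 1), x ^ i * y * x ^ (n - i) ∈ J := by
  obtain ⟨c, -, -, hc1, hs⟩ := nh_expand (K := K) x y (n + 1)
  have := nh_coeff J c (n + 1 + 1) (fun s => by
    rw [← hs s]
    exact h _ (S.add_mem hx (S.smul_mem s hy))) 1 (by omega)
  rw [hc1] at this
  simpa using this

theorem nh_pow_mem (S : Submodule K R) (hmul : ∀ x ∈ S, ∀ y ∈ S, x * y ∈ S) (x : R) (hx : x ∈ S)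
    (n : ℕ) (hn : 1 ≤ n) : x ^ n ∈ S := by
  induction n, hn using Nat.le_induction with
  | base => simpa using hx
  | succ n _ ih => rw [pow_succ]; exact hmul _ ih _ hx

theorem nh_mul_pow_mem (S : Submodule K R) (hmul : ∀ x ∈ S, ∀ y ∈ S, x * y ∈ S) (z : R)
    (hz : z ∈ S) (y : R) (hy : y ∈ S) (j : ℕ) : z * y ^ j ∈ S := by
  induction j with
  | zero => simpa using hz
  | succ j ih => rw [pow_succ, ← mul_assoc]; exact hmul _ ih _ hy

/-- The key step: `x^n z y^n ∈ J`. -/
theorem nh_key (S J : Submodule K R) (hmul : ∀ x ∈ S, ∀ y ∈ S, x * y ∈ S)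
    (hl : ∀ x ∈ S, ∀ y ∈ J, x * y ∈ J) (hr : ∀ x ∈ J, ∀ y ∈ S, x * y ∈ J) (n : ℕ)
    (h : ∀ x ∈ S, x ^ (n + 1) ∈ J) (x : R) (hx : x ∈ S) (y : R) (hy : y ∈ S) (z : R) (hz : z ∈ S) :
    x ^ n * z * y ^ n ∈ J := by
  have hlp : ∀ w ∈ J, ∀ a ∈ S, ∀ i : ℕ, a ^ i * w ∈ J := by
    intro w hw a ha i
    induction i with
    | zero => simpa using hw
    | succ i ih => rw [pow_succ', mul_assoc]; exact hl _ ha _ ih
  have hrp : ∀ w ∈ J, ∀ a ∈ S, ∀ i : ℕ, w * a ^ i ∈ J := by
    intro w hw a ha i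
    induction i with
    | zero => simpa using hw
    | succ i ih => rw [pow_succ, ← mul_assoc]; exact hr _ ih _ ha
  -- the double sum
  have h1 : ∑ j ∈ range (n + 1), (∑ i ∈ range (n + 1), x ^ i * (z * y ^ j) * x ^ (n - i))
      * y ^ (n - j) ∈ J :=
    Submodule.sum_mem _ fun j _ =>
      hrp _ (nh_lin S J n h x hx _ (nh_mul_pow_mem S hmul z hz y hy j)) y hy _
  have h2 : ∑ j ∈ range (n + 1), (∑ i ∈ range (n + 1), x ^ i * (z * y ^ j) * x ^ (n - i))
      * y ^ (n - j)
      = ∑ i ∈ range (n + 1), x ^ i * (z * ∑ j ∈ range (n + 1), y ^ j * x ^ (n - i) * y ^ (n - j))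
      := by
    simp_rw [Finset.sum_mul, Finset.mul_sum]
    rw [Finset.sum_comm]
    refine Finset.sum_congr rfl fun i _ => Finset.sum_congr rfl fun j _ => ?_
    simp only [mul_assoc]
  rw [h2, Finset.sum_range_succ] at h1
  have h3 : ∑ i ∈ range n, x ^ i * (z * ∑ j ∈ range (n + 1), y ^ j * x ^ (n - i) * y ^ (n - j))
      ∈ J := by
    refine Submodule.sum_mem _ fun i hi => ?_
    have hi' := Finset.mem_range.mp hi
    exact hlp _ (hl _ hz _ (nh_lin S J n h y hy _
      (nh_pow_mem S hmul x hx (n - i) (by omega)))) x hx i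
  have h4 := (Submodule.add_mem_iff_right J h3).mp h1
  have h5 : ∑ j ∈ range (n + 1), y ^ j * x ^ (n - n) * y ^ (n - j) = ((n + 1 : ℕ) : K) • y ^ n := by
    have : ∀ j ∈ range (n + 1), y ^ j * x ^ (n - n) * y ^ (n - j) = y ^ n := by
      intro j hj
      have hj' := Finset.mem_range.mp hj
      rw [Nat.sub_self, pow_zero, mul_one, ← pow_add]
      congr 1; omega
    rw [Finset.sum_congr rfl this, Finset.sum_const, Finset.card_range, Nat.cast_smul_eq_nsmul]
  rw [h5] at h4
  have h6 : ((n + 1 : ℕ) : K) • (x ^ n * z * y ^ n) ∈ J := by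
    simpa [mul_smul_comm, mul_assoc] using h4
  have hne : ((n + 1 : ℕ) : K) ≠ 0 := Nat.cast_ne_zero.mpr (by omega)
  exact (Submodule.smul_mem_iff J hne).mp h6

/-- The relative version. -/
theorem nh_rel (S : Submodule K R) (hmul : ∀ x ∈ S, ∀ y ∈ S, x * y ∈ S) (n : ℕ) :
    ∀ J : Submodule K R, (∀ x ∈ S, ∀ y ∈ J, x * y ∈ J) → (∀ x ∈ J, ∀ y ∈ S, x * y ∈ J) →
      (∀ x ∈ S, x ^ (n + 1) ∈ J) → ∀ l : List R, (∀ x ∈ l, x ∈ S) → l.length = 2 ^ (n + 1) - 1 →
        l.prod ∈ J := by
  induction n with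
  | zero =>
    intro J _ _ h l hl hlen
    have hlen' : l.length = 1 := by simpa using hlen
    obtain ⟨x, rfl⟩ := List.length_eq_one_iff.mp hlen'
    have := h x (hl x (by simp))
    simpa using this
  | succ n ih =>
    intro J hlJ hrJ h l hl hlen
    have key := nh_key S J hmul hlJ hrJ (n + 1) h
    -- the ideal `L`
    let L : Submodule K R :=
      { carrier := {w | w ∈ S ∧ ∀ z ∈ S, ∀ y ∈ S, w * z * y ^ (n + 1) ∈ J}
        add_mem' := by
          rintro a b ⟨ha, ha'⟩ ⟨hb, hb'⟩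
          refine ⟨S.add_mem ha hb, fun z hz y hy => ?_⟩
          rw [add_mul, add_mul]
          exact J.add_mem (ha' z hz y hy) (hb' z hz y hy)
        zero_mem' := ⟨S.zero_mem, fun z _ y _ => by simp⟩
        smul_mem' := by
          rintro c a ⟨ha, ha'⟩
          refine ⟨S.smul_mem c ha, fun z hz y hy => ?_⟩
          rw [smul_mul_assoc, smul_mul_assoc]
          exact J.smul_mem c (ha' z hz y hy) }
    have memL : ∀ w, w ∈ L ↔ w ∈ S ∧ ∀ z ∈ S, ∀ y ∈ S, w * z * y ^ (n + 1) ∈ J := fun w => Iff.rfl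
    let I : Submodule K R :=
      { carrier := {w | w ∈ L ∧ ∀ u ∈ L, ∀ z ∈ S, u * z * w ∈ J}
        add_mem' := by
          rintro a b ⟨ha, ha'⟩ ⟨hb, hb'⟩
          refine ⟨L.add_mem ha hb, fun u hu z hz => ?_⟩
          rw [mul_add]
          exact J.add_mem (ha' u hu z hz) (hb' u hu z hz)
        zero_mem' := ⟨L.zero_mem, fun u _ z _ => by simp⟩
        smul_mem' := by
          rintro c a ⟨ha, ha'⟩
          refine ⟨L.smul_mem c ha, fun u hu z hz => ?_⟩
          rw [mul_smul_comm]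
          exact J.smul_mem c (ha' u hu z hz) }
    have memI : ∀ w, w ∈ I ↔ w ∈ L ∧ ∀ u ∈ L, ∀ z ∈ S, u * z * w ∈ J := fun w => Iff.rfl
    have hLl : ∀ x ∈ S, ∀ y ∈ L, x * y ∈ L := by
      intro s hs w hw
      rw [memL] at hw ⊢
      refine ⟨hmul _ hs _ hw.1, fun z hz y hy => ?_⟩
      have := hlJ _ hs _ (hw.2 z hz y hy)
      simpa [mul_assoc] using this
    have hLr : ∀ x ∈ L, ∀ y ∈ S, x * y ∈ L := by
      intro w hw s hs
      rw [memL] at hw ⊢
      refine ⟨hmul _ hw.1 _ hs, fun z hz y hy => ?_⟩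
      have := hw.2 (s * z) (hmul _ hs _ hz) y hy
      simpa [mul_assoc] using this
    have hIl : ∀ x ∈ S, ∀ y ∈ I, x * y ∈ I := by
      intro s hs w hw
      rw [memI] at hw ⊢
      refine ⟨hLl _ hs _ hw.1, fun u hu z hz => ?_⟩
      have := hw.2 u hu (z * s) (hmul _ hz _ hs)
      simpa [mul_assoc] using this
    have hIr : ∀ x ∈ I, ∀ y ∈ S, x * y ∈ I := by
      intro w hw s hs
      rw [memI] at hw ⊢
      refine ⟨hLr _ hw.1 _ hs, fun u hu z hz => ?_⟩
      have := hrJ _ (hw.2 u hu z hz) _ hs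
      simpa [mul_assoc] using this
    have hpow : ∀ x ∈ S, x ^ (n + 1) ∈ I := by
      intro x hx
      rw [memI]
      refine ⟨?_, fun u hu z hz => ?_⟩
      · rw [memL]
        exact ⟨nh_pow_mem S hmul x hx _ (by omega), fun z hz y hy => key x hx y hy z hz⟩
      · exact ((memL u).mp hu).2 z hz x hx
    have hprod := ih I hIl hIr hpow
    -- cut the list
    set N := 2 ^ (n + 1) - 1 with hN
    have hpos : 1 ≤ 2 ^ (n + 1) := Nat.one_le_two_pow
    have hlen2 : l.length = N + (1 + N) := by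
      rw [hlen, hN, pow_succ]; omega
    have e1 : l = l.take N ++ (l.drop N) := (List.take_append_drop N l).symm
    have hd : (l.drop N).length = 1 + N := by rw [List.length_drop, hlen2]; omega
    obtain ⟨z, l2, hz⟩ : ∃ z l2, l.drop N = z :: l2 := by
      cases hh : l.drop N with
      | nil => rw [hh] at hd; simp at hd; omega
      | cons z l2 => exact ⟨z, l2, rfl⟩
    rw [hz] at e1 hd
    have hl2 : l2.length = N := by simp at hd; omega
    have hl1 : (l.take N).length = N := by rw [List.length_take, hlen2]; omega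
    have hmem1 : ∀ x ∈ l.take N, x ∈ S := fun x hx => hl x (List.mem_of_mem_take hx)
    have hmemd : ∀ x ∈ z :: l2, x ∈ S := fun x hx => hl x (by
      rw [← hz] at hx; exact List.mem_of_mem_drop hx)
    have p1 := hprod _ hmem1 hl1
    have p2 := hprod l2 (fun x hx => hmemd x (List.mem_cons_of_mem _ hx)) hl2
    rw [e1, List.prod_append, List.prod_cons, ← mul_assoc]
    exact ((memI _).mp p2).2 _ ((memI _).mp p1).1 z (hmemd z (by simp))

end

theorem nagata_higman {K R : Type*} [Field K] [CharZero K] [Ring R] [Algebra K R]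
    (S : Submodule K R) (hmul : ∀ x ∈ S, ∀ y ∈ S, x * y ∈ S) (n : ℕ) (hn : 1 ≤ n)
    (h : ∀ x ∈ S, x ^ n = 0) (l : List R) (hl : ∀ x ∈ l, x ∈ S) (hlen : l.length = 2 ^ n - 1) :
    l.prod = 0 := by
  obtain ⟨m, rfl⟩ : ∃ m, n = m + 1 := ⟨n - 1, by omega⟩
  have := nh_rel S hmul m ⊥ (by
    intro x _ y hy; rw [Submodule.mem_bot] at hy ⊢; rw [hy, mul_zero]) (by
    intro x hx y _; rw [Submodule.mem_bot] at hx ⊢; rw [hx, zero_mul]) (by
    intro x hx; rw [Submodule.mem_bot]; exact h x hx) l hl hlen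
  rwa [Submodule.mem_bot] at this

end Pool.Agent.W_MP_868bb7_ag
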