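import Pool.Agent.W_MP_868bb7_ag.Defs

set_option autoImplicit false

/-!
# PermTail: a permutation of `Fin (n + 1)` is its value at `0` and its tail

`tail_spec`: the permutation `(σ 0).cycleRange * σ` fixes `0` (`Fin.cycleRange_self`), so under
`Equiv.Perm.decomposeFin` it is `(0, tail σ)`; use `Fin.cycleRange_succAbove` or
`Fin.cycleRange_symm_succ` (`i.cycleRange.symm j.succ = i.succAbove j`).
-/

namespace Pool.Agent.W_MP_868bb7_ag

/-- a permutation of `Fin n` acting on the positions `1, ..., n` -/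
def shift {n : ℕ} (e : Equiv.Perm (Fin n)) : Equiv.Perm (Fin (n + 1)) :=
  Equiv.Perm.decomposeFin.symm (0, e)

theorem shift_zero {n : ℕ} (e : Equiv.Perm (Fin n)) : shift e 0 = 0 :=
  Equiv.Perm.decomposeFin_symm_apply_zero 0 e

theorem shift_succ {n : ℕ} (e : Equiv.Perm (Fin n)) (i : Fin n) :
    shift e i.succ = (e i).succ := by
  have h := Equiv.Perm.decomposeFin_symm_apply_succ e 0 i
  rw [Equiv.swap_self] at h
  exact h

theorem cyc_mul_zero {n : ℕ} (σ : Equiv.Perm (Fin (n + 1))) :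
    ((σ 0).cycleRange * σ) 0 = 0 := by
  rw [Equiv.Perm.mul_apply, Fin.cycleRange_self]

/-- a permutation fixing `0` is the shift of its second `decomposeFin` component -/
theorem shift_decomposeFin {n : ℕ} (τ : Equiv.Perm (Fin (n + 1))) (h : τ 0 = 0) :
    shift (Equiv.Perm.decomposeFin τ).2 = τ := by
  have h2 : (Equiv.Perm.decomposeFin τ).1 = 0 := by
    have h3 := Equiv.Perm.decomposeFin_symm_apply_zero (Equiv.Perm.decomposeFin τ).1
      (Equiv.Perm.decomposeFin τ).2
    rw [Prod.mk.eta, Equiv.symm_apply_apply] at h3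
    rw [← h3, h]
  unfold shift
  rw [← h2, Prod.mk.eta, Equiv.symm_apply_apply]

theorem shift_tail {n : ℕ} (σ : Equiv.Perm (Fin (n + 1))) :
    shift (tail σ) = (σ 0).cycleRange * σ :=
  shift_decomposeFin _ (cyc_mul_zero σ)

theorem tail_spec {n : ℕ} (σ : Equiv.Perm (Fin (n + 1))) (i : Fin n) :
    σ i.succ = (σ 0).succAbove (tail σ i) := by
  have h := shift_succ (tail σ) i
  rw [shift_tail, Equiv.Perm.mul_apply] at h
  apply (σ 0).cycleRange.injective
  rw [h, Fin.cycleRange_succAbove]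

theorem perm_eq {n : ℕ} (σ : Equiv.Perm (Fin (n + 1))) :
    σ = (σ 0).cycleRange⁻¹ * shift (tail σ) := by
  rw [shift_tail, inv_mul_cancel_left]

/-- a permutation is the same as its value at `0` and its tail -/
theorem perm_ext {n : ℕ} (σ τ : Equiv.Perm (Fin (n + 1))) (h0 : σ 0 = τ 0)
    (ht : tail σ = tail τ) : σ = τ := by
  rw [perm_eq σ, perm_eq τ, h0, ht]

theorem tail_cycleRange_shift {n : ℕ} (p : Fin (n + 1)) (e : Equiv.Perm (Fin n)) :
    (p.cycleRange⁻¹ * shift e) 0 = p ∧ tail (p.cycleRange⁻¹ * shift e) = e := by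
  have h0 : (p.cycleRange⁻¹ * shift e) 0 = p := by
    rw [Equiv.Perm.mul_apply, shift_zero]
    exact Fin.cycleRange_symm_zero p
  refine ⟨h0, ?_⟩
  have h1 := shift_tail (p.cycleRange⁻¹ * shift e)
  rw [h0, mul_inv_cancel_left] at h1
  ext i
  have h2 := congrArg (fun τ => τ i.succ) h1
  simp only [shift_succ] at h2
  exact congrArg Fin.val (Fin.succ_injective n h2)

end Pool.Agent.W_MP_868bb7_ag
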