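import Pool.Agent.W_MP_868bb7_ag.Split

set_option autoImplicit false

/-!
# SplitB: the projections of `M`

* `exists_proj`: `f = (1/2)(1 + s⁻¹ a)`, `f ≫ f - f = (1/4)(s⁻² a ≫ a - 1)` is negligible by `neg_a`,
  nilpotent by `nil_M`; `lift_proj`.
* `tr_proj`: `tr u = (1/2) (tr 𝟙 + s⁻¹ t)` (`tr_a`).
* `proj_compl`: `𝟙 - u` for `-s`.
* `pure_even`, `pure_odd`: `a ≡ s (2u - 1)`, `c ≡ s' (2v - 1)` and `T ≡ t⁻¹ a ⊗ c` modulo negligible
  morphisms (`neg_T`, `Neg_tensor_left`, `Neg_tensor_right`), so `(u ⊗ₘ v) ≫ T ≡ (s s' / t) (u ⊗ₘ v)`,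
  and `T = 2e - 1`, so `(u ⊗ₘ v) ≫ (1 - e)` (resp. `≫ e`) is negligible; `Fd_of_neg` for `w = u ⊗ₘ v`
  (with `e`, resp. with `1 - e` in place of `e` and `b = false`).
-/

namespace Pool.Agent.W_MP_868bb7_ag

open CategoryTheory MonoidalCategory

universe v u w

variable (K : Type w) [Field K] [CharZero K] {C : Type u} [Category.{v} C] [MonoidalCategory C]
  [Preadditive C] [Linear K C] [MonoidalPreadditive C] [MonoidalLinear K C]
  [SymmetricCategory C] [RightRigidCategory C] [UnitK K C]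

namespace Dat

variable {M N : C} (D : Dat M N)

/-- `u` is a projection lifting `(1 + s⁻¹ a) / 2` -/
def IsP (s : K) (u : M ⟶ M) : Prop :=
  u ≫ u = u ∧ Neg K (u - (2 : K)⁻¹ • (𝟙 M + s⁻¹ • D.a))

theorem neg_of_eq68 {X Y : C} {f g : X ⟶ Y} (h : f = g) (hf : Neg K f) : Neg K g := h ▸ hf

theorem exists_proj (s : K) (hs : s ^ 2 = D.la K) : ∃ u : M ⟶ M, D.IsP K s u := by
  have hla := D.la_ne K
  have hs0 : s ≠ 0 := by
    rintro rfl
    apply hla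
    rw [← hs]
    ring
  have h2 : (2 : K) ≠ 0 := two_ne_zero
  have key : ((2 : K)⁻¹ • (𝟙 M + s⁻¹ • D.a)) ≫ ((2 : K)⁻¹ • (𝟙 M + s⁻¹ • D.a)) -
      (2 : K)⁻¹ • (𝟙 M + s⁻¹ • D.a) = ((4 : K)⁻¹ * (s ^ 2)⁻¹) • (D.a ≫ D.a - D.la K • 𝟙 M) := by
    simp only [Linear.smul_comp, Linear.comp_smul, Preadditive.add_comp, Preadditive.comp_add,
      Category.id_comp, Category.comp_id]
    rw [← hs]
    match_scalars <;> field_simp <;> ring
  have hneg := D.neg_a K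
  have h1 : Neg K (((2 : K)⁻¹ • (𝟙 M + s⁻¹ • D.a)) ≫ ((2 : K)⁻¹ • (𝟙 M + s⁻¹ • D.a)) -
      (2 : K)⁻¹ • (𝟙 M + s⁻¹ • D.a)) := by
    rw [key]
    exact Neg_smul K _ _ hneg
  obtain ⟨k, hk⟩ := D.nil_M K _ h1
  exact lift_proj K _ h1 k hk

theorem tr_proj (s : K) (u : M ⟶ M) (hu : D.IsP K s u) :
    tr K u = (2 : K)⁻¹ * (tr K (𝟙 M) + s⁻¹ * D.t K) := by
  have h := hu.2 (𝟙 M)
  rw [Category.comp_id, tr_sub, sub_eq_zero] at h
  rw [h, tr_smul, tr_add, tr_smul, D.tr_a K]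

theorem proj_compl (s : K) (u : M ⟶ M) (hu : D.IsP K s u) : D.IsP K (-s) (𝟙 M - u) := by
  refine ⟨?_, ?_⟩
  · simp only [Preadditive.sub_comp, Preadditive.comp_sub, Category.id_comp, Category.comp_id,
      hu.1]
    abel
  · have h2 : (2 : K) ≠ 0 := two_ne_zero
    have key : (𝟙 M - u) - (2 : K)⁻¹ • (𝟙 M + (-s)⁻¹ • D.a) =
        (-1 : K) • (u - (2 : K)⁻¹ • (𝟙 M + s⁻¹ • D.a)) := by
      rw [inv_neg]
      match_scalars <;> field_simp <;> ring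
    rw [key]
    exact Neg_smul K _ _ hu.2

theorem neg_ua68 (s : K) (hs : s ≠ 0) (u : M ⟶ M) (hu : D.IsP K s u) :
    Neg K (u ≫ D.a - s • u) := by
  have h2 : (2 : K) ≠ 0 := two_ne_zero
  have key : u ≫ D.a - s • u = u ≫ ((-(2 * s)) • (u - (2 : K)⁻¹ • (𝟙 M + s⁻¹ • D.a))) := by
    simp only [Linear.comp_smul, Preadditive.comp_sub, Preadditive.comp_add, Category.comp_id,
      hu.1]
    match_scalars <;> field_simp <;> ring
  rw [key]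
  exact Neg_comp_left K _ _ (Neg_smul K _ _ hu.2)

theorem smul_tensor68 {X X' Y Y' : C} (r : K) (f : X ⟶ X') (g : Y ⟶ Y') :
    (r • f) ⊗ₘ g = r • (f ⊗ₘ g) := by
  rw [MonoidalCategory.tensorHom_def, MonoidalCategory.tensorHom_def,
    MonoidalLinear.smul_whiskerRight, Linear.smul_comp]

theorem tensor_smul68 {X X' Y Y' : C} (r : K) (f : X ⟶ X') (g : Y ⟶ Y') :
    f ⊗ₘ (r • g) = r • (f ⊗ₘ g) := by
  rw [MonoidalCategory.tensorHom_def, MonoidalCategory.tensorHom_def,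
    MonoidalLinear.whiskerLeft_smul, Linear.comp_smul]

theorem sub_tensor68 {X X' Y Y' : C} (f f' : X ⟶ X') (g : Y ⟶ Y') :
    (f - f') ⊗ₘ g = f ⊗ₘ g - f' ⊗ₘ g := by
  rw [eq_sub_iff_add_eq, ← MonoidalPreadditive.add_tensor, sub_add_cancel]

theorem tensor_sub68 {X X' Y Y' : C} (f : X ⟶ X') (g g' : Y ⟶ Y') :
    f ⊗ₘ (g - g') = f ⊗ₘ g - f ⊗ₘ g' := by
  rw [eq_sub_iff_add_eq, ← MonoidalPreadditive.tensor_add, sub_add_cancel]

theorem neg_wT68 (s s' : K) (hs : s ≠ 0) (hs' : s' ≠ 0) (u : M ⟶ M) (v : N ⟶ N)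
    (hu : D.IsP K s u) (hv : D.swap.IsP K s' v) :
    Neg K ((u ⊗ₘ v) ≫ D.T - ((D.t K)⁻¹ * (s * s')) • (u ⊗ₘ v)) := by
  have h1 := D.neg_ua68 K s hs u hu
  have h2 := D.swap.neg_ua68 K s' hs' v hv
  rw [D.swap_a] at h2
  have h3 := Neg_comp_left K (u ⊗ₘ v) _ (D.neg_T K)
  have h4 := Neg_tensor_left K (u ≫ D.a - s • u) (v ≫ D.c) h1
  have h5 := Neg_tensor_right K (s • u) (v ≫ D.c - s' • v) h2
  have h6 := Neg_smul K (D.t K)⁻¹ _ (Neg_add K _ _ h4 h5)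
  have h7 := Neg_add K _ _ h3 h6
  refine neg_of_eq68 K ?_ h7
  rw [Preadditive.comp_sub, Linear.comp_smul, MonoidalCategory.tensorHom_comp_tensorHom,
    sub_tensor68, tensor_sub68, smul_tensor68, smul_tensor68, tensor_smul68 K s']
  match_scalars <;> ring

theorem idem_w68 (s s' : K) (u : M ⟶ M) (v : N ⟶ N)
    (hu : D.IsP K s u) (hv : D.swap.IsP K s' v) : (u ⊗ₘ v) ≫ (u ⊗ₘ v) = u ⊗ₘ v := by
  rw [MonoidalCategory.tensorHom_comp_tensorHom, hu.1, hv.1]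

theorem pure_even (s s' : K) (hs : s ≠ 0) (hs' : s' ≠ 0) (u : M ⟶ M) (v : N ⟶ N)
    (hu : D.IsP K s u) (hv : D.swap.IsP K s' v) (h : s * s' = D.t K) :
    Fd true (u ⊗ₘ v) := by
  have ht := D.t_ne K
  have h1 := D.neg_wT68 K s s' hs hs' u v hu hv
  rw [h, inv_mul_cancel₀ ht, one_smul] at h1
  have h2 : (2 : K) ≠ 0 := two_ne_zero
  have h3 := Neg_smul K (-(2 : K)⁻¹) _ h1
  refine Fd_of_neg K true D.e (u ⊗ₘ v) D.idem (D.idem_w68 K s s' u v hu hv) D.ev D.od ?_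
  refine neg_of_eq68 K ?_ h3
  simp only [Dat.T, Preadditive.comp_sub, Category.comp_id]
  match_scalars <;> field_simp <;> ring

theorem pure_odd (s s' : K) (hs : s ≠ 0) (hs' : s' ≠ 0) (u : M ⟶ M) (v : N ⟶ N)
    (hu : D.IsP K s u) (hv : D.swap.IsP K s' v) (h : s * s' = -D.t K) :
    Fd false (u ⊗ₘ v) := by
  have ht := D.t_ne K
  have h1 := D.neg_wT68 K s s' hs hs' u v hu hv
  rw [h, mul_neg, inv_mul_cancel₀ ht, neg_smul, one_smul, sub_neg_eq_add] at h1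
  have h2 : (2 : K) ≠ 0 := two_ne_zero
  have h3 := Neg_smul K ((2 : K)⁻¹) _ h1
  have hid : (𝟙 (M ⊗ N) - D.e) ≫ (𝟙 (M ⊗ N) - D.e) = 𝟙 (M ⊗ N) - D.e := by
    simp only [Preadditive.sub_comp, Preadditive.comp_sub, Category.id_comp, Category.comp_id,
      D.idem]
    abel
  have hev : Fd (!false) (𝟙 (M ⊗ N) - (𝟙 (M ⊗ N) - D.e)) := by
    rw [sub_sub_cancel]
    exact D.ev
  refine Fd_of_neg K false (𝟙 (M ⊗ N) - D.e) (u ⊗ₘ v) hid (D.idem_w68 K s s' u v hu hv) D.od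
    hev ?_
  refine neg_of_eq68 K ?_ h3
  simp only [Dat.T, Preadditive.comp_sub, Category.comp_id]
  match_scalars <;> field_simp <;> ring

end Dat

end Pool.Agent.W_MP_868bb7_ag
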