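import Pool.Agent.W_MP_868bb7_ag.ObjForm

set_option autoImplicit false

/-!
# ThmA: factors of a non-zero Kimura-finite tensor product are Kimura-finite
-/

namespace Pool.Agent.W_MP_868bb7_ag

open CategoryTheory MonoidalCategory Limits

universe v u w

variable (K : Type w) [Field K] [CharZero K] {C : Type u} [Category.{v} C] [MonoidalCategory C]
  [Preadditive C] [Linear K C] [MonoidalPreadditive C] [MonoidalLinear K C]
  [SymmetricCategory C] [RightRigidCategory C] [UnitK K C]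
  [HasBinaryBiproducts C] [IsIdempotentComplete C]

theorem thmA (M N : C) (h : KimuraFD K (M ⊗ N)) (h0 : ¬ IsZero (M ⊗ N)) :
    KimuraFD K M ∧ KimuraFD K N := by
  obtain ⟨e, he, h1, h2⟩ := idem_of_kimura K h
  have hne : 𝟙 (M ⊗ N) ≠ 0 := fun h3 => h0 ((IsZero.iff_id_eq_zero _).mpr h3)
  let D : Dat M N := ⟨e, he, h1, h2, hne⟩
  obtain ⟨u, hu, hu1, hu2⟩ := D.main K
  obtain ⟨v, hv, hv1, hv2⟩ := D.swap.main K
  exact ⟨kimura_of_idem K u hu hu1 hu2, kimura_of_idem K v hv hv1 hv2⟩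

end Pool.Agent.W_MP_868bb7_ag
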