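import Pool.Agent.W_MP_868bb7_ag.ThmA
import Pool.Agent.W_MP_868bb7_ag.KimTensor
import Pool.Agent.W_MP_868bb7_ag.KimRetract
import Pool.Agent.W_MP_868bb7_ag.SymId

set_option autoImplicit false

/-!
# ThmB: symmetric and exterior powers

`Img b X n S`: the object `S` is the image of the (anti)symmetrizer of `X^{⊗ n}`, i.e. `S ≅ Sym^n X`
(`b = false`) or `S ≅ Λ^n X` (`b = true`).
-/

namespace Pool.Agent.W_MP_868bb7_ag

open CategoryTheory MonoidalCategory Limits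

universe v u w

variable (K : Type w) [Field K] [CharZero K] {C : Type u} [Category.{v} C] [MonoidalCategory C]
  [Preadditive C] [Linear K C] [MonoidalPreadditive C] [MonoidalLinear K C]
  [SymmetricCategory C] [RightRigidCategory C] [UnitK K C]

/-- `S` is the image of the idempotent `(1/n!) E b X n` -/
def Img (b : Bool) (X : C) (n : ℕ) (S : C) : Prop :=
  ∃ (i : S ⟶ pow X n) (p : pow X n ⟶ S), i ≫ p = 𝟙 S ∧
    p ≫ i = ((n.factorial : K)⁻¹) • E b X n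

omit [CharZero K] [MonoidalCategory C] [MonoidalPreadditive C] [MonoidalLinear K C]
  [SymmetricCategory C] [RightRigidCategory C] [UnitK K C] in
/-- scalar bookkeeping for `sym_retract` -/
theorem ThmB_core {Y Z : C} (j : Y ⟶ Z) (q : Z ⟶ Y) (F W L : Z ⟶ Z) (f n g s t c d : K)
    (h1 : j ≫ q = 𝟙 Y) (h2 : q ≫ j = f⁻¹ • F) (hf : f ≠ 0) (hn : n ≠ 0)
    (h3 : n • (F ≫ L ≫ F) = (g * f) • (s • F + t • W)) (h4 : W ≫ F = f • W)
    (h6 : W ≫ W = c • W) (hs : s ≠ 0) (hdg : d * g ≠ 0)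
    (hx : d * g * s / n + d * g * t / (n * f) * c = 1) :
    ∃ r : Y ⟶ Y, (d • (j ≫ L ≫ q)) ≫ r = 𝟙 Y := by
  have hjF : j ≫ F = f • j := by
    have h5 : j ≫ (q ≫ j) = j := by rw [← Category.assoc, h1, Category.id_comp]
    rw [h2, Linear.comp_smul] at h5
    calc j ≫ F = f • (f⁻¹ • (j ≫ F)) := by rw [smul_smul, mul_inv_cancel₀ hf, one_smul]
      _ = f • j := by rw [h5]
  have hFq : F ≫ q = f • q := by
    have h5 : (q ≫ j) ≫ q = q := by rw [Category.assoc, h1, Category.comp_id]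
    rw [h2, Linear.smul_comp] at h5
    calc F ≫ q = f • (f⁻¹ • (F ≫ q)) := by rw [smul_smul, mul_inv_cancel₀ hf, one_smul]
      _ = f • q := by rw [h5]
  set ω : Y ⟶ Y := j ≫ W ≫ q with hω
  have hωω : ω ≫ ω = c • ω := by
    have h5 : ω ≫ ω = j ≫ W ≫ (q ≫ j) ≫ W ≫ q := by
      simp only [hω, Category.assoc]
    rw [h5, h2, Linear.smul_comp, Linear.comp_smul, ← Category.assoc W F, h4]
    simp only [Linear.smul_comp, Linear.comp_smul, smul_smul]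
    rw [inv_mul_cancel₀ hf, one_smul, ← Category.assoc W W, h6]
    simp only [Linear.smul_comp, Linear.comp_smul, hω]
  have hL : j ≫ L ≫ q = (g * s / n) • 𝟙 Y + (g * t / (n * f)) • ω := by
    have h5 : j ≫ (F ≫ L ≫ F) ≫ q = (f * f) • (j ≫ L ≫ q) := by
      rw [Category.assoc, Category.assoc, hFq, ← Category.assoc j F, hjF]
      simp only [Linear.smul_comp, Linear.comp_smul, smul_smul]
    have h7 : j ≫ F ≫ q = f • 𝟙 Y := by
      rw [hFq, Linear.comp_smul, h1]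
    have h8 : j ≫ (n • (F ≫ L ≫ F)) ≫ q
        = (g * f) • (s • (f • 𝟙 Y) + t • ω) := by
      rw [h3]
      simp only [Linear.smul_comp, Linear.comp_smul, Preadditive.add_comp, Preadditive.comp_add,
        h7, hω]
    rw [Linear.smul_comp, Linear.comp_smul, h5, smul_smul] at h8
    have hne : n * (f * f) ≠ 0 := mul_ne_zero hn (mul_ne_zero hf hf)
    refine smul_right_injective (Y ⟶ Y) hne ?_
    simp only
    rw [h8]
    simp only [smul_add, smul_smul]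
    congr 2
    · field_simp
    · field_simp
  set x : K := d * g * s / n with hxdef
  set y : K := d * g * t / (n * f) with hydef
  have hx0 : x ≠ 0 := div_ne_zero (mul_ne_zero hdg hs) hn
  have hA : d • (j ≫ L ≫ q) = x • 𝟙 Y + y • ω := by
    rw [hL]
    simp only [smul_add, smul_smul]
    congr 2
    · rw [hxdef]; ring
    · rw [hydef]; ring
  refine ⟨x⁻¹ • 𝟙 Y - (x⁻¹ * y) • ω, ?_⟩
  rw [hA]
  simp only [Preadditive.add_comp, Preadditive.comp_sub, Linear.smul_comp, Linear.comp_smul,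
    Category.id_comp, Category.comp_id, hωω, smul_smul, smul_add]
  rw [inv_mul_cancel₀ hx0, one_smul]
  have h10 : 𝟙 Y + (x⁻¹ * y) • ω - ((x⁻¹ * y * x) • ω + (x⁻¹ * y * (y * c)) • ω)
      = 𝟙 Y + (x⁻¹ * y - (x⁻¹ * y * x + x⁻¹ * y * (y * c))) • ω := by
    rw [sub_smul, add_smul]
    abel
  have h11 : x⁻¹ * y - (x⁻¹ * y * x + x⁻¹ * y * (y * c)) = 0 := by
    have h12 : y * c = 1 - x := by linear_combination hx
    rw [h12]
    ring
  rw [h10, h11, zero_smul, add_zero]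

theorem ThmB_E_proj (b : Bool) (X : C) (n : ℕ) (S : C) (i : S ⟶ pow X n) (p : pow X n ⟶ S)
    (h1 : i ≫ p = 𝟙 S) (h2 : p ≫ i = ((n.factorial : K)⁻¹) • E b X n) :
    E b X n ≫ p = (n.factorial : K) • p := by
  have hn : (n.factorial : K) ≠ 0 := by exact_mod_cast n.factorial_ne_zero
  have h5 : (p ≫ i) ≫ p = p := by rw [Category.assoc, h1, Category.comp_id]
  rw [h2, Linear.smul_comp] at h5
  calc E b X n ≫ p = (n.factorial : K) • ((n.factorial : K)⁻¹ • (E b X n ≫ p)) := by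
        rw [smul_smul, mul_inv_cancel₀ hn, one_smul]
    _ = (n.factorial : K) • p := by rw [h5]

theorem ThmB_wT_proj (b : Bool) (X : C) (m a : ℕ) (S : C) (i : S ⟶ pow X (m + a))
    (p : pow X (m + a) ⟶ S) (h1 : i ≫ p = 𝟙 S)
    (h2 : p ≫ i = (((m + a).factorial : K)⁻¹) • E b X (m + a)) :
    wT X (E b X m) a ≫ p = (m.factorial : K) • p := by
  have hn : ((m + a).factorial : K) ≠ 0 := by exact_mod_cast (m + a).factorial_ne_zero
  have h3 := ThmB_E_proj K b X (m + a) S i p h1 h2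
  have h4 := congrArg (fun t => t ≫ p) (wT_E K b X m a)
  simp only [Category.assoc] at h4
  rw [h3, ← Int.cast_smul_eq_zsmul K, Linear.smul_comp, h3, Linear.comp_smul, smul_comm] at h4
  have h5 := smul_right_injective _ hn h4
  simpa using h5

theorem ThmB_J (b : Bool) (X : C) (m a : ℕ) :
    (J X (a + 1) m).inv ≫ (E b X (a + 1) ⊗ₘ E b X m) ≫ (J X (a + 1) m).hom
      = EL b X m (a + 1) ≫ wT X (E b X m) (a + 1) := by
  rw [MonoidalCategory.tensorHom_def, Category.assoc, wT_J,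
    ← Category.assoc (E b X (a + 1) ▷ pow X m), E_J, Category.assoc, Iso.inv_hom_id_assoc]

theorem ThmB_key {S1 S2 Y Z P Q : C} (j : Y ⟶ Z) (q : Z ⟶ Y) (Ji : Z ⟶ P ⊗ Q) (Jh : P ⊗ Q ⟶ Z)
    (p1 : P ⟶ S1) (i1 : S1 ⟶ P) (p2 : Q ⟶ S2) (i2 : S2 ⟶ Q) (E1 : P ⟶ P) (E2 : Q ⟶ Q)
    (L w : Z ⟶ Z) (a1 a2 c : K) (h1 : p1 ≫ i1 = a1 • E1) (h2 : p2 ≫ i2 = a2 • E2)
    (hJ : Ji ≫ (E1 ⊗ₘ E2) ≫ Jh = L ≫ w) (hw : w ≫ q = c • q) :
    (j ≫ Ji ≫ (p1 ⊗ₘ p2)) ≫ ((i1 ⊗ₘ i2) ≫ Jh ≫ q) = (a1 * a2 * c) • (j ≫ L ≫ q) := by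
  have e1 : (p1 ⊗ₘ p2) ≫ (i1 ⊗ₘ i2) = (a1 * a2) • (E1 ⊗ₘ E2) := by
    rw [MonoidalCategory.tensorHom_comp_tensorHom, h1, h2]
    simp only [MonoidalCategory.tensorHom_def, MonoidalLinear.smul_whiskerRight,
      MonoidalLinear.whiskerLeft_smul, Linear.smul_comp, Linear.comp_smul, smul_smul]
    rw [mul_comm]
  calc _ = j ≫ Ji ≫ ((p1 ⊗ₘ p2) ≫ (i1 ⊗ₘ i2)) ≫ Jh ≫ q := by simp only [Category.assoc]
    _ = (a1 * a2) • (j ≫ (Ji ≫ (E1 ⊗ₘ E2) ≫ Jh) ≫ q) := by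
        rw [e1]
        simp only [Linear.smul_comp, Linear.comp_smul, Category.assoc]
    _ = _ := by
        rw [hJ, Category.assoc, hw, Linear.comp_smul, Linear.comp_smul, smul_smul]

/-- `X ⊗ S^(m+a) X` is a retract of `S^(a+1) X ⊗ S^m X` for `m ≥ 1`.

Let `n1 = m + a`, `i1 p1` for `S1` (`a + 1`), `i2 p2` for `S2` (`m`), `i3 p3` for `S3` (`m + a`).
Maps: `I = X ◁ i3 ≫ (J X (a+1) m).inv ≫ (p1 ⊗ₘ p2)`, `R = (i1 ⊗ₘ i2) ≫ (J X (a+1) m).hom ≫ X ◁ p3`.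
`I ≫ R = ((a+1)! m!)⁻¹ • X ◁ i3 ≫ EL b X m (a+1) ≫ wT X (E b X m) (a+1) ≫ X ◁ p3` (`E_J`, `wT_J`,
`tensorHom_def`).  Insert `p3 = n1!⁻¹ • E b X n1 ≫ p3`, `i3 = n1!⁻¹ • i3 ≫ E b X n1`; `wT_E` and `sym_id` give
`I ≫ R = α • 𝟙 + β • ω`, where `ω = X ◁ i3 ≫ ((n1+1)!⁻¹ • E b X (n1+1)) ≫ X ◁ p3` is idempotent
(`E_whisker`, `whisker_E`, `E_E`) and `α = m / ((a+1) n1)`, `β = a (n1+1) / ((a+1) n1)`, `α + β = 1`, `α ≠ 0`.  The inverse of
`α • 𝟙 + β • ω` is `α⁻¹ • (𝟙 - ω) + ω`. -/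
theorem sym_retract (b : Bool) (X : C) (m a : ℕ) (hm : 1 ≤ m) (S1 S2 S3 : C)
    (h1 : Img K b X (a + 1) S1) (h2 : Img K b X m S2) (h3 : Img K b X (m + a) S3) :
    ∃ (i : X ⊗ S3 ⟶ S1 ⊗ S2) (r : S1 ⊗ S2 ⟶ X ⊗ S3), i ≫ r = 𝟙 (X ⊗ S3) := by
  obtain ⟨i1, p1, hi1, hp1⟩ := h1
  obtain ⟨i2, p2, hi2, hp2⟩ := h2
  obtain ⟨i3, p3, hi3, hp3⟩ := h3
  have hf : ((m + a).factorial : K) ≠ 0 := by exact_mod_cast (m + a).factorial_ne_zero
  have ha : (a.factorial : K) ≠ 0 := by exact_mod_cast a.factorial_ne_zero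
  have hmf : (m.factorial : K) ≠ 0 := by exact_mod_cast m.factorial_ne_zero
  have ha1 : ((a + 1).factorial : K) ≠ 0 := by exact_mod_cast (a + 1).factorial_ne_zero
  have hn : ((m + a : ℕ) : K) ≠ 0 := by exact_mod_cast (by omega : m + a ≠ 0)
  have hm0 : (m : K) ≠ 0 := by exact_mod_cast (by omega : m ≠ 0)
  let W : X ⊗ pow X (m + a) ⟶ X ⊗ pow X (m + a) := E b X (m + a + 1)
  let L : X ⊗ pow X (m + a) ⟶ X ⊗ pow X (m + a) := EL b X m (a + 1)
  have k1 : X ◁ i3 ≫ X ◁ p3 = 𝟙 (X ⊗ S3) := by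
    rw [← MonoidalCategory.whiskerLeft_comp, hi3, MonoidalCategory.whiskerLeft_id]
  have k2 : X ◁ p3 ≫ X ◁ i3 = ((m + a).factorial : K)⁻¹ • X ◁ E b X (m + a) := by
    rw [← MonoidalCategory.whiskerLeft_comp, hp3, MonoidalLinear.whiskerLeft_smul]
  have k3 : ((m + a : ℕ) : K) • (X ◁ E b X (m + a) ≫ L ≫ X ◁ E b X (m + a))
      = ((a.factorial : K) * ((m + a).factorial : K)) •
        ((m : K) • X ◁ E b X (m + a) + (a : K) • W) := by
    have h := sym_id K b X m a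
    simp only [← Int.cast_smul_eq_zsmul K] at h
    push_cast at h ⊢
    exact h
  have k4 : W ≫ X ◁ E b X (m + a) = ((m + a).factorial : K) • W := by
    have h := E_whisker b X (m + a)
    rw [← Int.cast_smul_eq_zsmul K] at h
    push_cast at h
    exact h
  have k6 : W ≫ W = ((m + a + 1).factorial : K) • W := by
    have h := E_E b X (m + a + 1)
    rw [← Int.cast_smul_eq_zsmul K] at h
    push_cast at h
    exact h
  have hx : ((a + 1).factorial : K)⁻¹ * (a.factorial : K) * (m : K) / ((m + a : ℕ) : K)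
      + ((a + 1).factorial : K)⁻¹ * (a.factorial : K) * (a : K) /
        (((m + a : ℕ) : K) * ((m + a).factorial : K)) * ((m + a + 1).factorial : K) = 1 := by
    have e1 : ((a + 1).factorial : K) = ((a : K) + 1) * (a.factorial : K) := by
      rw [Nat.factorial_succ]; push_cast; ring
    have e2 : ((m + a + 1).factorial : K) = ((m : K) + a + 1) * ((m + a).factorial : K) := by
      rw [Nat.factorial_succ]; push_cast; ring
    have e3 : (a : K) + 1 ≠ 0 := by exact_mod_cast (by omega : a + 1 ≠ 0)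
    have e4 : (m : K) + a ≠ 0 := by exact_mod_cast (by omega : m + a ≠ 0)
    rw [e1, e2]
    push_cast
    field_simp
    ring
  obtain ⟨r, hr⟩ := ThmB_core K (X ◁ i3) (X ◁ p3) (X ◁ E b X (m + a)) W L
    ((m + a).factorial : K) ((m + a : ℕ) : K) (a.factorial : K) (m : K) (a : K)
    ((m + a + 1).factorial : K) (((a + 1).factorial : K)⁻¹) k1 k2 hf hn k3 k4 k6 hm0
    (mul_ne_zero (inv_ne_zero ha1) ha) hx
  have key : ((X ◁ i3 : X ⊗ S3 ⟶ pow X (m + (a + 1))) ≫ (J X (a + 1) m).inv ≫ (p1 ⊗ₘ p2)) ≫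
      ((i1 ⊗ₘ i2) ≫ (J X (a + 1) m).hom ≫ (X ◁ p3 : pow X (m + (a + 1)) ⟶ X ⊗ S3))
      = ((a + 1).factorial : K)⁻¹ • (X ◁ i3 ≫ L ≫ X ◁ p3) := by
    have e3 : X ◁ wT X (E b X m) a ≫ X ◁ p3 = (m.factorial : K) • X ◁ p3 := by
      rw [← MonoidalCategory.whiskerLeft_comp, ThmB_wT_proj K b X m a S3 i3 p3 hi3 hp3,
        MonoidalLinear.whiskerLeft_smul]
    have e4 := ThmB_key K (S1 := S1) (S2 := S2) (Y := X ⊗ S3) (Z := pow X (m + (a + 1)))
      (P := pow X (a + 1)) (Q := pow X m) (X ◁ i3) (X ◁ p3) (J X (a + 1) m).inv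
      (J X (a + 1) m).hom p1 i1 p2 i2 (E b X (a + 1)) (E b X m) (EL b X m (a + 1))
      (wT X (E b X m) (a + 1)) _ _ (m.factorial : K) hp1 hp2 (ThmB_J b X m a) e3
    rw [mul_assoc, inv_mul_cancel₀ hmf, mul_one] at e4
    exact e4
  refine ⟨(X ◁ i3 : X ⊗ S3 ⟶ pow X (m + (a + 1))) ≫ (J X (a + 1) m).inv ≫ (p1 ⊗ₘ p2),
    ((i1 ⊗ₘ i2) ≫ (J X (a + 1) m).hom ≫ (X ◁ p3 : pow X (m + (a + 1)) ⟶ X ⊗ S3)) ≫ r, ?_⟩
  rw [← Category.assoc, key, hr]

/-- `(1/n!) E b X n` is idempotent (`E_E`) -/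
theorem exists_img [IsIdempotentComplete C] (b : Bool) (X : C) (n : ℕ) :
    ∃ S : C, Img K b X n S := by
  have hn : (n.factorial : K) ≠ 0 := by exact_mod_cast n.factorial_ne_zero
  have h : (((n.factorial : K)⁻¹) • E b X n) ≫ (((n.factorial : K)⁻¹) • E b X n)
      = ((n.factorial : K)⁻¹) • E b X n := by
    rw [Linear.smul_comp, Linear.comp_smul, E_E, ← Int.cast_smul_eq_zsmul K, smul_smul, smul_smul]
    congr 1
    push_cast
    field_simp
  obtain ⟨S, i, p, h1, h2⟩ := IsIdempotentComplete.idempotents_split (pow X n) _ h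
  exact ⟨S, i, p, h1, h2⟩

/-- If `X ⊗ S3 = 0` then `X ◁ E b X (m+a) = 0`, hence `E b X (m+a+1) = 0` (`whisker_E`). -/
theorem Fd_of_img_zero (b : Bool) (X : C) (n : ℕ) (S : C) (h : Img K b X n S)
    (h0 : IsZero (X ⊗ S)) : Fd b (𝟙 X) := by
  obtain ⟨i, p, hip, hpi⟩ := h
  have hn : (n.factorial : K) ≠ 0 := by exact_mod_cast n.factorial_ne_zero
  have h1 : X ◁ E b X n = 0 := by
    have h2 : X ◁ (p ≫ i) = 0 := by
      rw [MonoidalCategory.whiskerLeft_comp, h0.eq_of_tgt (X ◁ p) 0, zero_comp]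
    rw [hpi, MonoidalLinear.whiskerLeft_smul] at h2
    exact (smul_eq_zero.1 h2).resolve_left (inv_ne_zero hn)
  refine ⟨n + 1, by omega, ?_⟩
  rw [powMap_id, Category.id_comp]
  have h3 : (n.factorial : ℤ) • E b X (n + 1) = 0 := by
    refine (whisker_E b X n).symm.trans ?_
    rw [h1]
    exact zero_comp
  rw [← Int.cast_smul_eq_zsmul K] at h3
  exact (smul_eq_zero.1 h3).resolve_left (by push_cast; exact hn)

variable [HasBinaryBiproducts C] [IsIdempotentComplete C]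

/-- if `Sym^n M` or `Λ^n M` is Kimura-finite for some `n ≥ 1`, then so is `M` -/
theorem thmB (b : Bool) (M : C) (n : ℕ) (hn : 1 ≤ n) (S : C) (hS : Img K b M n S)
    (h : KimuraFD K S) : KimuraFD K M := by
  obtain ⟨a, rfl⟩ : ∃ a, n = a + 1 := ⟨n - 1, by omega⟩
  obtain ⟨Q, hQ⟩ := exists_img K b M (a + 1 + a)
  obtain ⟨i, r, hir⟩ := sym_retract K b M (a + 1) a (by omega) S S Q hS hS hQ
  have h1 : KimuraFD K (M ⊗ Q) := kimura_retract K (kimura_tensor K S S h h) i r hir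
  by_cases h0 : IsZero (M ⊗ Q)
  · have h2 := Fd_of_img_zero K b M (a + 1 + a) Q hQ h0
    cases b
    · exact kimura_odd K M h2
    · exact kimura_even K M h2
  · exact (thmA K M Q h1 h0).1

/-- conversely the powers of a Kimura-finite object are Kimura-finite -/
theorem kimura_img (b : Bool) (M : C) (n : ℕ) (S : C) (hS : Img K b M n S)
    (h : KimuraFD K M) : KimuraFD K S := by
  obtain ⟨i, p, hip, -⟩ := hS
  exact kimura_retract K (kimura_pow K M h n) i p hip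

end Pool.Agent.W_MP_868bb7_ag
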