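import Pool.Agent.W_MP_868bb7_ag.Defs

set_option autoImplicit false

/-!
# TraceA: the partial trace `ptr`, first properties

`ptr X F` closes the second factor `X` of `F : A ⊗ X ⟶ B ⊗ X` with
`η_ X Xᘁ : 𝟙 ⟶ X ⊗ Xᘁ` and `cap X = β ≫ ε : X ⊗ Xᘁ ⟶ 𝟙`.

* `ptr_nat_left`, `ptr_nat_right`: unfold, naturality of the associators and whisker exchange.
* `ptr_slide`: with `u : Y ⟶ X` and its mate `uᘁ : Xᘁ ⟶ Yᘁ` one has
  `coevaluation_comp_rightAdjointMate : η_ Y Yᘁ ≫ Y ◁ uᘁ... = η_ X Xᘁ ≫ u ▷ Xᘁ`-type identities of Mathlib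
  (`coevaluation_comp_rightAdjointMate`, `rightAdjointMate_comp_evaluation`), and
  `u ▷ Xᘁ ≫ cap X = Y ◁ uᘁ ≫ cap Y` by naturality of the braiding (`cap_slide`).
* `ptr_whisker` (superposing): the extra factor `Z` on the left is not touched, pure coherence.
* `ptr_braid` (yanking): `ptr X (β_ X X).hom = 𝟙 X`: by the hexagon identities and naturality,
  `(β_ X X) ▷ Xᘁ` followed by `cap` on the last two factors is the braiding of `X` past `X ⊗ Xᘁ`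
  followed by `cap` on the first two, and the zigzag identity of the pairing gives the identity
  (alternatively: use that `(Xᘁ, X)` with `cap`, see `BraidedCategory.exactPairing_swap`, is an exact
  pairing).
* `ptr_unit`: closing the unit object does nothing (use `ptr_slide`/naturality or the formula for the
  pairing of the unit: the dual of `𝟙_ C` in `RightRigidCategory` need not be `𝟙_ C`; use the
  isomorphism `rightDualIso` with the pairing `exactPairingUnit`, or: any `F` equals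
  `(ρ_ A).hom ≫ g ≫ (ρ_ B).inv`, so that `ptr F = g ≫ ptr (𝟙)` by naturality, and
  `ptr (𝟙_ C) (𝟙 (B ⊗ 𝟙_ C)) = 𝟙 B` because `trU (𝟙 (𝟙_ C)) = 𝟙`, which follows from yanking:
  `(β_ (𝟙_ C) (𝟙_ C)).hom = 𝟙`).
* `ptr_rsw` (right superposing): the extra factor `Z` sits between `A` and `X`.
-/

namespace Pool.Agent.W_MP_868bb7_ag

open CategoryTheory MonoidalCategory

universe v u

variable {C : Type u} [Category.{v} C] [MonoidalCategory C] [SymmetricCategory C]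

/-- `(A ⊗ Z) ⊗ X ⟶ (A ⊗ X) ⊗ Z` -/
def rsw (A Z X : C) : (A ⊗ Z) ⊗ X ⟶ (A ⊗ X) ⊗ Z :=
  (α_ A Z X).hom ≫ A ◁ (β_ Z X).hom ≫ (α_ A X Z).inv

theorem rsw_rsw (A Z X : C) : rsw A Z X ≫ rsw A X Z = 𝟙 _ := by
  simp only [rsw, Category.assoc, Iso.inv_hom_id_assoc]
  rw [← MonoidalCategory.whiskerLeft_comp_assoc, SymmetricCategory.symmetry]
  simp

variable [RightRigidCategory C]

theorem ptr_nat_left {X A A' B : C} (f : A' ⟶ A) (F : A ⊗ X ⟶ B ⊗ X) :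
    ptr X (f ▷ X ≫ F) = f ≫ ptr X F := by
  unfold ptr
  rw [comp_whiskerRight, Category.assoc, ← associator_inv_naturality_left_assoc,
    whisker_exchange_assoc, ← rightUnitor_inv_naturality_assoc]

theorem ptr_nat_right {X A B B' : C} (F : A ⊗ X ⟶ B ⊗ X) (g : B ⟶ B') :
    ptr X (F ≫ g ▷ X) = ptr X F ≫ g := by
  unfold ptr
  simp only [comp_whiskerRight, Category.assoc]
  rw [associator_naturality_left_assoc, ← whisker_exchange_assoc, rightUnitor_naturality]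

theorem cap_slide {X Y : C} (u : Y ⟶ X) : u ▷ Xᘁ ≫ cap X = Y ◁ uᘁ ≫ cap Y := by
  unfold cap
  rw [BraidedCategory.braiding_naturality_left_assoc,
    BraidedCategory.braiding_naturality_right_assoc, rightAdjointMate_comp_evaluation]

theorem ptr_slide {X Y A B : C} (F : A ⊗ X ⟶ B ⊗ Y) (u : Y ⟶ X) :
    ptr X (F ≫ B ◁ u) = ptr Y (A ◁ u ≫ F) := by
  have h1 : A ◁ η_ X Xᘁ ≫ (α_ A X Xᘁ).inv ≫ (A ⊗ X) ◁ uᘁ
      = A ◁ η_ Y Yᘁ ≫ (α_ A Y Yᘁ).inv ≫ (A ◁ u) ▷ Yᘁ := by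
    rw [← associator_inv_naturality_right, ← associator_inv_naturality_middle,
      ← MonoidalCategory.whiskerLeft_comp_assoc, ← MonoidalCategory.whiskerLeft_comp_assoc,
      coevaluation_comp_rightAdjointMate]
  unfold ptr
  simp only [comp_whiskerRight, Category.assoc]
  rw [associator_naturality_middle_assoc, ← MonoidalCategory.whiskerLeft_comp_assoc, cap_slide,
    MonoidalCategory.whiskerLeft_comp_assoc, ← associator_naturality_right_assoc,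
    ← whisker_exchange_assoc]
  have h2 := congrArg (fun t => (ρ_ A).inv ≫ t ≫ F ▷ Yᘁ ≫ (α_ B Y Yᘁ).hom ≫ B ◁ cap Y ≫
    (ρ_ B).hom) h1
  simpa only [Category.assoc] using h2

theorem ptr_whisker {X A B : C} (Z : C) (F : A ⊗ X ⟶ B ⊗ X) :
    ptr X ((α_ Z A X).hom ≫ Z ◁ F ≫ (α_ Z B X).inv) = Z ◁ ptr X F := by
  unfold ptr
  monoidal

theorem ptr_braid (X : C) : ptr X (β_ X X).hom = 𝟙 X := by
  unfold ptr cap
  rw [MonoidalCategory.whiskerLeft_comp, Category.assoc]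
  have h := BraidedCategory.hexagon_forward X X Xᘁ
  have h2 : (β_ X X).hom ▷ Xᘁ ≫ (α_ X X Xᘁ).hom ≫ X ◁ (β_ X Xᘁ).hom ≫ X ◁ ε_ X Xᘁ ≫ (ρ_ X).hom
      = (α_ X X Xᘁ).hom ≫ (β_ X (X ⊗ Xᘁ)).hom ≫ (α_ X Xᘁ X).hom ≫ X ◁ ε_ X Xᘁ ≫ (ρ_ X).hom := by
    have := congrArg (fun t => t ≫ X ◁ ε_ X Xᘁ ≫ (ρ_ X).hom) h
    simpa only [Category.assoc] using this.symm
  rw [h2, Iso.inv_hom_id_assoc, BraidedCategory.braiding_naturality_right_assoc]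
  simp

theorem ptr_one (X B : C) :
    ptr X (𝟙 (B ⊗ X)) = (ρ_ B).inv ≫ B ◁ (η_ X Xᘁ ≫ cap X) ≫ (ρ_ B).hom := by
  unfold ptr
  rw [id_whiskerRight, Category.id_comp, Iso.inv_hom_id_assoc,
    ← MonoidalCategory.whiskerLeft_comp_assoc]

theorem ptr_unit {A B : C} (F : A ⊗ 𝟙_ C ⟶ B ⊗ 𝟙_ C) :
    ptr (𝟙_ C) F = (ρ_ A).inv ≫ F ≫ (ρ_ B).hom := by
  have h1 : F = ((ρ_ A).inv ≫ F ≫ (ρ_ B).hom) ▷ (𝟙_ C) ≫ 𝟙 (B ⊗ 𝟙_ C) := by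
    rw [whiskerRight_id]
    simp
  conv_lhs => rw [h1]
  rw [ptr_nat_left]
  have hb : (β_ (𝟙_ C) (𝟙_ C)).hom = 𝟙 _ := by
    rw [braiding_tensorUnit_left, unitors_equal, Iso.hom_inv_id]
  have h3 := ptr_braid (𝟙_ C)
  rw [hb, ptr_one] at h3
  have h2 : ptr (𝟙_ C) (𝟙 (B ⊗ 𝟙_ C)) = 𝟙 B := by
    rw [ptr_one]
    rw [id_whiskerLeft, unitors_equal, unitors_inv_equal] at h3
    simp only [Category.assoc, Iso.inv_hom_id, Category.comp_id, Iso.inv_hom_id_assoc] at h3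
    rw [h3]
    simp
  rw [h2, Category.comp_id]

omit [RightRigidCategory C] in
/-- the braiding past a tensor product -/
theorem hex (Z X Y : C) : (β_ Z X).hom ▷ Y = (α_ Z X Y).hom ≫ (β_ Z (X ⊗ Y)).hom ≫
    (α_ X Y Z).hom ≫ X ◁ (β_ Z Y).inv ≫ (α_ X Z Y).inv := by
  have h := BraidedCategory.hexagon_forward Z X Y
  have h2 : (α_ Z X Y).hom ≫ (β_ Z (X ⊗ Y)).hom ≫ (α_ X Y Z).hom ≫ X ◁ (β_ Z Y).inv ≫
      (α_ X Z Y).inv = ((α_ Z X Y).hom ≫ (β_ Z (X ⊗ Y)).hom ≫ (α_ X Y Z).hom) ≫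
      X ◁ (β_ Z Y).inv ≫ (α_ X Z Y).inv := by
    simp only [Category.assoc]
  rw [h2, h]
  simp

omit [RightRigidCategory C] in
theorem hex' (Z X Y : C) : (β_ X Z).hom ▷ Y = (α_ X Z Y).hom ≫ X ◁ (β_ Z Y).hom ≫
    (α_ X Y Z).inv ≫ (β_ Z (X ⊗ Y)).inv ≫ (α_ Z X Y).inv := by
  rw [← cancel_epi ((β_ Z X).hom ▷ Y), ← comp_whiskerRight, SymmetricCategory.symmetry,
    id_whiskerRight, hex Z X Y]
  simp

theorem slideR (X Z : C) : (ρ_ Z).inv ≫ Z ◁ η_ X Xᘁ ≫ (α_ Z X Xᘁ).inv ≫ (β_ Z X).hom ▷ Xᘁ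
    = (λ_ Z).inv ≫ η_ X Xᘁ ▷ Z ≫ (α_ X Xᘁ Z).hom ≫ X ◁ (β_ Z Xᘁ).inv ≫ (α_ X Z Xᘁ).inv := by
  rw [hex, Iso.inv_hom_id_assoc, BraidedCategory.braiding_naturality_right_assoc]
  simp

theorem slideL (X Z : C) : (β_ X Z).hom ▷ Xᘁ ≫ (α_ Z X Xᘁ).hom ≫ Z ◁ cap X ≫ (ρ_ Z).hom
    = (α_ X Z Xᘁ).hom ≫ X ◁ (β_ Z Xᘁ).hom ≫ (α_ X Xᘁ Z).inv ≫ cap X ▷ Z ≫ (λ_ Z).hom := by
  rw [hex']
  simp only [Category.assoc, Iso.inv_hom_id_assoc]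
  have : (β_ Z (X ⊗ Xᘁ)).inv ≫ Z ◁ cap X ≫ (ρ_ Z).hom = cap X ▷ Z ≫ (λ_ Z).hom := by
    rw [Iso.inv_comp_eq, ← BraidedCategory.braiding_naturality_right_assoc]
    simp
  rw [this]

theorem ptr_rsw {X A B : C} (Z : C) (F : A ⊗ X ⟶ B ⊗ X) :
    ptr X (rsw A Z X ≫ F ▷ Z ≫ rsw B X Z) = ptr X F ▷ Z := by
  have e1 : (ρ_ (A ⊗ Z)).inv ≫ (A ⊗ Z) ◁ η_ X Xᘁ ≫ (α_ (A ⊗ Z) X Xᘁ).inv ≫ rsw A Z X ▷ Xᘁ
      = A ◁ ((ρ_ Z).inv ≫ Z ◁ η_ X Xᘁ ≫ (α_ Z X Xᘁ).inv ≫ (β_ Z X).hom ▷ Xᘁ) ⊗≫ 𝟙 _ := by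
    unfold rsw
    monoidal
  have e2 : rsw B X Z ▷ Xᘁ ≫ (α_ (B ⊗ Z) X Xᘁ).hom ≫ (B ⊗ Z) ◁ cap X ≫ (ρ_ (B ⊗ Z)).hom
      = 𝟙 _ ⊗≫ B ◁ ((β_ X Z).hom ▷ Xᘁ ≫ (α_ Z X Xᘁ).hom ≫ Z ◁ cap X ≫ (ρ_ Z).hom) := by
    unfold rsw
    monoidal
  have e3 : ptr X (rsw A Z X ≫ F ▷ Z ≫ rsw B X Z)
      = ((ρ_ (A ⊗ Z)).inv ≫ (A ⊗ Z) ◁ η_ X Xᘁ ≫ (α_ (A ⊗ Z) X Xᘁ).inv ≫ rsw A Z X ▷ Xᘁ) ≫
        (F ▷ Z) ▷ Xᘁ ≫
        (rsw B X Z ▷ Xᘁ ≫ (α_ (B ⊗ Z) X Xᘁ).hom ≫ (B ⊗ Z) ◁ cap X ≫ (ρ_ (B ⊗ Z)).hom) := by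
    unfold ptr
    simp only [comp_whiskerRight, Category.assoc]
  rw [e3, e1, e2, slideR, slideL]
  calc _ = 𝟙 _ ⊗≫ (A ◁ η_ X Xᘁ) ▷ Z ⊗≫ (((A ⊗ X) ◁ (β_ Z Xᘁ).inv ≫ F ▷ (Z ⊗ Xᘁ)) ≫
        (B ⊗ X) ◁ (β_ Z Xᘁ).hom) ⊗≫ (B ◁ cap X) ▷ Z ⊗≫ 𝟙 _ := by monoidal
    _ = 𝟙 _ ⊗≫ (A ◁ η_ X Xᘁ) ▷ Z ⊗≫ F ▷ (Xᘁ ⊗ Z) ⊗≫ (B ◁ cap X) ▷ Z ⊗≫ 𝟙 _ := by
        rw [whisker_exchange, Category.assoc, ← MonoidalCategory.whiskerLeft_comp,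
          Iso.inv_hom_id, MonoidalCategory.whiskerLeft_id, Category.comp_id]
    _ = _ := by
        unfold ptr
        monoidal

/-- from sliding, naturality and yanking -/
theorem ptr_braid_whisker {X : C} (u : X ⟶ X) : ptr X ((β_ X X).hom ≫ X ◁ u) = u := by
  rw [ptr_slide, BraidedCategory.braiding_naturality_right, ptr_nat_right, ptr_braid,
    Category.id_comp]

end Pool.Agent.W_MP_868bb7_ag
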